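import Pool.Agent.Lib.NDG.HhB

/-!
Module ActD (2h). Smoothness and partial derivatives of the total function.
* `contDiff_tot`: each term of the sum is (C^1 function on E x E, `contDiff_hh`, times i/M in [0,1]) composed with the continuous linear map y ↦ (y i.castSucc, y i.succ); the
  function t ↦ (max t 0)^2 is C^1 on the line (derivative 2 max t 0), f is C^1.
* `fderiv_tot`: chain rule; the derivative of y ↦ hh (y i.castSucc) (y i.succ) in the direction `Pi.single j v` is the first partial derivative applied to v if j = i.castSucc, plus the second one if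
  j = i.succ. (The differential of the C^1 function of two variables is the sum of its partial differentials.) Similarly for the quadratic term. The derivative of
  κ (max (f x) 0)^2 is 2 κ max (f x) 0 Df, of κ (max (-f x) 0)^2 is - 2 κ max (-f x) 0 Df.
-/

open scoped RealInnerProductSpace

namespace NDG

variable {N : ℕ}

/-- derivative of the piece `i` with respect to its first point -/
noncomputable def D1 (G : ℝ → MM N → ℝ) (M : ℕ) (y : Fin (M + 1) → E N) (i : Fin M) (v : E N) : ℝ :=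
  -(M * ⟪y i.succ - y i.castSucc, v⟫) -
    fderiv ℝ (fun z => hh (G ((i : ℕ) / (M : ℝ))) (1 / (M : ℝ)) z (y i.succ)) (y i.castSucc) v

/-- derivative of the piece `i` with respect to its second point -/
noncomputable def D2 (G : ℝ → MM N → ℝ) (M : ℕ) (y : Fin (M + 1) → E N) (i : Fin M) (v : E N) : ℝ :=
  M * ⟪y i.succ - y i.castSucc, v⟫ -
    fderiv ℝ (fun z => hh (G ((i : ℕ) / (M : ℝ))) (1 / (M : ℝ)) (y i.castSucc) z) (y i.succ) v

namespace ActDAux

theorem msq_bound (s t : ℝ) :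
    |(max s 0) ^ 2 - (max t 0) ^ 2 - (s - t) * (2 * max t 0)| ≤ (s - t) ^ 2 := by
  rcases le_total 0 s with hs | hs <;> rcases le_total 0 t with ht | ht
  · rw [max_eq_left hs, max_eq_left ht, abs_le]
    constructor <;> nlinarith [sq_nonneg (s - t)]
  · rw [max_eq_left hs, max_eq_right ht, abs_le]
    constructor <;> nlinarith [sq_nonneg (s - t), sq_nonneg s, mul_nonneg hs (neg_nonneg.2 ht), sq_nonneg t]
  · rw [max_eq_right hs, max_eq_left ht, abs_le]
    constructor <;> nlinarith [sq_nonneg (s - t), sq_nonneg s, mul_nonneg ht (neg_nonneg.2 hs), sq_nonneg t]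
  · rw [max_eq_right hs, max_eq_right ht, abs_le]
    constructor <;> nlinarith [sq_nonneg (s - t)]

theorem hasDerivAt_msq (t : ℝ) : HasDerivAt (fun s : ℝ => (max s 0) ^ 2) (2 * max t 0) t := by
  rw [hasDerivAt_iff_isLittleO]
  have h1 : (fun s : ℝ => (max s 0) ^ 2 - (max t 0) ^ 2 - (s - t) • (2 * max t 0))
      =O[nhds t] fun s => ‖s - t‖ ^ 2 := by
    refine Asymptotics.IsBigO.of_bound 1 (Filter.Eventually.of_forall fun s => ?_)
    have := msq_bound s t
    rw [smul_eq_mul, Real.norm_eq_abs, one_mul, norm_pow, norm_norm, Real.norm_eq_abs, sq_abs]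
    exact this
  exact h1.trans_isLittleO (Asymptotics.isLittleO_pow_sub_sub t one_lt_two)

theorem contDiff_msq : ContDiff ℝ 1 (fun s : ℝ => (max s 0) ^ 2) := by
  rw [contDiff_one_iff_deriv]
  refine ⟨fun t => (hasDerivAt_msq t).differentiableAt, ?_⟩
  have : deriv (fun s : ℝ => (max s 0) ^ 2) = fun t => 2 * max t 0 := by
    funext t
    exact (hasDerivAt_msq t).deriv
  rw [this]
  fun_prop

theorem time_mem {M : ℕ} (i : Fin M) : 0 ≤ ((i : ℕ) : ℝ) / (M : ℝ) ∧ ((i : ℕ) : ℝ) / (M : ℝ) ≤ 1 := by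
  constructor
  · positivity
  · have : 0 < M := lt_of_le_of_lt (Nat.zero_le _) i.2
    rw [div_le_one (by exact_mod_cast this)]
    exact_mod_cast i.2.le

theorem contDiff_piece {G : ℝ → MM N → ℝ} (hG : ∀ t, 0 ≤ t → t ≤ 1 → ContDiff ℝ 2 (G t))
    {M : ℕ} (hM : 1 ≤ M) (i : Fin M) :
    ContDiff ℝ 1 (fun p : E N × E N => hh (G ((i : ℕ) / (M : ℝ))) (1 / (M : ℝ)) p.1 p.2) := by
  have h := time_mem i
  refine contDiff_hh (hG _ h.1 h.2) ?_
  have : (0 : ℝ) < M := by exact_mod_cast hM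
  positivity

theorem comp_pair {H : E N → E N → ℝ} {M : ℕ}
    (h : ContDiff ℝ 1 (fun p : E N × E N => H p.1 p.2)) (i : Fin M)
    (q3 : ContDiff ℝ 1 (fun y : Fin (M + 1) → E N => (y i.castSucc, y i.succ))) :
    ContDiff ℝ 1 (fun y : Fin (M + 1) → E N => H (y i.castSucc) (y i.succ)) :=
  ContDiff.comp (g := fun p : E N × E N => H p.1 p.2) h q3

theorem part_fst {h : E N × E N → ℝ} {p : E N × E N} (hd : DifferentiableAt ℝ h p) (a : E N) :
    fderiv ℝ (fun z => h (z, p.2)) p.1 a = fderiv ℝ h p (a, 0) := by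
  have h1 : HasFDerivAt (fun z : E N => (z, p.2)) (ContinuousLinearMap.inl ℝ (E N) (E N)) p.1 :=
    hasFDerivAt_prodMk_left p.1 p.2
  have h2 : HasFDerivAt (fun z => h (z, p.2))
      ((fderiv ℝ h p).comp (ContinuousLinearMap.inl ℝ (E N) (E N))) p.1 :=
    HasFDerivAt.comp (g := h) p.1 (by exact hd.hasFDerivAt) h1
  rw [h2.fderiv]
  simp

theorem part_snd {h : E N × E N → ℝ} {p : E N × E N} (hd : DifferentiableAt ℝ h p) (a : E N) :
    fderiv ℝ (fun z => h (p.1, z)) p.2 a = fderiv ℝ h p (0, a) := by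
  have h1 : HasFDerivAt (fun z : E N => (p.1, z)) (ContinuousLinearMap.inr ℝ (E N) (E N)) p.2 :=
    hasFDerivAt_prodMk_right p.1 p.2
  have h2 : HasFDerivAt (fun z => h (p.1, z))
      ((fderiv ℝ h p).comp (ContinuousLinearMap.inr ℝ (E N) (E N))) p.2 :=
    HasFDerivAt.comp (g := h) p.2 (by exact hd.hasFDerivAt) h1
  rw [h2.fderiv]
  simp

theorem hasFDerivAt_pair {M : ℕ} (a b : Fin (M + 1)) (y : Fin (M + 1) → E N) :
    HasFDerivAt (fun z : Fin (M + 1) → E N => (z a, z b))
      ((ContinuousLinearMap.proj (R := ℝ) (φ := fun _ : Fin (M + 1) => E N) a).prod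
        (ContinuousLinearMap.proj (R := ℝ) (φ := fun _ : Fin (M + 1) => E N) b)) y :=
  (ContinuousLinearMap.proj (R := ℝ) (φ := fun _ : Fin (M + 1) => E N) a).hasFDerivAt.prodMk
    (ContinuousLinearMap.proj (R := ℝ) (φ := fun _ : Fin (M + 1) => E N) b).hasFDerivAt

theorem hasFDerivAt_term {G : ℝ → MM N → ℝ} (hG : ∀ t, 0 ≤ t → t ≤ 1 → ContDiff ℝ 2 (G t))
    {M : ℕ} (hM : 1 ≤ M) (i : Fin M) (y : Fin (M + 1) → E N) (j : Fin (M + 1)) (v : E N) :
    ∃ F : (Fin (M + 1) → E N) →L[ℝ] ℝ,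
      HasFDerivAt (fun y : Fin (M + 1) → E N => (M : ℝ) / 2 * ‖y i.succ - y i.castSucc‖ ^ 2
        - hh (G ((i : ℕ) / (M : ℝ))) (1 / (M : ℝ)) (y i.castSucc) (y i.succ)) F y ∧
      F (Pi.single j v) = (if i.castSucc = j then D1 G M y i v else 0) +
        (if i.succ = j then D2 G M y i v else 0) := by
  have hc := contDiff_piece hG hM i
  have hd : DifferentiableAt ℝ
      (fun p : E N × E N => hh (G ((i : ℕ) / (M : ℝ))) (1 / (M : ℝ)) p.1 p.2)
      (y i.castSucc, y i.succ) := (hc.differentiable (by simp)).differentiableAt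
  have e1 := fun a => part_fst hd a
  have e2 := fun a => part_snd hd a
  simp only at e1 e2
  have h1 : HasFDerivAt (fun z : Fin (M + 1) → E N => z i.succ - z i.castSucc)
      ((ContinuousLinearMap.proj (R := ℝ) (φ := fun _ : Fin (M + 1) => E N) i.succ) -
        (ContinuousLinearMap.proj (R := ℝ) (φ := fun _ : Fin (M + 1) => E N) i.castSucc)) y :=
    (ContinuousLinearMap.proj (R := ℝ) (φ := fun _ : Fin (M + 1) => E N) i.succ).hasFDerivAt.sub
      (ContinuousLinearMap.proj (R := ℝ) (φ := fun _ : Fin (M + 1) => E N) i.castSucc).hasFDerivAt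
  have h2 := (h1.norm_sq).const_mul ((M : ℝ) / 2)
  have h3 := HasFDerivAt.comp (g := fun p : E N × E N =>
    hh (G ((i : ℕ) / (M : ℝ))) (1 / (M : ℝ)) p.1 p.2) y hd.hasFDerivAt
    (hasFDerivAt_pair i.castSucc i.succ y)
  refine ⟨_, h2.sub h3, ?_⟩
  have hsplit : ∀ a b : E N, fderiv ℝ
      (fun p : E N × E N => hh (G ((i : ℕ) / (M : ℝ))) (1 / (M : ℝ)) p.1 p.2)
      (y i.castSucc, y i.succ) (a, b) =
      fderiv ℝ (fun z => hh (G ((i : ℕ) / (M : ℝ))) (1 / (M : ℝ)) z (y i.succ)) (y i.castSucc) a +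
      fderiv ℝ (fun z => hh (G ((i : ℕ) / (M : ℝ))) (1 / (M : ℝ)) (y i.castSucc) z) (y i.succ) b := by
    intro a b
    rw [e1, e2, ← map_add]
    simp
  simp only [ContinuousLinearMap.sub_apply, ContinuousLinearMap.smul_apply,
    ContinuousLinearMap.comp_apply, ContinuousLinearMap.prod_apply, ContinuousLinearMap.proj_apply,
    hsplit, innerSL_apply_apply, smul_eq_mul, nsmul_eq_mul]
  simp only [Pi.single_apply]
  unfold D1 D2
  by_cases c1 : i.castSucc = j <;> by_cases c2 : i.succ = j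
  · simp only [c1, c2, if_true, map_zero, sub_zero, zero_sub, inner_neg_right, inner_zero_right]
    simp
    try ring
  · simp only [c1, c2, if_true, if_false, map_zero, sub_zero, zero_sub, inner_neg_right,
      inner_zero_right]
    push_cast
    ring
  · simp only [c1, c2, if_true, if_false, map_zero, sub_zero, zero_sub, inner_neg_right,
      inner_zero_right]
    push_cast
    ring
  · simp only [c1, c2, if_false, map_zero, sub_zero, inner_zero_right]
    simp

end ActDAux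

open ActDAux in
theorem contDiff_tot {G : ℝ → MM N → ℝ} (hG : ∀ t, 0 ≤ t → t ≤ 1 → ContDiff ℝ 2 (G t))
    {f : E N → ℝ} (hf : ContDiff ℝ 1 f) (κ : ℝ) {M : ℕ} (hM : 1 ≤ M) :
    ContDiff ℝ 1 (tot G f κ M) := by
  unfold tot act pen
  have p : ∀ i : Fin (M + 1), ContDiff ℝ 1 (fun y : Fin (M + 1) → E N => y i) := fun i =>
    contDiff_apply ℝ (E N) i
  have q1 : ∀ i : Fin M, ContDiff ℝ 1 (fun y : Fin (M + 1) → E N => y i.succ - y i.castSucc) :=
    fun i => (p i.succ).sub (p i.castSucc)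
  have q2 : ∀ i : Fin M, ContDiff ℝ 1 (fun y : Fin (M + 1) → E N =>
      (M : ℝ) / 2 * ‖y i.succ - y i.castSucc‖ ^ 2) :=
    fun i => contDiff_const.mul ((q1 i).norm_sq ℝ)
  have q3 : ∀ i : Fin M, ContDiff ℝ 1 (fun y : Fin (M + 1) → E N => (y i.castSucc, y i.succ)) :=
    fun i => (p i.castSucc).prodMk (p i.succ)
  have q4 : ∀ i : Fin M, ContDiff ℝ 1 (fun y : Fin (M + 1) → E N =>
      hh (G ((i : ℕ) / (M : ℝ))) (1 / (M : ℝ)) (y i.castSucc) (y i.succ)) :=
    fun i => comp_pair (H := hh (G ((i : ℕ) / (M : ℝ))) (1 / (M : ℝ))) (contDiff_piece hG hM i) i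
      (q3 i)
  have q5 : ∀ i : Fin (M + 1), ContDiff ℝ 1 (fun y : Fin (M + 1) → E N => f (y i)) :=
    fun i => ContDiff.comp (g := f) hf (p i)
  have q6 : ContDiff ℝ 1 (fun y : Fin (M + 1) → E N => κ * (max (f (y 0)) 0) ^ 2) :=
    contDiff_const.mul (ContDiff.comp (g := fun s : ℝ => (max s 0) ^ 2) contDiff_msq (q5 0))
  have q7 : ContDiff ℝ 1 (fun y : Fin (M + 1) → E N => κ * (max (-f (y (Fin.last M))) 0) ^ 2) :=
    contDiff_const.mul (ContDiff.comp (g := fun s : ℝ => (max s 0) ^ 2) contDiff_msq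
      (q5 (Fin.last M)).neg)
  have q8 : ContDiff ℝ 1 (fun y : Fin (M + 1) → E N => ∑ i : Fin M,
      ((M : ℝ) / 2 * ‖y i.succ - y i.castSucc‖ ^ 2
        - hh (G ((i : ℕ) / (M : ℝ))) (1 / (M : ℝ)) (y i.castSucc) (y i.succ))) :=
    ContDiff.sum fun i _ => (q2 i).sub (q4 i)
  exact q8.add (q6.add q7)

open ActDAux in
theorem fderiv_tot {G : ℝ → MM N → ℝ} (hG : ∀ t, 0 ≤ t → t ≤ 1 → ContDiff ℝ 2 (G t))
    {f : E N → ℝ} (hf : ContDiff ℝ 1 f) (κ : ℝ) {M : ℕ} (hM : 1 ≤ M) (y : Fin (M + 1) → E N)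
    (j : Fin (M + 1)) (v : E N) :
    fderiv ℝ (tot G f κ M) y (Pi.single j v) =
      (∑ i : Fin M, ((if i.castSucc = j then D1 G M y i v else 0) +
        (if i.succ = j then D2 G M y i v else 0))) +
      (if j = 0 then 2 * κ * max (f (y 0)) 0 * fderiv ℝ f (y 0) v else 0) -
      (if j = Fin.last M then 2 * κ * max (-f (y (Fin.last M))) 0 *
        fderiv ℝ f (y (Fin.last M)) v else 0) := by
  choose F hF1 hF2 using fun i => hasFDerivAt_term hG hM i y j v
  have h1 : HasFDerivAt (act G M) (∑ i, F i) y := by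
    unfold act
    exact HasFDerivAt.fun_sum fun i _ => hF1 i
  have hfd : ∀ x, HasFDerivAt f (fderiv ℝ f x) x := fun x =>
    (hf.differentiable (by simp) x).hasFDerivAt
  have pr : ∀ i : Fin (M + 1), HasFDerivAt (fun z : Fin (M + 1) → E N => z i)
      (ContinuousLinearMap.proj (R := ℝ) (φ := fun _ : Fin (M + 1) => E N) i) y := fun i =>
    (ContinuousLinearMap.proj (R := ℝ) (φ := fun _ : Fin (M + 1) => E N) i).hasFDerivAt
  have h2 := ((hasDerivAt_msq (f (y 0))).comp_hasFDerivAt y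
    (HasFDerivAt.comp (g := f) y (hfd (y 0)) (pr 0))).const_mul κ
  have h3 := ((hasDerivAt_msq (-f (y (Fin.last M)))).comp_hasFDerivAt y
    (HasFDerivAt.comp (g := f) y (hfd (y (Fin.last M))) (pr (Fin.last M))).neg).const_mul κ
  have h4 : HasFDerivAt (tot G f κ M) _ y := h1.add (h2.add h3)
  rw [h4.fderiv]
  simp only [ContinuousLinearMap.add_apply, ContinuousLinearMap.smul_apply,
    ContinuousLinearMap.neg_apply, ContinuousLinearMap.sum_apply,
    ContinuousLinearMap.comp_apply, ContinuousLinearMap.proj_apply, smul_eq_mul, hF2,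
    Pi.single_apply]
  by_cases c1 : j = 0 <;> by_cases c2 : j = Fin.last M
  · rw [if_pos c1, if_pos c2, if_pos c1.symm, if_pos c2.symm]
    ring
  · have c2' : ¬ (Fin.last M = j) := fun h => c2 h.symm
    rw [if_pos c1, if_neg c2, if_pos c1.symm, if_neg c2', map_zero]
    ring
  · have c1' : ¬ (0 = j) := fun h => c1 h.symm
    rw [if_neg c1, if_pos c2, if_neg c1', if_pos c2.symm, map_zero]
    ring
  · have c1' : ¬ (0 = j) := fun h => c1 h.symm
    have c2' : ¬ (Fin.last M = j) := fun h => c2 h.symm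
    rw [if_neg c1, if_neg c2, if_neg c1', if_neg c2', map_zero, map_zero]
    ring

end NDG
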