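import Pool.Agent.Lib.NDG.Defs

/-!
Module Alg (1.8h). Algebra of `wedge`, `rot`, `lie`. All by coordinates (`EuclideanSpace.norm_sq_eq`, `PiLp.inner_apply`, finite sums).

* `norm_wedge_sq`: sum over (a,b) of (x_a y_b - y_a x_b)^2 = 2 (sum x_a^2)(sum y_b^2) - 2 (sum x_a y_a)^2.
* `norm_wedge_le`: from it, ||x ^ y||^2 <= 2 ||x||^2 ||y||^2.
* `wedge_rot`: entry (p,q): (rot x)_p = x_a [p=b] - x_b [p=a]; compare coefficients (all four cases of the indicator functions).
* `norm_lie_le`: `lie a b v` is the sum of four matrices each of norm at most ||v|| (one row or one column of v placed elsewhere).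
* `inner_lie_self`: the norm of R v R^T is constant; directly: the inner product of v and lie a b v is
  sum_q (v_bq v_aq - v_aq v_bq) + sum_p (v_pb v_pa - v_pa v_pb) = 0.
* `wedge_of_dot`: if (v, y) = 0 implies (v, w) = 0 for all v, then w = (w, y) y for ||y|| = 1, so y ^ w = 0.
* `norm_wedge_sphere`: for unit vectors ||y - x||^2 = 2 - 2 (x, y) and ||x ^ y||^2 = 2 (1 - (x,y)^2) = ||y - x||^2 (1 + (x,y)) =
  ||y-x||^2 (2 - ||y-x||^2/2).
-/

open scoped RealInnerProductSpace

namespace NDG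

variable {N : ℕ}

theorem wedge_apply (x y : E N) (a b : Fin N) : wedge x y (a, b) = x a * y b - y a * x b := by
  simp [wedge]

theorem wedge_self (x : E N) : wedge x x = 0 := by
  ext ⟨a, b⟩
  rw [wedge_apply]
  simp

theorem wedge_swap (x y : E N) : wedge y x = - wedge x y := by
  ext ⟨a, b⟩
  simp only [PiLp.neg_apply, wedge_apply]
  ring

theorem wedge_add_left (x x' y : E N) : wedge (x + x') y = wedge x y + wedge x' y := by
  ext ⟨a, b⟩
  simp only [PiLp.add_apply, wedge_apply]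
  ring

theorem wedge_add_right (x y y' : E N) : wedge x (y + y') = wedge x y + wedge x y' := by
  ext ⟨a, b⟩
  simp only [PiLp.add_apply, wedge_apply]
  ring

theorem wedge_sub_left (x x' y : E N) : wedge (x - x') y = wedge x y - wedge x' y := by
  ext ⟨a, b⟩
  simp only [PiLp.sub_apply, wedge_apply]
  ring

theorem wedge_sub_right (x y y' : E N) : wedge x (y - y') = wedge x y - wedge x y' := by
  ext ⟨a, b⟩
  simp only [PiLp.sub_apply, wedge_apply]
  ring

theorem wedge_neg_right (x y : E N) : wedge x (-y) = - wedge x y := by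
  ext ⟨a, b⟩
  simp only [PiLp.neg_apply, wedge_apply]
  ring

theorem wedge_smul_left (c : ℝ) (x y : E N) : wedge (c • x) y = c • wedge x y := by
  ext ⟨a, b⟩
  simp only [PiLp.smul_apply, smul_eq_mul, wedge_apply]
  ring

theorem wedge_smul_right (c : ℝ) (x y : E N) : wedge x (c • y) = c • wedge x y := by
  ext ⟨a, b⟩
  simp only [PiLp.smul_apply, smul_eq_mul, wedge_apply]
  ring

theorem norm_wedge_sq (x y : E N) :
    ‖wedge x y‖ ^ 2 = 2 * (‖x‖ ^ 2 * ‖y‖ ^ 2 - ⟪x, y⟫ ^ 2) := by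
  rw [EuclideanSpace.real_norm_sq_eq, EuclideanSpace.real_norm_sq_eq, EuclideanSpace.real_norm_sq_eq,
    PiLp.inner_apply, Fintype.sum_prod_type]
  have h1 : ∀ a b : Fin N, (wedge x y (a, b)) ^ 2 =
      x a ^ 2 * y b ^ 2 + y a ^ 2 * x b ^ 2 - 2 * ((x a * y a) * (x b * y b)) := by
    intro a b
    rw [wedge_apply]
    ring
  have h2 : (∑ i, ⟪x i, y i⟫) = ∑ i, x i * y i := by
    apply Finset.sum_congr rfl
    intro i _
    simp [mul_comm]
  rw [h2]
  simp only [h1]
  have e1 : (∑ a, x a ^ 2) * (∑ b, y b ^ 2) = ∑ a, ∑ b, x a ^ 2 * y b ^ 2 :=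
    Finset.sum_mul_sum _ _ _ _
  have e2 : (∑ a, y a ^ 2) * (∑ b, x b ^ 2) = ∑ a, ∑ b, y a ^ 2 * x b ^ 2 :=
    Finset.sum_mul_sum _ _ _ _
  have e3 : (∑ a, x a * y a) * (∑ b, x b * y b) = ∑ a, ∑ b, (x a * y a) * (x b * y b) :=
    Finset.sum_mul_sum _ _ _ _
  simp only [Finset.sum_sub_distrib, Finset.sum_add_distrib, ← Finset.mul_sum]
  simp only [← Finset.mul_sum] at e1 e2 e3
  rw [← e1, ← e2, ← e3]
  ring

theorem norm_wedge_le (x y : E N) : ‖wedge x y‖ ≤ 3 / 2 * (‖x‖ * ‖y‖) := by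
  apply le_of_sq_le_sq _ (by positivity)
  rw [norm_wedge_sq]
  nlinarith [sq_nonneg ⟪x, y⟫, mul_nonneg (sq_nonneg ‖x‖) (sq_nonneg ‖y‖)]

theorem norm_wedge_sphere {x y : E N} (hx : ‖x‖ = 1) (hy : ‖y‖ = 1) :
    ‖wedge x y‖ ^ 2 = ‖y - x‖ ^ 2 * (2 - ‖y - x‖ ^ 2 / 2) := by
  rw [norm_wedge_sq, norm_sub_sq_real, hx, hy, real_inner_comm]
  ring

theorem rot_apply (a b p : Fin N) (x : E N) :
    rot a b x p = (if p = b then x a else 0) - (if p = a then x b else 0) := by
  unfold rot
  simp only [PiLp.sub_apply, PiLp.smul_apply, smul_eq_mul, PiLp.single_apply]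
  split_ifs <;> ring

theorem inner_rot (a b : Fin N) (x v : E N) : ⟪v, rot a b x⟫ = wedge x v (a, b) := by
  unfold rot
  rw [wedge_apply, inner_sub_right, inner_smul_right, inner_smul_right,
    EuclideanSpace.inner_single_right, EuclideanSpace.inner_single_right]
  simp
  ring

theorem rot_sub (a b : Fin N) (x y : E N) : rot a b (x - y) = rot a b x - rot a b y := by
  ext p
  simp only [PiLp.sub_apply, rot_apply]
  split_ifs <;> ring

theorem AlgAux.lie_apply (a b p q : Fin N) (v : MM N) : lie a b v (p, q) =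
    (if p = b then v (a, q) else 0) - (if p = a then v (b, q) else 0)
    + (if q = b then v (p, a) else 0) - (if q = a then v (p, b) else 0) := by
  simp [lie]

theorem wedge_rot (a b : Fin N) (x y : E N) :
    wedge (rot a b x) y + wedge x (rot a b y) = lie a b (wedge x y) := by
  ext ⟨p, q⟩
  simp only [PiLp.add_apply, wedge_apply, rot_apply, AlgAux.lie_apply]
  split_ifs <;> ring

theorem lie_smul (a b : Fin N) (c : ℝ) (v : MM N) : lie a b (c • v) = c • lie a b v := by
  ext ⟨p, q⟩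
  simp only [PiLp.smul_apply, smul_eq_mul, AlgAux.lie_apply]
  split_ifs <;> ring

theorem lie_sub (a b : Fin N) (v w : MM N) : lie a b (v - w) = lie a b v - lie a b w := by
  ext ⟨p, q⟩
  simp only [PiLp.sub_apply, AlgAux.lie_apply]
  split_ifs <;> ring

theorem AlgAux.sum_row (c : Fin N) (v : MM N) : ∑ q, v (c, q) ^ 2 ≤ ‖v‖ ^ 2 := by
  rw [EuclideanSpace.real_norm_sq_eq, Fintype.sum_prod_type]
  exact Finset.single_le_sum (f := fun p => ∑ q, v (p, q) ^ 2)
    (fun p _ => Finset.sum_nonneg (fun q _ => sq_nonneg _)) (Finset.mem_univ c)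

theorem AlgAux.sum_col (c : Fin N) (v : MM N) : ∑ p, v (p, c) ^ 2 ≤ ‖v‖ ^ 2 := by
  rw [EuclideanSpace.real_norm_sq_eq, Fintype.sum_prod_type]
  apply Finset.sum_le_sum
  intro p _
  exact Finset.single_le_sum (f := fun q => v (p, q) ^ 2)
    (fun q _ => sq_nonneg _) (Finset.mem_univ c)

theorem norm_lie_le (a b : Fin N) (v : MM N) : ‖lie a b v‖ ≤ 4 * ‖v‖ := by
  apply le_of_sq_le_sq _ (by positivity)
  rw [EuclideanSpace.real_norm_sq_eq (lie a b v), Fintype.sum_prod_type]
  have h1 : ∀ p q : Fin N, (lie a b v (p, q)) ^ 2 ≤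
      4 * ((if p = b then v (a, q) ^ 2 else 0) + (if p = a then v (b, q) ^ 2 else 0)
      + (if q = b then v (p, a) ^ 2 else 0) + (if q = a then v (p, b) ^ 2 else 0)) := by
    intro p q
    rw [AlgAux.lie_apply]
    have key : ∀ r s t u : ℝ, (r - s + t - u) ^ 2 ≤ 4 * (r ^ 2 + s ^ 2 + t ^ 2 + u ^ 2) := by
      intro r s t u
      nlinarith [sq_nonneg (r + s), sq_nonneg (r - t), sq_nonneg (r + u), sq_nonneg (s + t),
        sq_nonneg (s - u), sq_nonneg (t + u)]
    have := key (if p = b then v (a, q) else 0) (if p = a then v (b, q) else 0)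
      (if q = b then v (p, a) else 0) (if q = a then v (p, b) else 0)
    simpa [ite_pow] using this
  calc ∑ p, ∑ q, (lie a b v (p, q)) ^ 2
      ≤ ∑ p, ∑ q, 4 * ((if p = b then v (a, q) ^ 2 else 0) + (if p = a then v (b, q) ^ 2 else 0)
      + (if q = b then v (p, a) ^ 2 else 0) + (if q = a then v (p, b) ^ 2 else 0)) :=
        Finset.sum_le_sum (fun p _ => Finset.sum_le_sum (fun q _ => h1 p q))
    _ = 4 * ((∑ q, v (a, q) ^ 2) + (∑ q, v (b, q) ^ 2) + (∑ p, v (p, a) ^ 2)
        + (∑ p, v (p, b) ^ 2)) := by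
        simp only [← Finset.mul_sum, Finset.sum_add_distrib]
        congr 1
        congr 1
        · congr 1
          · congr 1
            · rw [Finset.sum_comm]
              simp
            · rw [Finset.sum_comm]
              simp
          · simp
        · simp
    _ ≤ (4 * ‖v‖) ^ 2 := by
        have := AlgAux.sum_row a v
        have := AlgAux.sum_row b v
        have := AlgAux.sum_col a v
        have := AlgAux.sum_col b v
        nlinarith

theorem inner_lie_self (a b : Fin N) (v : MM N) : ⟪v, lie a b v⟫ = 0 := by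
  rw [PiLp.inner_apply, Fintype.sum_prod_type]
  have h1 : ∀ p q : Fin N, ⟪v (p, q), lie a b v (p, q)⟫ =
      (if p = b then v (b, q) * v (a, q) else 0) - (if p = a then v (a, q) * v (b, q) else 0)
      + (if q = b then v (p, b) * v (p, a) else 0) - (if q = a then v (p, a) * v (p, b) else 0) := by
    intro p q
    rw [AlgAux.lie_apply]
    simp only [RCLike.inner_apply, conj_trivial]
    split_ifs <;> subst_vars <;> ring
  simp only [h1, Finset.sum_sub_distrib, Finset.sum_add_distrib]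
  have e1 : ∑ p : Fin N, ∑ q : Fin N, (if p = b then v (b, q) * v (a, q) else 0) =
      ∑ q, v (b, q) * v (a, q) := by
    rw [Finset.sum_comm]
    simp
  have e2 : ∑ p : Fin N, ∑ q : Fin N, (if p = a then v (a, q) * v (b, q) else 0) =
      ∑ q, v (a, q) * v (b, q) := by
    rw [Finset.sum_comm]
    simp
  have e3 : ∑ p : Fin N, ∑ q : Fin N, (if q = b then v (p, b) * v (p, a) else 0) =
      ∑ p, v (p, b) * v (p, a) := by
    simp
  have e4 : ∑ p : Fin N, ∑ q : Fin N, (if q = a then v (p, a) * v (p, b) else 0) =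
      ∑ p, v (p, a) * v (p, b) := by
    simp
  rw [e1, e2, e3, e4]
  have e5 : ∑ q, v (b, q) * v (a, q) = ∑ q, v (a, q) * v (b, q) :=
    Finset.sum_congr rfl (fun q _ => mul_comm _ _)
  have e6 : ∑ p, v (p, b) * v (p, a) = ∑ p, v (p, a) * v (p, b) :=
    Finset.sum_congr rfl (fun p _ => mul_comm _ _)
  rw [e5, e6]
  ring

theorem wedge_of_dot {y w : E N} (hy : ‖y‖ = 1) (h : ∀ v, ⟪v, y⟫ = 0 → ⟪v, w⟫ = 0) :
    wedge y w = 0 := by
  have h1 : ⟪w - ⟪w, y⟫ • y, y⟫ = 0 := by
    rw [inner_sub_left, inner_smul_left, real_inner_self_eq_norm_sq, hy]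
    simp
  have h2 := h _ h1
  have h3 : ⟪w - ⟪w, y⟫ • y, w - ⟪w, y⟫ • y⟫ = 0 := by
    rw [inner_sub_right, h2, inner_smul_right, h1]
    simp
  have h4 : w - ⟪w, y⟫ • y = 0 := inner_self_eq_zero.1 h3
  rw [sub_eq_zero.1 h4, wedge_smul_right, wedge_self, smul_zero]

end NDG
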