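import Pool.Agent.Lib.NDG.Spec
import Pool.Agent.Lib.NDG.Alg

/-!
Module BrA (2.2h). The hyperquadric and unit decomposable bivectors. mv P = - 2 Im P (a real matrix), pm v = (- v^2 - i v)/2.
For P in the quadric write P = S + i A, S real symmetric, A real antisymmetric (Hermitian). The last equation P P^T = 0 reads P (conj P) = 0 (P^T = conj P):
(S + iA)(S - iA) = 0, so S^2 + A^2 = 0 and AS = SA (real and imaginary part); P^2 = P: S^2 - A^2 = S (real part). So S = - 2 A^2; with v = mv P = - 2 A: A = - v/2, S = - v^2/2: `pm_mv`.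
* `norm_mv`: ||mv P||^2 = sum 4 A_ab^2 = - 4 tr (A^2) = 2 tr S = 2 Re tr P = 2.
* `gpt_mem`: z = x + i v, |z|^2 = 2, z^T z = ||x||^2 - ||v||^2 + 2 i (x,v) = 0. P = z z^*/2.
* `mv_gpt`: Im (z_a conj z_b)/2 = (v_a x_b - x_a v_b)/2.
* `wedge_nu`: wedge x (tgrad f x) = wedge x (gradient f x) (wedge x x = 0); ||wedge x w||^2 = 2 ||w||^2 for ||x|| = 1, (x, w) = 0 (`norm_wedge_sq`), so wedge x (nu f x) = (sqrt 2/||wedge x ∇f||) wedge x ∇f.
* `orth_nu`: (tgrad f x, x) = 0.
-/

open scoped ContDiff RealInnerProductSpace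
open Set

namespace NDG

variable {n : ℕ}

/-- the bivector of a point of the quadric -/
noncomputable def mv (P : Mat n) : MM (n + 2) := WithLp.toLp 2 (fun p => -2 * (P p.1 p.2).im)

/-- the point of the quadric of a bivector -/
noncomputable def pm (v : MM (n + 2)) : Mat n := fun i j =>
  (-((∑ k, v (i, k) * v (k, j) : ℝ) : ℂ) - Complex.I * ((v (i, j) : ℝ) : ℂ)) / 2

private theorem mv_apply (P : Mat n) (a b : Fin (n + 2)) : mv P (a, b) = -2 * (P a b).im := rfl

private theorem im_swap {P : Mat n} (hP : P ∈ Quadric n) (a b : Fin (n + 2)) :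
    (P b a).im = -(P a b).im := by
  rw [hP.1 a b]
  simp

private theorem re_swap {P : Mat n} (hP : P ∈ Quadric n) (a b : Fin (n + 2)) :
    (P b a).re = (P a b).re := by
  rw [hP.1 a b]
  simp

private theorem re_eq {P : Mat n} (hP : P ∈ Quadric n) (a b : Fin (n + 2)) :
    (P a b).re = -2 * ∑ k, (P a k).im * (P k b).im := by
  obtain ⟨-, h2, -, h4⟩ := id hP
  have e2 := congrArg Complex.re (h2 a b)
  have e4 := congrArg Complex.re (h4 a b)
  rw [Complex.re_sum] at e2 e4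
  simp only [Complex.mul_re, Finset.sum_sub_distrib, Complex.zero_re] at e2 e4
  have h5 : ∑ k, (P a k).re * (P b k).re = ∑ k, (P a k).re * (P k b).re :=
    Finset.sum_congr rfl (fun k _ => by rw [re_swap hP k b])
  have h6 : ∑ k, (P a k).im * (P b k).im = - ∑ k, (P a k).im * (P k b).im := by
    rw [← Finset.sum_neg_distrib]
    exact Finset.sum_congr rfl (fun k _ => by rw [im_swap hP k b]; ring)
  rw [h5, h6] at e4
  linarith

theorem pm_mv {P : Mat n} (hP : P ∈ Quadric n) : pm (mv P) = P := by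
  funext i j
  unfold pm
  have h1 : (∑ k, mv P (i, k) * mv P (k, j) : ℝ) = -2 * (P i j).re := by
    rw [re_eq hP, Finset.mul_sum, Finset.mul_sum]
    exact Finset.sum_congr rfl (fun k _ => by rw [mv_apply, mv_apply]; ring)
  rw [h1, mv_apply]
  apply Complex.ext
  · simp
  · simp

theorem norm_mv {P : Mat n} (hP : P ∈ Quadric n) : ‖mv P‖ ^ 2 = 2 := by
  rw [EuclideanSpace.real_norm_sq_eq, Fintype.sum_prod_type]
  have h1 : ∀ a, ∑ b, (mv P (a, b)) ^ 2 = 2 * (P a a).re := by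
    intro a
    rw [re_eq hP, Finset.mul_sum, Finset.mul_sum]
    exact Finset.sum_congr rfl (fun k _ => by rw [mv_apply, im_swap hP a k]; ring)
  rw [Finset.sum_congr rfl (fun a _ => h1 a), ← Finset.mul_sum, ← Complex.re_sum, hP.2.2.1]
  simp

private theorem sum_sq_eq_one {x : E (n + 2)} (hx : ‖x‖ = 1) : ∑ k, x k * x k = 1 := by
  have h := EuclideanSpace.real_norm_sq_eq x
  rw [hx] at h
  rw [← one_pow 2, h]
  exact Finset.sum_congr rfl (fun k _ => by ring)

private theorem sum_inner {x v : E (n + 2)} (hxv : ⟪x, v⟫ = 0) : ∑ k, x k * v k = 0 := by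
  rw [PiLp.inner_apply] at hxv
  rw [← hxv]
  exact Finset.sum_congr rfl (fun k _ => by simp [mul_comm])

theorem gpt_mem {x v : E (n + 2)} (hx : ‖x‖ = 1) (hv : ‖v‖ = 1) (hxv : ⟪x, v⟫ = 0) :
    gpt x v ∈ Quadric n := by
  have ex := sum_sq_eq_one hx
  have ev := sum_sq_eq_one hv
  have exv := sum_inner hxv
  have s1 : ∑ k, star ((x k : ℂ) + Complex.I * (v k : ℂ)) * ((x k : ℂ) + Complex.I * (v k : ℂ)) = 2 := by
    have h : ∀ k, star ((x k : ℂ) + Complex.I * (v k : ℂ)) * ((x k : ℂ) + Complex.I * (v k : ℂ)) =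
        ((x k * x k + v k * v k : ℝ) : ℂ) := by
      intro k
      apply Complex.ext
      · simp
      · simp
        ring
    rw [Finset.sum_congr rfl (fun k _ => h k), ← Complex.ofReal_sum, Finset.sum_add_distrib, ex, ev]
    norm_num
  have s2 : ∑ k, star ((x k : ℂ) + Complex.I * (v k : ℂ)) * star ((x k : ℂ) + Complex.I * (v k : ℂ)) = 0 := by
    have h : ∀ k, star ((x k : ℂ) + Complex.I * (v k : ℂ)) * star ((x k : ℂ) + Complex.I * (v k : ℂ)) =
        ((x k * x k - v k * v k : ℝ) : ℂ) - 2 * Complex.I * ((x k * v k : ℝ) : ℂ) := by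
      intro k
      apply Complex.ext
      · simp
      · simp
        ring
    rw [Finset.sum_congr rfl (fun k _ => h k), Finset.sum_sub_distrib, ← Finset.mul_sum,
      ← Complex.ofReal_sum, ← Complex.ofReal_sum, Finset.sum_sub_distrib, ex, ev, exv]
    norm_num
  refine ⟨fun i j => ?_, fun i j => ?_, ?_, fun i j => ?_⟩
  · unfold gpt
    simp only [star_div₀, star_mul', star_star, star_ofNat]
    ring
  · unfold gpt
    have h : ∀ k, ((x i : ℂ) + Complex.I * (v i : ℂ)) * star ((x k : ℂ) + Complex.I * (v k : ℂ)) / 2 *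
        (((x k : ℂ) + Complex.I * (v k : ℂ)) * star ((x j : ℂ) + Complex.I * (v j : ℂ)) / 2) =
        ((x i : ℂ) + Complex.I * (v i : ℂ)) * star ((x j : ℂ) + Complex.I * (v j : ℂ)) / 4 *
        (star ((x k : ℂ) + Complex.I * (v k : ℂ)) * ((x k : ℂ) + Complex.I * (v k : ℂ))) := by
      intro k
      ring
    rw [Finset.sum_congr rfl (fun k _ => h k), ← Finset.mul_sum, s1]
    ring
  · unfold gpt
    have h : ∀ k, ((x k : ℂ) + Complex.I * (v k : ℂ)) * star ((x k : ℂ) + Complex.I * (v k : ℂ)) / 2 =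
        1 / 2 * (star ((x k : ℂ) + Complex.I * (v k : ℂ)) * ((x k : ℂ) + Complex.I * (v k : ℂ))) := by
      intro k
      ring
    rw [Finset.sum_congr rfl (fun k _ => h k), ← Finset.mul_sum, s1]
    norm_num
  · unfold gpt
    have h : ∀ k, ((x i : ℂ) + Complex.I * (v i : ℂ)) * star ((x k : ℂ) + Complex.I * (v k : ℂ)) / 2 *
        (((x j : ℂ) + Complex.I * (v j : ℂ)) * star ((x k : ℂ) + Complex.I * (v k : ℂ)) / 2) =
        ((x i : ℂ) + Complex.I * (v i : ℂ)) * ((x j : ℂ) + Complex.I * (v j : ℂ)) / 4 *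
        (star ((x k : ℂ) + Complex.I * (v k : ℂ)) * star ((x k : ℂ) + Complex.I * (v k : ℂ))) := by
      intro k
      ring
    rw [Finset.sum_congr rfl (fun k _ => h k), ← Finset.mul_sum, s2]
    ring

theorem mv_gpt (x v : E (n + 2)) : mv (gpt x v) = wedge x v := by
  ext ⟨a, b⟩
  rw [mv_apply, wedge_apply]
  unfold gpt
  simp
  ring

theorem wedge_tgrad (f : E (n + 2) → ℝ) (x : E (n + 2)) :
    wedge x (tgrad f x) = wedge x (gradient f x) := by
  unfold tgrad
  rw [wedge_sub_right, wedge_smul_right, wedge_self, smul_zero, sub_zero]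

private theorem orth_tgrad (f : E (n + 2) → ℝ) {x : E (n + 2)} (hx : ‖x‖ = 1) :
    ⟪x, tgrad f x⟫ = 0 := by
  unfold tgrad
  rw [inner_sub_right, inner_smul_right, real_inner_self_eq_norm_sq, hx, real_inner_comm]
  ring

theorem orth_nu (f : E (n + 2) → ℝ) {x : E (n + 2)} (hx : ‖x‖ = 1) : ⟪x, nu f x⟫ = 0 := by
  unfold nu
  rw [inner_smul_right, orth_tgrad f hx, mul_zero]

theorem norm_nu {f : E (n + 2) → ℝ} {x : E (n + 2)} (h : tgrad f x ≠ 0) : ‖nu f x‖ = 1 := by
  unfold nu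
  rw [norm_smul, norm_inv, norm_norm]
  exact inv_mul_cancel₀ (norm_ne_zero_iff.2 h)

private theorem norm_wedge_grad (f : E (n + 2) → ℝ) {x : E (n + 2)} (hx : ‖x‖ = 1) :
    ‖wedge x (gradient f x)‖ = Real.sqrt 2 * ‖tgrad f x‖ := by
  have h := norm_wedge_sq x (tgrad f x)
  rw [wedge_tgrad, orth_tgrad f hx, hx] at h
  have h2 : ‖wedge x (gradient f x)‖ ^ 2 = (Real.sqrt 2 * ‖tgrad f x‖) ^ 2 := by
    rw [h, mul_pow, Real.sq_sqrt (by norm_num)]
    ring
  exact (pow_left_inj₀ (norm_nonneg _) (by positivity) (by norm_num)).1 h2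

theorem wedge_grad_ne {f : E (n + 2) → ℝ} {x : E (n + 2)} (hx : ‖x‖ = 1) (h : tgrad f x ≠ 0) :
    wedge x (gradient f x) ≠ 0 := by
  intro h0
  have h1 := norm_wedge_grad f hx
  rw [h0, norm_zero] at h1
  have h2 : (0 : ℝ) < Real.sqrt 2 * ‖tgrad f x‖ :=
    mul_pos (Real.sqrt_pos.2 (by norm_num)) (norm_pos_iff.2 h)
  linarith

theorem wedge_nu {f : E (n + 2) → ℝ} {x : E (n + 2)} (hx : ‖x‖ = 1) (h : tgrad f x ≠ 0) :
    wedge x (nu f x) = (Real.sqrt 2 / ‖wedge x (gradient f x)‖) • wedge x (gradient f x) := by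
  have h0 : nu f x = ‖tgrad f x‖⁻¹ • tgrad f x := rfl
  rw [h0, wedge_smul_right, wedge_tgrad, norm_wedge_grad f hx]
  congr 1
  have h1 : Real.sqrt 2 ≠ 0 := (Real.sqrt_pos.2 (by norm_num)).ne'
  have h2 : ‖tgrad f x‖ ≠ 0 := norm_ne_zero_iff.2 h
  field_simp

end NDG
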