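import Pool.Agent.Lib.NDG.BrA

/-!
The pulled back Hamiltonian G t v = H t (pm v) is smooth in (t, v), and has uniform bounds for
0 ≤ t ≤ 1.
-/

open scoped ContDiff RealInnerProductSpace
open Set

namespace NDG

variable {n : ℕ}

/-- the pulled back Hamiltonian -/
noncomputable def GG (H : ℝ → Mat n → ℝ) (t : ℝ) (v : MM (n + 2)) : ℝ := H t (pm v)

private theorem contDiff_coord (p : Fin (n + 2) × Fin (n + 2)) :
    ContDiff ℝ ∞ (fun v : MM (n + 2) => v p) :=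
  (EuclideanSpace.proj p : MM (n + 2) →L[ℝ] ℝ).contDiff

theorem contDiff_pm : ContDiff ℝ ∞ (pm : MM (n + 2) → Mat n) := by
  refine contDiff_pi.2 fun i => contDiff_pi.2 fun j => ?_
  have h1 : ContDiff ℝ ∞ (fun v : MM (n + 2) => ∑ k, v (i, k) * v (k, j)) :=
    ContDiff.sum fun k _ => (contDiff_coord (i, k)).mul (contDiff_coord (k, j))
  have h2 : ContDiff ℝ ∞ (fun v : MM (n + 2) => ((∑ k, v (i, k) * v (k, j) : ℝ) : ℂ)) :=
    Complex.ofRealCLM.contDiff.comp h1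
  have h3 : ContDiff ℝ ∞ (fun v : MM (n + 2) => ((v (i, j) : ℝ) : ℂ)) :=
    Complex.ofRealCLM.contDiff.comp (contDiff_coord (i, j))
  have h4 : ContDiff ℝ ∞ (fun v : MM (n + 2) =>
      (-((∑ k, v (i, k) * v (k, j) : ℝ) : ℂ) - Complex.I * ((v (i, j) : ℝ) : ℂ)) / 2) := by
    have := (h2.neg.sub ((contDiff_const (c := Complex.I)).mul h3)).mul
      (contDiff_const (c := (1 / 2 : ℂ)))
    simpa only [mul_one_div] using this
  exact h4

theorem contDiff_G {H : ℝ → Mat n → ℝ} (hH : ContDiff ℝ ∞ (fun p : ℝ × Mat n => H p.1 p.2)) :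
    ContDiff ℝ ∞ (fun p : ℝ × MM (n + 2) => GG H p.1 p.2) :=
  hH.comp (contDiff_fst.prodMk (contDiff_pm.comp contDiff_snd))

private theorem fderiv_G {H : ℝ → Mat n → ℝ}
    (hH : ContDiff ℝ ∞ (fun p : ℝ × Mat n => H p.1 p.2)) (p : ℝ × MM (n + 2)) :
    fderiv ℝ (GG H p.1) p.2 =
      (fderiv ℝ (fun p : ℝ × MM (n + 2) => GG H p.1 p.2) p).comp
        (ContinuousLinearMap.inr ℝ ℝ (MM (n + 2))) := by
  obtain ⟨t, v⟩ := p
  have h1 : HasFDerivAt (fun p : ℝ × MM (n + 2) => GG H p.1 p.2)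
      (fderiv ℝ (fun p : ℝ × MM (n + 2) => GG H p.1 p.2) (t, v)) (t, v) :=
    (((contDiff_G hH).differentiable (by simp)) (t, v)).hasFDerivAt
  have h2 : HasFDerivAt (fun w : MM (n + 2) => (t, w)) (ContinuousLinearMap.inr ℝ ℝ (MM (n + 2))) v :=
    hasFDerivAt_prodMk_right t v
  exact (h1.comp v h2).fderiv

private theorem contDiff_D {H : ℝ → Mat n → ℝ}
    (hH : ContDiff ℝ ∞ (fun p : ℝ × Mat n => H p.1 p.2)) :
    ContDiff ℝ ∞ (fun p : ℝ × MM (n + 2) => fderiv ℝ (GG H p.1) p.2) := by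
  have h1 : ContDiff ℝ ∞ (fderiv ℝ (fun p : ℝ × MM (n + 2) => GG H p.1 p.2)) :=
    (contDiff_G hH).fderiv_right (by simp)
  have h2 := h1.clm_comp (contDiff_const (c := ContinuousLinearMap.inr ℝ ℝ (MM (n + 2))))
  have e : (fun p : ℝ × MM (n + 2) => fderiv ℝ (GG H p.1) p.2) = fun p =>
      (fderiv ℝ (fun p : ℝ × MM (n + 2) => GG H p.1 p.2) p).comp
        (ContinuousLinearMap.inr ℝ ℝ (MM (n + 2))) := funext fun p => fderiv_G hH p
  rw [e]
  exact h2

theorem cont_fderiv_G {H : ℝ → Mat n → ℝ} (hH : ContDiff ℝ ∞ (fun p : ℝ × Mat n => H p.1 p.2)) :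
    Continuous fun p : ℝ × MM (n + 2) => fderiv ℝ (GG H p.1) p.2 :=
  (contDiff_D hH).continuous

theorem exists_bd {H : ℝ → Mat n → ℝ} (hH : ContDiff ℝ ∞ (fun p : ℝ × Mat n => H p.1 p.2)) :
    ∃ C : ℝ, ∀ t, 0 ≤ t → t ≤ 1 → Bd (GG H t) C := by
  set K : Set (ℝ × MM (n + 2)) := Icc (0 : ℝ) 1 ×ˢ Metric.closedBall (0 : MM (n + 2)) 2 with hK
  have hKc : IsCompact K := isCompact_Icc.prod (isCompact_closedBall _ _)
  have hKv : Convex ℝ K := (convex_Icc 0 1).prod (convex_closedBall _ _)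
  have hmem : ∀ t, 0 ≤ t → t ≤ 1 → ∀ v : MM (n + 2), ‖v‖ ≤ 2 → (t, v) ∈ K := by
    intro t h0 h1 v hv
    exact ⟨⟨h0, h1⟩, by simpa using hv⟩
  obtain ⟨C0, hC0⟩ := hKc.exists_bound_of_continuousOn (contDiff_G hH).continuous.continuousOn
  obtain ⟨C1, hC1⟩ := hKc.exists_bound_of_continuousOn (contDiff_D hH).continuous.continuousOn
  obtain ⟨C2, hC2⟩ := hKc.exists_bound_of_continuousOn
    ((contDiff_D hH).continuous_fderiv (by simp)).continuousOn
  refine ⟨max 1 (max C0 (max C1 C2)), fun t h0 h1 => ⟨le_max_left _ _, ?_, ?_, ?_, ?_⟩⟩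
  · have : ContDiff ℝ ∞ (GG H t) :=
      (contDiff_G hH).comp ((contDiff_const (c := t)).prodMk contDiff_id)
    exact_mod_cast contDiff_infty.1 this 2
  · intro v hv
    have := hC0 (t, v) (hmem t h0 h1 v hv)
    rw [Real.norm_eq_abs] at this
    exact this.trans ((le_max_left _ _).trans (le_max_right _ _))
  · intro v hv
    have := hC1 (t, v) (hmem t h0 h1 v hv)
    exact this.trans ((le_max_left _ _).trans ((le_max_right _ _).trans (le_max_right _ _)))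
  · intro v w hv hw
    have h3 := hKv.norm_image_sub_le_of_norm_fderiv_le (𝕜 := ℝ)
      (f := fun p : ℝ × MM (n + 2) => fderiv ℝ (GG H p.1) p.2) (C := C2)
      (fun p _ => ((contDiff_D hH).differentiable (by simp)) p) hC2
      (hmem t h0 h1 w hw) (hmem t h0 h1 v hv)
    have h4 : ‖((t, v) : ℝ × MM (n + 2)) - (t, w)‖ = ‖v - w‖ := by
      rw [Prod.mk_sub_mk, sub_self, Prod.norm_mk, norm_zero]
      exact max_eq_right (norm_nonneg _)
    rw [h4] at h3
    refine h3.trans (mul_le_mul_of_nonneg_right ?_ (norm_nonneg _))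
    exact (le_max_right _ _).trans ((le_max_right _ _).trans (le_max_right _ _))

end NDG
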