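import Pool.Agent.Lib.NDG.BrB

/-!
Module BrC (2.5h). The bivector of a Hamiltonian trajectory solves the Lie-Poisson equation.
Let P in the quadric, Y with (H1) Y Hermitian, (H2) Y P + P Y = Y. Let E = e_b e_a^T - e_a e_b^T (real antisymmetric; E_ba = 1, E_ab = -1), Z = E P - P E.
* `tan_of_deriv`: the derivative Y of a curve in the quadric satisfies (H1), (H2), and the third equation: differentiate the equations entrywise (`HasDerivWithinAt` of finite sums of products; uniqueness of derivatives within Icc 0 1).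
* `lieZ_mem`: Z is in Tan P: Hermitian: (EP - PE)^* = P E^T - E^T P = - P E + E P. ZP + PZ = EP^2 - PEP + PEP - P^2 E = Z. Z P^T + P Z^T with Z^T = P^T E^T - E^T P^T = - P^T E + E P^T: (EP - PE) P^T + P (E P^T - P^T E) =
  E (P P^T) - P E P^T + P E P^T - (P P^T) E = 0.
* `fs_lieZ`: fs P Y Z = 2 Im tr(P Y E P) - 2 Im tr (P Y P E); P Y P = 0 (multiply (H2) by P on both sides: PYP + PYP = PYP); tr (P Y E P) = tr (P^2 Y E) = tr (P Y E); conj tr (P Y E) = tr ((P Y E)^*) = tr (E^T Y P) = - tr (E Y P) = - tr (Y P E); so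
  2 i Im tr (P Y E) = tr (P Y E) + tr (Y P E) = tr (Y E) by (H2), and tr (Y E) = Y_ab - Y_ba = 2 i Im Y_ab. So fs P Y Z = 2 Im tr (P Y E) = 2 Im Y_ab.
* `fderiv_GG`: for P in the quadric, v = mv P: fderiv (GG H t) v (lie a b v) = fderiv (H t) P Z, because pm v = P (`pm_mv`) and the derivative of pm at v in the direction lie a b v = [E, v] is [E, pm v]:
  D pm_v(w) = (- (w v + v w) - i w)/2, and [E,v] v + v [E,v] = [E, v^2]. (fderiv of a composition; pm is smooth, H t is smooth.)
* `ode`: (mv (φ t P))' = mv Y (mv is real linear): entry (a,b): - 2 Im Y_ab = - fs P Y Z = - fderiv (H t) (φ t P) Z = - fderiv (GG H t) v (lie a b v) = X (GG H t) v (a,b).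
-/

open scoped ContDiff RealInnerProductSpace
open Set

namespace NDG

variable {n : ℕ}

/-- `[E, P]` for `E = e_b e_a^T - e_a e_b^T` -/
noncomputable def lieZ (a b : Fin (n + 2)) (P : Mat n) : Mat n := fun i j =>
  (if i = b then P a j else 0) - (if i = a then P b j else 0)
    + (if j = b then P i a else 0) - (if j = a then P i b else 0)

namespace BrCAux

theorem sumL {R : Type*} [CommRing R] {N : ℕ} (P Q : Fin N → Fin N → R) (a b i j : Fin N) :
    ∑ k, ((if i = b then P a k else 0) - (if i = a then P b k else 0)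
      + (if k = b then P i a else 0) - (if k = a then P i b else 0)) * Q k j =
    (if i = b then ∑ k, P a k * Q k j else 0) - (if i = a then ∑ k, P b k * Q k j else 0)
      + P i a * Q b j - P i b * Q a j := by
  simp only [sub_mul, add_mul, ite_mul, zero_mul, Finset.sum_sub_distrib, Finset.sum_add_distrib,
    Finset.sum_ite_eq', Finset.mem_univ, if_true]
  congr 1
  congr 1
  congr 1
  · split_ifs
    · rfl
    · simp
  · split_ifs
    · rfl
    · simp

theorem sumR {R : Type*} [CommRing R] {N : ℕ} (P Q : Fin N → Fin N → R) (a b i j : Fin N) :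
    ∑ k, Q i k * ((if k = b then P a j else 0) - (if k = a then P b j else 0)
      + (if j = b then P k a else 0) - (if j = a then P k b else 0)) =
    Q i b * P a j - Q i a * P b j + (if j = b then ∑ k, Q i k * P k a else 0)
      - (if j = a then ∑ k, Q i k * P k b else 0) := by
  simp only [mul_sub, mul_add, mul_ite, mul_zero, Finset.sum_sub_distrib, Finset.sum_add_distrib,
    Finset.sum_ite_eq', Finset.mem_univ, if_true]
  congr 1
  · congr 1
    split_ifs
    · rfl
    · simp
  · split_ifs
    · rfl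
    · simp

end BrCAux

theorem tan_of_deriv {c : ℝ → Mat n} (hc : ∀ t ∈ Icc (0 : ℝ) 1, c t ∈ Quadric n) {t : ℝ}
    (ht : t ∈ Icc (0 : ℝ) 1) {Y : Mat n} (hY : HasDerivWithinAt c Y (Icc 0 1) t) :
    Y ∈ Tan (c t) := by
  have hE : ∀ i j, HasDerivWithinAt (fun s => c s i j) (Y i j) (Icc 0 1) t := by
    intro i j
    exact hasDerivWithinAt_pi.1 (hasDerivWithinAt_pi.1 hY i) j
  have hu : UniqueDiffWithinAt ℝ (Icc (0 : ℝ) 1) t := uniqueDiffOn_Icc zero_lt_one t ht
  refine ⟨fun i j => ?_, fun i j => ?_, fun i j => ?_⟩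
  · have h1 : HasDerivWithinAt (fun s => c s j i) (star (Y i j)) (Icc 0 1) t :=
      (hE i j).star.congr (fun s hs => (hc s hs).1 i j) ((hc t ht).1 i j)
    exact hu.eq_deriv _ (hE j i) h1
  · have h1 : HasDerivWithinAt (fun s => ∑ k, c s i k * c s k j)
        (∑ k, (Y i k * c t k j + c t i k * Y k j)) (Icc 0 1) t :=
      HasDerivWithinAt.fun_sum (fun k _ => (hE i k).mul (hE k j))
    have h2 : HasDerivWithinAt (fun s => ∑ k, c s i k * c s k j) (Y i j) (Icc 0 1) t :=
      (hE i j).congr (fun s hs => (hc s hs).2.1 i j) ((hc t ht).2.1 i j)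
    exact hu.eq_deriv _ h1 h2
  · have h1 : HasDerivWithinAt (fun s => ∑ k, c s i k * c s j k)
        (∑ k, (Y i k * c t j k + c t i k * Y j k)) (Icc 0 1) t :=
      HasDerivWithinAt.fun_sum (fun k _ => (hE i k).mul (hE j k))
    have h2 : HasDerivWithinAt (fun s => ∑ k, c s i k * c s j k) 0 (Icc 0 1) t :=
      (hasDerivWithinAt_const t (Icc 0 1) (0 : ℂ)).congr
        (fun s hs => (hc s hs).2.2.2 i j) ((hc t ht).2.2.2 i j)
    exact hu.eq_deriv _ h1 h2

theorem lieZ_mem {P : Mat n} (hP : P ∈ Quadric n) (a b : Fin (n + 2)) : lieZ a b P ∈ Tan P := by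
  obtain ⟨h1, h2, -, h4⟩ := hP
  refine ⟨fun i j => ?_, fun i j => ?_, fun i j => ?_⟩
  · unfold lieZ
    simp only [star_sub, star_add, apply_ite (star : ℂ → ℂ), star_zero, ← h1]
    ring
  · rw [Finset.sum_add_distrib]
    have e1 := BrCAux.sumL P P a b i j
    have e2 := BrCAux.sumR P P a b i j
    simp only [h2] at e1 e2
    unfold lieZ
    rw [e1, e2]
    ring
  · rw [Finset.sum_add_distrib]
    have e1 := BrCAux.sumL P (fun k l => P l k) a b i j
    have e2 := BrCAux.sumL P (fun k l => P l k) a b j i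
    simp only [h4, ite_self] at e1 e2
    have e3 : ∑ k, P i k * lieZ a b P j k = ∑ k, lieZ a b P j k * P i k :=
      Finset.sum_congr rfl (fun k _ => mul_comm _ _)
    rw [e3]
    unfold lieZ
    rw [e1, e2]
    ring

theorem fs_lieZ {P Y : Mat n} (hP : P ∈ Quadric n) (hY : Y ∈ Tan P) (a b : Fin (n + 2)) :
    fs P Y (lieZ a b P) = 2 * (Y a b).im := by
  obtain ⟨h1, h2, -, -⟩ := hP
  obtain ⟨y1, y2, -⟩ := hY
  -- `W = P Y`
  obtain ⟨W, hW⟩ : ∃ W : Fin (n + 2) → Fin (n + 2) → ℂ, ∀ i k, ∑ j, P i j * Y j k = W i k :=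
    ⟨fun i k => ∑ j, P i j * Y j k, fun _ _ => rfl⟩
  have hPW : ∀ i j, ∑ k, P i k * W k j = W i j := by
    intro i j
    calc ∑ k, P i k * W k j = ∑ k, ∑ l, P i k * P k l * Y l j := by
          apply Finset.sum_congr rfl
          intro k _
          rw [← hW, Finset.mul_sum]
          exact Finset.sum_congr rfl (fun l _ => by ring)
      _ = ∑ l, ∑ k, P i k * P k l * Y l j := Finset.sum_comm
      _ = ∑ l, P i l * Y l j := by
          apply Finset.sum_congr rfl
          intro l _
          rw [← Finset.sum_mul, h2]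
      _ = W i j := hW i j
  have hWP : ∀ i j, ∑ k, W i k * P k j = 0 := by
    intro i j
    have h5 : W i j = (∑ k, W i k * P k j) + W i j := by
      calc W i j = ∑ l, P i l * Y l j := (hW i j).symm
        _ = ∑ l, P i l * ∑ k, (Y l k * P k j + P l k * Y k j) := by
            apply Finset.sum_congr rfl
            intro l _
            rw [y2]
        _ = ∑ l, ∑ k, (P i l * Y l k * P k j + P i l * P l k * Y k j) := by
            apply Finset.sum_congr rfl
            intro l _
            rw [Finset.mul_sum]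
            exact Finset.sum_congr rfl (fun k _ => by ring)
        _ = ∑ k, ∑ l, (P i l * Y l k * P k j + P i l * P l k * Y k j) := Finset.sum_comm
        _ = ∑ k, (W i k * P k j + P i k * Y k j) := by
            apply Finset.sum_congr rfl
            intro k _
            rw [Finset.sum_add_distrib, ← Finset.sum_mul, ← Finset.sum_mul, hW, h2]
        _ = (∑ k, W i k * P k j) + W i j := by
            rw [Finset.sum_add_distrib, hW]
    exact right_eq_add.1 h5
  have hconj : W b a = star (Y a b) - star (W a b) := by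
    have h5 := y2 b a
    rw [Finset.sum_add_distrib, hW] at h5
    have h6 : ∑ k, Y b k * P k a = star (W a b) := by
      rw [← hW, star_sum]
      apply Finset.sum_congr rfl
      intro k _
      rw [star_mul', ← h1, ← y1]
      ring
    rw [h6, y1 a b] at h5
    rw [← h5]
    ring
  have hsum : ∑ i, ∑ j, ∑ k, P i j * Y j k * lieZ a b P k i = W a b - W b a := by
    have h5 : ∀ i, ∑ j, ∑ k, P i j * Y j k * lieZ a b P k i =
        W i b * P a i - W i a * P b i + (if i = b then ∑ k, W i k * P k a else 0)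
          - (if i = a then ∑ k, W i k * P k b else 0) := by
      intro i
      rw [← BrCAux.sumR P W a b i i, Finset.sum_comm]
      apply Finset.sum_congr rfl
      intro k _
      rw [← Finset.sum_mul, hW]
      rfl
    rw [Finset.sum_congr rfl (fun i _ => h5 i)]
    simp only [hWP, ite_self, add_zero, sub_zero, Finset.sum_sub_distrib]
    have h6 : ∑ i, W i b * P a i = W a b := by
      rw [← hPW a b]
      exact Finset.sum_congr rfl (fun k _ => mul_comm _ _)
    have h7 : ∑ i, W i a * P b i = W b a := by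
      rw [← hPW b a]
      exact Finset.sum_congr rfl (fun k _ => mul_comm _ _)
    rw [h6, h7]
  unfold fs
  rw [hsum, hconj]
  simp only [Complex.sub_im, Complex.star_def, Complex.conj_im]
  ring

theorem fderiv_GG {H : ℝ → Mat n → ℝ} (hH : ContDiff ℝ ∞ (fun p : ℝ × Mat n => H p.1 p.2))
    {P : Mat n} (hP : P ∈ Quadric n) (t : ℝ) (a b : Fin (n + 2)) :
    fderiv ℝ (GG H t) (mv P) (lie a b (mv P)) = fderiv ℝ (H t) P (lieZ a b P) := by
  have hHt : ContDiff ℝ ∞ (H t) :=
    hH.comp (contDiff_const.prodMk contDiff_id : ContDiff ℝ ∞ (fun Q : Mat n => (t, Q)))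
  have hpm : pm (mv P) = P := pm_mv hP
  set v : MM (n + 2) := mv P with hv
  set w : MM (n + 2) := lie a b v with hw
  have hwp : ∀ p q, w (p, q) = (if p = b then v (a, q) else 0) - (if p = a then v (b, q) else 0)
    + (if q = b then v (p, a) else 0) - (if q = a then v (p, b) else 0) := fun p q => rfl
  have hline : ∀ p, HasDerivAt (fun s : ℝ => (v + s • w) p) (w p) 0 := by
    intro p
    have h1 : HasDerivAt (fun s : ℝ => v p + s * w p) (1 * w p) 0 :=
      ((hasDerivAt_id (0 : ℝ)).mul_const (w p)).const_add (v p)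
    rw [one_mul] at h1
    exact h1
  have hpath : HasDerivAt (fun s : ℝ => pm (v + s • w)) (lieZ a b P) 0 := by
    rw [hasDerivAt_pi]
    intro i
    rw [hasDerivAt_pi]
    intro j
    have h2 : HasDerivAt (fun s : ℝ => ∑ k, (v + s • w) (i, k) * (v + s • w) (k, j))
        (∑ k, (w (i, k) * (v + (0 : ℝ) • w) (k, j) + (v + (0 : ℝ) • w) (i, k) * w (k, j))) 0 :=
      HasDerivAt.fun_sum (fun k _ => (hline (i, k)).mul (hline (k, j)))
    rw [zero_smul, add_zero] at h2
    have h3 := ((h2.ofReal_comp.neg.sub ((hline (i, j)).ofReal_comp.const_mul Complex.I)).div_const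
      (2 : ℂ))
    have h4 : (∑ k, (w (i, k) * v (k, j) + v (i, k) * w (k, j))) =
        (if i = b then ∑ k, v (a, k) * v (k, j) else 0)
        - (if i = a then ∑ k, v (b, k) * v (k, j) else 0)
        + (if j = b then ∑ k, v (i, k) * v (k, a) else 0)
        - (if j = a then ∑ k, v (i, k) * v (k, b) else 0) := by
      have e1 := BrCAux.sumL (fun p q => v (p, q)) (fun p q => v (p, q)) a b i j
      have e2 := BrCAux.sumR (fun p q => v (p, q)) (fun p q => v (p, q)) a b i j
      simp only [hwp]
      rw [Finset.sum_add_distrib, e1, e2]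
      ring
    have h5 : lieZ a b P i j = (-((∑ k, (w (i, k) * v (k, j) + v (i, k) * w (k, j)) : ℝ) : ℂ)
        - Complex.I * ((w (i, j) : ℝ) : ℂ)) / 2 := by
      rw [h4, hwp, ← hpm]
      unfold lieZ pm
      split_ifs <;> push_cast <;> ring
    rw [h5]
    exact h3
  have h1 : HasDerivAt (fun s : ℝ => GG H t (v + s • w)) (fderiv ℝ (H t) P (lieZ a b P)) 0 := by
    have h2 : HasFDerivAt (H t) (fderiv ℝ (H t) P) (pm (v + (0 : ℝ) • w)) := by
      rw [zero_smul, add_zero, hpm]
      exact (hHt.differentiable (by simp) P).hasFDerivAt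
    exact h2.comp_hasDerivAt (0 : ℝ) hpath
  have h2 : HasDerivAt (fun s : ℝ => GG H t (v + s • w)) (fderiv ℝ (GG H t) v w) 0 := by
    have hG : ContDiff ℝ ∞ (GG H t) := hHt.comp contDiff_pm
    have h3 : HasFDerivAt (GG H t) (fderiv ℝ (GG H t) v) (v + (0 : ℝ) • w) := by
      rw [zero_smul, add_zero]
      exact (hG.differentiable (by simp) v).hasFDerivAt
    have h4 : HasDerivAt (fun s : ℝ => v + s • w) w 0 := by
      have h5 : HasDerivAt (fun s : ℝ => v + s • w) ((1 : ℝ) • w) 0 :=
        ((hasDerivAt_id (0 : ℝ)).smul_const w).const_add v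
      rw [one_smul] at h5
      exact h5
    exact h3.comp_hasDerivAt (0 : ℝ) h4
  exact h2.unique h1

theorem ode {H : ℝ → Mat n → ℝ} {φ : ℝ → Mat n → Mat n} (h : HamIsotopy n H φ) {P : Mat n}
    (hP : P ∈ Quadric n) {t : ℝ} (ht : t ∈ Icc (0 : ℝ) 1) :
    HasDerivWithinAt (fun s => mv (φ s P)) (X (GG H t) (mv (φ t P))) (Icc 0 1) t := by
  obtain ⟨Y, hY1, hY2⟩ := h.flow t ht P hP
  have hQ : φ t P ∈ Quadric n := h.mem t ht P hP
  have hT : Y ∈ Tan (φ t P) := tan_of_deriv (fun s hs => h.mem s hs P hP) ht hY1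
  let L : Mat n →ₗ[ℝ] MM (n + 2) :=
    { toFun := mv
      map_add' := fun A B => by
        ext p
        simp [mv]
        ring
      map_smul' := fun r A => by
        ext p
        simp [mv]
        ring }
  have h1 : HasDerivWithinAt (fun s => mv (φ s P)) (mv Y) (Icc 0 1) t :=
    (LinearMap.toContinuousLinearMap L).hasFDerivAt.comp_hasDerivWithinAt t hY1
  have h2 : mv Y = X (GG H t) (mv (φ t P)) := by
    ext ⟨a, b⟩
    have h3 : X (GG H t) (mv (φ t P)) (a, b) =
        - fderiv ℝ (GG H t) (mv (φ t P)) (lie a b (mv (φ t P))) := rfl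
    have h4 : mv Y (a, b) = -2 * (Y a b).im := rfl
    rw [h3, h4, fderiv_GG h.smooth hQ, ← hY2 _ (lieZ_mem hQ a b), fs_lieZ hQ hT]
    ring
  rw [← h2]
  exact h1

end NDG
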