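import Pool.Agent.Lib.NDG.HhB

/-!
Module Coer (1.3h). Lower and upper bounds for the action of a chain of unit vectors, with `Bd (G t) C` for t in [0,1], M >= 1.
Let δ_i = ||y_(i+1) - y_i||, τ = 1/M. By `hh_abs`, |hh_i| <= C (1/M + δ_i).
* lower: act >= sum (M δ_i^2/2 - C/M - C δ_i) and C δ_i <= M δ_i^2/4 + C^2/M; the sum of 1/M over i is 1.
* upper: act <= M/2 sum δ_i^2 + C + C sum δ_i.
* `dsum_sq_le`: Cauchy-Schwarz, (sum δ_i)^2 <= M sum δ_i^2.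
-/

open scoped RealInnerProductSpace

namespace NDG

variable {N : ℕ}

theorem dsum_sq_le (M : ℕ) (y : Fin (M + 1) → E N) : dsum M y ^ 2 ≤ M * dsum2 M y := by
  have h := sq_sum_le_card_mul_sum_sq (s := (Finset.univ : Finset (Fin M)))
    (f := fun i => ‖y i.succ - y i.castSucc‖)
  rw [Finset.card_univ, Fintype.card_fin] at h
  exact h

private theorem coer_aux {G : ℝ → MM N → ℝ} {C : ℝ} (hG : ∀ t, 0 ≤ t → t ≤ 1 → Bd (G t) C)
    {M : ℕ} (hM : 1 ≤ M) {y : Fin (M + 1) → E N} (hy : ∀ i, ‖y i‖ = 1) (i : Fin M) :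
    |hh (G ((i : ℕ) / (M : ℝ))) (1 / (M : ℝ)) (y i.castSucc) (y i.succ)| ≤
      C * (1 / (M : ℝ) + ‖y i.succ - y i.castSucc‖) := by
  have hMr : (0 : ℝ) < M := by exact_mod_cast hM
  have hi : ((i : ℕ) : ℝ) ≤ M := by exact_mod_cast i.2.le
  refine hh_abs (hG _ (by positivity) ?_) (by positivity) (hy _) (hy _)
  rw [div_le_one hMr]
  exact hi

theorem act_lower {G : ℝ → MM N → ℝ} {C : ℝ} (hG : ∀ t, 0 ≤ t → t ≤ 1 → Bd (G t) C) {M : ℕ}
    (hM : 1 ≤ M) {y : Fin (M + 1) → E N} (hy : ∀ i, ‖y i‖ = 1) :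
    (M : ℝ) / 4 * dsum2 M y ≤ act G M y + C + C ^ 2 := by
  have hMr : (0 : ℝ) < M := by exact_mod_cast hM
  have key : ∀ i : Fin M, (M : ℝ) / 4 * ‖y i.succ - y i.castSucc‖ ^ 2 - (C + C ^ 2) / M ≤
      (M : ℝ) / 2 * ‖y i.succ - y i.castSucc‖ ^ 2
        - hh (G ((i : ℕ) / (M : ℝ))) (1 / (M : ℝ)) (y i.castSucc) (y i.succ) := by
    intro i
    have h := coer_aux hG hM hy i
    have h1 := (abs_le.1 h).2
    set δ := ‖y i.succ - y i.castSucc‖ with hδ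
    have h2 : C * δ ≤ (M : ℝ) / 4 * δ ^ 2 + C ^ 2 / M := by
      have h3 : 0 ≤ ((M : ℝ) * δ / 2 - C) ^ 2 / M := by positivity
      have h4 : ((M : ℝ) * δ / 2 - C) ^ 2 / M = (M : ℝ) / 4 * δ ^ 2 + C ^ 2 / M - C * δ := by
        field_simp
        ring
      linarith
    have h5 : C * (1 / (M : ℝ) + δ) = C / M + C * δ := by ring
    have h6 : (C + C ^ 2) / M = C / M + C ^ 2 / M := by ring
    rw [h5] at h1
    rw [h6]
    linarith
  have hsum := Finset.sum_le_sum (fun i (_ : i ∈ (Finset.univ : Finset (Fin M))) => key i)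
  rw [Finset.sum_sub_distrib, ← Finset.mul_sum, Finset.sum_const, Finset.card_univ,
    Fintype.card_fin, nsmul_eq_mul] at hsum
  have h7 : (M : ℝ) * ((C + C ^ 2) / M) = C + C ^ 2 := by field_simp
  rw [h7] at hsum
  have h8 : act G M y = ∑ i : Fin M, ((M : ℝ) / 2 * ‖y i.succ - y i.castSucc‖ ^ 2
    - hh (G ((i : ℕ) / (M : ℝ))) (1 / (M : ℝ)) (y i.castSucc) (y i.succ)) := rfl
  have h9 : dsum2 M y = ∑ i : Fin M, ‖y i.succ - y i.castSucc‖ ^ 2 := rfl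
  rw [h8, h9]
  linarith

theorem act_upper {G : ℝ → MM N → ℝ} {C : ℝ} (hG : ∀ t, 0 ≤ t → t ≤ 1 → Bd (G t) C) {M : ℕ}
    (hM : 1 ≤ M) {y : Fin (M + 1) → E N} (hy : ∀ i, ‖y i‖ = 1) :
    act G M y ≤ (M : ℝ) / 2 * dsum2 M y + C * (1 + dsum M y) := by
  have hMr : (0 : ℝ) < M := by exact_mod_cast hM
  have key : ∀ i : Fin M, (M : ℝ) / 2 * ‖y i.succ - y i.castSucc‖ ^ 2
        - hh (G ((i : ℕ) / (M : ℝ))) (1 / (M : ℝ)) (y i.castSucc) (y i.succ) ≤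
      (M : ℝ) / 2 * ‖y i.succ - y i.castSucc‖ ^ 2 +
        (C / M + C * ‖y i.succ - y i.castSucc‖) := by
    intro i
    have h := coer_aux hG hM hy i
    have h1 := (abs_le.1 h).1
    have h5 : C * (1 / (M : ℝ) + ‖y i.succ - y i.castSucc‖) =
        C / M + C * ‖y i.succ - y i.castSucc‖ := by ring
    rw [h5] at h1
    linarith
  have hsum := Finset.sum_le_sum (fun i (_ : i ∈ (Finset.univ : Finset (Fin M))) => key i)
  rw [Finset.sum_add_distrib (f := fun i : Fin M => (M : ℝ) / 2 * ‖y i.succ - y i.castSucc‖ ^ 2),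
    Finset.sum_add_distrib, ← Finset.mul_sum, ← Finset.mul_sum, Finset.sum_const,
    Finset.card_univ, Fintype.card_fin, nsmul_eq_mul] at hsum
  have h7 : (M : ℝ) * (C / M) = C := by field_simp
  rw [h7] at hsum
  have h8 : act G M y = ∑ i : Fin M, ((M : ℝ) / 2 * ‖y i.succ - y i.castSucc‖ ^ 2
    - hh (G ((i : ℕ) / (M : ℝ))) (1 / (M : ℝ)) (y i.castSucc) (y i.succ)) := rfl
  have h9 : dsum2 M y = ∑ i : Fin M, ‖y i.succ - y i.castSucc‖ ^ 2 := rfl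
  have h10 : dsum M y = ∑ i : Fin M, ‖y i.succ - y i.castSucc‖ := rfl
  rw [h8, h9, h10]
  linarith

/-- each step is short and the length is bounded -/
theorem step_le {G : ℝ → MM N → ℝ} {C : ℝ} (hG : ∀ t, 0 ≤ t → t ≤ 1 → Bd (G t) C) {M : ℕ}
    (hM : 1 ≤ M) {y : Fin (M + 1) → E N} (hy : ∀ i, ‖y i‖ = 1) {b : ℝ} (hb : act G M y ≤ b)
    (i : Fin M) : ‖y i.succ - y i.castSucc‖ ^ 2 ≤ 4 * (b + C + C ^ 2) / M := by
  have hMr : (0 : ℝ) < M := by exact_mod_cast hM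
  have h1 := act_lower hG hM hy
  have h2 : ‖y i.succ - y i.castSucc‖ ^ 2 ≤ dsum2 M y :=
    Finset.single_le_sum (f := fun j : Fin M => ‖y j.succ - y j.castSucc‖ ^ 2)
      (fun j _ => by positivity) (Finset.mem_univ i)
  rw [le_div_iff₀ hMr]
  nlinarith

theorem dsum_le {G : ℝ → MM N → ℝ} {C : ℝ} (hG : ∀ t, 0 ≤ t → t ≤ 1 → Bd (G t) C) {M : ℕ}
    (hM : 1 ≤ M) {y : Fin (M + 1) → E N} (hy : ∀ i, ‖y i‖ = 1) {b : ℝ} (hb : act G M y ≤ b) :
    dsum M y ^ 2 ≤ 4 * (b + C + C ^ 2) := by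
  have h1 := act_lower hG hM hy
  have h2 := dsum_sq_le M y
  nlinarith

end NDG
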