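import Pool.Agent.Lib.NDG.Sweep

/-!
Module Consts (2h). Choice of the constants for the degree argument. `alt q0 q1 i` = q0 for even i, q1 for odd i; it is enough to
treat q = q0 and q = q1. Put z = g q.
PROOF. (c6), (c1): ρ at most ||q0 - q1||/4, ||q0 - a||/2, ||q1 - a||/2.
(c2): some c with g q0 c ≠ g q1 c; g is continuous at q0, q1 relative to the open set {y ≠ a} of the sphere (`S.cont`): for ρ small
|g y c - g q0 c| < d/2 and |g y' c - g q1 c| < d/2, d = |g q0 c - g q1 c|. Fix such a ρ ≤ ρ₀.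
(c5): Θ is Lipschitz, Θ z = q: η = ρ / (2 C).
ε: let ε = ρ / (2 C (1)) so that |g y c - z c| ≤ ε for all c implies ||y - q|| = ||Θ (g y) - Θ z|| ≤ C ε ≤ ρ/2. So (c4) holds if 3 ω < ρ/2.
(c3): the set {y : ||y|| = 1, ||y - q|| ≤ ρ} is compact and does not contain a, so g is uniformly continuous on it: choose ω.
-/

namespace NDG

/-- the alternating sequence of two points -/
def alt {N : ℕ} (q0 q1 : E N) (i : ℕ) : E N := if Even i then q0 else q1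

/-- the constants -/
structure Cst {n : ℕ} {a : E (n + 2)} (S : Sweep n a) (q0 q1 : E (n + 2)) (ρ ε ω η : ℝ) : Prop where
  ρ_pos : 0 < ρ
  ε_pos : 0 < ε
  ω_pos : 0 < ω
  η_pos : 0 < η
  c1 : ∀ (i : ℕ) (y : E (n + 2)), ‖y‖ = 1 → ‖y - alt q0 q1 i‖ < ρ → y ≠ a
  c2 : ∀ y y' : E (n + 2), ‖y‖ = 1 → ‖y'‖ = 1 → ‖y - q0‖ < ρ → ‖y' - q1‖ < ρ →
    ∃ c : Fin n, S.g y c.castSucc ≠ S.g y' c.castSucc
  c3 : ∀ (i : ℕ) (y y' : E (n + 2)), ‖y‖ = 1 → ‖y'‖ = 1 → ‖y - alt q0 q1 i‖ < ρ →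
    ‖y' - alt q0 q1 i‖ < ρ → ‖y - y'‖ ≤ 3 * ω → ∀ c, |S.g y c - S.g y' c| ≤ ε
  c4 : ∀ (i : ℕ) (y y' : E (n + 2)), ‖y‖ = 1 → ‖y'‖ = 1 → ‖y - alt q0 q1 i‖ < ρ →
    (∀ c, |S.g y c - S.g (alt q0 q1 i) c| ≤ ε) → ‖y - y'‖ ≤ 3 * ω → ‖y' - alt q0 q1 i‖ < ρ
  c5 : ∀ (i : ℕ) (z : Fin (n + 1) → ℝ), (∀ c, |z c - S.g (alt q0 q1 i) c| ≤ η) →
    ‖S.Θ z - alt q0 q1 i‖ < ρ
  c6 : 4 * ρ ≤ ‖q0 - q1‖

private theorem loc {n : ℕ} {a q : E (n + 2)} (S : Sweep n a) (h : ‖q‖ = 1) (ha : q ≠ a)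
    {δ : ℝ} (hδ : 0 < δ) : ∃ r, 0 < r ∧ ∀ y, ‖y‖ = 1 → y ≠ a → ‖y - q‖ < r →
      ∀ c, |S.g y c - S.g q c| < δ := by
  have h1 : ContinuousWithinAt S.g {y | ‖y‖ = 1 ∧ y ≠ a} q := S.cont q ⟨h, ha⟩
  obtain ⟨r, hr, h2⟩ := Metric.continuousWithinAt_iff.1 h1 δ hδ
  refine ⟨r, hr, fun y hy hya hyq c => ?_⟩
  have h3 := h2 (show y ∈ {y | ‖y‖ = 1 ∧ y ≠ a} from ⟨hy, hya⟩) (by rwa [dist_eq_norm])
  rw [dist_pi_lt_iff hδ] at h3
  have h4 := h3 c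
  rwa [Real.dist_eq] at h4

private theorem unif {n : ℕ} {a q : E (n + 2)} (S : Sweep n a) {ρ : ℝ}
    (hρ : ∀ y, ‖y‖ = 1 → ‖y - q‖ ≤ ρ → y ≠ a)
    {δ : ℝ} (hδ : 0 < δ) : ∃ r, 0 < r ∧ ∀ y y', ‖y‖ = 1 → ‖y'‖ = 1 → ‖y - q‖ ≤ ρ → ‖y' - q‖ ≤ ρ →
      ‖y - y'‖ < r → ∀ c, |S.g y c - S.g y' c| < δ := by
  have hK : IsCompact (Metric.sphere (0 : E (n + 2)) 1 ∩ Metric.closedBall q ρ) :=
    (isCompact_sphere 0 1).inter_right Metric.isClosed_closedBall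
  have hsub : Metric.sphere (0 : E (n + 2)) 1 ∩ Metric.closedBall q ρ ⊆ {y | ‖y‖ = 1 ∧ y ≠ a} := by
    intro y hy
    have h1 : ‖y‖ = 1 := by simpa using hy.1
    have h2 : ‖y - q‖ ≤ ρ := by simpa [dist_eq_norm] using hy.2
    exact ⟨h1, hρ y h1 h2⟩
  have hU := hK.uniformContinuousOn_of_continuous (S.cont.mono hsub)
  obtain ⟨r, hr, h2⟩ := Metric.uniformContinuousOn_iff.1 hU δ hδ
  refine ⟨r, hr, fun y y' hy hy' hyq hyq' hyy c => ?_⟩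
  have h3 := h2 y ⟨by simpa using hy, by simpa [dist_eq_norm] using hyq⟩ y'
    ⟨by simpa using hy', by simpa [dist_eq_norm] using hyq'⟩ (by rwa [dist_eq_norm])
  rw [dist_pi_lt_iff hδ] at h3
  have h4 := h3 c
  rwa [Real.dist_eq] at h4

private theorem theta_near {n : ℕ} {a q : E (n + 2)} (S : Sweep n a) (h : ‖q‖ = 1) (ha : q ≠ a)
    {ρ : ℝ} (hρ : 0 < ρ) (z : Fin (n + 1) → ℝ) (hz : ∀ c, |z c - S.g q c| ≤ ρ / (2 * S.C)) :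
    ‖S.Θ z - q‖ ≤ ρ / 2 := by
  have hC := S.C_pos
  have h1 : ‖z - S.g q‖ ≤ ρ / (2 * S.C) := by
    rw [pi_norm_le_iff_of_nonneg (by positivity)]
    intro c
    rw [Pi.sub_apply, Real.norm_eq_abs]
    exact hz c
  have h2 := S.lip z (S.g q)
  rw [S.right q h ha] at h2
  refine h2.trans ?_
  calc S.C * ‖z - S.g q‖ ≤ S.C * (ρ / (2 * S.C)) := mul_le_mul_of_nonneg_left h1 hC.le
    _ = ρ / 2 := by field_simp

private theorem alt_cases {N : ℕ} (q0 q1 : E N) {p : E N → Prop} (h0 : p q0) (h1 : p q1) (i : ℕ) :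
    p (alt q0 q1 i) := by
  unfold alt
  split_ifs
  · exact h0
  · exact h1

theorem exists_cst {n : ℕ} {a q0 q1 : E (n + 2)} (S : Sweep n a) (h0 : ‖q0‖ = 1) (h1 : ‖q1‖ = 1)
    (ha0 : q0 ≠ a) (ha1 : q1 ≠ a) (hc : ∃ c : Fin n, S.g q0 c.castSucc ≠ S.g q1 c.castSucc)
    {ρ₀ : ℝ} (hρ₀ : 0 < ρ₀) : ∃ ρ ε ω η, ρ ≤ ρ₀ ∧ Cst S q0 q1 ρ ε ω η := by
  obtain ⟨c, hc⟩ := hc
  have hd : 0 < |S.g q0 c.castSucc - S.g q1 c.castSucc| := abs_pos.2 (sub_ne_zero.2 hc)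
  obtain ⟨r0, hr0, g0⟩ := loc S h0 ha0 (half_pos hd)
  obtain ⟨r1, hr1, g1⟩ := loc S h1 ha1 (half_pos hd)
  have h01 : q0 ≠ q1 := by
    rintro rfl
    exact hc rfl
  have e01 : 0 < ‖q0 - q1‖ / 4 := by
    have := norm_pos_iff.2 (sub_ne_zero.2 h01)
    linarith
  have e0 : 0 < ‖q0 - a‖ / 2 := half_pos (norm_pos_iff.2 (sub_ne_zero.2 ha0))
  have e1 : 0 < ‖q1 - a‖ / 2 := half_pos (norm_pos_iff.2 (sub_ne_zero.2 ha1))
  obtain ⟨ρ, hρ, b0, b1, b2, b3, b4, b5⟩ : ∃ ρ : ℝ, 0 < ρ ∧ ρ ≤ ρ₀ ∧ ρ ≤ r0 ∧ ρ ≤ r1 ∧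
      ρ ≤ ‖q0 - q1‖ / 4 ∧ ρ ≤ ‖q0 - a‖ / 2 ∧ ρ ≤ ‖q1 - a‖ / 2 := by
    refine ⟨min (min (min ρ₀ r0) (min r1 (‖q0 - q1‖ / 4))) (min (‖q0 - a‖ / 2) (‖q1 - a‖ / 2)),
      ?_, ?_, ?_, ?_, ?_, ?_, ?_⟩
    · exact lt_min (lt_min (lt_min hρ₀ hr0) (lt_min hr1 e01)) (lt_min e0 e1)
    · exact (min_le_left _ _).trans ((min_le_left _ _).trans (min_le_left _ _))
    · exact (min_le_left _ _).trans ((min_le_left _ _).trans (min_le_right _ _))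
    · exact (min_le_left _ _).trans ((min_le_right _ _).trans (min_le_left _ _))
    · exact (min_le_left _ _).trans ((min_le_right _ _).trans (min_le_right _ _))
    · exact (min_le_right _ _).trans (min_le_left _ _)
    · exact (min_le_right _ _).trans (min_le_right _ _)
  have na : ∀ q : E (n + 2), q ≠ a → ρ ≤ ‖q - a‖ / 2 → ∀ y, ‖y‖ = 1 → ‖y - q‖ ≤ ρ → y ≠ a := by
    rintro q hq hb y - hy rfl
    rw [norm_sub_rev] at hy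
    have := norm_pos_iff.2 (sub_ne_zero.2 hq)
    linarith
  have na0 := na q0 ha0 b4
  have na1 := na q1 ha1 b5
  have hC := S.C_pos
  have hε : 0 < ρ / (2 * S.C) := by positivity
  obtain ⟨w0, hw0, u0⟩ := unif S na0 hε
  obtain ⟨w1, hw1, u1⟩ := unif S na1 hε
  have hm : 0 < min (min w0 w1) ρ := lt_min (lt_min hw0 hw1) hρ
  have m0 : min (min w0 w1) ρ ≤ w0 := (min_le_left _ _).trans (min_le_left _ _)
  have m1 : min (min w0 w1) ρ ≤ w1 := (min_le_left _ _).trans (min_le_right _ _)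
  have m2 : min (min w0 w1) ρ ≤ ρ := min_le_right _ _
  refine ⟨ρ, ρ / (2 * S.C), min (min w0 w1) ρ / 8, ρ / (2 * S.C), b0, hρ, hε, by linarith, hε,
    ?_, ?_, ?_, ?_, ?_, by linarith⟩
  · exact alt_cases q0 q1 (p := fun q => ∀ y : E (n + 2), ‖y‖ = 1 → ‖y - q‖ < ρ → y ≠ a)
      (fun y hy h => na0 y hy h.le) (fun y hy h => na1 y hy h.le)
  · intro y y' hy hy' hyq hyq'
    refine ⟨c, fun he => ?_⟩
    have t0 := g0 y hy (na0 y hy hyq.le) (hyq.trans_le b1) c.castSucc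
    have t1 := g1 y' hy' (na1 y' hy' hyq'.le) (hyq'.trans_le b2) c.castSucc
    rw [← he] at t1
    have t2 : |S.g q0 c.castSucc - S.g q1 c.castSucc| ≤
        |S.g y c.castSucc - S.g q0 c.castSucc| + |S.g y c.castSucc - S.g q1 c.castSucc| := by
      have e : S.g q0 c.castSucc - S.g q1 c.castSucc =
        -(S.g y c.castSucc - S.g q0 c.castSucc) + (S.g y c.castSucc - S.g q1 c.castSucc) := by ring
      rw [e]
      refine (abs_add_le _ _).trans ?_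
      rw [abs_neg]
    linarith
  · refine alt_cases q0 q1 (p := fun q => ∀ y y' : E (n + 2), ‖y‖ = 1 → ‖y'‖ = 1 → ‖y - q‖ < ρ →
      ‖y' - q‖ < ρ → ‖y - y'‖ ≤ 3 * (min (min w0 w1) ρ / 8) →
        ∀ c, |S.g y c - S.g y' c| ≤ ρ / (2 * S.C)) ?_ ?_
    · intro y y' hy hy' k k' kk c
      exact (u0 y y' hy hy' k.le k'.le (by linarith) c).le
    · intro y y' hy hy' k k' kk c
      exact (u1 y y' hy hy' k.le k'.le (by linarith) c).le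
  · have key : ∀ q : E (n + 2), ‖q‖ = 1 → q ≠ a → (∀ y, ‖y‖ = 1 → ‖y - q‖ ≤ ρ → y ≠ a) →
        ∀ y y' : E (n + 2), ‖y‖ = 1 → ‖y'‖ = 1 → ‖y - q‖ < ρ →
        (∀ c, |S.g y c - S.g q c| ≤ ρ / (2 * S.C)) → ‖y - y'‖ ≤ 3 * (min (min w0 w1) ρ / 8) →
        ‖y' - q‖ < ρ := by
      intro q hq hqa hna y y' hy hy' k kc kk
      have t := theta_near S hq hqa hρ (S.g y) kc
      rw [S.right y hy (hna y hy k.le)] at t
      have t2 : ‖y' - q‖ ≤ ‖y' - y‖ + ‖y - q‖ := norm_sub_le_norm_sub_add_norm_sub _ _ _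
      rw [norm_sub_rev y' y] at t2
      linarith
    exact alt_cases q0 q1 (p := fun q => ∀ y y' : E (n + 2), ‖y‖ = 1 → ‖y'‖ = 1 → ‖y - q‖ < ρ →
        (∀ c, |S.g y c - S.g q c| ≤ ρ / (2 * S.C)) → ‖y - y'‖ ≤ 3 * (min (min w0 w1) ρ / 8) →
        ‖y' - q‖ < ρ) (key q0 h0 ha0 na0) (key q1 h1 ha1 na1)
  · refine alt_cases q0 q1 (p := fun q => ∀ z : Fin (n + 1) → ℝ,
      (∀ c, |z c - S.g q c| ≤ ρ / (2 * S.C)) → ‖S.Θ z - q‖ < ρ) ?_ ?_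
    · intro z hz
      have := theta_near S h0 ha0 hρ z hz
      linarith
    · intro z hz
      have := theta_near S h1 ha1 hρ z hz
      linarith

end NDG
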