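import Pool.Agent.Lib.NDG.HhB

/-!
Module Yb (2h). Bounds for the vector fields `X`, `Y`.
* `norm_le_of_entries`: ||v||^2 = sum of N^2 squares.
* `norm_X_le`: |X_ab| = |DG_v(lie a b v)| <= C * 4 ||v||, so ||X|| <= N * 4 C ||v||.
* `X_lip`: |X(v)_ab - X(w)_ab| <= |DG_v(lie (v - w))| + |(DG_v - DG_w)(lie w)| <= 4 C ||v-w|| + C ||v-w|| * 4 * 2 = 12 C ||v - w||.
* `norm_Y_le`: sq 1 v <= 1 + ||v||, u = (sq 1 v)⁻¹ v has ||u|| <= 3/2, ||X u|| <= 6 N C.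
* `sq_one_lip`: |sq 1 v - sq 1 w| <= ||v - w|| (the map v ↦ sqrt (1 + ||v||^2/2) : square, or (sq 1 v - sq 1 w)(sq 1 v + sq 1 w) =
  (||v||^2 - ||w||^2)/2 and ||v|| + ||w|| <= 3/2 (sq 1 v + sq 1 w)).
* `Y_lip`: with s = sq 1 v, t = sq 1 w, u = s⁻¹ v, u' = t⁻¹ w: Y v - Y w = s (X u - X u') + (s - t) X u';
  s ||u - u'|| = ||v - (s/t) w|| <= ||v - w|| + |t - s| ||w|| / t <= 5/2 ||v - w||. Total (30 + 6) N C ||v - w||.
* `Y_scale`: ||q||^2 = 2, r >= 0: sq 1 (r q) = sqrt (1 + r^2) =: s, 0 <= s - r <= 1, Y (r q) - r X q = s (X ((r/s) q) - X q) + (s - r) X q; norm <=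
  12 N C (s - r) 3/2 + (s - r) 4 N C 3/2 <= 25 N C.
* `sq_smul_X`: sq τ v = τ sq 1 (τ⁻¹ v).
-/

open scoped RealInnerProductSpace

namespace NDG

variable {N : ℕ}

theorem norm_le_of_entries {v : MM N} {c : ℝ} (hc : 0 ≤ c) (h : ∀ p, |v p| ≤ c) :
    ‖v‖ ≤ N * c := by
  apply le_of_sq_le_sq _ (by positivity)
  rw [EuclideanSpace.real_norm_sq_eq]
  calc ∑ p, v p ^ 2 ≤ ∑ _p : Fin N × Fin N, c ^ 2 := by
        apply Finset.sum_le_sum
        intro p _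
        rw [← sq_abs (v p)]
        exact pow_le_pow_left₀ (abs_nonneg _) (h p) 2
    _ = (N * c) ^ 2 := by
        rw [Finset.sum_const, Finset.card_univ, Fintype.card_prod, Fintype.card_fin, nsmul_eq_mul]
        push_cast
        ring

theorem YbAux.X_apply (G : MM N → ℝ) (v : MM N) (p : Fin N × Fin N) :
    X G v p = - fderiv ℝ G v (lie p.1 p.2 v) := by
  simp [X]

theorem norm_X_le {G : MM N → ℝ} {C : ℝ} (hG : Bd G C) {v : MM N} (hv : ‖v‖ ≤ 2) :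
    ‖X G v‖ ≤ 4 * N * C * ‖v‖ := by
  have hC : 0 ≤ C := le_trans zero_le_one hG.one_le
  have h : ∀ p, |X G v p| ≤ 4 * C * ‖v‖ := by
    intro p
    rw [YbAux.X_apply, abs_neg]
    have h1 := (fderiv ℝ G v).le_opNorm (lie p.1 p.2 v)
    rw [Real.norm_eq_abs] at h1
    have h2 := norm_lie_le p.1 p.2 v
    calc |fderiv ℝ G v (lie p.1 p.2 v)| ≤ ‖fderiv ℝ G v‖ * ‖lie p.1 p.2 v‖ := h1
      _ ≤ C * (4 * ‖v‖) := mul_le_mul (hG.b1 v hv) h2 (norm_nonneg _) hC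
      _ = 4 * C * ‖v‖ := by ring
  have := norm_le_of_entries (by positivity) h
  calc ‖X G v‖ ≤ N * (4 * C * ‖v‖) := this
    _ = 4 * N * C * ‖v‖ := by ring

theorem X_lip {G : MM N → ℝ} {C : ℝ} (hG : Bd G C) {v w : MM N} (hv : ‖v‖ ≤ 2) (hw : ‖w‖ ≤ 2) :
    ‖X G v - X G w‖ ≤ 12 * N * C * ‖v - w‖ := by
  have hC : 0 ≤ C := le_trans zero_le_one hG.one_le
  have h : ∀ p, |(X G v - X G w) p| ≤ 12 * C * ‖v - w‖ := by
    intro p
    rw [PiLp.sub_apply, YbAux.X_apply, YbAux.X_apply]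
    have e : - fderiv ℝ G v (lie p.1 p.2 v) - - fderiv ℝ G w (lie p.1 p.2 w) =
        - (fderiv ℝ G v (lie p.1 p.2 (v - w)) + (fderiv ℝ G v - fderiv ℝ G w) (lie p.1 p.2 w)) := by
      rw [lie_sub, map_sub, ContinuousLinearMap.sub_apply]
      ring
    rw [e, abs_neg]
    have h1 := (fderiv ℝ G v).le_opNorm (lie p.1 p.2 (v - w))
    rw [Real.norm_eq_abs] at h1
    have h2 := norm_lie_le p.1 p.2 (v - w)
    have h3 := (fderiv ℝ G v - fderiv ℝ G w).le_opNorm (lie p.1 p.2 w)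
    rw [Real.norm_eq_abs] at h3
    have h4 : ‖lie p.1 p.2 w‖ ≤ 8 := le_trans (norm_lie_le p.1 p.2 w) (by linarith)
    calc |fderiv ℝ G v (lie p.1 p.2 (v - w)) + (fderiv ℝ G v - fderiv ℝ G w) (lie p.1 p.2 w)|
        ≤ |fderiv ℝ G v (lie p.1 p.2 (v - w))| + |(fderiv ℝ G v - fderiv ℝ G w) (lie p.1 p.2 w)| :=
          abs_add_le _ _
      _ ≤ C * (4 * ‖v - w‖) + C * ‖v - w‖ * 8 :=
          add_le_add (le_trans h1 (mul_le_mul (hG.b1 v hv) h2 (norm_nonneg _) hC))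
            (le_trans h3 (mul_le_mul (hG.b2 v w hv hw) h4 (norm_nonneg _) (by positivity)))
      _ = 12 * C * ‖v - w‖ := by ring
  have := norm_le_of_entries (by positivity) h
  calc ‖X G v - X G w‖ ≤ N * (12 * C * ‖v - w‖) := this
    _ = 12 * N * C * ‖v - w‖ := by ring

theorem YbAux.sq_sq (τ : ℝ) (v : MM N) : sq τ v ^ 2 = τ ^ 2 + ‖v‖ ^ 2 / 2 := by
  unfold sq
  exact Real.sq_sqrt (by positivity)

theorem sq_one_le (v : MM N) : sq 1 v ≤ 1 + ‖v‖ := by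
  apply le_of_sq_le_sq _ (by positivity)
  rw [YbAux.sq_sq]
  nlinarith [norm_nonneg v, sq_nonneg ‖v‖]

theorem YbAux.norm_le (v : MM N) : ‖v‖ ≤ 3 / 2 * sq 1 v := by
  have hs := sq_pos one_pos v
  apply le_of_sq_le_sq _ (by positivity)
  have := norm_sq_le_sq 1 v
  nlinarith [sq_nonneg (sq 1 v)]

theorem sq_one_lip (v w : MM N) : |sq 1 v - sq 1 w| ≤ ‖v - w‖ := by
  have hs := sq_pos one_pos v
  have ht := sq_pos one_pos w
  have h1 := YbAux.sq_sq 1 v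
  have h2 := YbAux.sq_sq 1 w
  have h3 := YbAux.norm_le v
  have h4 := YbAux.norm_le w
  have h5 := abs_norm_sub_norm_le v w
  have hv := norm_nonneg v
  have hw := norm_nonneg w
  have hvw := norm_nonneg (v - w)
  have e : (sq 1 v - sq 1 w) * (sq 1 v + sq 1 w) = (‖v‖ - ‖w‖) * ((‖v‖ + ‖w‖) / 2) := by
    nlinarith
  have e2 : |sq 1 v - sq 1 w| * (sq 1 v + sq 1 w) = |‖v‖ - ‖w‖| * ((‖v‖ + ‖w‖) / 2) := by
    have := congrArg abs e
    rw [abs_mul, abs_mul, abs_of_pos (add_pos hs ht),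
      abs_of_nonneg (by positivity : (0 : ℝ) ≤ (‖v‖ + ‖w‖) / 2)] at this
    exact this
  have h6 : |sq 1 v - sq 1 w| * (sq 1 v + sq 1 w) ≤ ‖v - w‖ * (sq 1 v + sq 1 w) := by
    rw [e2]
    refine mul_le_mul h5 ?_ (by positivity) hvw
    linarith
  exact le_of_mul_le_mul_right h6 (add_pos hs ht)

theorem YbAux.norm_X_u {G : MM N → ℝ} {C : ℝ} (hG : Bd G C) (v : MM N) :
    ‖X G ((sq 1 v)⁻¹ • v)‖ ≤ 6 * N * C := by
  have hC : 0 ≤ C := le_trans zero_le_one hG.one_le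
  have hu := norm_inv_sq_smul_le one_pos v
  have h1 := norm_X_le hG (le_trans hu (by norm_num))
  refine le_trans h1 ?_
  calc 4 * N * C * ‖(sq 1 v)⁻¹ • v‖ ≤ 4 * N * C * (3 / 2) :=
        mul_le_mul_of_nonneg_left hu (by positivity)
    _ = 6 * N * C := by ring

theorem norm_Y_le {G : MM N → ℝ} {C : ℝ} (hG : Bd G C) (v : MM N) :
    ‖Y G v‖ ≤ 6 * N * C * (1 + ‖v‖) := by
  have hC : 0 ≤ C := le_trans zero_le_one hG.one_le
  have hs := sq_pos one_pos v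
  unfold Y
  rw [norm_smul, Real.norm_eq_abs, abs_of_pos hs, mul_comm]
  exact mul_le_mul (YbAux.norm_X_u hG v) (sq_one_le v) hs.le (by positivity)

theorem Y_lip {G : MM N → ℝ} {C : ℝ} (hG : Bd G C) (v w : MM N) :
    ‖Y G v - Y G w‖ ≤ 40 * N * C * ‖v - w‖ := by
  have hC : 0 ≤ C := le_trans zero_le_one hG.one_le
  have hs := sq_pos one_pos v
  have ht := sq_pos one_pos w
  have hu := norm_inv_sq_smul_le one_pos v
  have hu' := norm_inv_sq_smul_le one_pos w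
  have hl := sq_one_lip v w
  have hwn := YbAux.norm_le w
  have hXu' := YbAux.norm_X_u hG w
  have hX := X_lip hG (le_trans hu (by norm_num : (3 : ℝ) / 2 ≤ 2))
    (le_trans hu' (by norm_num : (3 : ℝ) / 2 ≤ 2))
  unfold Y
  set s := sq 1 v with hsd
  set t := sq 1 w with htd
  have hN : (0 : ℝ) ≤ N := Nat.cast_nonneg N
  have hd : s * ‖s⁻¹ • v - t⁻¹ • w‖ ≤ 5 / 2 * ‖v - w‖ := by
    have e : s * ‖s⁻¹ • v - t⁻¹ • w‖ = ‖(v - w) + ((t - s) * t⁻¹) • w‖ := by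
      have : s * ‖s⁻¹ • v - t⁻¹ • w‖ = ‖s • (s⁻¹ • v - t⁻¹ • w)‖ := by
        rw [norm_smul, Real.norm_eq_abs, abs_of_pos hs]
      rw [this]
      congr 1
      rw [smul_sub, smul_smul, smul_smul, mul_inv_cancel₀ hs.ne', one_smul, sub_mul,
        mul_inv_cancel₀ ht.ne', sub_smul, one_smul]
      abel
    rw [e]
    refine le_trans (norm_add_le _ _) ?_
    rw [norm_smul, Real.norm_eq_abs, abs_mul, abs_of_pos (inv_pos.2 ht), mul_assoc]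
    have h1 : t⁻¹ * ‖w‖ ≤ 3 / 2 := by
      rw [inv_mul_le_iff₀ ht]
      linarith
    have h2 : |t - s| ≤ ‖v - w‖ := by rw [abs_sub_comm]; exact hl
    have h3 : |t - s| * (t⁻¹ * ‖w‖) ≤ ‖v - w‖ * (3 / 2) :=
      mul_le_mul h2 h1 (by positivity) (norm_nonneg _)
    linarith
  have e : s • X G (s⁻¹ • v) - t • X G (t⁻¹ • w) =
      s • (X G (s⁻¹ • v) - X G (t⁻¹ • w)) + (s - t) • X G (t⁻¹ • w) := by
    rw [smul_sub, sub_smul]
    abel
  rw [e]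
  refine le_trans (norm_add_le _ _) ?_
  rw [norm_smul, norm_smul, Real.norm_eq_abs, Real.norm_eq_abs, abs_of_pos hs]
  have h1 : s * ‖X G (s⁻¹ • v) - X G (t⁻¹ • w)‖ ≤ 12 * N * C * (5 / 2 * ‖v - w‖) := by
    calc s * ‖X G (s⁻¹ • v) - X G (t⁻¹ • w)‖ ≤ s * (12 * N * C * ‖s⁻¹ • v - t⁻¹ • w‖) :=
          mul_le_mul_of_nonneg_left hX hs.le
      _ = 12 * N * C * (s * ‖s⁻¹ • v - t⁻¹ • w‖) := by ring
      _ ≤ 12 * N * C * (5 / 2 * ‖v - w‖) := mul_le_mul_of_nonneg_left hd (by positivity)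
  have h2 : |s - t| * ‖X G (t⁻¹ • w)‖ ≤ ‖v - w‖ * (6 * N * C) :=
    mul_le_mul hl hXu' (norm_nonneg _) (norm_nonneg _)
  have h3 : 0 ≤ N * C * ‖v - w‖ := by positivity
  calc s * ‖X G (s⁻¹ • v) - X G (t⁻¹ • w)‖ + |s - t| * ‖X G (t⁻¹ • w)‖
      ≤ 12 * N * C * (5 / 2 * ‖v - w‖) + ‖v - w‖ * (6 * N * C) := add_le_add h1 h2
    _ = 36 * (N * C * ‖v - w‖) := by ring
    _ ≤ 40 * (N * C * ‖v - w‖) := by linarith
    _ = 40 * N * C * ‖v - w‖ := by ring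

theorem Y_scale {G : MM N → ℝ} {C : ℝ} (hG : Bd G C) {q : MM N} (hq : ‖q‖ ^ 2 = 2) {r : ℝ}
    (hr : 0 ≤ r) : ‖Y G (r • q) - r • X G q‖ ≤ 25 * N * C := by
  have hC : 0 ≤ C := le_trans zero_le_one hG.one_le
  have hN : (0 : ℝ) ≤ N := Nat.cast_nonneg N
  have hq2 : ‖q‖ ≤ 3 / 2 := by
    apply le_of_sq_le_sq _ (by norm_num)
    rw [hq]
    norm_num
  have hs := sq_pos one_pos (r • q)
  have hss := YbAux.sq_sq 1 (r • q)
  have hu := norm_inv_sq_smul_le one_pos (r • q)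
  have hX := X_lip hG (le_trans hu (by norm_num : (3 : ℝ) / 2 ≤ 2))
    (le_trans hq2 (by norm_num : (3 : ℝ) / 2 ≤ 2))
  have hXq := norm_X_le hG (le_trans hq2 (by norm_num : (3 : ℝ) / 2 ≤ 2))
  unfold Y
  set s := sq 1 (r • q) with hsd
  have hss' : s ^ 2 = 1 + r ^ 2 := by
    rw [hss, norm_smul, Real.norm_eq_abs, abs_of_nonneg hr, mul_pow, hq]
    ring
  have h1 : r ≤ s := by
    apply le_of_sq_le_sq _ hs.le
    linarith
  have h2 : s - r ≤ 1 := by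
    have : s ≤ 1 + r := by
      apply le_of_sq_le_sq _ (by positivity)
      nlinarith
    linarith
  have hd : s * ‖s⁻¹ • r • q - q‖ = (s - r) * ‖q‖ := by
    have : s * ‖s⁻¹ • r • q - q‖ = ‖s • (s⁻¹ • r • q - q)‖ := by
      rw [norm_smul, Real.norm_eq_abs, abs_of_pos hs]
    rw [this, smul_sub, smul_smul, mul_inv_cancel₀ hs.ne', one_smul, ← sub_smul, norm_smul,
      Real.norm_eq_abs, abs_sub_comm, abs_of_nonneg (by linarith)]
  have e : s • X G (s⁻¹ • r • q) - r • X G q =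
      s • (X G (s⁻¹ • r • q) - X G q) + (s - r) • X G q := by
    rw [smul_sub, sub_smul]
    abel
  rw [e]
  refine le_trans (norm_add_le _ _) ?_
  rw [norm_smul, norm_smul, Real.norm_eq_abs, Real.norm_eq_abs, abs_of_pos hs,
    abs_of_nonneg (by linarith : 0 ≤ s - r)]
  have h3 : s * ‖X G (s⁻¹ • r • q) - X G q‖ ≤ 12 * N * C * ((s - r) * ‖q‖) := by
    calc s * ‖X G (s⁻¹ • r • q) - X G q‖ ≤ s * (12 * N * C * ‖s⁻¹ • r • q - q‖) :=
          mul_le_mul_of_nonneg_left hX hs.le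
      _ = 12 * N * C * (s * ‖s⁻¹ • r • q - q‖) := by ring
      _ = 12 * N * C * ((s - r) * ‖q‖) := by rw [hd]
  have h4 : (s - r) * ‖X G q‖ ≤ (s - r) * (4 * N * C * ‖q‖) :=
    mul_le_mul_of_nonneg_left hXq (by linarith)
  have h5 : (s - r) * ‖q‖ ≤ 1 * (3 / 2) :=
    mul_le_mul h2 hq2 (norm_nonneg _) (by norm_num)
  have h6 : 0 ≤ N * C := by positivity
  calc s * ‖X G (s⁻¹ • r • q) - X G q‖ + (s - r) * ‖X G q‖
      ≤ 12 * N * C * ((s - r) * ‖q‖) + (s - r) * (4 * N * C * ‖q‖) := add_le_add h3 h4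
    _ = 16 * (N * C) * ((s - r) * ‖q‖) := by ring
    _ ≤ 16 * (N * C) * (1 * (3 / 2)) := mul_le_mul_of_nonneg_left h5 (by positivity)
    _ ≤ 25 * N * C := by nlinarith

theorem sq_smul_X (G : MM N → ℝ) {τ : ℝ} (hτ : 0 < τ) (v : MM N) :
    sq τ v • X G ((sq τ v)⁻¹ • v) = τ • Y G (τ⁻¹ • v) := by
  have e : sq τ v = τ * sq 1 (τ⁻¹ • v) := by
    have h0 : 0 ≤ τ * sq 1 (τ⁻¹ • v) := mul_nonneg hτ.le (sq_pos one_pos _).le
    have h1 : sq τ v ^ 2 = (τ * sq 1 (τ⁻¹ • v)) ^ 2 := by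
      rw [mul_pow, YbAux.sq_sq, YbAux.sq_sq, norm_smul, norm_inv, Real.norm_eq_abs,
        abs_of_pos hτ]
      field_simp
    have h2 : 0 ≤ sq τ v := (sq_pos hτ v).le
    exact (pow_left_inj₀ h2 h0 (by norm_num)).1 h1
  unfold Y
  rw [e, smul_smul, mul_inv, smul_smul, mul_comm τ⁻¹]

end NDG
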