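import Pool.Agent.Lib.NDG.ActD
import Pool.Agent.Lib.NDG.Yb

/-!
Module CritEq (2.5h). Critical chains are discrete trajectories.
PROOF. For i : Fin M let a_i, b_i be the vectors with D1 i v = (a_i, v), D2 i v = (b_i, v) (Riesz; D1, D2 are linear and continuous in v). Then, with x = y i.castSucc, z = y i.succ, m = M wedge x z:
  a_i = - M (z - x) - g1, b_i = M (z - x) - g2 with ||g1||, ||g2|| ≤ 5 C (`hh_dx_le`, `hh_dy_le`), so
  (1) - wedge x a_i = m + wedge x g1,   wedge z b_i = m - wedge z g2   (wedge x x = 0, wedge z x = - wedge x z), and ||wedge x g1|| ≤ 3/2 * 5 C ≤ 10 C.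
  (2) (wedge z b_i + wedge x a_i)(a,b) = (b_i, rot a b z) + (a_i, rot a b x) (`inner_rot`) = M (z - x, rot (z - x)) - [Dx hh (rot x) + Dy hh (rot z)] = 0 + (sq τ μ • X G (..))(a,b) by `hh_rot`, with
      τ = 1/M, μ = wedge x z ((w, rot a b w) = 0 by `inner_rot`, `wedge_self`); by `sq_smul_X` this is ((1/M) • Y G (M • μ))(a,b).
Put J 0 = - wedge (y 0) a_0 and J i.succ = wedge (y i.succ) b_i (Fin.cases). Criticality at j = i.castSucc = i'.succ (0 < j < last): for v orthogonal to y j only two terms of `fderiv_tot` remain: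
(a_i + b_i', v) = 0, so wedge (y j) (a_i + b_i') = 0 (`wedge_of_dot`), i.e. J i.castSucc = - wedge (y i.castSucc) a_i; for i = 0 this is the definition. So near0, near1 by (1), step by (2).
Ends: at j = 0: (a_0 + 2 κ max(f(y 0),0) ∇f(y 0), v) = 0 for v orthogonal to y 0 (M ≥ 1, so 0 is not i.succ and not last), J 0 = - wedge (y 0) a_0 = 2 κ max .. wedge (y 0) ∇f. At j = last: b_(M-1) - 2 κ max(-f,0) ∇f is
parallel to y last. (`gradient f x` represents fderiv f x.)
-/

open scoped RealInnerProductSpace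

namespace NDG

variable {N : ℕ}

private noncomputable def g1 (G : ℝ → MM N → ℝ) (M : ℕ) (y : Fin (M + 1) → E N) (i : Fin M) : E N :=
  (InnerProductSpace.toDual ℝ (E N)).symm
    (fderiv ℝ (fun z => hh (G ((i : ℕ) / (M : ℝ))) (1 / (M : ℝ)) z (y i.succ)) (y i.castSucc))

private noncomputable def g2 (G : ℝ → MM N → ℝ) (M : ℕ) (y : Fin (M + 1) → E N) (i : Fin M) : E N :=
  (InnerProductSpace.toDual ℝ (E N)).symm
    (fderiv ℝ (fun z => hh (G ((i : ℕ) / (M : ℝ))) (1 / (M : ℝ)) (y i.castSucc) z) (y i.succ))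

private theorem inner_g1 (G : ℝ → MM N → ℝ) (M : ℕ) (y : Fin (M + 1) → E N) (i : Fin M) (v : E N) :
    ⟪g1 G M y i, v⟫ =
      fderiv ℝ (fun z => hh (G ((i : ℕ) / (M : ℝ))) (1 / (M : ℝ)) z (y i.succ)) (y i.castSucc) v := by
  unfold g1
  rw [InnerProductSpace.toDual_symm_apply]

private theorem inner_g2 (G : ℝ → MM N → ℝ) (M : ℕ) (y : Fin (M + 1) → E N) (i : Fin M) (v : E N) :
    ⟪g2 G M y i, v⟫ =
      fderiv ℝ (fun z => hh (G ((i : ℕ) / (M : ℝ))) (1 / (M : ℝ)) (y i.castSucc) z) (y i.succ) v := by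
  unfold g2
  rw [InnerProductSpace.toDual_symm_apply]

private theorem norm_le_of_inner {g : E N} {c : ℝ} (hc : 0 ≤ c)
    (h : ∀ v, |⟪g, v⟫| ≤ c * ‖v‖) : ‖g‖ ≤ c := by
  have h1 := h g
  rw [real_inner_self_eq_norm_sq, abs_of_nonneg (sq_nonneg _)] at h1
  rcases eq_or_lt_of_le (norm_nonneg g) with h0 | h0
  · rw [← h0]; exact hc
  · nlinarith

/-- the vector of `D1` -/
private noncomputable def av (G : ℝ → MM N → ℝ) (M : ℕ) (y : Fin (M + 1) → E N) (i : Fin M) : E N :=
  -((M : ℝ) • (y i.succ - y i.castSucc)) - g1 G M y i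

/-- the vector of `D2` -/
private noncomputable def bv (G : ℝ → MM N → ℝ) (M : ℕ) (y : Fin (M + 1) → E N) (i : Fin M) : E N :=
  (M : ℝ) • (y i.succ - y i.castSucc) - g2 G M y i

private theorem D1_eq (G : ℝ → MM N → ℝ) (M : ℕ) (y : Fin (M + 1) → E N) (i : Fin M) (v : E N) :
    D1 G M y i v = ⟪av G M y i, v⟫ := by
  unfold D1 av
  conv_rhs => rw [inner_sub_left, inner_neg_left, real_inner_smul_left, inner_g1]

private theorem D2_eq (G : ℝ → MM N → ℝ) (M : ℕ) (y : Fin (M + 1) → E N) (i : Fin M) (v : E N) :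
    D2 G M y i v = ⟪bv G M y i, v⟫ := by
  unfold D2 bv
  conv_rhs => rw [inner_sub_left, real_inner_smul_left, inner_g2]

private theorem wedge_av (G : ℝ → MM N → ℝ) (M : ℕ) (y : Fin (M + 1) → E N) (i : Fin M) :
    -wedge (y i.castSucc) (av G M y i) =
      (M : ℝ) • wedge (y i.castSucc) (y i.succ) + wedge (y i.castSucc) (g1 G M y i) := by
  unfold av
  rw [wedge_sub_right, wedge_neg_right, wedge_smul_right, wedge_sub_right, wedge_self]
  module

private theorem wedge_bv (G : ℝ → MM N → ℝ) (M : ℕ) (y : Fin (M + 1) → E N) (i : Fin M) :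
    wedge (y i.succ) (bv G M y i) =
      (M : ℝ) • wedge (y i.castSucc) (y i.succ) - wedge (y i.succ) (g2 G M y i) := by
  unfold bv
  rw [wedge_sub_right, wedge_smul_right, wedge_sub_right, wedge_self,
    wedge_swap (y i.castSucc) (y i.succ)]
  module

private theorem step_eq {G : ℝ → MM N → ℝ} {M : ℕ} (hM : 1 ≤ M) (i : Fin M)
    (hG : ContDiff ℝ 2 (G ((i : ℕ) / (M : ℝ)))) (y : Fin (M + 1) → E N) :
    wedge (y i.succ) (bv G M y i) + wedge (y i.castSucc) (av G M y i) =
      (1 / (M : ℝ)) • Y (G ((i : ℕ) / (M : ℝ))) ((M : ℝ) • wedge (y i.castSucc) (y i.succ)) := by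
  have hMpos : (0 : ℝ) < M := by exact_mod_cast hM
  have hτ : 0 < 1 / (M : ℝ) := by positivity
  have key := sq_smul_X (G ((i : ℕ) / (M : ℝ))) hτ (wedge (y i.castSucc) (y i.succ))
  have hinv : (1 / (M : ℝ))⁻¹ = M := by rw [one_div, inv_inv]
  rw [hinv] at key
  rw [← key]
  ext p
  obtain ⟨a, b⟩ := p
  have h1 : wedge (y i.succ) (bv G M y i) (a, b) = ⟪bv G M y i, rot a b (y i.succ)⟫ :=
    (inner_rot a b (y i.succ) (bv G M y i)).symm
  have h2 : wedge (y i.castSucc) (av G M y i) (a, b) = ⟪av G M y i, rot a b (y i.castSucc)⟫ :=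
    (inner_rot a b (y i.castSucc) (av G M y i)).symm
  have h3 := hh_rot hG hτ (y i.castSucc) (y i.succ) a b
  rw [← inner_g1 G M y i, ← inner_g2 G M y i] at h3
  have h4 : ⟪y i.succ - y i.castSucc, rot a b (y i.succ - y i.castSucc)⟫ = (0 : ℝ) := by
    rw [inner_rot, wedge_self]; rfl
  rw [rot_sub, inner_sub_right] at h4
  have h5 : (wedge (y i.succ) (bv G M y i) + wedge (y i.castSucc) (av G M y i)) (a, b) =
      wedge (y i.succ) (bv G M y i) (a, b) + wedge (y i.castSucc) (av G M y i) (a, b) := rfl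
  rw [h5, h1, h2]
  unfold av bv
  rw [inner_sub_left, inner_sub_left, inner_neg_left, real_inner_smul_left, real_inner_smul_left]
  have h6 : (M : ℝ) * ⟪y i.succ - y i.castSucc, rot a b (y i.succ)⟫ =
      (M : ℝ) * ⟪y i.succ - y i.castSucc, rot a b (y i.castSucc)⟫ := by
    rw [sub_eq_zero.mp h4]
  linarith

theorem crit_of_isCrit {G : ℝ → MM N → ℝ} {C : ℝ} (hG : ∀ t, 0 ≤ t → t ≤ 1 → Bd (G t) C)
    {f : E N → ℝ} (hf : ContDiff ℝ 1 f) (κ : ℝ) {M : ℕ} (hM : 1 ≤ M) {y : Fin (M + 1) → E N}
    (hy : ∀ i, ‖y i‖ = 1) (hc : IsCrit (tot G f κ M) y) :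
    ∃ J, Crit G C M y J ∧
      J 0 = (2 * κ * max (f (y 0)) 0) • wedge (y 0) (gradient f (y 0)) ∧
      J (Fin.last M) = (2 * κ * max (-f (y (Fin.last M))) 0) •
        wedge (y (Fin.last M)) (gradient f (y (Fin.last M))) := by
  obtain ⟨m, rfl⟩ : ∃ m, M = m + 1 := ⟨M - 1, by omega⟩
  have hMpos : (0 : ℝ) < ((m + 1 : ℕ) : ℝ) := by positivity
  have hτ : 0 < 1 / ((m + 1 : ℕ) : ℝ) := by positivity
  have htime : ∀ i : Fin (m + 1), 0 ≤ ((i : ℕ) : ℝ) / ((m + 1 : ℕ) : ℝ) ∧
      ((i : ℕ) : ℝ) / ((m + 1 : ℕ) : ℝ) ≤ 1 := by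
    intro i
    refine ⟨by positivity, ?_⟩
    rw [div_le_one hMpos]
    exact_mod_cast i.2.le
  have hGd : ∀ t, 0 ≤ t → t ≤ 1 → ContDiff ℝ 2 (G t) := fun t h0 h1 => (hG t h0 h1).smooth
  have hfd := fun (j : Fin (m + 1 + 1)) (v : E N) => fderiv_tot hGd hf κ hM y j v
  have hC : 1 ≤ C := (hG 0 le_rfl zero_le_one).one_le
  have hgrad : ∀ x v : E N, ⟪gradient f x, v⟫ = fderiv ℝ f x v := by
    intro x v
    unfold gradient
    rw [InnerProductSpace.toDual_symm_apply]
  -- the interior relation
  have hint : ∀ j : Fin m, wedge (y j.castSucc.succ) (bv G (m + 1) y j.castSucc) =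
      -wedge (y j.succ.castSucc) (av G (m + 1) y j.succ) := by
    intro j
    have hnode : j.castSucc.succ = j.succ.castSucc := by ext; simp
    have h1 : ∀ v, ⟪v, y j.succ.castSucc⟫ = 0 →
        ⟪v, av G (m + 1) y j.succ + bv G (m + 1) y j.castSucc⟫ = 0 := by
      intro v hv
      have h2 := hc j.succ.castSucc v hv
      rw [hfd] at h2
      have hne0 : j.succ.castSucc ≠ 0 := by
        intro h; exact absurd (congrArg Fin.val h) (by simp)
      have hnel : j.succ.castSucc ≠ Fin.last (m + 1) := by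
        intro h
        have := congrArg Fin.val h
        simp only [Fin.val_castSucc, Fin.val_succ, Fin.val_last] at this
        omega
      rw [if_neg hne0, if_neg hnel, Finset.sum_add_distrib] at h2
      have e1 : (∑ i : Fin (m + 1), if i.castSucc = j.succ.castSucc then D1 G (m + 1) y i v else 0) =
          D1 G (m + 1) y j.succ v := by
        rw [Finset.sum_eq_single j.succ]
        · simp
        · intro b _ hb
          rw [if_neg]
          intro h
          exact hb (Fin.castSucc_injective _ h)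
        · intro h; exact absurd (Finset.mem_univ _) h
      have e2 : (∑ i : Fin (m + 1), if i.succ = j.succ.castSucc then D2 G (m + 1) y i v else 0) =
          D2 G (m + 1) y j.castSucc v := by
        rw [Finset.sum_eq_single j.castSucc]
        · rw [if_pos hnode]
        · intro b _ hb
          rw [if_neg]
          intro h
          rw [← hnode] at h
          exact hb (Fin.succ_injective _ h)
        · intro h; exact absurd (Finset.mem_univ _) h
      rw [e1, e2, D1_eq, D2_eq] at h2
      rw [inner_add_right, real_inner_comm, real_inner_comm (bv G (m + 1) y j.castSucc) v]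
      linarith
    have h3 := wedge_of_dot (hy j.succ.castSucc) h1
    rw [wedge_add_right] at h3
    rw [hnode]
    exact eq_neg_of_add_eq_zero_right h3
  refine ⟨Fin.cases (-wedge (y (0 : Fin (m + 1)).castSucc) (av G (m + 1) y 0))
    (fun i => wedge (y i.succ) (bv G (m + 1) y i)), ?_, ?_, ?_⟩
  · have hcast : ∀ i : Fin (m + 1), (Fin.cases (motive := fun _ => MM N)
        (-wedge (y (0 : Fin (m + 1)).castSucc) (av G (m + 1) y 0))
        (fun i => wedge (y i.succ) (bv G (m + 1) y i)) i.castSucc) =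
        -wedge (y i.castSucc) (av G (m + 1) y i) := by
      intro i
      refine Fin.cases ?_ (fun j => ?_) i
      · rfl
      · have : (j.succ : Fin (m + 1)).castSucc = (j.castSucc).succ := by ext; simp
        rw [← hint j]
        conv_lhs => rw [this]
        rfl
    refine ⟨hy, ?_, ?_, ?_⟩
    · intro i
      rw [hcast i, wedge_av, add_sub_cancel_left]
      have h1 : ‖g1 G (m + 1) y i‖ ≤ 5 * C := by
        apply norm_le_of_inner (by linarith)
        intro v
        rw [inner_g1]
        exact hh_dx_le (hG _ (htime i).1 (htime i).2) hτ (hy _) v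
      have h2 := norm_wedge_le (y i.castSucc) (g1 G (m + 1) y i)
      rw [hy, one_mul] at h2
      linarith
    · intro i
      show ‖wedge (y i.succ) (bv G (m + 1) y i) - _‖ ≤ _
      rw [wedge_bv, sub_sub_cancel_left, norm_neg]
      have h1 : ‖g2 G (m + 1) y i‖ ≤ 5 * C := by
        apply norm_le_of_inner (by linarith)
        intro v
        rw [inner_g2]
        exact hh_dy_le (hG _ (htime i).1 (htime i).2) hτ (hy _) v
      have h2 := norm_wedge_le (y i.succ) (g2 G (m + 1) y i)
      rw [hy, one_mul] at h2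
      linarith
    · intro i
      rw [hcast i]
      show wedge (y i.succ) (bv G (m + 1) y i) - _ = _
      rw [sub_neg_eq_add]
      exact step_eq hM i (hGd _ (htime i).1 (htime i).2) y
  · show -wedge (y (0 : Fin (m + 1)).castSucc) (av G (m + 1) y 0) = _
    have h1 : ∀ v, ⟪v, y 0⟫ = 0 →
        ⟪v, av G (m + 1) y 0 + (2 * κ * max (f (y 0)) 0) • gradient f (y 0)⟫ = 0 := by
      intro v hv
      have h2 := hc 0 v hv
      rw [hfd] at h2
      have hnel : (0 : Fin (m + 1 + 1)) ≠ Fin.last (m + 1) := by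
        intro h
        have := congrArg Fin.val h
        simp at this
      rw [if_pos rfl, if_neg hnel, Finset.sum_add_distrib] at h2
      have e1 : (∑ i : Fin (m + 1), if i.castSucc = (0 : Fin (m + 1 + 1)) then D1 G (m + 1) y i v else 0) =
          D1 G (m + 1) y 0 v := by
        rw [Finset.sum_eq_single 0]
        · simp
        · intro b _ hb
          rw [if_neg]
          intro h
          apply hb
          ext
          have := congrArg Fin.val h
          simpa using this
        · intro h; exact absurd (Finset.mem_univ _) h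
      have e2 : (∑ i : Fin (m + 1), if i.succ = (0 : Fin (m + 1 + 1)) then D2 G (m + 1) y i v else 0) = 0 := by
        apply Finset.sum_eq_zero
        intro b _
        rw [if_neg (Fin.succ_ne_zero b)]
      rw [e1, e2, D1_eq] at h2
      rw [inner_add_right, real_inner_comm, real_inner_smul_right, real_inner_comm (gradient f (y 0)) v,
        hgrad]
      linarith
    have h3 := wedge_of_dot (hy 0) h1
    rw [wedge_add_right, wedge_smul_right] at h3
    have h4 : (0 : Fin (m + 1)).castSucc = (0 : Fin (m + 1 + 1)) := rfl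
    rw [h4]
    exact neg_eq_of_add_eq_zero_right h3
  · show wedge (y (Fin.last m).succ) (bv G (m + 1) y (Fin.last m)) = _
    have hlast : (Fin.last m).succ = Fin.last (m + 1) := rfl
    have h1 : ∀ v, ⟪v, y (Fin.last (m + 1))⟫ = 0 →
        ⟪v, bv G (m + 1) y (Fin.last m) -
          (2 * κ * max (-f (y (Fin.last (m + 1)))) 0) • gradient f (y (Fin.last (m + 1)))⟫ = 0 := by
      intro v hv
      have h2 := hc (Fin.last (m + 1)) v hv
      rw [hfd] at h2
      have hne0 : Fin.last (m + 1) ≠ (0 : Fin (m + 1 + 1)) := by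
        intro h
        have := congrArg Fin.val h
        simp at this
      rw [if_neg hne0, if_pos rfl, Finset.sum_add_distrib] at h2
      have e1 : (∑ i : Fin (m + 1), if i.castSucc = Fin.last (m + 1) then D1 G (m + 1) y i v else 0) = 0 := by
        apply Finset.sum_eq_zero
        intro b _
        rw [if_neg (Fin.castSucc_lt_last b).ne]
      have e2 : (∑ i : Fin (m + 1), if i.succ = Fin.last (m + 1) then D2 G (m + 1) y i v else 0) =
          D2 G (m + 1) y (Fin.last m) v := by
        rw [Finset.sum_eq_single (Fin.last m)]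
        · rw [if_pos hlast]
        · intro b _ hb
          rw [if_neg]
          intro h
          rw [← hlast] at h
          exact hb (Fin.succ_injective _ h)
        · intro h; exact absurd (Finset.mem_univ _) h
      rw [e1, e2, D2_eq] at h2
      rw [inner_sub_right, real_inner_comm, real_inner_smul_right,
        real_inner_comm (gradient f (y (Fin.last (m + 1)))) v, hgrad]
      linarith
    have h3 := wedge_of_dot (hy (Fin.last (m + 1))) h1
    rw [wedge_sub_right, wedge_smul_right] at h3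
    rw [hlast]
    exact sub_eq_zero.mp h3

end NDG
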