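import Pool.Agent.Lib.NDG.Defs

/-!
Module Deform (2.8h). Discrete gradient deformation on the product of spheres S = {y | ∀ i, ||y i|| = 1} (compact).
PROOF. For y let a_i(y) : E N represent v ↦ DA_y(Pi.single i v) (continuous in y, `InnerProductSpace.toDual`), g_i(y) = a_i - (a_i, y_i) y_i; for y in S: g_i is orthogonal to y_i, and y is critical iff all g_i = 0
(for v orthogonal to y_i, (a_i, v) = (g_i, v)). Let q(y) = sum ||g_i||^2. On the compact set {y in S, a ≤ A y ≤ b} the continuous function q is positive, so q ≥ d > 0 there (if the set is empty any d works). Let B be a bound for all ||a_i|| on S,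
so ||g_i|| ≤ B (B ≥ 1).
For 0 ≤ s ≤ 1 let T_s(y)_i = (y_i - s g_i)/n_i, n_i = sqrt(1 + s^2 ||g_i||^2). Then ||T_s(y)_i - y_i|| ≤ 2 s ||g_i||, and
  (T_s(y)_i - y_i, a_i) = (T_s(y)_i - y_i, g_i) + (T_s(y)_i - y_i, y_i)(a_i, y_i) = - s ||g_i||^2/n_i + (1/n_i - 1)(a_i,y_i), with |1/n_i - 1| ≤ s^2 ||g_i||^2, so for s ≤ s_1(B): ≤ - (3/4) s ||g_i||^2.
  Mean value inequality on the segment [y, T_s y] (norms between 0 and 1; the segment lies in the compact convex ball {||z_i|| ≤ 1}, where DA is uniformly continuous): A(T_s y) - A(y) ≤ DA_y(T_s y - y) + w ||T_s y - y|| with w as small as we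
  like for s small; ||T_s y - y|| (sup norm) ≤ 2 s sqrt(q). So if q ≥ d: A(T_s y) ≤ A y - (3/4) s q + 2 w s sqrt q ≤ A y - s q/2 when w ≤ sqrt(d)/8. Choose s0 with this and 2 s0 B ≤ ω.
Let χ(y) = min 1 (max 0 ((A y - a)/(a' - a))), T y = T_(s0 χ(y)) y, continuous on S. For A y ≤ a: T y = y. For a < A y ≤ b: q ≥ d, so A(T y) ≤ A y - s0 χ q/2 ≤ A y. If A y ≥ a' moreover χ = 1: A(T y) ≤ A y - s0 d/2.
So after K ≥ 2 (b - a)/(s0 d) + 1 steps A ≤ a' (once ≤ a' it stays).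
(If a' > b the claims still hold: K = 0 is fine when b ≤ a'.)
-/

open scoped RealInnerProductSpace

namespace NDG

variable {N : ℕ}

namespace DeformAux

variable {M : ℕ}

/-- The rotation of `y` in the direction `-g`, in rational form. -/
noncomputable def Phi (p : ℝ × (Fin (M + 1) → E N) × (Fin (M + 1) → E N)) :
    Fin (M + 1) → E N := fun i =>
  (1 + p.1 ^ 2 * ‖p.2.2 i‖ ^ 2)⁻¹ •
    ((1 - p.1 ^ 2 * ‖p.2.2 i‖ ^ 2) • p.2.1 i - (2 * p.1) • p.2.2 i)

theorem den_pos (s c : ℝ) : 0 < 1 + s ^ 2 * c ^ 2 := by positivity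

theorem phi_contDiff : ContDiff ℝ 1 (Phi (N := N) (M := M)) := by
  refine contDiff_pi.2 fun i => ?_
  have e1 : ContDiff ℝ 1 (fun p : ℝ × (Fin (M + 1) → E N) × (Fin (M + 1) → E N) => p.1) :=
    contDiff_fst
  have e2 : ContDiff ℝ 1 (fun p : ℝ × (Fin (M + 1) → E N) × (Fin (M + 1) → E N) => p.2.1 i) :=
    (contDiff_apply ℝ (E N) i).comp (contDiff_fst.comp contDiff_snd)
  have e3 : ContDiff ℝ 1 (fun p : ℝ × (Fin (M + 1) → E N) × (Fin (M + 1) → E N) => p.2.2 i) :=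
    (contDiff_apply ℝ (E N) i).comp (contDiff_snd.comp contDiff_snd)
  have e4 : ContDiff ℝ 1 (fun p : ℝ × (Fin (M + 1) → E N) × (Fin (M + 1) → E N) =>
      p.1 ^ 2 * ‖p.2.2 i‖ ^ 2) := (e1.pow 2).mul (e3.norm_sq (𝕜 := ℝ))
  exact ((contDiff_const.add e4).inv fun p => (den_pos _ _).ne').smul
    (((contDiff_const.sub e4).smul e2).sub ((contDiff_const.mul e1).smul e3))

theorem phi_zero (y g : Fin (M + 1) → E N) : Phi (0, y, g) = y := by
  funext i
  simp [Phi]

theorem phi_norm {s : ℝ} {y g : Fin (M + 1) → E N} {i : Fin (M + 1)} (hy : ‖y i‖ = 1)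
    (hg : ⟪g i, y i⟫ = 0) : ‖Phi (s, y, g) i‖ = 1 := by
  have h0 := den_pos s ‖g i‖
  have h1 : ‖(1 - s ^ 2 * ‖g i‖ ^ 2) • y i - (2 * s) • g i‖ ^ 2 = (1 + s ^ 2 * ‖g i‖ ^ 2) ^ 2 := by
    rw [@norm_sub_sq_real, norm_smul, norm_smul, inner_smul_left, inner_smul_right,
      real_inner_comm, hg, mul_pow, mul_pow, hy, Real.norm_eq_abs, Real.norm_eq_abs, sq_abs, sq_abs]
    simp
    ring
  have h2 : ‖(1 - s ^ 2 * ‖g i‖ ^ 2) • y i - (2 * s) • g i‖ = 1 + s ^ 2 * ‖g i‖ ^ 2 := by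
    have := (sq_eq_sq₀ (norm_nonneg _) h0.le).1 h1
    exact this
  change ‖(1 + s ^ 2 * ‖g i‖ ^ 2)⁻¹ •
    ((1 - s ^ 2 * ‖g i‖ ^ 2) • y i - (2 * s) • g i)‖ = 1
  rw [norm_smul, h2, Real.norm_eq_abs, abs_of_pos (inv_pos.2 h0), inv_mul_cancel₀ h0.ne']

theorem phi_deriv (y g : Fin (M + 1) → E N) :
    HasDerivAt (fun s : ℝ => Phi (s, y, g)) (-(2 : ℝ) • g) 0 := by
  refine hasDerivAt_pi.2 fun i => ?_
  have e1 : HasDerivAt (fun s : ℝ => s ^ 2 * ‖g i‖ ^ 2) 0 0 := by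
    have := ((hasDerivAt_id (0 : ℝ)).pow 2).mul_const (‖g i‖ ^ 2)
    simpa using this
  have e2 : HasDerivAt (fun s : ℝ => (1 + s ^ 2 * ‖g i‖ ^ 2)⁻¹) 0 0 := by
    have := (e1.const_add 1).fun_inv (by simp)
    exact this.congr_deriv (by simp)
  have e3 : HasDerivAt (fun s : ℝ => (1 - s ^ 2 * ‖g i‖ ^ 2) • y i - (2 * s) • g i)
      (-(2 : ℝ) • g i) 0 := by
    have h1 := (e1.const_sub 1).smul_const (y i)
    have h2 := ((hasDerivAt_id (0 : ℝ)).const_mul 2).smul_const (g i)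
    exact (h1.fun_sub h2).congr_deriv (by simp)
  exact (e2.fun_smul e3).congr_deriv (by simp)

/-- The gradient with respect to the component `i`. -/
noncomputable def ai (A : (Fin (M + 1) → E N) → ℝ) (y : Fin (M + 1) → E N) (i : Fin (M + 1)) :
    E N :=
  (InnerProductSpace.toDual ℝ (E N)).symm
    ((fderiv ℝ A y).comp (ContinuousLinearMap.single ℝ (fun _ : Fin (M + 1) => E N) i))

theorem inner_ai (A : (Fin (M + 1) → E N) → ℝ) (y : Fin (M + 1) → E N) (i : Fin (M + 1))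
    (v : E N) : ⟪ai A y i, v⟫ = fderiv ℝ A y (Pi.single i v) := by
  unfold ai
  rw [InnerProductSpace.toDual_symm_apply]
  rfl

/-- The tangential gradient. -/
noncomputable def gi (A : (Fin (M + 1) → E N) → ℝ) (y : Fin (M + 1) → E N) (i : Fin (M + 1)) :
    E N := ai A y i - ⟪ai A y i, y i⟫ • y i

theorem gi_orth (A : (Fin (M + 1) → E N) → ℝ) {y : Fin (M + 1) → E N} {i : Fin (M + 1)}
    (hy : ‖y i‖ = 1) : ⟪gi A y i, y i⟫ = 0 := by
  unfold gi
  rw [inner_sub_left, inner_smul_left, real_inner_self_eq_norm_sq, hy]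
  simp

theorem inner_ai_gi (A : (Fin (M + 1) → E N) → ℝ) {y : Fin (M + 1) → E N} {i : Fin (M + 1)}
    (hy : ‖y i‖ = 1) : ⟪ai A y i, gi A y i⟫ = ‖gi A y i‖ ^ 2 := by
  have h1 : ai A y i = gi A y i + ⟪ai A y i, y i⟫ • y i := by
    unfold gi
    rw [sub_add_cancel]
  have h2 := gi_orth A hy
  conv_lhs => rw [h1]
  rw [inner_add_left, inner_smul_left, real_inner_self_eq_norm_sq,
    real_inner_comm (gi A y i) (y i), h2]
  simp

theorem gi_cont {A : (Fin (M + 1) → E N) → ℝ} (hA : ContDiff ℝ 1 A) : Continuous (gi A) := by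
  have h1 : Continuous (fderiv ℝ A) := hA.continuous_fderiv one_ne_zero
  refine continuous_pi fun i => ?_
  have h2 : Continuous (fun y => ai A y i) := by
    unfold ai
    exact (InnerProductSpace.toDual ℝ (E N)).symm.continuous.comp
      (h1.clm_comp continuous_const)
  have h3 : Continuous (fun y : Fin (M + 1) → E N => ⟪ai A y i, y i⟫) :=
    h2.inner (continuous_apply i)
  exact h2.sub (h3.smul (continuous_apply i))

theorem fderiv_gi (A : (Fin (M + 1) → E N) → ℝ) {y : Fin (M + 1) → E N}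
    (hy : ∀ i, ‖y i‖ = 1) : fderiv ℝ A y (gi A y) = ∑ i, ‖gi A y i‖ ^ 2 := by
  have h1 : gi A y = ∑ i, Pi.single i (gi A y i) := by
    rw [Finset.univ_sum_single]
  conv_lhs => rw [h1]
  rw [map_sum]
  refine Finset.sum_congr rfl fun i _ => ?_
  rw [← inner_ai, inner_ai_gi A (hy i)]

theorem crit_of_gi {A : (Fin (M + 1) → E N) → ℝ} {y : Fin (M + 1) → E N}
    (h : ∀ i, gi A y i = 0) : IsCrit A y := by
  intro i v hv
  have h1 : ai A y i = ⟪ai A y i, y i⟫ • y i := by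
    have := h i
    unfold gi at this
    exact sub_eq_zero.1 this
  rw [← inner_ai, h1, inner_smul_left, real_inner_comm v (y i), hv, mul_zero]

/-- The derivative with respect to the step size. -/
noncomputable def Dd (A : (Fin (M + 1) → E N) → ℝ) (s : ℝ) (y : Fin (M + 1) → E N) : ℝ :=
  fderiv ℝ (fun p => A (Phi p)) (s, y, gi A y) (1, 0, 0)

theorem Dd_cont {A : (Fin (M + 1) → E N) → ℝ} (hA : ContDiff ℝ 1 A) :
    Continuous (fun p : ℝ × (Fin (M + 1) → E N) => Dd A p.1 p.2) := by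
  have h1 : ContDiff ℝ 1 (fun p : ℝ × (Fin (M + 1) → E N) × (Fin (M + 1) → E N) => A (Phi p)) :=
    hA.comp phi_contDiff
  have h2 := h1.continuous_fderiv one_ne_zero
  have h3 : Continuous (fun p : ℝ × (Fin (M + 1) → E N) => (p.1, p.2, gi A p.2)) :=
    continuous_fst.prodMk (continuous_snd.prodMk ((gi_cont hA).comp continuous_snd))
  exact (h2.comp h3).clm_apply continuous_const

theorem hasDeriv {A : (Fin (M + 1) → E N) → ℝ} (hA : ContDiff ℝ 1 A) (s : ℝ)
    (y : Fin (M + 1) → E N) :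
    HasDerivAt (fun s : ℝ => A (Phi (s, y, gi A y))) (Dd A s y) s := by
  have h1 : ContDiff ℝ 1 (fun p : ℝ × (Fin (M + 1) → E N) × (Fin (M + 1) → E N) => A (Phi p)) :=
    hA.comp phi_contDiff
  have h2 := (h1.differentiable one_ne_zero (s, y, gi A y)).hasFDerivAt
  have h3 : HasDerivAt (fun s : ℝ => (s, y, gi A y)) ((1 : ℝ), (0 : Fin (M + 1) → E N),
      (0 : Fin (M + 1) → E N)) s :=
    (hasDerivAt_id s).prodMk (hasDerivAt_const s (y, gi A y))
  exact h2.comp_hasDerivAt s h3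

theorem Dd_zero {A : (Fin (M + 1) → E N) → ℝ} (hA : ContDiff ℝ 1 A) {y : Fin (M + 1) → E N}
    (hy : ∀ i, ‖y i‖ = 1) : Dd A 0 y = -2 * ∑ i, ‖gi A y i‖ ^ 2 := by
  have h1 := hasDeriv hA 0 y
  have h2 : HasFDerivAt A (fderiv ℝ A y) (Phi (0, y, gi A y)) := by
    rw [phi_zero]
    exact (hA.differentiable one_ne_zero y).hasFDerivAt
  have h3 := h2.comp_hasDerivAt (0 : ℝ) (phi_deriv y (gi A y))
  have h4 := h1.unique h3
  rw [h4, map_smul, fderiv_gi A hy, smul_eq_mul]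

/-- For small steps the function decreases with a definite speed. -/
theorem exists_step {A : (Fin (M + 1) → E N) → ℝ} (hA : ContDiff ℝ 1 A) {a b : ℝ}
    (hcrit : ∀ y, (∀ i, ‖y i‖ = 1) → a ≤ A y → A y ≤ b → ¬ IsCrit A y) {ω : ℝ} (hω : 0 < ω) :
    ∃ s₀ d : ℝ, 0 < s₀ ∧ 0 < d ∧
      (∀ y, (∀ i, ‖y i‖ = 1) → a ≤ A y → A y ≤ b → ∀ s, 0 ≤ s → s ≤ s₀ →
        A (Phi (s, y, gi A y)) ≤ A y - d * s) ∧
      (∀ y, (∀ i, ‖y i‖ = 1) → ∀ s, 0 ≤ s → s ≤ s₀ → ∀ i,
        ‖Phi (s, y, gi A y) i - y i‖ ≤ ω) := by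
  have hS : IsCompact {y : Fin (M + 1) → E N | ∀ i, ‖y i‖ = 1} := by
    have h1 : {y : Fin (M + 1) → E N | ∀ i, ‖y i‖ = 1} =
        Set.univ.pi (fun _ => Metric.sphere (0 : E N) 1) := by
      ext y
      simp [Set.mem_pi]
    rw [h1]
    exact isCompact_univ_pi fun _ => isCompact_sphere 0 1
  have hC : IsCompact ({y : Fin (M + 1) → E N | ∀ i, ‖y i‖ = 1} ∩
      (A ⁻¹' Set.Icc a b)) := hS.inter_right (isClosed_Icc.preimage hA.continuous)
  have hD := Dd_cont hA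
  -- a bound for the derivative at `0`
  obtain ⟨d, hd, hd'⟩ : ∃ d : ℝ, 0 < d ∧ ∀ y ∈ ({y : Fin (M + 1) → E N | ∀ i, ‖y i‖ = 1} ∩
      (A ⁻¹' Set.Icc a b)), Dd A 0 y < -d := by
    rcases Set.eq_empty_or_nonempty ({y : Fin (M + 1) → E N | ∀ i, ‖y i‖ = 1} ∩
      (A ⁻¹' Set.Icc a b)) with he | hne
    · refine ⟨1, one_pos, fun y hy => ?_⟩
      rw [he] at hy
      exact hy.elim
    · obtain ⟨y0, hy0, hmax⟩ := hC.exists_isMaxOn hne (f := fun y => Dd A 0 y)
        (hD.comp (continuous_const.prodMk continuous_id)).continuousOn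
      have h1 : Dd A 0 y0 < 0 := by
        rw [Dd_zero hA hy0.1]
        have h2 : 0 < ∑ i, ‖gi A y0 i‖ ^ 2 := by
          by_contra hcon
          have h3 : ∑ i, ‖gi A y0 i‖ ^ 2 = 0 :=
            le_antisymm (not_lt.1 hcon) (Finset.sum_nonneg fun i _ => sq_nonneg _)
          rw [Finset.sum_eq_zero_iff_of_nonneg fun i _ => sq_nonneg _] at h3
          refine hcrit y0 hy0.1 hy0.2.1 hy0.2.2 (crit_of_gi fun i => ?_)
          exact norm_eq_zero.1 (pow_eq_zero_iff two_ne_zero |>.1 (h3 i (Finset.mem_univ i)))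
        linarith
      refine ⟨-(Dd A 0 y0) / 2, by linarith, fun y hy => ?_⟩
      have h2 : Dd A 0 y ≤ Dd A 0 y0 := hmax hy
      linarith
  have ev1 : ∀ᶠ s in nhds (0 : ℝ), ∀ y ∈ ({y : Fin (M + 1) → E N | ∀ i, ‖y i‖ = 1} ∩
      (A ⁻¹' Set.Icc a b)), Dd A s y < -d := by
    refine hC.eventually_forall_of_forall_eventually fun y hy => ?_
    exact (hD.tendsto (0, y)).eventually (Iio_mem_nhds (hd' y hy))
  have hPc : Continuous (fun p : ℝ × (Fin (M + 1) → E N) => Phi (p.1, p.2, gi A p.2)) :=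
    phi_contDiff.continuous.comp
      (continuous_fst.prodMk (continuous_snd.prodMk ((gi_cont hA).comp continuous_snd)))
  have ev2 : ∀ᶠ s in nhds (0 : ℝ), ∀ y ∈ {y : Fin (M + 1) → E N | ∀ i, ‖y i‖ = 1},
      ‖Phi (s, y, gi A y) - y‖ < ω := by
    refine hS.eventually_forall_of_forall_eventually fun y _ => ?_
    have h1 : Continuous (fun p : ℝ × (Fin (M + 1) → E N) =>
      ‖Phi (p.1, p.2, gi A p.2) - p.2‖) := (hPc.sub continuous_snd).norm
    refine (h1.tendsto (0, y)).eventually (Iio_mem_nhds ?_)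
    change ‖Phi (0, y, gi A y) - y‖ < ω
    rw [phi_zero, sub_self, norm_zero]
    exact hω
  obtain ⟨δ, hδ, hball⟩ := Metric.eventually_nhds_iff.1 (ev1.and ev2)
  refine ⟨δ / 2, d, by linarith, hd, ?_, ?_⟩
  · intro y hy h1 h2 s hs0 hs1
    have hmv := (convex_Icc (0 : ℝ) s).image_sub_le_mul_sub_of_deriv_le
      (f := fun s : ℝ => A (Phi (s, y, gi A y))) (C := -d)
      (fun t _ => (hasDeriv hA t y).continuousAt.continuousWithinAt)
      (fun t _ => (hasDeriv hA t y).differentiableAt.differentiableWithinAt) (fun t ht => ?_)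
      0 ⟨le_rfl, hs0⟩ s ⟨hs0, le_rfl⟩ hs0
    · simp only [phi_zero] at hmv
      linarith
    · rw [(hasDeriv hA t y).deriv]
      rw [interior_Icc] at ht
      refine ((hball (y := t) ?_).1 y ⟨hy, h1, h2⟩).le
      rw [Real.dist_eq, sub_zero, abs_of_pos ht.1]
      linarith [ht.2]
  · intro y hy s hs0 hs1 i
    have h1 := (hball (y := s) (by
      rw [Real.dist_eq, sub_zero, abs_of_nonneg hs0]
      linarith)).2 y hy
    exact (norm_le_pi_norm (Phi (s, y, gi A y) - y) i).trans h1.le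

end DeformAux

open DeformAux in
theorem deform {M : ℕ} (A : (Fin (M + 1) → E N) → ℝ) (hA : ContDiff ℝ 1 A) {a a' b : ℝ}
    (haa : a < a') (hcrit : ∀ y, (∀ i, ‖y i‖ = 1) → a ≤ A y → A y ≤ b → ¬ IsCrit A y) {ω : ℝ}
    (hω : 0 < ω) :
    ∃ (K : ℕ) (T : (Fin (M + 1) → E N) → Fin (M + 1) → E N),
      (∀ y, (∀ i, ‖y i‖ = 1) → ∀ i, ‖T y i‖ = 1) ∧
      ContinuousOn T {y | ∀ i, ‖y i‖ = 1} ∧
      (∀ y, (∀ i, ‖y i‖ = 1) → A y ≤ b → A (T y) ≤ A y) ∧
      (∀ y, (∀ i, ‖y i‖ = 1) → ∀ i, ‖T y i - y i‖ ≤ ω) ∧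
      (∀ y, (∀ i, ‖y i‖ = 1) → A y ≤ b → A (T^[K] y) ≤ a') := by
  obtain ⟨s₀, d, hs₀, hd, hstep, hclose⟩ := exists_step hA hcrit hω
  have ha' : 0 < a' - a := by linarith
  set χ : (Fin (M + 1) → E N) → ℝ := fun y => min 1 (max 0 ((A y - a) / (a' - a))) with hχ
  have χ0 : ∀ y, 0 ≤ χ y := fun y => le_min zero_le_one (le_max_left _ _)
  have χ1 : ∀ y, χ y ≤ 1 := fun y => min_le_left _ _
  have χc : Continuous χ :=
    continuous_const.min (continuous_const.max ((hA.continuous.sub continuous_const).div_const _))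
  set T : (Fin (M + 1) → E N) → Fin (M + 1) → E N := fun y => Phi (s₀ * χ y, y, gi A y) with hT
  have s0 : ∀ y, 0 ≤ s₀ * χ y := fun y => mul_nonneg hs₀.le (χ0 y)
  have s1 : ∀ y, s₀ * χ y ≤ s₀ := fun y => mul_le_of_le_one_right hs₀.le (χ1 y)
  have t1 : ∀ y, (∀ i, ‖y i‖ = 1) → ∀ i, ‖T y i‖ = 1 := fun y hy i =>
    phi_norm (hy i) (gi_orth A (hy i))
  have t3 : ∀ y, (∀ i, ‖y i‖ = 1) → A y ≤ b → A (T y) ≤ A y - d * (s₀ * χ y) := by
    intro y hy hb
    by_cases h1 : a ≤ A y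
    · exact hstep y hy h1 hb _ (s0 y) (s1 y)
    · have h2 : χ y = 0 := by
        have h3 : (A y - a) / (a' - a) ≤ 0 :=
          div_nonpos_of_nonpos_of_nonneg (by linarith) ha'.le
        rw [hχ]
        simp only
        rw [max_eq_left h3]
        exact min_eq_right zero_le_one
      have h3 : T y = y := by
        rw [hT]
        simp only
        rw [h2, mul_zero, phi_zero]
      rw [h3, h2]
      simp
  have t3' : ∀ y, (∀ i, ‖y i‖ = 1) → A y ≤ b → A (T y) ≤ A y := by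
    intro y hy hb
    have h1 := t3 y hy hb
    have h2 : 0 ≤ d * (s₀ * χ y) := mul_nonneg hd.le (s0 y)
    linarith
  obtain ⟨K, hK⟩ := exists_nat_ge ((b - a') / (d * s₀))
  have hds : 0 < d * s₀ := mul_pos hd hs₀
  refine ⟨K, T, t1, ?_, t3', fun y hy i => hclose y hy _ (s0 y) (s1 y) i, ?_⟩
  · refine Continuous.continuousOn ?_
    exact phi_contDiff.continuous.comp
      ((continuous_const.mul χc).prodMk (continuous_id.prodMk (gi_cont hA)))
  · intro y hy hb
    have hit : ∀ k : ℕ, (∀ i, ‖T^[k] y i‖ = 1) ∧ A (T^[k] y) ≤ b ∧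
        (A (T^[k] y) ≤ a' ∨ A (T^[k] y) ≤ b - k * (d * s₀)) := by
      intro k
      induction k with
      | zero => exact ⟨hy, hb, Or.inr (by simpa using hb)⟩
      | succ k ih =>
        obtain ⟨i1, i2, i3⟩ := ih
        rw [Function.iterate_succ_apply']
        have h1 := t3' _ i1 i2
        refine ⟨t1 _ i1, h1.trans i2, ?_⟩
        by_cases h2 : A (T^[k] y) ≤ a'
        · exact Or.inl (h1.trans h2)
        · right
          have h3 := i3.resolve_left h2
          have h4 := t3 _ i1 i2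
          have h5 : χ (T^[k] y) = 1 := by
            have h6 : 1 ≤ (A (T^[k] y) - a) / (a' - a) := by
              rw [one_le_div ha']
              linarith [not_le.1 h2]
            rw [hχ]
            simp only
            exact min_eq_left (h6.trans (le_max_right _ _))
          rw [h5, mul_one] at h4
          push_cast
          linarith
    rcases (hit K).2.2 with h | h
    · exact h
    · have h1 : b - a' ≤ K * (d * s₀) := (div_le_iff₀ hds).1 hK
      linarith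

end NDG
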