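import Mathlib

/-! MP_0eef51 (Hamiltonian non-displaceability of Gauss images): definitions.

`E N` is Euclidean space, `MM N` the space of `N x N` matrices with the Euclidean norm.  A chain is a sequence
`y 0, ..., y M` of unit vectors of `E N`; `act G M y` is its discrete action. -/

open scoped RealInnerProductSpace

namespace NDG

/-- Euclidean space -/
abbrev E (N : ℕ) : Type := EuclideanSpace ℝ (Fin N)

/-- matrices with the Euclidean norm -/
abbrev MM (N : ℕ) : Type := EuclideanSpace ℝ (Fin N × Fin N)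

variable {N : ℕ}

/-- the bivector `x y^T - y x^T` -/
noncomputable def wedge (x y : E N) : MM N :=
  WithLp.toLp 2 (fun p => x p.1 * y p.2 - y p.1 * x p.2)

/-- the elementary infinitesimal rotation: `x_a e_b - x_b e_a` -/
noncomputable def rot (a b : Fin N) (x : E N) : E N :=
  x a • EuclideanSpace.single b 1 - x b • EuclideanSpace.single a 1

/-- the elementary infinitesimal rotation of matrices: the commutator with `e_b e_a^T - e_a e_b^T` -/
noncomputable def lie (a b : Fin N) (v : MM N) : MM N :=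
  WithLp.toLp 2 (fun p => (if p.1 = b then v (a, p.2) else 0) - (if p.1 = a then v (b, p.2) else 0)
    + (if p.2 = b then v (p.1, a) else 0) - (if p.2 = a then v (p.1, b) else 0))

/-- the (Lie-Poisson) vector field of a function on matrices -/
noncomputable def X (G : MM N → ℝ) (v : MM N) : MM N :=
  WithLp.toLp 2 (fun p => - fderiv ℝ G v (lie p.1 p.2 v))

/-- regularised length of a bivector -/
noncomputable def sq (τ : ℝ) (v : MM N) : ℝ := Real.sqrt (τ ^ 2 + ‖v‖ ^ 2 / 2)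

/-- the perturbation term of the action -/
noncomputable def hh (G : MM N → ℝ) (τ : ℝ) (x y : E N) : ℝ :=
  sq τ (wedge x y) * G ((sq τ (wedge x y))⁻¹ • wedge x y)

/-- the homogenised vector field -/
noncomputable def Y (G : MM N → ℝ) (v : MM N) : MM N := sq 1 v • X G ((sq 1 v)⁻¹ • v)

/-- the bounds used for the Hamiltonian at a fixed time -/
structure Bd (G : MM N → ℝ) (C : ℝ) : Prop where
  one_le : 1 ≤ C
  smooth : ContDiff ℝ 2 G
  b0 : ∀ v, ‖v‖ ≤ 2 → |G v| ≤ C
  b1 : ∀ v, ‖v‖ ≤ 2 → ‖fderiv ℝ G v‖ ≤ C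
  b2 : ∀ v w, ‖v‖ ≤ 2 → ‖w‖ ≤ 2 → ‖fderiv ℝ G v - fderiv ℝ G w‖ ≤ C * ‖v - w‖

/-- squared total variation of a chain -/
noncomputable def dsum2 (M : ℕ) (y : Fin (M + 1) → E N) : ℝ :=
  ∑ i : Fin M, ‖y i.succ - y i.castSucc‖ ^ 2

/-- length of a chain -/
noncomputable def dsum (M : ℕ) (y : Fin (M + 1) → E N) : ℝ :=
  ∑ i : Fin M, ‖y i.succ - y i.castSucc‖

/-- the action of a chain; the piece `i` is at the time `i / M` -/
noncomputable def act (G : ℝ → MM N → ℝ) (M : ℕ) (y : Fin (M + 1) → E N) : ℝ :=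
  ∑ i : Fin M, ((M : ℝ) / 2 * ‖y i.succ - y i.castSucc‖ ^ 2
    - hh (G ((i : ℕ) / (M : ℝ))) (1 / (M : ℝ)) (y i.castSucc) (y i.succ))

/-- the penalty at the two ends -/
noncomputable def pen (f : E N → ℝ) (κ : ℝ) (x y : E N) : ℝ :=
  κ * (max (f x) 0) ^ 2 + κ * (max (-f y) 0) ^ 2

/-- the total function -/
noncomputable def tot (G : ℝ → MM N → ℝ) (f : E N → ℝ) (κ : ℝ) (M : ℕ) (y : Fin (M + 1) → E N) : ℝ :=
  act G M y + pen f κ (y 0) (y (Fin.last M))

/-- critical points of a function on the product of spheres -/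
def IsCrit {M : ℕ} (A : (Fin (M + 1) → E N) → ℝ) (y : Fin (M + 1) → E N) : Prop :=
  ∀ i v, ⟪v, y i⟫ = 0 → fderiv ℝ A y (Pi.single i v) = 0

/-- discrete trajectories -/
structure Crit (G : ℝ → MM N → ℝ) (C : ℝ) (M : ℕ) (y : Fin (M + 1) → E N)
    (J : Fin (M + 1) → MM N) : Prop where
  unit : ∀ i, ‖y i‖ = 1
  near0 : ∀ i : Fin M, ‖J i.castSucc - (M : ℝ) • wedge (y i.castSucc) (y i.succ)‖ ≤ 10 * C
  near1 : ∀ i : Fin M, ‖J i.succ - (M : ℝ) • wedge (y i.castSucc) (y i.succ)‖ ≤ 10 * C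
  step : ∀ i : Fin M, J i.succ - J i.castSucc =
    (1 / (M : ℝ)) • Y (G ((i : ℕ) / (M : ℝ))) ((M : ℝ) • wedge (y i.castSucc) (y i.succ))

end NDG
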