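import Pool.Agent.Lib.NDG.Yb

/-!
Module Euler (2h). Comparison of a discrete trajectory with a solution of the differential equation.
* `euler`: e_i = ||J i - r0 q(i/M)||, m_i = M wedge (y i)(y (i+1)), G_i = G(i/M), q_i = q(i/M):
  J (i+1) - r0 q_(i+1) = (J i - r0 q_i) + (1/M)[Y G_i m_i - r0 X G_i q_i] - r0 [q_(i+1) - q_i - (1/M) X G_i q_i],
  ||Y G_i m_i - r0 X G_i q_i|| ≤ ||Y m_i - Y (r0 q_i)|| + 25 N C ≤ 40 N C (||m_i - J i|| + e_i) + 25 N C ≤ 40 N C (10 C + e_i) + 25 N C (`Y_lip`, `Y_scale`).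
  So e_(i+1) ≤ (1 + L/M) e_i + B/M, L = 40 N C, B = 425 N C^2 + r0 w (C ≥ 1). By induction e_i ≤ (1 + L/M)^i (e_0 + i B/M), so e_M ≤ exp(L)(e_0 + B).
* `mod_ode`: Z(t) = X (G t)(q t) is continuous on [0,1] (each entry is - fderiv (G t)(q t)(lie a b (q t)), hGc), hence uniformly continuous: for given w > 0 there is M₀ with ||Z(s) - Z(t)|| ≤ w if |s - t| ≤ 1/M₀. On
  [t, t + 1/M], t = i/M, the function s ↦ q s - (s - t) Z(t) has derivative Z(s) - Z(t) of norm ≤ w; mean value inequality.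
-/

open Set

namespace NDG

variable {N : ℕ}

theorem euler_step {G : ℝ → MM N → ℝ} {C : ℝ} (hG : ∀ t, 0 ≤ t → t ≤ 1 → Bd (G t) C) {M : ℕ}
    (hM : 1 ≤ M) {y : Fin (M + 1) → E N} {J : Fin (M + 1) → MM N} (h : Crit G C M y J)
    {q : ℝ → MM N} (hq : ∀ t ∈ Icc (0 : ℝ) 1, ‖q t‖ ^ 2 = 2) {r0 w : ℝ} (hr0 : 0 ≤ r0)
    (hstep : ∀ i : Fin M, ‖q (((i : ℕ) + 1 : ℝ) / M) - q ((i : ℕ) / (M : ℝ)) -
      (1 / (M : ℝ)) • X (G ((i : ℕ) / (M : ℝ))) (q ((i : ℕ) / (M : ℝ)))‖ ≤ w / M) (i : Fin M) :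
    ‖J i.succ - r0 • q (((i : ℕ) + 1 : ℝ) / M)‖ ≤
      (1 + 40 * N * C / M) * ‖J i.castSucc - r0 • q ((i : ℕ) / (M : ℝ))‖ +
        (425 * N * C ^ 2 + r0 * w) / M := by
  have hM0 : (0 : ℝ) < M := by exact_mod_cast hM
  have ht0 : (0 : ℝ) ≤ (i : ℕ) / (M : ℝ) := by positivity
  have ht1 : ((i : ℕ) / (M : ℝ) : ℝ) ≤ 1 := by
    rw [div_le_one hM0]
    exact_mod_cast i.2.le
  have hB := hG _ ht0 ht1
  have hqi := hq _ ⟨ht0, ht1⟩
  set t : ℝ := (i : ℕ) / (M : ℝ) with htdef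
  set m : MM N := (M : ℝ) • wedge (y i.castSucc) (y i.succ) with hm
  have hC := hB.one_le
  have h1 := Y_lip hB m (r0 • q t)
  have h2 := Y_scale hB hqi hr0
  have h3 : ‖m - r0 • q t‖ ≤ 10 * C + ‖J i.castSucc - r0 • q t‖ := by
    have := h.near0 i
    calc ‖m - r0 • q t‖ = ‖(J i.castSucc - r0 • q t) - (J i.castSucc - m)‖ := by
          congr 1; abel
      _ ≤ ‖J i.castSucc - r0 • q t‖ + ‖J i.castSucc - m‖ := norm_sub_le _ _
      _ ≤ _ := by linarith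
  have hst := h.step i
  have hN : (0 : ℝ) ≤ N := Nat.cast_nonneg N
  have hNC : 0 ≤ (N : ℝ) * C := by positivity
  have h4 : ‖Y (G t) m - r0 • X (G t) (q t)‖ ≤
      40 * N * C * ‖J i.castSucc - r0 • q t‖ + 425 * N * C ^ 2 := by
    calc ‖Y (G t) m - r0 • X (G t) (q t)‖
        = ‖(Y (G t) m - Y (G t) (r0 • q t)) + (Y (G t) (r0 • q t) - r0 • X (G t) (q t))‖ := by
          congr 1; abel
      _ ≤ ‖Y (G t) m - Y (G t) (r0 • q t)‖ + ‖Y (G t) (r0 • q t) - r0 • X (G t) (q t)‖ :=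
          norm_add_le _ _
      _ ≤ 40 * N * C * ‖m - r0 • q t‖ + 25 * N * C := add_le_add h1 h2
      _ ≤ 40 * N * C * (10 * C + ‖J i.castSucc - r0 • q t‖) + 25 * N * C := by
          gcongr
      _ ≤ _ := by nlinarith [mul_nonneg hNC (sub_nonneg.2 hC)]
  have h5 := hstep i
  rw [← htdef] at h5
  have heq : J i.succ - r0 • q (((i : ℕ) + 1 : ℝ) / M) =
      (J i.castSucc - r0 • q t) + (1 / (M : ℝ)) • (Y (G t) m - r0 • X (G t) (q t)) -
        r0 • (q (((i : ℕ) + 1 : ℝ) / M) - q t - (1 / (M : ℝ)) • X (G t) (q t)) := by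
    have : J i.succ = J i.castSucc + (1 / (M : ℝ)) • Y (G t) m := by
      rw [← hst]; abel
    rw [this, smul_sub, smul_sub, smul_sub, smul_comm (1 / (M : ℝ)) r0]
    abel
  rw [heq]
  calc ‖(J i.castSucc - r0 • q t) + (1 / (M : ℝ)) • (Y (G t) m - r0 • X (G t) (q t)) -
        r0 • (q (((i : ℕ) + 1 : ℝ) / M) - q t - (1 / (M : ℝ)) • X (G t) (q t))‖
      ≤ ‖J i.castSucc - r0 • q t‖ + ‖(1 / (M : ℝ)) • (Y (G t) m - r0 • X (G t) (q t))‖ +
        ‖r0 • (q (((i : ℕ) + 1 : ℝ) / M) - q t - (1 / (M : ℝ)) • X (G t) (q t))‖ :=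
        (norm_sub_le _ _).trans (add_le_add (norm_add_le _ _) le_rfl)
    _ ≤ ‖J i.castSucc - r0 • q t‖ + (1 / (M : ℝ)) *
        (40 * N * C * ‖J i.castSucc - r0 • q t‖ + 425 * N * C ^ 2) + r0 * (w / M) := by
        rw [norm_smul, norm_smul, Real.norm_of_nonneg hr0,
          Real.norm_of_nonneg (by positivity : (0 : ℝ) ≤ 1 / (M : ℝ))]
        gcongr
    _ = _ := by ring

theorem euler {G : ℝ → MM N → ℝ} {C : ℝ} (hG : ∀ t, 0 ≤ t → t ≤ 1 → Bd (G t) C) {M : ℕ}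
    (hM : 1 ≤ M) {y : Fin (M + 1) → E N} {J : Fin (M + 1) → MM N} (h : Crit G C M y J)
    {q : ℝ → MM N} (hq : ∀ t ∈ Icc (0 : ℝ) 1, ‖q t‖ ^ 2 = 2) {r0 w : ℝ} (hr0 : 0 ≤ r0) (hw : 0 ≤ w)
    (hstep : ∀ i : Fin M, ‖q (((i : ℕ) + 1 : ℝ) / M) - q ((i : ℕ) / (M : ℝ)) -
      (1 / (M : ℝ)) • X (G ((i : ℕ) / (M : ℝ))) (q ((i : ℕ) / (M : ℝ)))‖ ≤ w / M) :
    ‖J (Fin.last M) - r0 • q 1‖ ≤
      Real.exp (40 * N * C) * (‖J 0 - r0 • q 0‖ + 425 * N * C ^ 2 + r0 * w) := by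
  have hM0 : (0 : ℝ) < M := by exact_mod_cast hM
  have hC := (hG 0 le_rfl zero_le_one).one_le
  have hN : (0 : ℝ) ≤ N := Nat.cast_nonneg N
  have hL : 0 ≤ 40 * N * C := by positivity
  have hB : 0 ≤ 425 * N * C ^ 2 + r0 * w := by positivity
  have hst := euler_step hG hM h hq hr0 hstep
  set L : ℝ := 40 * N * C with hLdef
  set B : ℝ := 425 * N * C ^ 2 + r0 * w with hBdef
  have key : ∀ k : ℕ, ∀ hk : k < M + 1, ‖J ⟨k, hk⟩ - r0 • q ((k : ℝ) / M)‖ ≤
      (1 + L / M) ^ k * (‖J 0 - r0 • q 0‖ + k * (B / M)) := by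
    intro k
    induction k with
    | zero =>
      intro hk
      simp
    | succ k ih =>
      intro hk
      have hk' : k < M := by omega
      have h1 := hst ⟨k, hk'⟩
      have h2 := ih (by omega)
      simp only [Fin.succ_mk, Fin.castSucc_mk] at h1
      have hone : (1 : ℝ) ≤ (1 + L / M) ^ (k + 1) := by
        apply one_le_pow₀
        have : 0 ≤ L / M := by positivity
        linarith
      push_cast
      calc ‖J ⟨k + 1, hk⟩ - r0 • q (((k : ℝ) + 1) / M)‖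
          ≤ (1 + L / M) * ‖J ⟨k, by omega⟩ - r0 • q ((k : ℝ) / M)‖ + B / M := h1
        _ ≤ (1 + L / M) * ((1 + L / M) ^ k * (‖J 0 - r0 • q 0‖ + k * (B / M))) + B / M := by
            gcongr
        _ = (1 + L / M) ^ (k + 1) * (‖J 0 - r0 • q 0‖ + k * (B / M)) + 1 * (B / M) := by ring
        _ ≤ (1 + L / M) ^ (k + 1) * (‖J 0 - r0 • q 0‖ + k * (B / M)) +
            (1 + L / M) ^ (k + 1) * (B / M) := by
            gcongr
        _ = _ := by ring
  have h1 := key M (Nat.lt_succ_self M)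
  rw [div_self hM0.ne'] at h1
  have hlast : (⟨M, Nat.lt_succ_self M⟩ : Fin (M + 1)) = Fin.last M := rfl
  rw [hlast] at h1
  have hexp : (1 + L / M) ^ M ≤ Real.exp L := by
    calc (1 + L / M) ^ M ≤ (Real.exp (L / M)) ^ M := by
          gcongr
          rw [add_comm]
          exact Real.add_one_le_exp _
      _ = Real.exp L := by
          rw [← Real.exp_nat_mul]
          congr 1
          field_simp
  calc ‖J (Fin.last M) - r0 • q 1‖ ≤ (1 + L / M) ^ M * (‖J 0 - r0 • q 0‖ + M * (B / M)) := h1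
    _ = (1 + L / M) ^ M * (‖J 0 - r0 • q 0‖ + B) := by
        congr 2
        field_simp
    _ ≤ Real.exp L * (‖J 0 - r0 • q 0‖ + B) := by
        gcongr
    _ = _ := by rw [hBdef]; ring

theorem X_curve_cont {G : ℝ → MM N → ℝ}
    (hGc : Continuous fun p : ℝ × MM N => fderiv ℝ (G p.1) p.2) {q : ℝ → MM N} {s : Set ℝ}
    (hq : ContinuousOn q s) : ContinuousOn (fun t => X (G t) (q t)) s := by
  unfold X
  refine (PiLp.continuous_toLp 2 _).comp_continuousOn ?_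
  rw [continuousOn_pi]
  intro p
  apply ContinuousOn.neg
  apply ContinuousOn.clm_apply
  · exact hGc.comp_continuousOn (continuousOn_id.prodMk hq)
  · have hl : Continuous (lie p.1 p.2 : MM N → MM N) := by
      unfold lie
      refine (PiLp.continuous_toLp 2 _).comp ?_
      refine continuous_pi fun r => ?_
      refine ((Continuous.sub ?_ ?_).add ?_).sub ?_
      all_goals
        split_ifs
        · exact PiLp.continuous_apply 2 _ _
        · exact continuous_const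
    exact hl.comp_continuousOn hq

theorem mod_ode {G : ℝ → MM N → ℝ}
    (hGc : Continuous fun p : ℝ × MM N => fderiv ℝ (G p.1) p.2) {q : ℝ → MM N}
    (hode : ∀ t ∈ Icc (0 : ℝ) 1, HasDerivWithinAt q (X (G t) (q t)) (Icc 0 1) t) {w : ℝ}
    (hw : 0 < w) :
    ∃ M₀ : ℕ, 1 ≤ M₀ ∧ ∀ M : ℕ, M₀ ≤ M → ∀ i : Fin M,
      ‖q (((i : ℕ) + 1 : ℝ) / M) - q ((i : ℕ) / (M : ℝ)) -
      (1 / (M : ℝ)) • X (G ((i : ℕ) / (M : ℝ))) (q ((i : ℕ) / (M : ℝ)))‖ ≤ w / M := by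
  have hqc : ContinuousOn q (Icc 0 1) := fun t ht => (hode t ht).continuousWithinAt
  have hZ := X_curve_cont hGc hqc
  have hu := isCompact_Icc.uniformContinuousOn_of_continuous hZ
  rw [Metric.uniformContinuousOn_iff] at hu
  obtain ⟨δ, hδ, hu⟩ := hu w hw
  obtain ⟨M₁, hM₁⟩ := exists_nat_gt (1 / δ)
  refine ⟨M₁ + 1, by omega, ?_⟩
  intro M hM i
  have hM0 : (0 : ℝ) < M := by
    have : 0 < M := by omega
    exact_mod_cast this
  have hMδ : 1 / (M : ℝ) < δ := by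
    rw [div_lt_iff₀ hM0]
    rw [div_lt_iff₀ hδ] at hM₁
    have : (M₁ : ℝ) ≤ M := by exact_mod_cast (by omega : M₁ ≤ M)
    nlinarith
  set t : ℝ := (i : ℕ) / (M : ℝ) with htdef
  have ht0 : (0 : ℝ) ≤ t := by positivity
  have ht' : ((i : ℕ) + 1 : ℝ) / M = t + 1 / M := by rw [htdef]; ring
  have ht1 : t + 1 / M ≤ 1 := by
    rw [← ht', div_le_one hM0]
    exact_mod_cast i.2
  have hpos : 0 < 1 / (M : ℝ) := by positivity
  rw [ht']
  have hsub : Icc t (t + 1 / M) ⊆ Icc (0 : ℝ) 1 := Icc_subset_Icc ht0 ht1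
  have htI : t ∈ Icc (0 : ℝ) 1 := ⟨ht0, by linarith⟩
  have hder : ∀ s ∈ Icc t (t + 1 / M), HasDerivWithinAt
      (fun s => q s - (s - t) • X (G t) (q t)) (X (G s) (q s) - X (G t) (q t))
      (Icc t (t + 1 / M)) s := by
    intro s hs
    refine ((hode s (hsub hs)).mono hsub).sub ?_
    have := ((hasDerivWithinAt_id s (Icc t (t + 1 / M))).sub_const t).smul_const (X (G t) (q t))
    simpa using this
  have hbd : ∀ s ∈ Icc t (t + 1 / M), ‖X (G s) (q s) - X (G t) (q t)‖ ≤ w := by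
    intro s hs
    have := hu s (hsub hs) t htI (by
      rw [Real.dist_eq, abs_of_nonneg (by linarith [hs.1])]
      linarith [hs.2])
    rw [dist_eq_norm] at this
    exact this.le
  have := (convex_Icc t (t + 1 / M)).norm_image_sub_le_of_norm_hasDerivWithin_le hder hbd
    (left_mem_Icc.2 (by linarith)) (right_mem_Icc.2 (by linarith))
  simp only [add_sub_cancel_left, sub_self, zero_smul, sub_zero] at this
  rw [Real.norm_of_nonneg hpos.le] at this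
  calc _ = ‖q (t + 1 / M) - (1 / (M : ℝ)) • X (G t) (q t) - q t‖ := by
        congr 1; abel
    _ ≤ w * (1 / M) := this
    _ = w / M := by ring

end NDG
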