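import Pool.Agent.Lib.NDG.Yb
import Pool.Agent.Lib.NDG.Coer

/-!
Module Growth (1.8h). Discrete trajectories: momenta at different times are comparable; bounded momenta give bounded action.
* `growth`: let r i = ||J i|| + 1 + 10 C, m = M wedge (y i) (y (i+1)): ||J (i+1) - J i|| = (1/M) ||Y m|| ≤ (6 N C / M)(1 + ||m||) (`norm_Y_le`), and ||m|| ≤ ||J i|| + 10 C, ||m|| ≤ ||J (i+1)|| + 10 C. So
  r (i+1) ≤ (1 + 6NC/M) r i and r i ≤ (1 + 6NC/M) r (i+1). Hence r j ≤ (1 + 6NC/M)^M r i ≤ exp(6NC) r i for all i, j (|i - j| ≤ M; use `Real.add_one_le_exp` and induction: r j ≤ exp (6NC |i-j| / M) r i).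
* `act_small`: r := R' + 10 C, ||M wedge (y i)(y (i+1))|| ≤ r. By `norm_wedge_sphere` and δ = ||y (i+1) - y i|| ≤ 1: ||wedge||^2 ≥ 3/2 δ^2, so δ^2 ≤ (2/3) r^2/M^2 and δ ≤ r/M. `act_upper`: act ≤ (M/2) M (2/3) r^2/M^2 + C (1 + M r/M).
-/

namespace NDG

variable {N : ℕ}

namespace GrowthAux

/-- geometric comparison along a finite sequence -/
theorem seq_cmp {M : ℕ} {a : ℝ} (ha : 0 ≤ a) (r : Fin (M + 1) → ℝ)
    (hup : ∀ i : Fin M, r i.succ ≤ (1 + a) * r i.castSucc)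
    (hdn : ∀ i : Fin M, r i.castSucc ≤ (1 + a) * r i.succ) :
    ∀ (k : ℕ) (i j : Fin (M + 1)), (j : ℕ) = i + k →
      r j ≤ (1 + a) ^ k * r i ∧ r i ≤ (1 + a) ^ k * r j := by
  intro k
  induction k with
  | zero =>
    intro i j hij
    have : j = i := Fin.ext (by simpa using hij)
    subst this
    simp
  | succ k ih =>
    intro i j hij
    have hj : (j : ℕ) < M + 1 := j.2
    have hk : (i : ℕ) + k < M := by omega
    obtain ⟨h1, h2⟩ := ih i (Fin.castSucc ⟨i + k, hk⟩) (by simp)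
    have e : j = Fin.succ ⟨i + k, hk⟩ := Fin.ext (by simp [hij]; omega)
    have h3 := hup ⟨i + k, hk⟩
    have h4 := hdn ⟨i + k, hk⟩
    rw [← e] at h3 h4
    have ha1 : 0 ≤ 1 + a := by linarith
    constructor
    · calc r j ≤ (1 + a) * r (Fin.castSucc ⟨i + k, hk⟩) := h3
        _ ≤ (1 + a) * ((1 + a) ^ k * r i) := mul_le_mul_of_nonneg_left h1 ha1
        _ = (1 + a) ^ (k + 1) * r i := by ring
    · calc r i ≤ (1 + a) ^ k * r (Fin.castSucc ⟨i + k, hk⟩) := h2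
        _ ≤ (1 + a) ^ k * ((1 + a) * r j) := mul_le_mul_of_nonneg_left h4 (pow_nonneg ha1 k)
        _ = (1 + a) ^ (k + 1) * r j := by ring

theorem time_mem {M : ℕ} (i : Fin M) : 0 ≤ ((i : ℕ) : ℝ) / (M : ℝ) ∧ ((i : ℕ) : ℝ) / (M : ℝ) ≤ 1 := by
  have hM : 0 < M := lt_of_le_of_lt (Nat.zero_le _) i.2
  have hM' : (0 : ℝ) < M := by exact_mod_cast hM
  constructor
  · positivity
  · rw [div_le_one hM']
    exact_mod_cast i.2.le

end GrowthAux

open GrowthAux

theorem growth {G : ℝ → MM N → ℝ} {C : ℝ} (hG : ∀ t, 0 ≤ t → t ≤ 1 → Bd (G t) C) {M : ℕ}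
    (hM : 1 ≤ M) {y : Fin (M + 1) → E N} {J : Fin (M + 1) → MM N} (h : Crit G C M y J)
    (i j : Fin (M + 1)) :
    ‖J j‖ ≤ Real.exp (6 * N * C) * (‖J i‖ + 1 + 10 * C) := by
  have hC : 1 ≤ C := (hG 0 le_rfl zero_le_one).one_le
  have hM' : (0 : ℝ) < M := by exact_mod_cast hM
  set a : ℝ := 6 * N * C / M with ha
  have ha0 : 0 ≤ a := by positivity
  set r : Fin (M + 1) → ℝ := fun i => ‖J i‖ + 1 + 10 * C with hr
  have key : ∀ i : Fin M, ‖J i.succ - J i.castSucc‖ ≤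
      a * (1 + ‖(M : ℝ) • wedge (y i.castSucc) (y i.succ)‖) := by
    intro i
    rw [h.step i, norm_smul]
    have h1 := norm_Y_le (hG _ (time_mem i).1 (time_mem i).2)
      ((M : ℝ) • wedge (y i.castSucc) (y i.succ))
    rw [Real.norm_eq_abs, abs_of_nonneg (by positivity : (0 : ℝ) ≤ 1 / (M : ℝ))]
    calc 1 / (M : ℝ) * ‖Y (G (((i : ℕ) : ℝ) / (M : ℝ))) ((M : ℝ) • wedge (y i.castSucc) (y i.succ))‖
        ≤ 1 / (M : ℝ) * (6 * N * C * (1 + ‖(M : ℝ) • wedge (y i.castSucc) (y i.succ)‖)) :=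
          mul_le_mul_of_nonneg_left h1 (by positivity)
      _ = a * (1 + ‖(M : ℝ) • wedge (y i.castSucc) (y i.succ)‖) := by
          rw [ha]; ring
  have m0 : ∀ i : Fin M, ‖(M : ℝ) • wedge (y i.castSucc) (y i.succ)‖ ≤ ‖J i.castSucc‖ + 10 * C := by
    intro i
    have := h.near0 i
    have h2 := norm_sub_norm_le ((M : ℝ) • wedge (y i.castSucc) (y i.succ)) (J i.castSucc)
    rw [norm_sub_rev] at h2
    linarith
  have m1 : ∀ i : Fin M, ‖(M : ℝ) • wedge (y i.castSucc) (y i.succ)‖ ≤ ‖J i.succ‖ + 10 * C := by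
    intro i
    have := h.near1 i
    have h2 := norm_sub_norm_le ((M : ℝ) • wedge (y i.castSucc) (y i.succ)) (J i.succ)
    rw [norm_sub_rev] at h2
    linarith
  have hup : ∀ i : Fin M, r i.succ ≤ (1 + a) * r i.castSucc := by
    intro i
    have k := key i
    have h2 := norm_sub_norm_le (J i.succ) (J i.castSucc)
    have h3 := mul_le_mul_of_nonneg_left (m0 i) ha0
    simp only [hr]
    nlinarith
  have hdn : ∀ i : Fin M, r i.castSucc ≤ (1 + a) * r i.succ := by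
    intro i
    have k := key i
    have h2 := norm_sub_norm_le (J i.castSucc) (J i.succ)
    rw [norm_sub_rev] at h2
    have h3 := mul_le_mul_of_nonneg_left (m1 i) ha0
    simp only [hr]
    nlinarith
  have hpow : ∀ k : ℕ, k ≤ M → (1 + a) ^ k ≤ Real.exp (6 * N * C) := by
    intro k hk
    have h1 : (1 + a) ^ k ≤ (1 + a) ^ M := pow_le_pow_right₀ (by linarith) hk
    have h2 : (1 + a) ^ M ≤ (Real.exp a) ^ M :=
      pow_le_pow_left₀ (by linarith) (by linarith [Real.add_one_le_exp a]) M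
    have h3 : (Real.exp a) ^ M = Real.exp (6 * N * C) := by
      rw [← Real.exp_nat_mul]
      congr 1
      rw [ha]
      field_simp
    linarith
  have hri : ∀ i, 0 ≤ r i := fun i => by
    simp only [hr]
    positivity
  have fin : r j ≤ Real.exp (6 * N * C) * r i := by
    rcases le_total (i : ℕ) (j : ℕ) with hij | hij
    · obtain ⟨k, hk⟩ := Nat.exists_eq_add_of_le hij
      have h1 := (seq_cmp ha0 r hup hdn k i j hk).1
      exact le_trans h1 (mul_le_mul_of_nonneg_right (hpow k (by have := j.2; omega)) (hri i))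
    · obtain ⟨k, hk⟩ := Nat.exists_eq_add_of_le hij
      have h1 := (seq_cmp ha0 r hup hdn k j i hk).2
      exact le_trans h1 (mul_le_mul_of_nonneg_right (hpow k (by have := i.2; omega)) (hri i))
  have : ‖J j‖ ≤ r j := by
    simp only [hr]
    linarith
  exact le_trans this fin

theorem act_small {G : ℝ → MM N → ℝ} {C : ℝ} (hG : ∀ t, 0 ≤ t → t ≤ 1 → Bd (G t) C) {M : ℕ}
    (hM : 1 ≤ M) {y : Fin (M + 1) → E N} {J : Fin (M + 1) → MM N} (h : Crit G C M y J)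
    (h1 : ∀ i : Fin M, ‖y i.succ - y i.castSucc‖ ≤ 1) {R' : ℝ} (hR : ∀ i, ‖J i‖ ≤ R') :
    act G M y ≤ (R' + 10 * C) ^ 2 + C * (1 + (R' + 10 * C)) := by
  have hC : 1 ≤ C := (hG 0 le_rfl zero_le_one).one_le
  have hM' : (0 : ℝ) < M := by exact_mod_cast hM
  have hR0 : 0 ≤ R' := le_trans (norm_nonneg _) (hR 0)
  set r : ℝ := R' + 10 * C with hr
  have hr0 : 0 ≤ r := by positivity
  have hd : ∀ i : Fin M, ‖y i.succ - y i.castSucc‖ ^ 2 ≤ r ^ 2 / (M : ℝ) ^ 2 := by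
    intro i
    have h2 : ‖(M : ℝ) • wedge (y i.castSucc) (y i.succ)‖ ≤ r := by
      have := h.near0 i
      have h2 := norm_sub_norm_le ((M : ℝ) • wedge (y i.castSucc) (y i.succ)) (J i.castSucc)
      rw [norm_sub_rev] at h2
      linarith [hR i.castSucc]
    rw [norm_smul, Real.norm_eq_abs, abs_of_pos hM'] at h2
    have h3 := norm_wedge_sphere (h.unit i.castSucc) (h.unit i.succ)
    have h4 : ((M : ℝ) * ‖wedge (y i.castSucc) (y i.succ)‖) ^ 2 ≤ r ^ 2 :=
      pow_le_pow_left₀ (by positivity) h2 2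
    rw [mul_pow, h3] at h4
    have h5 : ‖y i.succ - y i.castSucc‖ ^ 2 ≤ 1 := by
      have := norm_nonneg (y i.succ - y i.castSucc)
      nlinarith [h1 i]
    rw [le_div_iff₀ (by positivity)]
    have h6 : 0 ≤ (M : ℝ) ^ 2 * ‖y i.succ - y i.castSucc‖ ^ 2 := by positivity
    nlinarith [mul_nonneg h6 (sub_nonneg.2 h5)]
  have hd' : ∀ i : Fin M, ‖y i.succ - y i.castSucc‖ ≤ r / (M : ℝ) := by
    intro i
    have := hd i
    rw [← div_pow] at this
    exact (abs_le_of_sq_le_sq' this (by positivity)).2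
  have hs2 : dsum2 M y ≤ M * (r ^ 2 / (M : ℝ) ^ 2) := by
    unfold dsum2
    calc ∑ i : Fin M, ‖y i.succ - y i.castSucc‖ ^ 2 ≤ ∑ _i : Fin M, r ^ 2 / (M : ℝ) ^ 2 :=
          Finset.sum_le_sum (fun i _ => hd i)
      _ = M * (r ^ 2 / (M : ℝ) ^ 2) := by simp
  have hs1 : dsum M y ≤ M * (r / (M : ℝ)) := by
    unfold dsum
    calc ∑ i : Fin M, ‖y i.succ - y i.castSucc‖ ≤ ∑ _i : Fin M, r / (M : ℝ) :=
          Finset.sum_le_sum (fun i _ => hd' i)
      _ = M * (r / (M : ℝ)) := by simp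
  have hu := act_upper hG hM h.unit
  have e1 : (M : ℝ) / 2 * (M * (r ^ 2 / (M : ℝ) ^ 2)) = r ^ 2 / 2 := by
    field_simp
  have e2 : (M : ℝ) * (r / (M : ℝ)) = r := by
    field_simp
  have h7 : (M : ℝ) / 2 * dsum2 M y ≤ r ^ 2 / 2 := by
    rw [← e1]
    exact mul_le_mul_of_nonneg_left hs2 (by positivity)
  rw [e2] at hs1
  have h8 : C * (1 + dsum M y) ≤ C * (1 + r) :=
    mul_le_mul_of_nonneg_left (by linarith) (by linarith)
  nlinarith [sq_nonneg r]

end NDG
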