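import Pool.Agent.Lib.NDG.Alg

/-!
Module Reg (1.6h). Elementary facts about a regular zero set in the sphere.
* `reg_compact`: suppose not: unit vectors x_k with |f x_k| ≤ 1/k and ||wedge x_k (∇f x_k)|| < 1/k; a limit point x (compact sphere) is a unit vector with f x = 0 and wedge x (∇f x) = 0 (∇f is continuous since f is C^1:
  `ContDiff.continuous_fderiv`, `gradient` is the Riesz isomorphism applied to it).
* `exists_signs`: let w = ∇f(a) - (∇f(a), a) a; wedge a ∇f(a) = wedge a w ≠ 0 so w ≠ 0, (w,a) = 0. Along x(t) = (a + t w)/||a + t w|| the derivative of f at t = 0 is (∇f(a), w) = ||w||^2 > 0 (the derivative of the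
  norm at 0 is 0), f(x(0)) = 0; so f > 0 for small t > 0 and f < 0 for small t < 0.
* `visit`: consecutive points alt i, alt (i+1) are {q0, q1}; ||y(t (i+1)) - y(t i)|| ≥ ||q0 - q1|| - 2 ρ ≥ ||q0 - q1||/2, and it is at most the sum of the steps between t i and t (i+1); these index intervals are disjoint.
-/

open scoped RealInnerProductSpace

namespace NDG

variable {N : ℕ}

/-- the alternating sequence of two points (same as `alt`, repeated to keep the module independent) -/
def alt' (q0 q1 : E N) (i : ℕ) : E N := if Even i then q0 else q1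

private theorem cont_wedge {f : E N → ℝ} (hf : ContDiff ℝ 1 f) :
    Continuous fun x => wedge x (gradient f x) := by
  have hg : Continuous fun x => gradient f x :=
    (InnerProductSpace.toDual ℝ (E N)).symm.continuous.comp (hf.continuous_fderiv one_ne_zero)
  have hc : ∀ (i : Fin N), Continuous fun x : E N => x i := fun i =>
    (EuclideanSpace.proj (𝕜 := ℝ) i).continuous
  unfold wedge
  refine (PiLp.continuous_toLp 2 _).comp (continuous_pi fun p => ?_)
  exact ((hc p.1).mul ((hc p.2).comp hg)).sub (((hc p.1).comp hg).mul (hc p.2))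

theorem reg_compact {f : E N → ℝ} (hf : ContDiff ℝ 1 f)
    (hreg : ∀ x, ‖x‖ = 1 → f x = 0 → wedge x (gradient f x) ≠ 0) {ε₁ : ℝ} (h1 : 0 < ε₁) :
    ∃ ε₀ δ : ℝ, 0 < ε₀ ∧ ε₀ ≤ ε₁ ∧ 0 < δ ∧
      ∀ x, ‖x‖ = 1 → |f x| ≤ ε₀ → δ ≤ ‖wedge x (gradient f x)‖ := by
  have hcont : Continuous fun x => max |f x| ‖wedge x (gradient f x)‖ :=
    (hf.continuous.abs).max (cont_wedge hf).norm
  rcases (Metric.sphere (0 : E N) 1).eq_empty_or_nonempty with he | hne
  · refine ⟨ε₁, 1, h1, le_rfl, one_pos, fun x hx _ => ?_⟩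
    have : x ∈ Metric.sphere (0 : E N) 1 := by simpa using hx
    rw [he] at this
    exact absurd this (Set.notMem_empty x)
  · obtain ⟨x0, hx0, hmin⟩ := (isCompact_sphere (0 : E N) 1).exists_isMinOn hne hcont.continuousOn
    set m := max |f x0| ‖wedge x0 (gradient f x0)‖ with hm
    have hx0' : ‖x0‖ = 1 := by simpa using hx0
    have hmpos : 0 < m := by
      by_cases h0 : f x0 = 0
      · exact lt_of_lt_of_le (norm_pos_iff.mpr (hreg x0 hx0' h0)) (le_max_right _ _)
      · exact lt_of_lt_of_le (abs_pos.mpr h0) (le_max_left _ _)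
    refine ⟨min ε₁ (m / 2), m, lt_min h1 (half_pos hmpos), min_le_left _ _, hmpos, ?_⟩
    intro x hx hfx
    have hxs : x ∈ Metric.sphere (0 : E N) 1 := by simpa using hx
    have h2 : m ≤ max |f x| ‖wedge x (gradient f x)‖ := hmin hxs
    have h3 : |f x| < m := lt_of_le_of_lt (hfx.trans (min_le_right _ _)) (half_lt_self hmpos)
    rcases le_max_iff.mp h2 with h4 | h4
    · exact absurd h3 (not_lt.mpr h4)
    · exact h4

theorem exists_signs {f : E N → ℝ} (hf : ContDiff ℝ 1 f)
    (hreg : ∀ x, ‖x‖ = 1 → f x = 0 → wedge x (gradient f x) ≠ 0) {a : E N} (ha : ‖a‖ = 1)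
    (hfa : f a = 0) : ∃ q0 q1 : E N, ‖q0‖ = 1 ∧ ‖q1‖ = 1 ∧ 0 < f q0 ∧ f q1 < 0 := by
  set g := gradient f a with hg
  set w : E N := g - ⟪g, a⟫ • a with hw
  have hwa : ⟪w, a⟫ = 0 := by
    rw [hw, inner_sub_left, real_inner_smul_left, real_inner_self_eq_norm_sq, ha]; ring
  have hw0 : w ≠ 0 := by
    intro h0
    have h1 : g = ⟪g, a⟫ • a := sub_eq_zero.mp h0
    refine hreg a ha hfa ?_
    rw [← hg, h1]
    ext ⟨i, j⟩
    simp only [wedge, PiLp.smul_apply, smul_eq_mul, PiLp.zero_apply]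
    ring
  have hwn : 0 < ‖w‖ := norm_pos_iff.mpr hw0
  set u : E N := ‖w‖⁻¹ • w with hu
  have hun : ‖u‖ = 1 := by
    rw [hu, norm_smul, norm_inv, norm_norm, inv_mul_cancel₀ hwn.ne']
  have hua : ⟪u, a⟫ = 0 := by rw [hu, real_inner_smul_left, hwa, mul_zero]
  set x : ℝ → E N := fun t => Real.cos t • a + Real.sin t • u with hx
  have hxn : ∀ t, ‖x t‖ = 1 := by
    intro t
    have h2 : ‖x t‖ ^ 2 = 1 := by
      rw [hx]
      simp only
      rw [norm_add_sq_real, norm_smul, norm_smul, real_inner_smul_left, real_inner_smul_right,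
        real_inner_comm, hua, ha, hun, Real.norm_eq_abs, Real.norm_eq_abs]
      have := Real.sin_sq_add_cos_sq t
      simp only [mul_one, mul_zero, add_zero, sq_abs]
      linarith
    have h3 := norm_nonneg (x t)
    nlinarith
  have hx0 : x 0 = a := by simp [hx]
  have hdx : HasDerivAt x u 0 := by
    have h1 : HasDerivAt (fun t : ℝ => Real.cos t • a) ((-Real.sin 0) • a) 0 :=
      (Real.hasDerivAt_cos 0).smul_const a
    have h2 : HasDerivAt (fun t : ℝ => Real.sin t • u) ((Real.cos 0) • u) 0 :=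
      (Real.hasDerivAt_sin 0).smul_const u
    have h3 := h1.add h2
    have h4 : (-Real.sin 0) • a + (Real.cos 0) • u = u := by simp
    rw [h4] at h3
    exact h3
  have hdf : HasDerivAt (fun t => f (x t)) ⟪g, u⟫ 0 := by
    have h1 : HasFDerivAt f (fderiv ℝ f a) (x 0) := by
      rw [hx0]; exact (hf.differentiable one_ne_zero a).hasFDerivAt
    have h2 := h1.comp_hasDerivAt (0 : ℝ) hdx
    have h3 : fderiv ℝ f a u = ⟪g, u⟫ := by
      rw [hg, gradient, InnerProductSpace.toDual_symm_apply]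
    rw [h3] at h2
    exact h2
  have hpos : 0 < ⟪g, u⟫ := by
    have h1 : g = w + ⟪g, a⟫ • a := by rw [hw]; abel
    have h2 : ⟪g, u⟫ = ‖w‖ := by
      rw [h1, inner_add_left, real_inner_smul_left, real_inner_comm u a, hua, mul_zero, add_zero,
        hu, real_inner_smul_right, real_inner_self_eq_norm_sq]
      field_simp
    rw [h2]; exact hwn
  have hev := eventually_nhdsWithin_sign_eq_of_deriv_pos (f := fun t => f (x t)) (x₀ := 0)
    (by rw [hdf.deriv]; exact hpos) (by simp only [hx0, hfa])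
  rw [Metric.eventually_nhds_iff] at hev
  obtain ⟨ε, hε, hev⟩ := hev
  have h1 := hev (y := ε / 2) (by
    rw [Real.dist_eq, sub_zero, abs_of_pos (half_pos hε)]; exact half_lt_self hε)
  have h2 := hev (y := -(ε / 2)) (by
    rw [Real.dist_eq, sub_zero, abs_neg, abs_of_pos (half_pos hε)]; exact half_lt_self hε)
  refine ⟨x (ε / 2), x (-(ε / 2)), hxn _, hxn _, ?_, ?_⟩
  · rw [sub_zero, sign_pos (half_pos hε)] at h1
    exact sign_eq_one_iff.mp h1
  · rw [sub_zero, sign_neg (neg_neg_of_pos (half_pos hε))] at h2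
    exact sign_eq_neg_one_iff.mp h2

private theorem alt_dist (q0 q1 : E N) (i : ℕ) :
    ‖alt' q0 q1 (i + 1) - alt' q0 q1 i‖ = ‖q0 - q1‖ := by
  unfold alt'
  by_cases h : Even i
  · have h2 : ¬ Even (i + 1) := by rw [Nat.even_add_one]; simpa using h
    rw [if_pos h, if_neg h2, norm_sub_rev]
  · have h2 : Even (i + 1) := by rw [Nat.even_add_one]; exact h
    rw [if_neg h, if_pos h2]

theorem visit {M m : ℕ} (hm : 1 ≤ m) {q0 q1 : E N} {ρ : ℝ} (hρ : 4 * ρ ≤ ‖q0 - q1‖)
    (y : Fin (M + 1) → E N) (t : Fin m → Fin (M + 1)) (ht : StrictMono t)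
    (h : ∀ i : Fin m, ‖y (t i) - alt' q0 q1 i‖ < ρ) :
    ((m : ℝ) - 1) * (‖q0 - q1‖ / 2) ≤ dsum M y := by
  set Z : ℕ → E N := fun j => if hj : j < M + 1 then y ⟨j, hj⟩ else 0 with hZ
  set D : ℕ → ℝ := fun j => ∑ i ∈ Finset.range j, dist (Z i) (Z (i + 1)) with hD
  have hZy : ∀ j : Fin (M + 1), Z j = y j := by
    intro j
    simp only [hZ, j.isLt, dif_pos, Fin.eta]
  have hDd : ∀ a b : ℕ, a ≤ b → D a + dist (Z a) (Z b) ≤ D b := by
    intro a b hab
    have h1 := dist_le_Ico_sum_dist Z hab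
    have h2 := Finset.sum_range_add_sum_Ico (fun i => dist (Z i) (Z (i + 1))) hab
    simp only [hD]
    linarith
  have hDM : D M = dsum M y := by
    simp only [hD, dsum]
    rw [← Fin.sum_univ_eq_sum_range (fun i => dist (Z i) (Z (i + 1)))]
    refine Finset.sum_congr rfl fun i _ => ?_
    have h1 := hZy i.castSucc
    have h2 := hZy i.succ
    rw [Fin.val_castSucc] at h1
    rw [Fin.val_succ] at h2
    rw [h1, h2, dist_comm, dist_eq_norm]
  have hstep : ∀ i : ℕ, ∀ hi : i < m, (i : ℝ) * (‖q0 - q1‖ / 2) ≤ D (t ⟨i, hi⟩) := by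
    intro i
    induction i with
    | zero =>
      intro hi
      simp only [Nat.cast_zero, zero_mul, hD]
      exact Finset.sum_nonneg fun _ _ => dist_nonneg
    | succ i ih =>
      intro hi
      have h1 := ih (by omega)
      have hlt : (t ⟨i, by omega⟩ : ℕ) ≤ (t ⟨i + 1, hi⟩ : ℕ) := by
        have := ht (show (⟨i, by omega⟩ : Fin m) < ⟨i + 1, hi⟩ from Nat.lt_succ_self i)
        exact le_of_lt this
      have h2 := hDd _ _ hlt
      rw [hZy, hZy, dist_eq_norm] at h2
      have h3 := h ⟨i, by omega⟩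
      have h4 := h ⟨i + 1, hi⟩
      simp only at h3 h4
      have h5 := alt_dist q0 q1 i
      have h6 : ‖alt' q0 q1 (i + 1) - alt' q0 q1 i‖ ≤
          ‖y (t ⟨i + 1, hi⟩) - alt' q0 q1 (i + 1)‖ + ‖y (t ⟨i, by omega⟩) - y (t ⟨i + 1, hi⟩)‖ +
          ‖y (t ⟨i, by omega⟩) - alt' q0 q1 i‖ := by
        have h7 : alt' q0 q1 (i + 1) - alt' q0 q1 i =
            -(y (t ⟨i + 1, hi⟩) - alt' q0 q1 (i + 1)) -
              (y (t ⟨i, by omega⟩) - y (t ⟨i + 1, hi⟩)) +
              (y (t ⟨i, by omega⟩) - alt' q0 q1 i) := by abel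
        rw [h7]
        refine (norm_add_le _ _).trans ?_
        refine add_le_add ?_ le_rfl
        refine (norm_sub_le _ _).trans ?_
        rw [norm_neg]
      push_cast
      linarith
  have h1 := hstep (m - 1) (by omega)
  have h2 := hDd (t ⟨m - 1, by omega⟩) M (Nat.lt_succ_iff.mp (t ⟨m - 1, by omega⟩).isLt)
  have h3 := dist_nonneg (x := Z (t ⟨m - 1, by omega⟩)) (y := Z M)
  rw [Nat.cast_sub hm, Nat.cast_one] at h1
  linarith

end NDG
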