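import Pool.Agent.Lib.NDG.Euler
import Pool.Agent.Lib.NDG.Reg

/-!
Module Limit (2.5h). Passage to the limit. `Ends f M y J R` collects what is known about the chain number R.
PROOF. For k : ℕ, k ≥ 1, take a chain for R = k: M_k ≥ k, y^k, J^k. Passing to a subsequence, y^k 0 → x and y^k last → y (unit sphere of E N compact x compact); f x = 0 and f y = 0 (0 < f (y^k 0) ≤ 1/k; f continuous). ∇f is continuous and
wedge x ∇f x ≠ 0, wedge y ∇f y ≠ 0, so nw f is continuous at x, y.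
Let q be as in the statement, q 0 = nw f x. For chain k let r_k = ||J^k 0|| / sqrt 2 ≥ k / sqrt 2. J^k 0 = c wedge (y^k 0) ∇f(y^k 0), c > 0, so J^k 0 = r_k nw f (y^k 0). Let w > 0, M₀ from `mod_ode`; for M_k ≥ M₀, `euler` gives
||J^k last - r_k q 1|| ≤ e^L (r_k ||nw f (y^k 0) - nw f x|| + 425 N C^2 + r_k w); divide by r_k: limsup ||J^k last / r_k - q 1|| ≤ e^L w for all w > 0, so J^k last / r_k → q 1. ||q 1|| = sqrt 2.
J^k last = c' wedge (y^k last) ∇f, c' > 0, so J^k last / r_k = s_k nw f (y^k last), s_k = ||J^k last|| / (r_k sqrt 2) > 0, ||nw|| = sqrt 2: s_k → 1 (norms), nw f (y^k last) → nw f y; so q 1 = nw f y.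
-/

open Set

namespace NDG

variable {N : ℕ}

/-- the normalised bivector of a zero of `f` -/
noncomputable def nw (f : E N → ℝ) (x : E N) : MM N :=
  (Real.sqrt 2 / ‖wedge x (gradient f x)‖) • wedge x (gradient f x)

/-- the properties of the chains -/
structure Ends (f : E N → ℝ) (R : ℝ) (M : ℕ) (y : Fin (M + 1) → E N) (J : Fin (M + 1) → MM N) :
    Prop where
  M_pos : 1 ≤ M
  M_le : R ≤ M
  big : ∀ i, R ≤ ‖J i‖
  f0 : 0 < f (y 0)
  f0' : f (y 0) ≤ 1 / R
  f1 : f (y (Fin.last M)) < 0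
  f1' : -(1 / R) ≤ f (y (Fin.last M))
  J0 : ∃ c : ℝ, 0 < c ∧ J 0 = c • wedge (y 0) (gradient f (y 0))
  J1 : ∃ c : ℝ, 0 < c ∧ J (Fin.last M) = c • wedge (y (Fin.last M)) (gradient f (y (Fin.last M)))

private theorem continuous_wedge : Continuous fun p : E N × E N => wedge p.1 p.2 := by
  unfold wedge
  apply (PiLp.continuous_toLp 2 _).comp
  apply continuous_pi
  intro p
  fun_prop

private theorem continuous_gradient {f : E N → ℝ} (hf : ContDiff ℝ 1 f) :
    Continuous (gradient f) := by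
  unfold gradient
  exact (InnerProductSpace.toDual ℝ (E N)).symm.continuous.comp (hf.continuous_fderiv (by norm_num))

private theorem continuous_wg {f : E N → ℝ} (hf : ContDiff ℝ 1 f) :
    Continuous fun x : E N => wedge x (gradient f x) :=
  continuous_wedge.comp (continuous_id.prodMk (continuous_gradient hf))

private theorem continuousAt_nw {f : E N → ℝ} (hf : ContDiff ℝ 1 f) {x : E N}
    (hx : wedge x (gradient f x) ≠ 0) : ContinuousAt (nw f) x := by
  unfold nw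
  have h1 : ContinuousAt (fun x : E N => wedge x (gradient f x)) x := (continuous_wg hf).continuousAt
  have h2 : ContinuousAt (fun x : E N => Real.sqrt 2 / ‖wedge x (gradient f x)‖) x :=
    continuousAt_const.div h1.norm (norm_ne_zero_iff.mpr hx)
  exact h2.smul h1

private theorem norm_nw {f : E N → ℝ} {x : E N} (hx : wedge x (gradient f x) ≠ 0) :
    ‖nw f x‖ = Real.sqrt 2 := by
  unfold nw
  have h1 : 0 < ‖wedge x (gradient f x)‖ := norm_pos_iff.mpr hx
  rw [norm_smul, Real.norm_of_nonneg (by positivity), div_mul_cancel₀ _ h1.ne']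

private theorem eq_smul_nw {f : E N → ℝ} {x : E N} {J : MM N} {c : ℝ} (hc : 0 < c)
    (hJ : J = c • wedge x (gradient f x)) (h0 : 0 < ‖J‖) :
    wedge x (gradient f x) ≠ 0 ∧ J = (‖J‖ / Real.sqrt 2) • nw f x := by
  have hw : wedge x (gradient f x) ≠ 0 := by
    intro h
    rw [h, smul_zero] at hJ
    rw [hJ, norm_zero] at h0
    exact lt_irrefl _ h0
  refine ⟨hw, ?_⟩
  have h1 : 0 < ‖wedge x (gradient f x)‖ := norm_pos_iff.mpr hw
  have h2 : 0 < Real.sqrt 2 := by positivity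
  have h3 : ‖J‖ = c * ‖wedge x (gradient f x)‖ := by
    rw [hJ, norm_smul, Real.norm_of_nonneg hc.le]
  unfold nw
  rw [smul_smul, h3]
  have h4 : c * ‖wedge x (gradient f x)‖ / Real.sqrt 2 * (Real.sqrt 2 / ‖wedge x (gradient f x)‖) =
      c := by
    field_simp
  rw [h4]
  exact hJ

theorem limit {G : ℝ → MM N → ℝ} {C : ℝ} (hG : ∀ t, 0 ≤ t → t ≤ 1 → Bd (G t) C)
    (hGc : Continuous fun p : ℝ × MM N => fderiv ℝ (G p.1) p.2) {f : E N → ℝ}
    (hf : ContDiff ℝ 1 f) (hreg : ∀ x, ‖x‖ = 1 → f x = 0 → wedge x (gradient f x) ≠ 0)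
    (H : ∀ R : ℝ, 1 ≤ R → ∃ M y J, Crit G C M y J ∧ Ends f R M y J) :
    ∃ x y : E N, ‖x‖ = 1 ∧ ‖y‖ = 1 ∧ f x = 0 ∧ f y = 0 ∧ ∀ q : ℝ → MM N,
      (∀ t ∈ Icc (0 : ℝ) 1, HasDerivWithinAt q (X (G t) (q t)) (Icc 0 1) t) →
      (∀ t ∈ Icc (0 : ℝ) 1, ‖q t‖ ^ 2 = 2) → q 0 = nw f x → q 1 = nw f y := by
  have hs2 : 0 < Real.sqrt 2 := by positivity
  -- the sequence of chains
  have hR : ∀ k : ℕ, (1 : ℝ) ≤ (k : ℝ) + 1 := fun k => by
    have : (0 : ℝ) ≤ k := Nat.cast_nonneg k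
    linarith
  choose M y J hcr hen using fun k : ℕ => H ((k : ℝ) + 1) (hR k)
  -- compactness
  have hcomp : IsCompact (Metric.sphere (0 : E N) 1 ×ˢ Metric.sphere (0 : E N) 1) :=
    (isCompact_sphere 0 1).prod (isCompact_sphere 0 1)
  have hmem : ∀ k, (y k 0, y k (Fin.last (M k))) ∈
      Metric.sphere (0 : E N) 1 ×ˢ Metric.sphere (0 : E N) 1 := by
    intro k
    rw [Set.mem_prod]
    exact ⟨by rw [mem_sphere_zero_iff_norm]; exact (hcr k).unit 0,
      by rw [mem_sphere_zero_iff_norm]; exact (hcr k).unit _⟩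
  obtain ⟨⟨x, z⟩, hxz, φ, hφ, hlim⟩ := hcomp.tendsto_subseq hmem
  rw [Set.mem_prod, mem_sphere_zero_iff_norm, mem_sphere_zero_iff_norm] at hxz
  have hx1 : ‖x‖ = 1 := hxz.1
  have hz1 : ‖z‖ = 1 := hxz.2
  have hlimx : Filter.Tendsto (fun k => y (φ k) 0) Filter.atTop (nhds x) :=
    (continuous_fst.tendsto _).comp hlim
  have hlimz : Filter.Tendsto (fun k => y (φ k) (Fin.last (M (φ k)))) Filter.atTop (nhds z) :=
    (continuous_snd.tendsto _).comp hlim
  have hφge : ∀ k, k ≤ φ k := hφ.id_le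
  have hinv : Filter.Tendsto (fun k : ℕ => 1 / (((φ k : ℕ) : ℝ) + 1)) Filter.atTop (nhds 0) :=
    tendsto_one_div_add_atTop_nhds_zero_nat.comp hφ.tendsto_atTop
  have hfx : f x = 0 := by
    have h1 : Filter.Tendsto (fun k => f (y (φ k) 0)) Filter.atTop (nhds (f x)) :=
      (hf.continuous.tendsto x).comp hlimx
    have h2 : Filter.Tendsto (fun k => f (y (φ k) 0)) Filter.atTop (nhds 0) :=
      squeeze_zero (fun k => (hen (φ k)).f0.le) (fun k => (hen (φ k)).f0') hinv
    exact tendsto_nhds_unique h1 h2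
  have hfz : f z = 0 := by
    have h1 : Filter.Tendsto (fun k => f (y (φ k) (Fin.last (M (φ k))))) Filter.atTop (nhds (f z)) :=
      (hf.continuous.tendsto z).comp hlimz
    have h2 : Filter.Tendsto (fun k => f (y (φ k) (Fin.last (M (φ k))))) Filter.atTop (nhds 0) := by
      have h3 : Filter.Tendsto (fun k : ℕ => -(1 / (((φ k : ℕ) : ℝ) + 1))) Filter.atTop (nhds 0) := by
        have := hinv.neg
        rwa [neg_zero] at this
      exact tendsto_of_tendsto_of_tendsto_of_le_of_le h3 tendsto_const_nhds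
        (fun k => (hen (φ k)).f1') (fun k => (hen (φ k)).f1.le)
    exact tendsto_nhds_unique h1 h2
  refine ⟨x, z, hx1, hz1, hfx, hfz, ?_⟩
  intro q hode hq2 hq0
  have hwx := hreg x hx1 hfx
  have hwz := hreg z hz1 hfz
  have hnwx : Filter.Tendsto (fun k => nw f (y (φ k) 0)) Filter.atTop (nhds (nw f x)) :=
    (continuousAt_nw hf hwx).tendsto.comp hlimx
  have hnwz : Filter.Tendsto (fun k => nw f (y (φ k) (Fin.last (M (φ k))))) Filter.atTop
      (nhds (nw f z)) := (continuousAt_nw hf hwz).tendsto.comp hlimz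
  -- the normalising factors
  set r : ℕ → ℝ := fun k => ‖J k 0‖ / Real.sqrt 2 with hr
  have hJ0pos : ∀ k : ℕ, (k : ℝ) + 1 ≤ ‖J k 0‖ := fun k => (hen k).big 0
  have hJ1pos : ∀ k : ℕ, (k : ℝ) + 1 ≤ ‖J k (Fin.last (M k))‖ := fun k => (hen k).big _
  have hk1 : ∀ k : ℕ, (0 : ℝ) < (k : ℝ) + 1 := fun k => by positivity
  have hrpos : ∀ k, 0 < r k := fun k => div_pos ((hk1 k).trans_le (hJ0pos k)) hs2
  have hJ0 : ∀ k, J k 0 = r k • nw f (y k 0) := by
    intro k
    obtain ⟨c, hc, hJ⟩ := (hen k).J0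
    exact (eq_smul_nw hc hJ ((hk1 k).trans_le (hJ0pos k))).2
  have hJ1 : ∀ k, J k (Fin.last (M k)) =
      (‖J k (Fin.last (M k))‖ / Real.sqrt 2) • nw f (y k (Fin.last (M k))) := by
    intro k
    obtain ⟨c, hc, hJ⟩ := (hen k).J1
    exact (eq_smul_nw hc hJ ((hk1 k).trans_le (hJ1pos k))).2
  have hw1 : ∀ k, wedge (y k (Fin.last (M k))) (gradient f (y k (Fin.last (M k)))) ≠ 0 := by
    intro k
    obtain ⟨c, hc, hJ⟩ := (hen k).J1
    exact (eq_smul_nw hc hJ ((hk1 k).trans_le (hJ1pos k))).1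
  set A : ℕ → MM N := fun k => (r k)⁻¹ • J k (Fin.last (M k)) with hA
  have hC : 1 ≤ C := (hG 0 le_rfl zero_le_one).one_le
  set L : ℝ := Real.exp (40 * N * C) with hL
  have hLpos : 0 < L := Real.exp_pos _
  have hrinv : Filter.Tendsto (fun k => 425 * (N : ℝ) * C ^ 2 * (r (φ k))⁻¹) Filter.atTop (nhds 0) := by
    have h1 : Filter.Tendsto (fun k => (r (φ k))⁻¹) Filter.atTop (nhds 0) := by
      have h2 : ∀ k, (r (φ k))⁻¹ ≤ Real.sqrt 2 * (1 / (((φ k : ℕ) : ℝ) + 1)) := by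
        intro k
        simp only [hr]
        rw [inv_div, div_eq_mul_one_div]
        apply mul_le_mul_of_nonneg_left _ hs2.le
        exact one_div_le_one_div_of_le (hk1 _) (hJ0pos _)
      have h3 : Filter.Tendsto (fun k : ℕ => Real.sqrt 2 * (1 / (((φ k : ℕ) : ℝ) + 1))) Filter.atTop
          (nhds 0) := by
        have := hinv.const_mul (Real.sqrt 2)
        rwa [mul_zero] at this
      exact squeeze_zero (fun k => (inv_pos.mpr (hrpos _)).le) h2 h3
    have := h1.const_mul (425 * (N : ℝ) * C ^ 2)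
    rwa [mul_zero] at this
  have hAlim : Filter.Tendsto (fun k => A (φ k)) Filter.atTop (nhds (q 1)) := by
    rw [Metric.tendsto_atTop]
    intro ε hε
    set w : ℝ := ε / (2 * L) with hw
    have hwpos : 0 < w := by positivity
    obtain ⟨M₀, hM₀1, hM₀⟩ := mod_ode hGc hode hwpos
    have hB : Filter.Tendsto (fun k => L * (‖nw f (y (φ k) 0) - nw f x‖ +
        425 * (N : ℝ) * C ^ 2 * (r (φ k))⁻¹ + w)) Filter.atTop (nhds (L * (0 + 0 + w))) := by
      apply Filter.Tendsto.const_mul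
      apply Filter.Tendsto.add _ tendsto_const_nhds
      apply Filter.Tendsto.add _ hrinv
      have h1 := (hnwx.sub_const (nw f x)).norm
      rwa [sub_self, norm_zero] at h1
    have hlt : L * (0 + 0 + w) < ε := by
      rw [zero_add, zero_add, hw]
      have : L * (ε / (2 * L)) = ε / 2 := by field_simp
      rw [this]
      linarith
    have hev := hB.eventually (gt_mem_nhds hlt)
    obtain ⟨k₁, hk₁⟩ := Filter.eventually_atTop.mp hev
    refine ⟨max k₁ M₀, ?_⟩
    intro k hk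
    have hk1' := hk₁ k (le_of_max_le_left hk)
    have hMk : M₀ ≤ M (φ k) := by
      have h1 : ((φ k : ℕ) : ℝ) + 1 ≤ M (φ k) := (hen (φ k)).M_le
      have h2 : φ k + 1 ≤ M (φ k) := by exact_mod_cast h1
      have h3 := hφge k
      have h4 := le_of_max_le_right hk
      omega
    have hE := euler hG (hen (φ k)).M_pos (hcr (φ k)) hq2 (hrpos (φ k)).le hwpos.le
      (hM₀ (M (φ k)) hMk)
    rw [hq0, hJ0, ← smul_sub, norm_smul, Real.norm_of_nonneg (hrpos (φ k)).le] at hE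
    rw [dist_eq_norm]
    refine lt_of_le_of_lt ?_ hk1'
    have hrk := hrpos (φ k)
    have h5 : A (φ k) - q 1 = (r (φ k))⁻¹ • (J (φ k) (Fin.last (M (φ k))) - r (φ k) • q 1) := by
      simp only [hA]
      rw [smul_sub, smul_smul, inv_mul_cancel₀ hrk.ne', one_smul]
    rw [h5, norm_smul, Real.norm_of_nonneg (inv_pos.mpr hrk).le]
    calc (r (φ k))⁻¹ * ‖J (φ k) (Fin.last (M (φ k))) - r (φ k) • q 1‖
        ≤ (r (φ k))⁻¹ * (Real.exp (40 * N * C) * (r (φ k) * ‖nw f (y (φ k) 0) - nw f x‖ +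
          425 * N * C ^ 2 + r (φ k) * w)) :=
          mul_le_mul_of_nonneg_left hE (inv_pos.mpr hrk).le
      _ = L * (‖nw f (y (φ k) 0) - nw f x‖ + 425 * (N : ℝ) * C ^ 2 * (r (φ k))⁻¹ + w) := by
          rw [← hL]
          field_simp
  have hq1 : ‖q 1‖ = Real.sqrt 2 := by
    have h1 := hq2 1 ⟨zero_le_one, le_rfl⟩
    rw [← h1, Real.sqrt_sq (norm_nonneg _)]
  -- A k is a multiple of the normalised bivector
  have hAs : ∀ k, A k = (‖A k‖ / Real.sqrt 2) • nw f (y k (Fin.last (M k))) := by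
    intro k
    have h1 : ‖A k‖ = (r k)⁻¹ * ‖J k (Fin.last (M k))‖ := by
      simp only [hA]
      rw [norm_smul, Real.norm_of_nonneg (inv_pos.mpr (hrpos k)).le]
    rw [h1]
    have h2 : A k = (r k)⁻¹ • J k (Fin.last (M k)) := rfl
    rw [h2]
    conv_lhs => rw [hJ1 k]
    rw [smul_smul, mul_div_assoc]
  have hlim1 : Filter.Tendsto (fun k => (‖A (φ k)‖ / Real.sqrt 2) • nw f (y (φ k) (Fin.last (M (φ k)))))
      Filter.atTop (nhds ((‖q 1‖ / Real.sqrt 2) • nw f z)) :=
    (hAlim.norm.div_const _).smul hnwz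
  have hlim2 : Filter.Tendsto (fun k => A (φ k)) Filter.atTop
      (nhds ((‖q 1‖ / Real.sqrt 2) • nw f z)) := by
    refine hlim1.congr ?_
    intro k
    exact (hAs (φ k)).symm
  have h6 := tendsto_nhds_unique hAlim hlim2
  rw [hq1, div_self hs2.ne', one_smul] at h6
  exact h6

end NDG
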