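import Pool.Agent.Lib.NDG.Top
import Pool.Agent.Lib.NDG.CritEq
import Pool.Agent.Lib.NDG.Growth
import Pool.Agent.Lib.NDG.Deform
import Pool.Agent.Lib.NDG.Limit

/-!
Module Exist (3h). Existence of critical chains with large momentum. N = n + 2.
CONSTANTS, in this order (R ≥ 1 given, C ≥ 1 from `Bd.one_le`):
1. R1 = exp(6NC)(R + 1 + 10C), a = (R1 + 10C)^2 + C(1 + R1 + 10C) + 2, a' = a + 1.
2. q0, q1 from `exists_signs`; q0, q1 ≠ a0 (a0 the given zero of f: f a0 = 0); ρ₀ > 0 and η > 0 with f ≥ η on {||y - q0|| < ρ₀}, f ≤ -η on {||y - q1|| < ρ₀} (continuity). ρ, C', ω, M₀ from `top`.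
3. ε₀ ≤ 1/R and δ from `reg_compact`.
4. m even, m ≥ 2, with (m - 1)(||q0 - q1||/2) > 2 sqrt(a' + C + C^2) (||q0 - q1|| > 0).
5. b = (C' m)^2/2 + C(1 + C' m) + a' (this bounds the action of the initial family: with M = m M', each step ≤ C'/M' = C' m/M, so dsum2 ≤ (C' m)^2/M, dsum ≤ C' m; `act_upper`).
6. κ ≥ 1 with κ min(ε₀, η)^2 > b + C + C^2 and 4 κ δ^2 ≥ 2 R1^2.
7. M' ≥ M₀, M' ≥ R, with C'/M' ≤ ω and 4(b + C + C^2)/M' ≤ min(ω, 1)^2. M = m M' ≥ M'.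
CLAIM: there is y with unit components, a ≤ A y ≤ b, IsCrit A y, where A = tot G f κ M. Suppose not; take K, T from `deform` (with A, a, a', b, ω). Let F be the family of `top`, D l = T^[l]. For all u and l ≤ K: D l (F u) has unit components,
A(D l (F u)) ≤ A(F u) ≤ b (pen = 0 at F u as both ends are a0, f a0 = 0). The composition is continuous (T is continuous on the set of unit chains, which it preserves). Steps in l ≤ ω. For a unit chain z with A z ≤ b: pen ≥ 0 so act ≤ b, the steps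
have norm² ≤ 4(b + C + C²)/M ≤ ω² (`step_le`); pen ≤ b - act ≤ b + C + C² (`act_lower`, dsum2 ≥ 0), so κ (max (f (z 0)) 0)² ≤ b + C + C² < κ η², f(z 0) < η, so ||z 0 - q0|| ≥ ρ (as ρ ≤ ρ₀), and similarly f (z last) > -η, and alt q0 q1 (m-1) = q1 (m even).
So `top` gives u, t with D K (F u) visiting; by `visit` (alt' = alt by rfl) dsum ≥ (m-1)||q0-q1||/2; but A ≤ a', so act ≤ a' and `dsum_le` gives dsum² ≤ 4(a' + C + C²): contradiction to 4.
CONCLUSION: y critical with a ≤ A y ≤ b; J from `crit_of_isCrit`. As above max(f (y 0)) 0, max (-f(y last)) 0 < ε₀ ≤ 1/R, steps ≤ 1. Suppose ||J i|| < R for some i. `growth`: all ||J j|| ≤ R1. `act_small`: act ≤ a - 2. Penalty: let p = max (f(y 0)) 0; if p > 0 then |f (y 0)| = p ≤ ε₀,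
δ ≤ ||wedge .. ∇f||, 2 κ p δ ≤ ||J 0|| ≤ R1, so κ p² ≤ R1²/(4 κ δ²) ≤ 1/2; same at the other end. So A y ≤ a - 2 + 1 < a, contradiction. So all ||J i|| ≥ R ≥ 1; in particular J 0 ≠ 0 gives max(f(y 0)) 0 > 0, so f (y 0) > 0, and c = 2 κ f(y 0) > 0; same at the end.
-/

namespace NDG

variable {N : ℕ}

private theorem pen_nonneg (f : E N → ℝ) {κ : ℝ} (hκ : 0 ≤ κ) (x y : E N) : 0 ≤ pen f κ x y := by
  unfold pen; positivity

private theorem act_le_tot (G : ℝ → MM N → ℝ) (f : E N → ℝ) {κ : ℝ} (hκ : 0 ≤ κ) (M : ℕ)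
    (y : Fin (M + 1) → E N) : act G M y ≤ tot G f κ M y := by
  have := pen_nonneg f hκ (y 0) (y (Fin.last M))
  unfold tot; linarith

private theorem pen_le {G : ℝ → MM N → ℝ} {C : ℝ} (hG : ∀ t, 0 ≤ t → t ≤ 1 → Bd (G t) C) {M : ℕ}
    (hM : 1 ≤ M) {y : Fin (M + 1) → E N} (hy : ∀ i, ‖y i‖ = 1) {f : E N → ℝ} {κ b : ℝ}
    (hb : tot G f κ M y ≤ b) : pen f κ (y 0) (y (Fin.last M)) ≤ b + C + C ^ 2 := by
  have h1 := act_lower hG hM hy
  have h2 : 0 ≤ (M : ℝ) / 4 * dsum2 M y :=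
    mul_nonneg (by positivity) (Finset.sum_nonneg fun i _ => by positivity)
  unfold tot at hb
  linarith

private theorem max_lt {κ B μ p : ℝ} (hκ : 0 < κ) (hμ : 0 < μ) (h1 : κ * (max p 0) ^ 2 ≤ B)
    (h2 : B < κ * μ ^ 2) : max p 0 < μ := by
  have h3 : (max p 0) ^ 2 < μ ^ 2 := lt_of_mul_lt_mul_left (lt_of_le_of_lt h1 h2) hκ.le
  exact lt_of_pow_lt_pow_left₀ 2 hμ.le h3

private theorem ends_lt {G : ℝ → MM N → ℝ} {C : ℝ} (hG : ∀ t, 0 ≤ t → t ≤ 1 → Bd (G t) C) {M : ℕ}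
    (hM : 1 ≤ M) {y : Fin (M + 1) → E N} (hy : ∀ i, ‖y i‖ = 1) {f : E N → ℝ} {κ b μ : ℝ}
    (hκ : 0 < κ) (hμ : 0 < μ) (hb : tot G f κ M y ≤ b) (h2 : b + C + C ^ 2 < κ * μ ^ 2) :
    max (f (y 0)) 0 < μ ∧ max (-f (y (Fin.last M))) 0 < μ := by
  have h := pen_le hG hM hy hb
  unfold pen at h
  have p1 : 0 ≤ κ * (max (f (y 0)) 0) ^ 2 := by positivity
  have p2 : 0 ≤ κ * (max (-f (y (Fin.last M))) 0) ^ 2 := by positivity
  exact ⟨max_lt hκ hμ (by linarith) h2, max_lt hκ hμ (by linarith) h2⟩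

private theorem init_act {G : ℝ → MM N → ℝ} {C : ℝ} (hG : ∀ t, 0 ≤ t → t ≤ 1 → Bd (G t) C)
    {m M' : ℕ} (hm : 1 ≤ m) (hM' : 1 ≤ M') {y : Fin (m * M' + 1) → E N} (hy : ∀ i, ‖y i‖ = 1)
    {C' : ℝ} (hC' : 0 < C')
    (hs : ∀ i : Fin (m * M'), ‖y i.succ - y i.castSucc‖ ≤ C' / M') :
    act G (m * M') y ≤ (C' * m) ^ 2 / 2 + C * (1 + C' * m) := by
  have hM : 1 ≤ m * M' := Nat.mul_pos hm hM'
  have hC1 : 1 ≤ C := (hG 0 le_rfl zero_le_one).one_le
  have hm0 : (0 : ℝ) < m := by exact_mod_cast hm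
  have hM0 : (0 : ℝ) < M' := by exact_mod_cast hM'
  have h1 : dsum (m * M') y ≤ C' * m := by
    calc dsum (m * M') y ≤ ∑ _i : Fin (m * M'), C' / M' := Finset.sum_le_sum fun i _ => hs i
      _ = C' * m := by
        rw [Finset.sum_const, Finset.card_univ, Fintype.card_fin, nsmul_eq_mul]
        push_cast; field_simp
  have h2 : dsum2 (m * M') y ≤ (m * M' : ℝ) * (C' / M') ^ 2 := by
    calc dsum2 (m * M') y ≤ ∑ _i : Fin (m * M'), (C' / M') ^ 2 :=
          Finset.sum_le_sum fun i _ => pow_le_pow_left₀ (norm_nonneg _) (hs i) 2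
      _ = (m * M' : ℝ) * (C' / M') ^ 2 := by
        rw [Finset.sum_const, Finset.card_univ, Fintype.card_fin, nsmul_eq_mul]
        push_cast; ring
  have h3 := act_upper hG hM hy
  have h4 : ((m * M' : ℕ) : ℝ) / 2 * dsum2 (m * M') y ≤ (C' * m) ^ 2 / 2 := by
    calc ((m * M' : ℕ) : ℝ) / 2 * dsum2 (m * M') y
        ≤ ((m * M' : ℕ) : ℝ) / 2 * ((m * M' : ℝ) * (C' / M') ^ 2) := by gcongr
      _ = (C' * m) ^ 2 / 2 := by push_cast; field_simp
  have h5 : C * (1 + dsum (m * M') y) ≤ C * (1 + C' * m) := by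
    apply mul_le_mul_of_nonneg_left (by linarith) (by linarith)
  linarith

private theorem iter_facts {M : ℕ} {A : (Fin (M + 1) → E N) → ℝ} {b : ℝ}
    {T : (Fin (M + 1) → E N) → Fin (M + 1) → E N}
    (h1 : ∀ y, (∀ i, ‖y i‖ = 1) → ∀ i, ‖T y i‖ = 1)
    (h2 : ∀ y, (∀ i, ‖y i‖ = 1) → A y ≤ b → A (T y) ≤ A y) (y : Fin (M + 1) → E N)
    (hy : ∀ i, ‖y i‖ = 1) (hb : A y ≤ b) (l : ℕ) :
    (∀ i, ‖T^[l] y i‖ = 1) ∧ A (T^[l] y) ≤ b := by
  induction l with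
  | zero => exact ⟨hy, hb⟩
  | succ l ih =>
    rw [Function.iterate_succ_apply']
    exact ⟨h1 _ ih.1, (h2 _ ih.1 ih.2).trans ih.2⟩

private theorem iter_cont {M m n : ℕ} {A : (Fin (M + 1) → E N) → ℝ} {b : ℝ}
    {T : (Fin (M + 1) → E N) → Fin (M + 1) → E N}
    (h1 : ∀ y, (∀ i, ‖y i‖ = 1) → ∀ i, ‖T y i‖ = 1)
    (h2 : ∀ y, (∀ i, ‖y i‖ = 1) → A y ≤ b → A (T y) ≤ A y)
    (hT : ContinuousOn T {y | ∀ i, ‖y i‖ = 1})
    (F : (Fin m → Fin n → ℝ) → Fin (M + 1) → E N) (hF : Continuous F) (hF1 : ∀ u i, ‖F u i‖ = 1)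
    (hFb : ∀ u, A (F u) ≤ b) (l : ℕ) : Continuous fun u => T^[l] (F u) := by
  induction l with
  | zero => exact hF
  | succ l ih =>
    have : (fun u => T^[l + 1] (F u)) = T ∘ fun u => T^[l] (F u) := by
      funext u
      rw [Function.iterate_succ_apply']; rfl
    rw [this]
    exact hT.comp_continuous ih fun u => (iter_facts h1 h2 (F u) (hF1 u) (hFb u) l).1

private theorem exists_cont {f : E N → ℝ} (hf : Continuous f) {q : E N} (hq : 0 < f q) :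
    ∃ ρ : ℝ, 0 < ρ ∧ ∀ y, ‖y - q‖ < ρ → f q / 2 ≤ f y := by
  have h := Metric.continuousAt_iff.1 (hf.continuousAt (x := q)) (f q / 2) (by linarith)
  obtain ⟨ρ, hρ, h⟩ := h
  refine ⟨ρ, hρ, fun y hy => ?_⟩
  have := h (show dist y q < ρ by rwa [dist_eq_norm])
  rw [Real.dist_eq, abs_lt] at this
  linarith [this.1]

theorem exists_chain {n : ℕ} (hn : 1 ≤ n) {G : ℝ → MM (n + 2) → ℝ} {C : ℝ}
    (hG : ∀ t, 0 ≤ t → t ≤ 1 → Bd (G t) C) {f : E (n + 2) → ℝ} (hf : ContDiff ℝ 1 f)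
    (hreg : ∀ x, ‖x‖ = 1 → f x = 0 → wedge x (gradient f x) ≠ 0) {a0 : E (n + 2)}
    (ha : ‖a0‖ = 1) (hfa : f a0 = 0) (R : ℝ) (hR : 1 ≤ R) :
    ∃ M y J, Crit G C M y J ∧ Ends f R M y J := by
  have hC1 : 1 ≤ C := (hG 0 le_rfl zero_le_one).one_le
  -- 1. constants
  obtain ⟨R1, hR1⟩ : ∃ R1 : ℝ, R1 = Real.exp (6 * ((n + 2 : ℕ) : ℝ) * C) * (R + 1 + 10 * C) :=
    ⟨_, rfl⟩
  have hR1p : 0 < R1 := by rw [hR1]; positivity
  obtain ⟨a, haa⟩ : ∃ a : ℝ, a = (R1 + 10 * C) ^ 2 + C * (1 + (R1 + 10 * C)) + 2 := ⟨_, rfl⟩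
  have hap : 0 < a := by rw [haa]; positivity
  -- 2. the two points
  obtain ⟨q0, q1, h0, h1, hf0, hf1⟩ := exists_signs hf hreg ha hfa
  have ha0 : q0 ≠ a0 := by rintro rfl; linarith
  have ha1 : q1 ≠ a0 := by rintro rfl; linarith
  have h01 : q0 ≠ q1 := by rintro rfl; linarith
  obtain ⟨ρa, hρa, hρa'⟩ := exists_cont hf.continuous hf0
  obtain ⟨ρb, hρb, hρb'⟩ := exists_cont (f := fun x => - f x) hf.continuous.neg
    (q := q1) (by linarith)
  obtain ⟨η, hη⟩ : ∃ η : ℝ, η = min (f q0 / 2) (-f q1 / 2) := ⟨_, rfl⟩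
  have hηp : 0 < η := by rw [hη]; exact lt_min (by linarith) (by linarith)
  obtain ⟨ρ, C', ω, hρ, hC', hω, hρρ, h4ρ, M₀, hM₀, htop⟩ :=
    top hn ha h0 h1 ha0 ha1 h01 (lt_min hρa hρb)
  have hq0 : ∀ y, f y < η → ρ ≤ ‖y - q0‖ := by
    intro y hy
    by_contra hc
    have := hρa' y (lt_of_lt_of_le (not_le.1 hc) (hρρ.trans (min_le_left _ _)))
    have h' : η ≤ f q0 / 2 := by rw [hη]; exact min_le_left _ _
    linarith
  have hq1 : ∀ y, -η < f y → ρ ≤ ‖y - q1‖ := by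
    intro y hy
    by_contra hc
    have := hρb' y (lt_of_lt_of_le (not_le.1 hc) (hρρ.trans (min_le_right _ _)))
    have h' : η ≤ -f q1 / 2 := by rw [hη]; exact min_le_right _ _
    linarith
  -- 3. regularity
  obtain ⟨ε₀, δ, hε₀, hε₁, hδ, hδ'⟩ := reg_compact hf hreg (ε₁ := 1 / R) (by positivity)
  -- 4. number of loops
  have hqq : 0 < ‖q0 - q1‖ := norm_pos_iff.2 (sub_ne_zero.2 h01)
  obtain ⟨k, hk⟩ := exists_nat_gt (2 * Real.sqrt (a + 1 + C + C ^ 2) / (‖q0 - q1‖ / 2))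
  rw [div_lt_iff₀ (by positivity)] at hk
  obtain ⟨m, hm⟩ : ∃ m : ℕ, m = 2 * (k + 1) := ⟨_, rfl⟩
  have hm1 : 1 ≤ m := by omega
  have halt : alt q0 q1 (m - 1) = q1 := by
    have : ¬ Even (m - 1) := by
      rw [hm, Nat.not_even_iff_odd]
      exact ⟨k, by omega⟩
    unfold alt
    rw [if_neg this]
  have hmR : 2 * Real.sqrt (a + 1 + C + C ^ 2) < ((m : ℝ) - 1) * (‖q0 - q1‖ / 2) := by
    refine lt_of_lt_of_le hk ?_
    apply mul_le_mul_of_nonneg_right _ (by positivity)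
    rw [hm]; push_cast
    have : (0 : ℝ) ≤ k := Nat.cast_nonneg k
    linarith
  -- 5. bound of the initial family
  obtain ⟨b, hb⟩ : ∃ b : ℝ, b = (C' * m) ^ 2 / 2 + C * (1 + C' * m) + (a + 1) := ⟨_, rfl⟩
  have hbp : 0 < b := by rw [hb]; positivity
  -- 6. the penalty constant
  obtain ⟨μ, hμ⟩ : ∃ μ : ℝ, μ = min ε₀ η := ⟨_, rfl⟩
  have hμp : 0 < μ := by rw [hμ]; exact lt_min hε₀ hηp
  obtain ⟨κ, hκ1, hκ2, hκ3⟩ : ∃ κ : ℝ, 1 ≤ κ ∧ b + C + C ^ 2 < κ * μ ^ 2 ∧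
      2 * R1 ^ 2 ≤ 4 * κ * δ ^ 2 := by
    refine ⟨max 1 (max ((b + C + C ^ 2 + 1) / μ ^ 2) (R1 ^ 2 / (2 * δ ^ 2))), le_max_left _ _,
      ?_, ?_⟩
    · have h : (b + C + C ^ 2 + 1) / μ ^ 2 ≤ max 1 (max ((b + C + C ^ 2 + 1) / μ ^ 2)
          (R1 ^ 2 / (2 * δ ^ 2))) := (le_max_left _ _).trans (le_max_right _ _)
      rw [div_le_iff₀ (by positivity)] at h
      linarith
    · have h : R1 ^ 2 / (2 * δ ^ 2) ≤ max 1 (max ((b + C + C ^ 2 + 1) / μ ^ 2)
          (R1 ^ 2 / (2 * δ ^ 2))) := (le_max_right _ _).trans (le_max_right _ _)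
      rw [div_le_iff₀ (by positivity)] at h
      linarith
  have hκ : 0 < κ := by linarith
  -- 7. the number of points
  obtain ⟨B0, hB0⟩ : ∃ B0 : ℝ, B0 = max R (max (C' / ω) (4 * (b + C + C ^ 2) / (min ω 1) ^ 2)) :=
    ⟨_, rfl⟩
  obtain ⟨M', hM'⟩ : ∃ M' : ℕ, M' = max M₀ ⌈B0⌉₊ := ⟨_, rfl⟩
  have hM₀' : M₀ ≤ M' := by rw [hM']; exact le_max_left _ _
  have hM'1 : 1 ≤ M' := hM₀.trans hM₀'
  have hM'R : B0 ≤ (M' : ℝ) := by
    refine (Nat.le_ceil B0).trans ?_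
    rw [hM']
    exact_mod_cast le_max_right _ _
  have hM'p : (0 : ℝ) < M' := by exact_mod_cast hM'1
  have e1 : R ≤ (M' : ℝ) := le_trans (by rw [hB0]; exact le_max_left _ _) hM'R
  have e2 : C' / (M' : ℝ) ≤ ω := by
    have : C' / ω ≤ (M' : ℝ) :=
      le_trans (by rw [hB0]; exact (le_max_left _ _).trans (le_max_right _ _)) hM'R
    rw [div_le_iff₀ hω] at this
    rw [div_le_iff₀ hM'p]; linarith
  have hmin : 0 < min ω 1 := lt_min hω one_pos
  have e3 : 4 * (b + C + C ^ 2) / (M' : ℝ) ≤ (min ω 1) ^ 2 := by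
    have : 4 * (b + C + C ^ 2) / (min ω 1) ^ 2 ≤ (M' : ℝ) :=
      le_trans (by rw [hB0]; exact (le_max_right _ _).trans (le_max_right _ _)) hM'R
    rw [div_le_iff₀ (by positivity)] at this
    rw [div_le_iff₀ hM'p]; linarith
  have hM1 : 1 ≤ m * M' := Nat.mul_pos hm1 hM'1
  have hMM : (M' : ℝ) ≤ ((m * M' : ℕ) : ℝ) := by
    exact_mod_cast Nat.le_mul_of_pos_left M' hm1
  -- facts about unit chains with total action at most b
  have hstep : ∀ z : Fin (m * M' + 1) → E (n + 2), (∀ i, ‖z i‖ = 1) → tot G f κ (m * M') z ≤ b →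
      ∀ i : Fin (m * M'), ‖z i.succ - z i.castSucc‖ ≤ min ω 1 := by
    intro z hz hzb i
    have h := step_le hG hM1 hz ((act_le_tot G f hκ.le _ z).trans hzb) i
    have h' : 4 * (b + C + C ^ 2) / ((m * M' : ℕ) : ℝ) ≤ (min ω 1) ^ 2 :=
      le_trans (div_le_div_of_nonneg_left (by positivity) hM'p hMM) e3
    exact le_of_sq_le_sq (h.trans h') hmin.le
  have hμε : μ ≤ ε₀ := by rw [hμ]; exact min_le_left _ _
  have hμη : μ ≤ η := by rw [hμ]; exact min_le_right _ _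
  obtain ⟨F, hFc, hF1, hFa, hFl, hFs, hF⟩ := htop m M' hm1 hM₀'
  have hFb : ∀ u, tot G f κ (m * M') (F u) ≤ b := by
    intro u
    have h := init_act hG hm1 hM'1 (hF1 u) hC' (hFs u)
    have hp : pen f κ (F u 0) (F u (Fin.last (m * M'))) = 0 := by
      unfold pen
      rw [hFa, hFl, hfa]; simp
    unfold tot
    rw [hp, hb]
    linarith
  -- existence of a critical point
  have hex : ∃ y : Fin (m * M' + 1) → E (n + 2), (∀ i, ‖y i‖ = 1) ∧ a ≤ tot G f κ (m * M') y ∧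
      tot G f κ (m * M') y ≤ b ∧ IsCrit (tot G f κ (m * M')) y := by
    by_contra hno
    have hno' : ∀ y : Fin (m * M' + 1) → E (n + 2), (∀ i, ‖y i‖ = 1) →
        a ≤ tot G f κ (m * M') y → tot G f κ (m * M') y ≤ b →
        ¬ IsCrit (tot G f κ (m * M')) y := fun y hy hy1 hy2 hy3 => hno ⟨y, hy, hy1, hy2, hy3⟩
    obtain ⟨K, T, hT1, hTc, hTb, hTω, hTK⟩ := deform (tot G f κ (m * M'))
      (contDiff_tot (fun t ht ht' => (hG t ht ht').smooth) hf κ hM1) (a' := a + 1) (b := b)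
      (by linarith) hno' hω
    have hit := fun u l => iter_facts hT1 hTb (F u) (hF1 u) (hFb u) l
    obtain ⟨u, t, ht, htv⟩ := hF K (fun l => T^[l]) (fun u => rfl)
      (fun l _ => iter_cont hT1 hTb hTc F hFc hF1 hFb l) (fun l _ u i => (hit u l).1 i)
      (fun l _ u i => by
        rw [Function.iterate_succ_apply']
        exact hTω _ (hit u l).1 i)
      (fun l _ u i => (hstep _ (hit u l).1 (hit u l).2 i).trans (min_le_left _ _))
      (fun l _ u => hq0 _ (lt_of_le_of_lt (le_max_left _ 0)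
        (lt_of_lt_of_le (ends_lt hG hM1 (hit u l).1 hκ hμp (hit u l).2 hκ2).1 hμη)))
      (fun l _ u => by
        rw [halt]
        have h := lt_of_le_of_lt (le_max_left _ 0)
          (lt_of_lt_of_le (ends_lt hG hM1 (hit u l).1 hκ hμp (hit u l).2 hκ2).2 hμη)
        exact hq1 _ (by linarith))
    have hv := visit hm1 h4ρ (T^[K] (F u)) t ht htv
    have ha' : act G (m * M') (T^[K] (F u)) ≤ a + 1 :=
      (act_le_tot G f hκ.le _ _).trans (hTK (F u) (hF1 u) (hFb u))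
    have hd := dsum_le hG hM1 (hit u K).1 ha'
    have hd' : dsum (m * M') (T^[K] (F u)) ≤ 2 * Real.sqrt (a + 1 + C + C ^ 2) := by
      apply le_of_sq_le_sq _ (by positivity)
      rw [mul_pow, Real.sq_sqrt (by positivity)]
      linarith
    linarith
  obtain ⟨y, hy, hya, hyb, hyc⟩ := hex
  obtain ⟨J, hJ, hJ0, hJ1⟩ := crit_of_isCrit hG hf κ hM1 hy hyc
  obtain ⟨hp0, hp1⟩ := ends_lt hG hM1 hy hκ hμp hyb hκ2
  have hs1 : ∀ i : Fin (m * M'), ‖y i.succ - y i.castSucc‖ ≤ 1 := fun i =>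
    (hstep y hy hyb i).trans (min_le_right _ _)
  have hbig : ∀ i, R ≤ ‖J i‖ := by
    intro i
    by_contra hc
    have hc := not_le.1 hc
    have hall : ∀ j, ‖J j‖ ≤ R1 := by
      intro j
      refine (growth hG hM1 hJ i j).trans ?_
      rw [hR1]
      exact mul_le_mul_of_nonneg_left (by linarith) (Real.exp_nonneg _)
    have hact := act_small hG hM1 hJ hs1 hall
    have hpen : ∀ (x : E (n + 2)) (p : ℝ), ‖x‖ = 1 → |f x| = p ∨ p = 0 → 0 ≤ p → p < μ →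
        ‖(2 * κ * p) • wedge x (gradient f x)‖ ≤ R1 → κ * p ^ 2 ≤ 1 / 2 := by
      intro x p hx hfp hp hpμ hn'
      rcases eq_or_lt_of_le hp with h | h
      · rw [← h]; norm_num
      · have hfx : |f x| = p := by
          rcases hfp with h' | h'
          · exact h'
          · linarith
        have hw := hδ' x hx (by rw [hfx]; linarith)
        rw [norm_smul, Real.norm_eq_abs, abs_of_nonneg (by positivity)] at hn'
        have h2 : 2 * κ * p * δ ≤ R1 := le_trans (mul_le_mul_of_nonneg_left hw (by positivity)) hn'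
        have h3 : (2 * κ * p * δ) ^ 2 ≤ R1 ^ 2 := pow_le_pow_left₀ (by positivity) h2 2
        have h4 : κ * p ^ 2 * (4 * κ * δ ^ 2) ≤ 1 / 2 * (4 * κ * δ ^ 2) := by
          calc κ * p ^ 2 * (4 * κ * δ ^ 2) = (2 * κ * p * δ) ^ 2 := by ring
            _ ≤ R1 ^ 2 := h3
            _ ≤ 1 / 2 * (4 * κ * δ ^ 2) := by linarith
        exact le_of_mul_le_mul_right h4 (by positivity)
    have hq0' : κ * (max (f (y 0)) 0) ^ 2 ≤ 1 / 2 := by
      apply hpen (y 0) _ (hy 0) _ (le_max_right _ _) hp0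
      · rw [← hJ0]; exact hall 0
      · rcases le_total (f (y 0)) 0 with h | h
        · right; exact max_eq_right h
        · left; rw [max_eq_left h, abs_of_nonneg h]
    have hq1' : κ * (max (-f (y (Fin.last (m * M')))) 0) ^ 2 ≤ 1 / 2 := by
      apply hpen (y (Fin.last (m * M'))) _ (hy _) _ (le_max_right _ _) hp1
      · rw [← hJ1]; exact hall _
      · rcases le_total (f (y (Fin.last (m * M')))) 0 with h | h
        · left; rw [max_eq_left (by linarith), abs_of_nonpos h]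
        · right; exact max_eq_right (by linarith)
    have : tot G f κ (m * M') y ≤ a - 1 := by
      unfold tot pen
      rw [haa]
      linarith
    linarith
  have hpos : ∀ (x : E (n + 2)) (p : ℝ) (v : MM (n + 2)), 0 ≤ p → v = (2 * κ * p) • wedge x (gradient f x) →
      R ≤ ‖v‖ → 0 < p := by
    intro x p v hp hv hRv
    rcases eq_or_lt_of_le hp with h | h
    · rw [← h] at hv
      rw [hv] at hRv
      simp at hRv
      linarith
    · exact h
  have hf0' := hpos _ _ _ (le_max_right _ _) hJ0 (hbig 0)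
  have hf1' := hpos _ _ _ (le_max_right _ _) hJ1 (hbig _)
  have hfy0 : 0 < f (y 0) := by
    by_contra hc
    rw [max_eq_right (not_lt.1 hc)] at hf0'
    exact lt_irrefl _ hf0'
  have hfy1 : f (y (Fin.last (m * M'))) < 0 := by
    by_contra hc
    rw [max_eq_right (by linarith [not_lt.1 hc])] at hf1'
    exact lt_irrefl _ hf1'
  refine ⟨m * M', y, J, hJ, ⟨hM1, e1.trans hMM, hbig, hfy0, ?_, hfy1, ?_, ⟨_, ?_, hJ0⟩,
    ⟨_, ?_, hJ1⟩⟩⟩
  · have : f (y 0) < μ := lt_of_le_of_lt (le_max_left _ _) hp0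
    linarith
  · have : -f (y (Fin.last (m * M'))) < μ := lt_of_le_of_lt (le_max_left _ _) hp1
    linarith
  · positivity
  · positivity

end NDG
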