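import Pool.Agent.Lib.NDG.Sweep

/-!
Module Fam (1.8h). The initial family of chains: m loops at a, the loop i has parameter u i, each loop is sampled at M' points. Index j = i M' + r,
r = j % M', i = j / M'; j = m M' gives i = m and the last coordinate -1.
* continuity: each coordinate is Θ of a continuous function of u; Θ is Lipschitz.
* ends: j = 0: last coordinate -1, so Θ = a (`S.bd`); j = m M': j % M' = 0, last coordinate -1.
* step: if j / M' = (j+1) / M' the arguments differ only in the last coordinate, by 2/M' (r → r + 1). Otherwise r = M' - 1 and the next last coordinate is -1, so the next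
  value is a; it is also the value Θ (snoc (u i) 1) = a, and 1 - (2 (M'-1)/M' - 1) = 2/M'.
* `fam_per`: for j / M' ≠ i0 the arguments agree; for j / M' = i0 both have a coordinate of absolute value ≥ 1 (the coordinate c0), both values are a.
-/

namespace NDG

/-- the initial family -/
noncomputable def fam {n : ℕ} {a : E (n + 2)} (S : Sweep n a) (m M' : ℕ) (u : Fin m → Fin n → ℝ)
    (j : Fin (m * M' + 1)) : E (n + 2) :=
  S.Θ (Fin.snoc (α := fun _ => ℝ) (if h : (j : ℕ) / M' < m then u ⟨(j : ℕ) / M', h⟩ else 0)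
    (2 * (((j : ℕ) % M' : ℕ) : ℝ) / M' - 1))

variable {n : ℕ} {a : E (n + 2)} (S : Sweep n a) (m M' : ℕ)

theorem fam_cont : Continuous (fun u => fam S m M' u) := by
  have hΘ : Continuous S.Θ := by
    have h : LipschitzWith ⟨S.C, S.C_pos.le⟩ S.Θ := by
      apply LipschitzWith.of_dist_le_mul
      intro z z'
      rw [dist_eq_norm, dist_eq_norm]
      exact S.lip z z'
    exact h.continuous
  apply continuous_pi
  intro j
  unfold fam
  apply hΘ.comp
  apply continuous_pi
  intro c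
  rcases Fin.eq_castSucc_or_eq_last c with ⟨e, rfl⟩ | rfl
  · simp only [Fin.snoc_castSucc]
    split_ifs with h
    · fun_prop
    · fun_prop
  · simp only [Fin.snoc_last]
    fun_prop

theorem fam_unit (u : Fin m → Fin n → ℝ) (j) : ‖fam S m M' u j‖ = 1 := by
  exact S.unit _

theorem fam_zero (u : Fin m → Fin n → ℝ) : fam S m M' u 0 = a := by
  unfold fam
  apply S.bd
  refine ⟨Fin.last n, ?_⟩
  rw [Fin.snoc_last]
  simp

theorem fam_last (hM : 1 ≤ M') (u : Fin m → Fin n → ℝ) :
    fam S m M' u (Fin.last (m * M')) = a := by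
  unfold fam
  apply S.bd
  refine ⟨Fin.last n, ?_⟩
  rw [Fin.snoc_last]
  simp

theorem fam_step (hM : 1 ≤ M') (u : Fin m → Fin n → ℝ) (i : Fin (m * M')) :
    ‖fam S m M' u i.succ - fam S m M' u i.castSucc‖ ≤ 2 * S.C / M' := by
  have hMR : (0 : ℝ) < M' := by exact_mod_cast hM
  have hk : ∀ (w : Fin n → ℝ) (s t : ℝ), |s - t| ≤ 2 / M' →
      ‖S.Θ (Fin.snoc (α := fun _ => ℝ) w s) - S.Θ (Fin.snoc (α := fun _ => ℝ) w t)‖
        ≤ 2 * S.C / M' := by
    intro w s t hst
    refine (S.lip _ _).trans ?_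
    have h1 : ‖(Fin.snoc (α := fun _ => ℝ) w s : Fin (n + 1) → ℝ) -
        Fin.snoc (α := fun _ => ℝ) w t‖ ≤ 2 / M' := by
      rw [pi_norm_le_iff_of_nonneg (by positivity)]
      intro c
      rcases Fin.eq_castSucc_or_eq_last c with ⟨e, rfl⟩ | rfl
      · rw [Pi.sub_apply, Fin.snoc_castSucc, Fin.snoc_castSucc, sub_self, norm_zero]
        positivity
      · rw [Pi.sub_apply, Fin.snoc_last, Fin.snoc_last, Real.norm_eq_abs]
        exact hst
    calc S.C * ‖(Fin.snoc (α := fun _ => ℝ) w s : Fin (n + 1) → ℝ) -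
        Fin.snoc (α := fun _ => ℝ) w t‖ ≤ S.C * (2 / M') :=
          mul_le_mul_of_nonneg_left h1 S.C_pos.le
      _ = 2 * S.C / M' := by ring
  have hdm := Nat.div_add_mod (i : ℕ) M'
  have hdm' := Nat.div_add_mod ((i : ℕ) + 1) M'
  have hml := Nat.mod_lt (i : ℕ) hM
  have hml' := Nat.mod_lt ((i : ℕ) + 1) hM
  by_cases hd : ((i : ℕ) + 1) / M' = (i : ℕ) / M'
  · have hr : ((i : ℕ) + 1) % M' = (i : ℕ) % M' + 1 := by
      rw [hd] at hdm'
      omega
    have h1 : (i.succ : ℕ) / M' = (i.castSucc : ℕ) / M' := by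
      rw [Fin.val_succ, Fin.val_castSucc]
      exact hd
    have h2 : (i.succ : ℕ) % M' = (i.castSucc : ℕ) % M' + 1 := by
      rw [Fin.val_succ, Fin.val_castSucc]
      exact hr
    unfold fam
    simp only [h1, h2]
    apply hk
    push_cast
    have h3 : 2 * (((((i.castSucc : ℕ) % M' : ℕ) : ℝ)) + 1) / M' - 1 -
        (2 * ((((i.castSucc : ℕ) % M' : ℕ) : ℝ)) / M' - 1) = 2 / M' := by
      ring
    rw [h3, abs_of_pos (by positivity)]
  · have hle : (i : ℕ) / M' ≤ ((i : ℕ) + 1) / M' := Nat.div_le_div_right (Nat.le_succ _)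
    have h0 : (i : ℕ) / M' + 1 ≤ ((i : ℕ) + 1) / M' := by omega
    have h00 : M' * ((i : ℕ) / M') + M' ≤ M' * (((i : ℕ) + 1) / M') := by
      calc M' * ((i : ℕ) / M') + M' = M' * ((i : ℕ) / M' + 1) := by ring
        _ ≤ M' * (((i : ℕ) + 1) / M') := Nat.mul_le_mul_left _ h0
    have hr : ((i : ℕ) + 1) % M' = 0 := by omega
    have hr' : (i : ℕ) % M' + 1 = M' := by omega
    have h1 : fam S m M' u i.succ = a := by
      unfold fam
      apply S.bd
      refine ⟨Fin.last n, ?_⟩
      rw [Fin.snoc_last, Fin.val_succ, hr]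
      simp
    have h2 : a = S.Θ (Fin.snoc (α := fun _ => ℝ)
        (if h : ((i.castSucc : Fin (m * M' + 1)) : ℕ) / M' < m then
          u ⟨((i.castSucc : Fin (m * M' + 1)) : ℕ) / M', h⟩ else 0) 1) := by
      symm
      apply S.bd
      refine ⟨Fin.last n, ?_⟩
      rw [Fin.snoc_last]
      simp
    rw [h1]
    nth_rewrite 1 [h2]
    unfold fam
    apply hk
    rw [Fin.val_castSucc]
    have h3 : (((i : ℕ) % M' : ℕ) : ℝ) = (M' : ℝ) - 1 := by
      have h4 : (((i : ℕ) % M' : ℕ) : ℝ) + 1 = (M' : ℝ) := by exact_mod_cast hr'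
      linarith
    rw [h3]
    have h5 : 1 - (2 * ((M' : ℝ) - 1) / M' - 1) = 2 / M' := by
      field_simp
      ring
    rw [h5, abs_of_pos (by positivity)]

theorem fam_per (u u' : Fin m → Fin n → ℝ) (i0 : Fin m) (c0 : Fin n) (h : 1 ≤ |u i0 c0|)
    (h' : 1 ≤ |u' i0 c0|) (hu : ∀ i c, (i, c) ≠ (i0, c0) → u i c = u' i c) :
    fam S m M' u = fam S m M' u' := by
  funext j
  unfold fam
  by_cases hj : (j : ℕ) / M' = i0
  · have h1 : (j : ℕ) / M' < m := by rw [hj]; exact i0.2
    have h2 : (⟨(j : ℕ) / M', h1⟩ : Fin m) = i0 := Fin.ext hj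
    rw [dif_pos h1, dif_pos h1, h2, S.bd, S.bd]
    · refine ⟨c0.castSucc, ?_⟩
      rw [Fin.snoc_castSucc]
      exact h'
    · refine ⟨c0.castSucc, ?_⟩
      rw [Fin.snoc_castSucc]
      exact h
  · congr 2
    split_ifs with h1
    · funext c
      apply hu
      intro h2
      have h3 := congrArg Prod.fst h2
      simp only at h3
      apply hj
      rw [← h3]
    · rfl

theorem fam_val (u : Fin m → Fin n → ℝ) (i : Fin m) (j : Fin (m * M' + 1))
    (hj : (j : ℕ) / M' = i) : fam S m M' u j =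
      S.Θ (Fin.snoc (α := fun _ => ℝ) (u i) (2 * (((j : ℕ) % M' : ℕ) : ℝ) / M' - 1)) := by
  have h1 : (j : ℕ) / M' < m := by rw [hj]; exact i.2
  have h2 : (⟨(j : ℕ) / M', h1⟩ : Fin m) = i := Fin.ext hj
  unfold fam
  rw [dif_pos h1, h2]

end NDG
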