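import Pool.Agent.Lib.NDG.KDefs

/-!
Module KLab (1.3h). Labels from the signs of a vector valued function. The last coordinate of `P : Fin (n + 1) → ℕ` is the homotopy
parameter, the others are the position.
* `labOf_zero`, `labOf_succ`: definition of min'.
* `full_all`: let the facet j be full. There is a vertex i0 ≠ j with label 0, so all components of h are ≤ 0 there, and for each c a vertex
  i_c ≠ j with label c.succ, so h_c > 0 there. Two vertices of a Kuhn simplex differ by at most one in each coordinate, and they are in the closed box, so by hV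
  |h_c(i0)| <= ε for all c (h_c(i0) <= 0 < h_c(i_c) <= h_c(i0) + ε). Then hU gives W for the vertex j (adjacent to i0).
-/

namespace NDG

/-- `a` and `b` differ by at most one -/
def near (a b : ℕ) : Prop := a ≤ b + 1 ∧ b ≤ a + 1

open Classical in
/-- the label: 0 if all components are ≤ 0, else one plus the first positive component -/
noncomputable def labOf {n : ℕ} (h : ℕ → (Fin n → ℕ) → Fin n → ℝ) (P : Fin (n + 1) → ℕ) : Fin (n + 1) :=
  if hx : ((Finset.univ : Finset (Fin n)).filter
      (fun c => 0 < h (P (Fin.last n)) (fun e => P e.castSucc) c)).Nonempty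
  then (((Finset.univ : Finset (Fin n)).filter
      (fun c => 0 < h (P (Fin.last n)) (fun e => P e.castSucc) c)).min' hx).succ
  else 0

/-- the predicate on vertices -/
def WOf {n : ℕ} (W : ℕ → (Fin n → ℕ) → Prop) (P : Fin (n + 1) → ℕ) : Prop :=
  W (P (Fin.last n)) (fun e => P e.castSucc)

theorem labOf_zero {n : ℕ} (h : ℕ → (Fin n → ℕ) → Fin n → ℝ) (P : Fin (n + 1) → ℕ) :
    labOf h P = 0 ↔ ∀ c, h (P (Fin.last n)) (fun e => P e.castSucc) c ≤ 0 := by
  classical
  unfold labOf
  split_ifs with hx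
  · refine iff_of_false (Fin.succ_ne_zero _) ?_
    intro hall
    obtain ⟨c, hc⟩ := hx
    rw [Finset.mem_filter] at hc
    exact absurd hc.2 (not_lt.mpr (hall c))
  · refine iff_of_true rfl ?_
    intro c
    rw [← not_lt]
    intro hc
    exact hx ⟨c, by rw [Finset.mem_filter]; exact ⟨Finset.mem_univ _, hc⟩⟩

theorem labOf_succ {n : ℕ} (h : ℕ → (Fin n → ℕ) → Fin n → ℝ) (P : Fin (n + 1) → ℕ) (c : Fin n) :
    labOf h P = c.succ ↔ 0 < h (P (Fin.last n)) (fun e => P e.castSucc) c ∧
      ∀ e, e < c → h (P (Fin.last n)) (fun e => P e.castSucc) e ≤ 0 := by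
  classical
  unfold labOf
  split_ifs with hx
  · rw [Fin.succ_inj]
    constructor
    · intro hc
      have h1 := Finset.min'_mem _ hx
      rw [hc, Finset.mem_filter] at h1
      refine ⟨h1.2, fun e he => ?_⟩
      rw [← not_lt]
      intro h2
      have h3 := Finset.min'_le _ e (by
        rw [Finset.mem_filter]
        exact ⟨Finset.mem_univ _, h2⟩ : e ∈ (Finset.univ : Finset (Fin n)).filter
          (fun c => 0 < h (P (Fin.last n)) (fun e => P e.castSucc) c))
      rw [hc] at h3
      exact absurd he (not_lt.mpr h3)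
    · rintro ⟨h1, h2⟩
      apply le_antisymm
      · refine Finset.min'_le _ c ?_
        rw [Finset.mem_filter]
        exact ⟨Finset.mem_univ _, h1⟩
      · refine Finset.le_min' _ hx c ?_
        intro e he
        rw [Finset.mem_filter] at he
        by_contra hlt
        exact absurd he.2 (not_lt.mpr (h2 e (not_le.mp hlt)))
  · refine iff_of_false (Fin.succ_ne_zero _).symm ?_
    rintro ⟨h1, _⟩
    exact hx ⟨c, by rw [Finset.mem_filter]; exact ⟨Finset.mem_univ _, h1⟩⟩

private theorem near_vtx {d : ℕ} (v : Fin d → ℕ) (π : Equiv.Perm (Fin d)) (i j : Fin (d + 1))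
    (e : Fin d) : near (vtx v π i e) (vtx v π j e) := by
  unfold near vtx
  split_ifs <;> omega

theorem full_all {n K : ℕ} (k : Fin n → ℕ) (W : ℕ → (Fin n → ℕ) → Prop)
    (h : ℕ → (Fin n → ℕ) → Fin n → ℝ) (ε : ℝ)
    (hV : ∀ s s' p p', s ≤ K → s' ≤ K → (∀ c, p c ≤ k c) → (∀ c, p' c ≤ k c) → near s s' →
      (∀ c, near (p c) (p' c)) → W s p → W s' p' → ∀ c, |h s p c - h s' p' c| ≤ ε)
    (hU : ∀ s s' p p', s ≤ K → s' ≤ K → (∀ c, p c ≤ k c) → (∀ c, p' c ≤ k c) → near s s' →
      (∀ c, near (p c) (p' c)) → W s p → (∀ c, |h s p c| ≤ ε) → W s' p') :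
    ∀ v ∈ box (Fin.snoc (α := fun _ => ℕ) k K : Fin (n + 1) → ℕ), ∀ π j,
      Full (labOf h) (WOf W) v π j → WOf W (vtx v π j) := by
  intro v hv π j hF
  rw [mem_box] at hv
  have hvK : v (Fin.last n) < K := by simpa using hv (Fin.last n)
  have hvk : ∀ c : Fin n, v c.castSucc < k c := fun c => by simpa using hv c.castSucc
  have hle : ∀ i, vtx v π i (Fin.last n) ≤ K := by
    intro i; simp only [vtx]; split_ifs <;> omega
  have hle' : ∀ i (c : Fin n), vtx v π i c.castSucc ≤ k c := by
    intro i c; have := hvk c; simp only [vtx]; split_ifs <;> omega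
  obtain ⟨hW, hl⟩ := hF
  obtain ⟨i0, hi0, h0⟩ := hl 0
  rw [labOf_zero] at h0
  have hW0 := hW i0 hi0
  refine hU (vtx v π i0 (Fin.last n)) _ (fun e => vtx v π i0 e.castSucc) _ (hle i0) (hle j)
    (hle' i0) (hle' j) (near_vtx v π i0 j _) (fun c => near_vtx v π i0 j _) hW0 ?_
  intro c
  obtain ⟨i, hi, h1⟩ := hl c.succ
  rw [labOf_succ] at h1
  have h2 := hV (vtx v π i0 (Fin.last n)) (vtx v π i (Fin.last n))
    (fun e => vtx v π i0 e.castSucc) (fun e => vtx v π i e.castSucc) (hle i0) (hle i)
    (hle' i0) (hle' i) (near_vtx v π i0 i _) (fun c => near_vtx v π i0 i _) hW0 (hW i hi) c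
  have h3 := h0 c
  have h4 := h1.1
  rw [abs_le] at h2 ⊢
  constructor <;> linarith [h2.1, h2.2]

end NDG
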