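import Pool.Agent.Lib.NDG.Consts
import Pool.Agent.Lib.NDG.Fam
import Pool.Agent.Lib.NDG.KLab

/-!
Module Grid (1.5h). Grid coordinates. A position is p : Fin (m (n+1)) → ℕ; the coordinate of (i, e) : Fin m × Fin (n+1) is `finProdFinEquiv (i, e)`; e < n: parameter of the
loop i (grid of size ku), e = n: the i-th time. `TOf p i` = maximum of the times j ≤ i.
All statements are elementary: `Finset.le_sup`, `Finset.sup_le`, `Finset.sup_const`...
* `TOf_succ_eq`: if the time of i is 0, or at most TOf p (i-1), then TOf p i = TOf p (i-1).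
* `near_TOf`: |max t_j - max t'_j| <= max |t_j - t'_j|.
-/

namespace NDG

variable {n m : ℕ}

/-- side lengths of the box -/
def kOf (n m ku M' : ℕ) (c : Fin (m * (n + 1))) : ℕ :=
  if (finProdFinEquiv.symm c).2 = Fin.last n then m * M' else ku

/-- the loop parameters -/
noncomputable def uOf (ku : ℕ) (p : Fin (m * (n + 1)) → ℕ) (i : Fin m) (e : Fin n) : ℝ :=
  2 * (p (finProdFinEquiv (i, e.castSucc)) : ℝ) / ku - 1

/-- the times -/
def tOf (p : Fin (m * (n + 1)) → ℕ) (i : Fin m) : ℕ := p (finProdFinEquiv (i, Fin.last n))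

/-- the running maxima of the times -/
def TOf (p : Fin (m * (n + 1)) → ℕ) (i : Fin m) : ℕ :=
  (Finset.univ.filter (fun j => j ≤ i)).sup (tOf p)

theorem tOf_le_TOf (p : Fin (m * (n + 1)) → ℕ) (i : Fin m) : tOf p i ≤ TOf p i := by
  unfold TOf
  exact Finset.le_sup (f := tOf p) (by simp)

theorem TOf_mono (p : Fin (m * (n + 1)) → ℕ) : Monotone (TOf p) := by
  intro i j hij
  unfold TOf
  apply Finset.sup_mono
  intro l hl
  simp only [Finset.mem_filter, Finset.mem_univ, true_and] at hl ⊢
  exact hl.trans hij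

theorem TOf_le {p : Fin (m * (n + 1)) → ℕ} {K : ℕ} (h : ∀ i, tOf p i ≤ K) (i : Fin m) :
    TOf p i ≤ K := by
  unfold TOf
  exact Finset.sup_le (fun j _ => h j)

theorem TOf_zero (p : Fin (m * (n + 1)) → ℕ) (i : Fin m) (hi : (i : ℕ) = 0) : TOf p i = tOf p i := by
  apply le_antisymm
  · unfold TOf
    apply Finset.sup_le
    intro j hj
    simp only [Finset.mem_filter, Finset.mem_univ, true_and] at hj
    have : j = i := by
      apply Fin.ext
      have := Fin.le_def.mp hj
      omega
    rw [this]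
  · exact tOf_le_TOf p i

/-- a running maximum is the old one or the new entry -/
theorem TOf_succ (p : Fin (m * (n + 1)) → ℕ) (i j : Fin m) (hij : (j : ℕ) = i + 1) :
    TOf p j = max (TOf p i) (tOf p j) := by
  apply le_antisymm
  · unfold TOf
    apply Finset.sup_le
    intro l hl
    simp only [Finset.mem_filter, Finset.mem_univ, true_and] at hl
    rcases Nat.lt_or_ge (i : ℕ) (l : ℕ) with h | h
    · have : l = j := by
        apply Fin.ext
        have := Fin.le_def.mp hl
        omega
      rw [this]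
      exact le_max_right _ _
    · exact le_max_of_le_left (Finset.le_sup (f := tOf p)
        (by simpa using Fin.le_def.mpr h))
  · apply max_le
    · apply TOf_mono
      rw [Fin.le_def]
      omega
    · exact tOf_le_TOf p j

theorem near_TOf {p p' : Fin (m * (n + 1)) → ℕ} (h : ∀ c, near (p c) (p' c)) (i : Fin m) :
    near (TOf p i) (TOf p' i) := by
  have key : ∀ q q' : Fin (m * (n + 1)) → ℕ, (∀ c, q c ≤ q' c + 1) →
      TOf q i ≤ TOf q' i + 1 := by
    intro q q' hq
    unfold TOf
    apply Finset.sup_le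
    intro j hj
    have h1 : tOf q j ≤ tOf q' j + 1 := hq _
    have h2 := Finset.le_sup (f := tOf q') hj
    omega
  exact ⟨key p p' (fun c => (h c).1), key p' p (fun c => (h c).2)⟩

theorem kOf_last (ku M' : ℕ) (i : Fin m) : kOf n m ku M' (finProdFinEquiv (i, Fin.last n)) = m * M' := by
  unfold kOf
  rw [Equiv.symm_apply_apply, if_pos rfl]

theorem kOf_castSucc (ku M' : ℕ) (i : Fin m) (e : Fin n) :
    kOf n m ku M' (finProdFinEquiv (i, e.castSucc)) = ku := by
  unfold kOf
  rw [Equiv.symm_apply_apply, if_neg]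
  exact (Fin.castSucc_lt_last e).ne

theorem near_uOf {ku : ℕ} (hku : 1 ≤ ku) {p p' : Fin (m * (n + 1)) → ℕ}
    (h : ∀ c, near (p c) (p' c)) : ∀ i e, |uOf ku p i e - uOf ku p' i e| ≤ 2 / ku := by
  intro i e
  have hk : (0 : ℝ) < ku := by exact_mod_cast hku
  obtain ⟨h1, h2⟩ := h (finProdFinEquiv (i, e.castSucc))
  have h1' : (p (finProdFinEquiv (i, e.castSucc)) : ℝ) ≤
      p' (finProdFinEquiv (i, e.castSucc)) + 1 := by exact_mod_cast h1
  have h2' : (p' (finProdFinEquiv (i, e.castSucc)) : ℝ) ≤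
      p (finProdFinEquiv (i, e.castSucc)) + 1 := by exact_mod_cast h2
  unfold uOf
  have e1 : 2 * (p (finProdFinEquiv (i, e.castSucc)) : ℝ) / ku - 1 -
      (2 * (p' (finProdFinEquiv (i, e.castSucc)) : ℝ) / ku - 1) =
      2 * ((p (finProdFinEquiv (i, e.castSucc)) : ℝ) -
        p' (finProdFinEquiv (i, e.castSucc))) / ku := by ring
  rw [e1, abs_div, abs_of_pos hk]
  apply div_le_div_of_nonneg_right _ hk.le
  rw [abs_le]
  constructor <;> linarith

/-- the value of a family of chains at the i-th (running maximum) time -/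
noncomputable def val {N : ℕ} (M' ku : ℕ) (Φ : (Fin m → Fin n → ℝ) → Fin (m * M' + 1) → E N)
    (p : Fin (m * (n + 1)) → ℕ) (i : Fin m) : E N :=
  Φ (uOf ku p) ⟨min (TOf p i) (m * M'), by omega⟩

end NDG
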