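import Pool.Agent.Lib.NDG.HhD

/-!
Module HhB (1.3h). Bounds for `hh`. Let μ = wedge x y, s = sq τ μ, u = s⁻¹ μ.
* `norm_le_sq`: ||v||^2 / 2 <= (sq τ v)^2, so ||v|| <= 3/2 sq τ v and ||u|| <= 3/2 (in fact sqrt 2).
* `hh_abs`: s <= τ + ||μ|| / sqrt 2 (square both sides) and ||μ||^2 <= 2 ||y - x||^2 for unit vectors (`norm_wedge_sphere`), so s <= τ + ||y - x||;
  |G u| <= C.
* `dphi_le`: |(v,w)/(2 s)| <= ||v|| ||w|| / (2 s) <= ||w|| / sqrt 2 (since ||v|| <= sqrt 2 s), so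
  |dphi| <= (||w||/sqrt 2) C + C ||w|| + (||w||/sqrt 2) C sqrt 2 <= (0.7072 + 1 + 1) C ||w|| <= 11/4 C ||w||.
* with ||wedge x v|| <= 3/2 ||v||: the derivatives of hh are at most 11/4 * 3/2 C ||v|| <= 5 C ||v||.
-/

open scoped RealInnerProductSpace

namespace NDG

variable {N : ℕ}

theorem norm_sq_le_sq (τ : ℝ) (v : MM N) : ‖v‖ ^ 2 ≤ 2 * sq τ v ^ 2 := by
  have h : sq τ v ^ 2 = τ ^ 2 + ‖v‖ ^ 2 / 2 := by
    unfold sq
    exact Real.sq_sqrt (by positivity)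
  rw [h]
  nlinarith [sq_nonneg τ]

theorem norm_inv_sq_smul_le {τ : ℝ} (hτ : 0 < τ) (v : MM N) : ‖(sq τ v)⁻¹ • v‖ ≤ 3 / 2 := by
  have hs := sq_pos hτ v
  have h := norm_sq_le_sq τ v
  rw [norm_smul, norm_inv, Real.norm_eq_abs, abs_of_pos hs, inv_mul_le_iff₀ hs]
  refine abs_le_of_sq_le_sq' ?_ (by positivity) |>.2
  nlinarith [sq_nonneg (sq τ v)]

theorem hh_abs {G : MM N → ℝ} {C : ℝ} (hG : Bd G C) {τ : ℝ} (hτ : 0 < τ) {x y : E N}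
    (hx : ‖x‖ = 1) (hy : ‖y‖ = 1) : |hh G τ x y| ≤ C * (τ + ‖y - x‖) := by
  have hs := sq_pos hτ (wedge x y)
  have hu := norm_inv_sq_smul_le hτ (wedge x y)
  have hC : 0 ≤ C := le_trans zero_le_one hG.one_le
  have hb := hG.b0 _ (le_trans hu (by norm_num))
  have h2 : sq τ (wedge x y) ^ 2 = τ ^ 2 + ‖wedge x y‖ ^ 2 / 2 := by
    unfold sq
    exact Real.sq_sqrt (by positivity)
  have h3 := norm_wedge_sphere hx hy
  have hn : 0 ≤ ‖y - x‖ := norm_nonneg _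
  have h4 : sq τ (wedge x y) ≤ τ + ‖y - x‖ := by
    refine (abs_le_of_sq_le_sq' ?_ (by positivity)).2
    rw [h2, h3]
    nlinarith [mul_nonneg hτ.le hn, sq_nonneg (‖y - x‖ ^ 2)]
  unfold hh
  rw [abs_mul, abs_of_pos hs]
  calc sq τ (wedge x y) * |G ((sq τ (wedge x y))⁻¹ • wedge x y)|
      ≤ (τ + ‖y - x‖) * C := mul_le_mul h4 hb (abs_nonneg _) (by positivity)
    _ = C * (τ + ‖y - x‖) := by ring

theorem dphi_le {G : MM N → ℝ} {C : ℝ} (hG : Bd G C) {τ : ℝ} (hτ : 0 < τ) (v w : MM N) :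
    |dphi G τ v w| ≤ 11 / 4 * C * ‖w‖ := by
  have hs := sq_pos hτ v
  have hu := norm_inv_sq_smul_le hτ v
  have hC : 0 ≤ C := le_trans zero_le_one hG.one_le
  have hb0 := hG.b0 _ (le_trans hu (by norm_num))
  have hb1 := hG.b1 _ (le_trans hu (by norm_num))
  have h := norm_sq_le_sq τ v
  have hun : ‖(sq τ v)⁻¹ • v‖ = ‖v‖ / sq τ v := by
    rw [norm_smul, norm_inv, Real.norm_eq_abs, abs_of_pos hs, div_eq_inv_mul]
  set s := sq τ v with hsdef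
  set r := ‖v‖ / s with hr
  have hr0 : 0 ≤ r := by positivity
  have hr1 : r ≤ 3 / 2 := by rw [hun] at hu; exact hu
  have hr2 : r ^ 2 ≤ 2 := by
    rw [hr, div_pow, div_le_iff₀ (by positivity)]
    exact h
  have hw : 0 ≤ ‖w‖ := norm_nonneg w
  have hq : |⟪v, w⟫ / (2 * s)| ≤ r / 2 * ‖w‖ := by
    rw [abs_div, abs_of_pos (by positivity : (0 : ℝ) < 2 * s), div_le_iff₀ (by positivity)]
    have h5 : r / 2 * ‖w‖ * (2 * s) = ‖v‖ * ‖w‖ := by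
      rw [hr]
      field_simp
    rw [h5]
    exact abs_real_inner_le_norm v w
  have t1 : |⟪v, w⟫ / (2 * s) * G (s⁻¹ • v)| ≤ r / 2 * ‖w‖ * C := by
    rw [abs_mul]
    exact mul_le_mul hq hb0 (abs_nonneg _) (by positivity)
  have t2 : |fderiv ℝ G (s⁻¹ • v) w| ≤ C * ‖w‖ := by
    have h6 := (fderiv ℝ G (s⁻¹ • v)).le_opNorm w
    rw [Real.norm_eq_abs] at h6
    exact le_trans h6 (mul_le_mul_of_nonneg_right hb1 hw)
  have t3 : |fderiv ℝ G (s⁻¹ • v) (s⁻¹ • v)| ≤ C * r := by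
    have h6 := (fderiv ℝ G (s⁻¹ • v)).le_opNorm (s⁻¹ • v)
    rw [Real.norm_eq_abs, hun] at h6
    exact le_trans h6 (mul_le_mul_of_nonneg_right hb1 hr0)
  have t4 : |⟪v, w⟫ / (2 * s) * fderiv ℝ G (s⁻¹ • v) (s⁻¹ • v)| ≤ r / 2 * ‖w‖ * (C * r) := by
    rw [abs_mul]
    exact mul_le_mul hq t3 (abs_nonneg _) (by positivity)
  have t5 : |dphi G τ v w| ≤ r / 2 * ‖w‖ * C + C * ‖w‖ + r / 2 * ‖w‖ * (C * r) := by
    unfold dphi
    rw [← hsdef]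
    refine le_trans (abs_sub _ _) ?_
    refine add_le_add (le_trans (abs_add_le _ _) (add_le_add t1 t2)) t4
  refine le_trans t5 ?_
  have hCw : 0 ≤ C * ‖w‖ := mul_nonneg hC hw
  nlinarith [mul_le_mul_of_nonneg_left hr1 hCw, mul_le_mul_of_nonneg_left hr2 hCw]

theorem hh_dx_le {G : MM N → ℝ} {C : ℝ} (hG : Bd G C) {τ : ℝ} (hτ : 0 < τ) {x y : E N}
    (hy : ‖y‖ = 1) (v : E N) : |fderiv ℝ (fun z => hh G τ z y) x v| ≤ 5 * C * ‖v‖ := by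
  rw [hh_dx hG.smooth hτ]
  have hC : 0 ≤ C := le_trans zero_le_one hG.one_le
  have h1 := dphi_le hG hτ (wedge x y) (wedge v y)
  have h2 := norm_wedge_le v y
  rw [hy, mul_one] at h2
  have hv : 0 ≤ ‖v‖ := norm_nonneg v
  refine le_trans h1 ?_
  nlinarith [mul_le_mul_of_nonneg_left h2 hC, mul_nonneg hC hv]

theorem hh_dy_le {G : MM N → ℝ} {C : ℝ} (hG : Bd G C) {τ : ℝ} (hτ : 0 < τ) {x y : E N}
    (hx : ‖x‖ = 1) (v : E N) : |fderiv ℝ (fun z => hh G τ x z) y v| ≤ 5 * C * ‖v‖ := by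
  rw [hh_dy hG.smooth hτ]
  have hC : 0 ≤ C := le_trans zero_le_one hG.one_le
  have h1 := dphi_le hG hτ (wedge x y) (wedge x v)
  have h2 := norm_wedge_le x v
  rw [hx, one_mul] at h2
  have hv : 0 ≤ ‖v‖ := norm_nonneg v
  refine le_trans h1 ?_
  nlinarith [mul_le_mul_of_nonneg_left h2 hC, mul_nonneg hC hv]

end NDG
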