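import Pool.Agent.Lib.NDG.Alg

/-!
Module HhD (2.5h). Calculus of `hh G τ x y = s G (s⁻¹ μ)`, `μ = wedge x y`, `s = sq τ μ = sqrt (τ^2 + ||μ||^2/2) > 0`, for τ > 0.

* `contDiff_hh`: `wedge` is bilinear (coordinates are polynomials; `contDiff_euclidean`), `sq τ` is smooth on `MM N` since
  τ^2 + ||v||^2/2 > 0 (`ContDiff.sqrt`), inverse of a positive smooth function, composition with G.
* `hasFDerivAt_sq`: derivative of `sq τ` at v in the direction w is (v, w) / (2 sq τ v).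
* `hh_deriv`: put φ(v) = sq τ v * G ((sq τ v)⁻¹ v) on MM N, so hh = φ ∘ wedge. With s = sq τ v, u = s⁻¹ v and σ = (v, w)/(2 s):
  Dφ_v(w) = σ G(u) + s DG_u(s⁻¹ w - s⁻² σ v) = σ G(u) + DG_u(w) - σ DG_u(u).
* `hh_dx`, `hh_dy`: the chain rule with D(z ↦ wedge z y)(v) = wedge v y etc. (linear maps; make them continuous linear maps with
  `LinearMap.toContinuousLinearMap` or prove `HasFDerivAt` through coordinates).
* `hh_rot`: Dx(rot x) + Dy(rot y) = Dφ_μ(wedge (rot x) y + wedge x (rot y)) = Dφ_μ(lie a b μ) by `wedge_rot`; (μ, lie a b μ) = 0 by `inner_lie_self`, so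
  σ = 0 and the value is DG_u(lie a b μ) = DG_u(lie a b (s u)) = s DG_u(lie a b u) = - s (X G u)(a,b).
-/

open scoped RealInnerProductSpace

namespace NDG

variable {N : ℕ}

theorem sq_pos {τ : ℝ} (hτ : 0 < τ) (v : MM N) : 0 < sq τ v := by
  unfold sq
  apply Real.sqrt_pos.2
  positivity

/-- the derivative of `v ↦ sq τ v * G ((sq τ v)⁻¹ • v)` -/
noncomputable def dphi (G : MM N → ℝ) (τ : ℝ) (v w : MM N) : ℝ :=
  ⟪v, w⟫ / (2 * sq τ v) * G ((sq τ v)⁻¹ • v) + fderiv ℝ G ((sq τ v)⁻¹ • v) w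
    - ⟪v, w⟫ / (2 * sq τ v) * fderiv ℝ G ((sq τ v)⁻¹ • v) ((sq τ v)⁻¹ • v)

namespace HhDAux

/-- `y ↦ wedge x y` as a continuous linear map -/
noncomputable def wedgeR (x : E N) : E N →L[ℝ] MM N :=
  LinearMap.toContinuousLinearMap
    { toFun := fun y => wedge x y
      map_add' := fun y y' => wedge_add_right x y y'
      map_smul' := fun c y => wedge_smul_right c x y }

/-- `x ↦ wedge x y` as a continuous linear map -/
noncomputable def wedgeL (y : E N) : E N →L[ℝ] MM N :=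
  LinearMap.toContinuousLinearMap
    { toFun := fun x => wedge x y
      map_add' := fun x x' => wedge_add_left x x' y
      map_smul' := fun c x => wedge_smul_left c x y }

theorem wedgeR_apply (x y : E N) : wedgeR x y = wedge x y := rfl

theorem wedgeL_apply (x y : E N) : wedgeL y x = wedge x y := rfl

/-- the function of the bivector -/
noncomputable def phi (G : MM N → ℝ) (τ : ℝ) (v : MM N) : ℝ := sq τ v * G ((sq τ v)⁻¹ • v)

theorem hasFDerivAt_sq {τ : ℝ} (hτ : 0 < τ) (v : MM N) :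
    HasFDerivAt (fun v => sq τ v) ((1 / (2 * sq τ v)) • innerSL ℝ v) v := by
  have h1 : HasFDerivAt (fun v : MM N => ‖v‖ ^ 2) (2 • (innerSL ℝ v)) v :=
    (hasStrictFDerivAt_norm_sq v).hasFDerivAt
  have h2 : HasFDerivAt (fun v : MM N => τ ^ 2 + ‖v‖ ^ 2 / 2) ((2⁻¹ : ℝ) • (2 • innerSL ℝ v)) v := by
    have := (h1.mul_const (2⁻¹ : ℝ)).const_add (τ ^ 2)
    simpa [div_eq_mul_inv] using this
  have h3 := h2.sqrt (by positivity)
  have h4 : (1 / (2 * √(τ ^ 2 + ‖v‖ ^ 2 / 2))) • ((2⁻¹ : ℝ) • (2 • innerSL ℝ v)) =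
      (1 / (2 * sq τ v)) • innerSL ℝ v := by
    unfold sq
    congr 1
    ext w
    simp
  rw [h4] at h3
  exact h3

theorem hasFDerivAt_phi {G : MM N → ℝ} (hG : ContDiff ℝ 2 G) {τ : ℝ} (hτ : 0 < τ) (v : MM N) :
    ∃ L : MM N →L[ℝ] ℝ, HasFDerivAt (phi G τ) L v ∧ ∀ w, L w = dphi G τ v w := by
  have hs := hasFDerivAt_sq hτ v
  have hpos := sq_pos hτ v
  have hne : sq τ v ≠ 0 := hpos.ne'
  have hinv : HasFDerivAt (fun v => (sq τ v)⁻¹)
      ((-(sq τ v ^ 2)⁻¹) • ((1 / (2 * sq τ v)) • innerSL ℝ v)) v :=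
    (hasDerivAt_inv hne).comp_hasFDerivAt v hs
  have hsm := hinv.smul (hasFDerivAt_id (𝕜 := ℝ) v)
  have hGd : HasFDerivAt G (fderiv ℝ G ((sq τ v)⁻¹ • v)) ((sq τ v)⁻¹ • v) :=
    ((hG.differentiable (by norm_num)) _).hasFDerivAt
  have hc := HasFDerivAt.comp v (f := fun v => (sq τ v)⁻¹ • v) (g := G) hGd hsm
  have hm := hs.mul hc
  refine ⟨_, hm, ?_⟩
  intro w
  simp only [dphi, Function.comp, ContinuousLinearMap.add_apply, ContinuousLinearMap.smul_apply,
    ContinuousLinearMap.comp_apply, ContinuousLinearMap.smulRight_apply, id,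
    ContinuousLinearMap.id_apply, map_add, map_smul, smul_eq_mul, innerSL_apply_apply]
  field_simp
  ring

theorem hh_eq (G : MM N → ℝ) (τ : ℝ) (x y : E N) : hh G τ x y = phi G τ (wedge x y) := rfl

theorem contDiff_wedge : ContDiff ℝ 1 (fun p : E N × E N => wedge p.1 p.2) := by
  have h1 : ∀ a, ContDiff ℝ 1 (fun p : E N × E N => p.1 a) := fun a =>
    contDiff_euclidean.1 contDiff_fst a
  have h2 : ∀ a, ContDiff ℝ 1 (fun p : E N × E N => p.2 a) := fun a =>
    contDiff_euclidean.1 contDiff_snd a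
  apply contDiff_euclidean.2
  rintro ⟨a, b⟩
  have : (fun p : E N × E N => (wedge p.1 p.2) (a, b)) =
      fun p => p.1 a * p.2 b - p.2 a * p.1 b := by
    funext p
    exact wedge_apply p.1 p.2 a b
  rw [this]
  exact ((h1 a).mul (h2 b)).sub ((h2 a).mul (h1 b))

theorem contDiff_sq {τ : ℝ} (hτ : 0 < τ) : ContDiff ℝ 1 (fun v : MM N => sq τ v) := by
  unfold sq
  apply ContDiff.sqrt
  · exact contDiff_const.add ((contDiff_id.norm_sq ℝ).div_const 2)
  · intro v
    positivity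

theorem contDiff_phi {G : MM N → ℝ} (hG : ContDiff ℝ 2 G) {τ : ℝ} (hτ : 0 < τ) :
    ContDiff ℝ 1 (phi G τ) := by
  unfold phi
  have h1 := contDiff_sq (N := N) hτ
  have h2 : ContDiff ℝ 1 (fun v : MM N => (sq τ v)⁻¹) := h1.inv (fun v => (sq_pos hτ v).ne')
  have h3 : ContDiff ℝ 1 (fun v : MM N => (sq τ v)⁻¹ • v) := h2.smul contDiff_id
  exact h1.mul ((hG.of_le (by norm_num)).comp h3)

end HhDAux

open HhDAux

theorem contDiff_hh {G : MM N → ℝ} (hG : ContDiff ℝ 2 G) {τ : ℝ} (hτ : 0 < τ) :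
    ContDiff ℝ 1 (fun p : E N × E N => hh G τ p.1 p.2) :=
  (contDiff_phi hG hτ).comp contDiff_wedge

theorem hh_dx {G : MM N → ℝ} (hG : ContDiff ℝ 2 G) {τ : ℝ} (hτ : 0 < τ) (x y v : E N) :
    fderiv ℝ (fun z => hh G τ z y) x v = dphi G τ (wedge x y) (wedge v y) := by
  obtain ⟨L, hL, hw⟩ := hasFDerivAt_phi hG hτ (wedge x y)
  have h1 : HasFDerivAt (fun z => wedge z y) (wedgeL y) x := (wedgeL y).hasFDerivAt
  have h2 : HasFDerivAt (fun z => hh G τ z y) (L.comp (wedgeL y)) x :=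
    HasFDerivAt.comp x (f := fun z => wedge z y) (g := phi G τ) hL h1
  rw [h2.fderiv, ContinuousLinearMap.comp_apply, hw, wedgeL_apply]

theorem hh_dy {G : MM N → ℝ} (hG : ContDiff ℝ 2 G) {τ : ℝ} (hτ : 0 < τ) (x y v : E N) :
    fderiv ℝ (fun z => hh G τ x z) y v = dphi G τ (wedge x y) (wedge x v) := by
  obtain ⟨L, hL, hw⟩ := hasFDerivAt_phi hG hτ (wedge x y)
  have h1 : HasFDerivAt (fun z => wedge x z) (wedgeR x) y := (wedgeR x).hasFDerivAt
  have h2 : HasFDerivAt (fun z => hh G τ x z) (L.comp (wedgeR x)) y :=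
    HasFDerivAt.comp y (f := fun z => wedge x z) (g := phi G τ) hL h1
  rw [h2.fderiv, ContinuousLinearMap.comp_apply, hw, wedgeR_apply]

theorem hh_rot {G : MM N → ℝ} (hG : ContDiff ℝ 2 G) {τ : ℝ} (hτ : 0 < τ) (x y : E N)
    (a b : Fin N) :
    fderiv ℝ (fun z => hh G τ z y) x (rot a b x) + fderiv ℝ (fun z => hh G τ x z) y (rot a b y) =
      - (sq τ (wedge x y) • X G ((sq τ (wedge x y))⁻¹ • wedge x y)) (a, b) := by
  rw [hh_dx hG hτ, hh_dy hG hτ]
  have hpos := sq_pos hτ (wedge x y)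
  have hadd : dphi G τ (wedge x y) (wedge (rot a b x) y) + dphi G τ (wedge x y) (wedge x (rot a b y)) =
      dphi G τ (wedge x y) (lie a b (wedge x y)) := by
    rw [← wedge_rot]
    simp only [dphi, inner_add_right, map_add]
    ring
  rw [hadd]
  unfold dphi
  rw [inner_lie_self]
  have h1 : lie a b (wedge x y) = sq τ (wedge x y) • lie a b ((sq τ (wedge x y))⁻¹ • wedge x y) := by
    rw [lie_smul, smul_smul, mul_inv_cancel₀ hpos.ne', one_smul]
  conv_lhs => rw [h1]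
  rw [map_smul]
  simp [X]

end NDG
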