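import Pool.Agent.Lib.NDG.Grid

/-!
Module Init (2.5h). The initial family: the grid points with all m values in the balls around alt q0 q1 i form the neighbourhood of one grid cell.
Notation z_i = g (alt q0 q1 i), |z_i c| < 1 (`Sweep.abs_g_lt`). θ of (i, e), e < n: ⌊(z_i e + 1) ku / 2⌋; θ of (i, n): ⌊i M' + (z_i n + 1) M' / 2⌋.
* `init_struct`: p in the closed box, all values val_i = fam (uOf p) (TOf p i) within ρ of alt q0 q1 i. TOf p i ≤ m M' (`TOf_le`). val_i ≠ a (`c1`), so TOf p i < m M' (`fam_last`), so l_i = TOf p i / M' < m and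
  (`fam_val`, `S.left`) g (val_i) = snoc (uOf p l_i) (2 (TOf p i % M') / M' - 1). If j = i + 1 < m, then l_i ≤ l_j (`TOf_mono`) and l_i = l_j is impossible: the first n coordinates of g (val_i) and g (val_j) would
  agree, but one of i, j is even and the other odd (`c2`). So l is strictly increasing from {0..m-1} to itself, so l_i = i. So TOf p i > TOf p (i-1) and by `TOf_succ` TOf p i = tOf p i.
* `init_iff`: with this, h_c > 0 means 2 p_c / ku - 1 > z_i e iff p_c > (z_i e + 1) ku/2 iff p_c > its floor (`Nat.floor_lt`), resp.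
  2 (t - i M')/M' - 1 > z_i n iff t > i M' + (z_i n + 1) M'/2.
* `init_cell`: θ c ≤ p c ≤ θ c + 1 gives |p c - x_c| ≤ 1 for the real number x_c whose floor is θ c. For times: i M' ≤ θ ≤ t ≤ x + 1 < (i+1) M' because (1 - z_i n) M' > 2; so t / M' = i, the times are increasing in
  i and TOf p i = tOf p i; the arguments of Θ differ from z_i by at most 2/ku ≤ η resp. 2/M' ≤ η in each coordinate; `c5`.
-/

namespace NDG

variable {n m : ℕ} {a q0 q1 : E (n + 2)}

namespace InitAux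

theorem alt_unit (h0 : ‖q0‖ = 1) (h1 : ‖q1‖ = 1) (i : ℕ) : ‖alt q0 q1 i‖ = 1 := by
  unfold alt
  split_ifs
  · exact h0
  · exact h1

theorem alt_ne {S : Sweep n a} {ρ ε ω η : ℝ} (hC : Cst S q0 q1 ρ ε ω η) (h0 : ‖q0‖ = 1)
    (h1 : ‖q1‖ = 1) (i : ℕ) : alt q0 q1 i ≠ a :=
  hC.c1 i _ (alt_unit h0 h1 i) (by rw [sub_self, norm_zero]; exact hC.ρ_pos)

theorem strict_id {m : ℕ} (l : Fin m → ℕ) (hl : ∀ i, l i < m)
    (hs : ∀ i j : Fin m, (j : ℕ) = i + 1 → l i < l j) (i : Fin m) : l i = i := by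
  have h1 : ∀ k (hk : k < m), k ≤ l ⟨k, hk⟩ := by
    intro k
    induction k with
    | zero => intro hk; exact Nat.zero_le _
    | succ k ih =>
      intro hk
      have h3 := ih (by omega)
      have h2 := hs ⟨k, by omega⟩ ⟨k + 1, hk⟩ rfl
      omega
  have h2 : ∀ d k (hk : k < m), k + d + 1 = m → l ⟨k, hk⟩ ≤ k := by
    intro d
    induction d with
    | zero =>
      intro k hk h
      have h3 := hl ⟨k, hk⟩
      omega
    | succ d ih =>
      intro k hk h
      have h3 := ih (k + 1) (by omega) (by omega)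
      have h4 := hs ⟨k, hk⟩ ⟨k + 1, by omega⟩ rfl
      omega
  have h3 := h1 i i.2
  have h4 := h2 (m - 1 - i) i i.2 (by have := i.2; omega)
  exact le_antisymm h4 h3

theorem struct {S : Sweep n a} {ρ ε ω η : ℝ} (hC : Cst S q0 q1 ρ ε ω η) {ku M' : ℕ}
    (hM : 1 ≤ M') (p : Fin (m * (n + 1)) → ℕ) (hp : ∀ c, p c ≤ kOf n m ku M' c)
    (hW : ∀ i : Fin m, ‖val M' ku (fam S m M') p i - alt q0 q1 i‖ < ρ) (i : Fin m) :
    tOf p i / M' = i ∧ S.g (val M' ku (fam S m M') p i) =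
      Fin.snoc (α := fun _ => ℝ) (uOf ku p i) (2 * ((tOf p i % M' : ℕ) : ℝ) / M' - 1) := by
  have hT : ∀ i, TOf p i ≤ m * M' := fun i => TOf_le (fun j => by
    have h := hp (finProdFinEquiv (j, Fin.last n))
    rw [kOf_last] at h
    exact h) i
  have hv : ∀ i, val M' ku (fam S m M') p i =
      fam S m M' (uOf ku p) ⟨TOf p i, Nat.lt_succ_of_le (hT i)⟩ := by
    intro i
    unfold val
    congr 1
    apply Fin.ext
    exact min_eq_left (hT i)
  have hun : ∀ i, ‖val M' ku (fam S m M') p i‖ = 1 := by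
    intro i
    rw [hv]
    exact fam_unit S m M' _ _
  have hne : ∀ i, val M' ku (fam S m M') p i ≠ a := fun i => hC.c1 i _ (hun i) (hW i)
  have hlt : ∀ i, TOf p i < m * M' := by
    intro i
    rcases (hT i).lt_or_eq with h | h
    · exact h
    · exfalso
      apply hne i
      rw [hv]
      have h2 : (⟨TOf p i, Nat.lt_succ_of_le (hT i)⟩ : Fin (m * M' + 1)) = Fin.last (m * M') :=
        Fin.ext h
      rw [h2]
      exact fam_last S m M' hM _
  have hl : ∀ i, TOf p i / M' < m :=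
    fun i => Nat.div_lt_of_lt_mul (by rw [mul_comm]; exact hlt i)
  have hval : ∀ i, val M' ku (fam S m M') p i = S.Θ (Fin.snoc (α := fun _ => ℝ)
      (uOf ku p ⟨TOf p i / M', hl i⟩) (2 * ((TOf p i % M' : ℕ) : ℝ) / M' - 1)) := by
    intro i
    rw [hv, fam_val S m M' (uOf ku p) ⟨TOf p i / M', hl i⟩ _ rfl]
  have hg : ∀ i, S.g (val M' ku (fam S m M') p i) = Fin.snoc (α := fun _ => ℝ)
      (uOf ku p ⟨TOf p i / M', hl i⟩) (2 * ((TOf p i % M' : ℕ) : ℝ) / M' - 1) := by
    intro i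
    have h := S.left (Fin.snoc (α := fun _ => ℝ)
      (uOf ku p ⟨TOf p i / M', hl i⟩) (2 * ((TOf p i % M' : ℕ) : ℝ) / M' - 1))
      (by rw [← hval]; exact hne i)
    rw [← hval] at h
    exact h
  have hs : ∀ i j : Fin m, (j : ℕ) = i + 1 → TOf p i / M' < TOf p j / M' := by
    intro i j hij
    have hmono : TOf p i / M' ≤ TOf p j / M' :=
      Nat.div_le_div_right (TOf_mono p (by rw [Fin.le_def]; omega))
    refine lt_of_le_of_ne hmono fun he => ?_
    have hgc : ∀ c : Fin n, S.g (val M' ku (fam S m M') p i) c.castSucc =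
        S.g (val M' ku (fam S m M') p j) c.castSucc := by
      intro c
      have h2 : (⟨TOf p i / M', hl i⟩ : Fin m) = ⟨TOf p j / M', hl j⟩ := Fin.ext he
      rw [hg, hg, Fin.snoc_castSucc, Fin.snoc_castSucc, h2]
    have hWi := hW i
    have hWj := hW j
    by_cases hev : Even (i : ℕ)
    · have hod : ¬ Even (j : ℕ) := by
        rw [hij, Nat.even_add_one, not_not]
        exact hev
      unfold alt at hWi hWj
      rw [if_pos hev] at hWi
      rw [if_neg hod] at hWj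
      obtain ⟨c, hc⟩ := hC.c2 _ _ (hun i) (hun j) hWi hWj
      exact hc (hgc c)
    · have hod : Even (j : ℕ) := by
        rw [hij, Nat.even_add_one]
        exact hev
      unfold alt at hWi hWj
      rw [if_neg hev] at hWi
      rw [if_pos hod] at hWj
      obtain ⟨c, hc⟩ := hC.c2 _ _ (hun j) (hun i) hWj hWi
      exact hc (hgc c).symm
  have hid : ∀ i : Fin m, TOf p i / M' = i := strict_id (fun i => TOf p i / M') hl hs
  have hTt : ∀ i, TOf p i = tOf p i := by
    intro i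
    rcases Nat.eq_zero_or_pos (i : ℕ) with h | h
    · exact TOf_zero p i h
    · have hi := i.2
      have h2 := TOf_succ p ⟨i - 1, by omega⟩ i (by simp only; omega)
      have h3 : TOf p ⟨i - 1, by omega⟩ / M' = i - 1 := hid ⟨i - 1, by omega⟩
      have h4 : TOf p i / M' = i := hid i
      have h5 : TOf p ⟨i - 1, by omega⟩ < TOf p i := by
        by_contra hcon
        have h6 := Nat.div_le_div_right (c := M') (not_lt.1 hcon)
        omega
      rcases le_total (TOf p ⟨i - 1, by omega⟩) (tOf p i) with h7 | h7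
      · rw [h2, max_eq_right h7]
      · rw [h2, max_eq_left h7] at h5
        exact absurd h5 (lt_irrefl _)
  refine ⟨by rw [← hTt]; exact hid i, ?_⟩
  have h2 : (⟨TOf p i / M', hl i⟩ : Fin m) = i := Fin.ext (hid i)
  rw [hg i, h2, hTt]

end InitAux

/-- the corner of the special cell -/
noncomputable def thOf (S : Sweep n a) (q0 q1 : E (n + 2)) (m ku M' : ℕ) (c : Fin (m * (n + 1))) : ℕ :=
  if (finProdFinEquiv.symm c).2 = Fin.last n then
    ⌊(((finProdFinEquiv.symm c).1 : ℕ) : ℝ) * M' +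
      (S.g (alt q0 q1 ((finProdFinEquiv.symm c).1 : ℕ)) (finProdFinEquiv.symm c).2 + 1) * M' / 2⌋₊
  else ⌊(S.g (alt q0 q1 ((finProdFinEquiv.symm c).1 : ℕ)) (finProdFinEquiv.symm c).2 + 1) * ku / 2⌋₊

theorem init_iff {S : Sweep n a} {ρ ε ω η : ℝ} (hC : Cst S q0 q1 ρ ε ω η) (h0 : ‖q0‖ = 1)
    (h1 : ‖q1‖ = 1) {ku M' : ℕ} (hku : 1 ≤ ku) (hM : 1 ≤ M') (p : Fin (m * (n + 1)) → ℕ)
    (hp : ∀ c, p c ≤ kOf n m ku M' c)
    (hW : ∀ i : Fin m, ‖val M' ku (fam S m M') p i - alt q0 q1 i‖ < ρ) (c : Fin (m * (n + 1))) :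
    0 < S.g (val M' ku (fam S m M') p (finProdFinEquiv.symm c).1) (finProdFinEquiv.symm c).2 -
        S.g (alt q0 q1 ((finProdFinEquiv.symm c).1 : ℕ)) (finProdFinEquiv.symm c).2 ↔
      thOf S q0 q1 m ku M' c < p c := by
  obtain ⟨⟨i, e⟩, rfl⟩ := finProdFinEquiv.surjective c
  obtain ⟨hd, hg⟩ := InitAux.struct hC hM p hp hW i
  have hkuR : (0 : ℝ) < ku := by exact_mod_cast hku
  have hMR : (0 : ℝ) < M' := by exact_mod_cast hM
  unfold thOf
  simp only [Equiv.symm_apply_apply]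
  rw [hg]
  rcases Fin.eq_castSucc_or_eq_last e with ⟨e', rfl⟩ | rfl
  · rw [if_neg (Fin.castSucc_lt_last e').ne, Fin.snoc_castSucc]
    have hz := S.abs_g_lt (InitAux.alt_unit h0 h1 i) (InitAux.alt_ne hC h0 h1 i) e'.castSucc
    rw [abs_lt] at hz
    generalize S.g (alt q0 q1 (i : ℕ)) e'.castSucc = z at hz ⊢
    unfold uOf
    have h2 : 0 ≤ (z + 1) * ku / 2 := by
      have h3 : 0 ≤ z + 1 := by linarith
      positivity
    rw [Nat.floor_lt h2]
    have e1 : 2 * (p (finProdFinEquiv (i, e'.castSucc)) : ℝ) / ku - 1 - z =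
        2 / ku * ((p (finProdFinEquiv (i, e'.castSucc)) : ℝ) - (z + 1) * ku / 2) := by
      field_simp
      ring
    rw [e1, mul_pos_iff_of_pos_left (by positivity), sub_pos]
  · rw [if_pos rfl, Fin.snoc_last]
    have hz := S.abs_g_lt (InitAux.alt_unit h0 h1 i) (InitAux.alt_ne hC h0 h1 i) (Fin.last n)
    rw [abs_lt] at hz
    generalize S.g (alt q0 q1 (i : ℕ)) (Fin.last n) = z at hz ⊢
    have h2 : 0 ≤ ((i : ℕ) : ℝ) * M' + (z + 1) * M' / 2 := by
      have h3 : 0 ≤ z + 1 := by linarith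
      positivity
    rw [Nat.floor_lt h2]
    have h4 : (p (finProdFinEquiv (i, Fin.last n)) : ℝ) =
        (i : ℕ) * M' + ((tOf p i % M' : ℕ) : ℝ) := by
      have h5 := Nat.div_add_mod (tOf p i) M'
      rw [hd] at h5
      have h6 : (tOf p i : ℝ) = M' * (i : ℕ) + ((tOf p i % M' : ℕ) : ℝ) := by exact_mod_cast h5.symm
      rw [mul_comm ((i : ℕ) : ℝ)]
      exact h6
    rw [h4]
    have e1 : 2 * ((tOf p i % M' : ℕ) : ℝ) / M' - 1 - z =
        2 / M' * ((((i : ℕ) : ℝ) * M' + ((tOf p i % M' : ℕ) : ℝ)) -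
          (((i : ℕ) : ℝ) * M' + (z + 1) * M' / 2)) := by
      field_simp
      ring
    rw [e1, mul_pos_iff_of_pos_left (by positivity), sub_pos]

theorem init_cell {S : Sweep n a} {ρ ε ω η : ℝ} (hC : Cst S q0 q1 ρ ε ω η) (h0 : ‖q0‖ = 1)
    (h1 : ‖q1‖ = 1) {ku M' : ℕ} (hku : 2 ≤ η * ku) (hM : 2 ≤ η * M')
    (hz0 : 2 < (1 - S.g q0 (Fin.last n)) * M') (hz1 : 2 < (1 - S.g q1 (Fin.last n)) * M')
    (p : Fin (m * (n + 1)) → ℕ)
    (hp : ∀ c, thOf S q0 q1 m ku M' c ≤ p c ∧ p c ≤ thOf S q0 q1 m ku M' c + 1) (i : Fin m) :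
    ‖val M' ku (fam S m M') p i - alt q0 q1 i‖ < ρ := by
  have hη := hC.η_pos
  have hkuR : (0 : ℝ) < ku := by
    by_contra hcon
    have h3 : (ku : ℝ) = 0 := le_antisymm (not_lt.1 hcon) (Nat.cast_nonneg _)
    rw [h3] at hku
    linarith
  have hMR : (0 : ℝ) < M' := by
    by_contra hcon
    have h3 : (M' : ℝ) = 0 := le_antisymm (not_lt.1 hcon) (Nat.cast_nonneg _)
    rw [h3] at hM
    linarith
  have hMN : 0 < M' := by exact_mod_cast hMR
  have hz : ∀ (i : Fin m) (e : Fin (n + 1)), |S.g (alt q0 q1 (i : ℕ)) e| < 1 := fun i e =>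
    S.abs_g_lt (InitAux.alt_unit h0 h1 i) (InitAux.alt_ne hC h0 h1 i) e
  have hz2 : ∀ i : Fin m, 2 < (1 - S.g (alt q0 q1 (i : ℕ)) (Fin.last n)) * M' := by
    intro i
    unfold alt
    split_ifs
    · exact hz0
    · exact hz1
  -- the real number with floor `thOf`
  have ht : ∀ i : Fin m,
      |(tOf p i : ℝ) - (((i : ℕ) : ℝ) * M' + (S.g (alt q0 q1 (i : ℕ)) (Fin.last n) + 1) * M' / 2)|
        ≤ 1 ∧ i * M' ≤ tOf p i ∧ tOf p i < (i + 1) * M' := by
    intro i
    have h2 := hp (finProdFinEquiv (i, Fin.last n))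
    unfold thOf at h2
    simp only [Equiv.symm_apply_apply, if_true] at h2
    have h3 := hz i (Fin.last n)
    rw [abs_lt] at h3
    have h3' := hz2 i
    generalize S.g (alt q0 q1 (i : ℕ)) (Fin.last n) = z at h2 h3 h3' ⊢
    have h4 : 0 ≤ (z + 1) * M' / 2 := by
      have h5 : 0 ≤ z + 1 := by linarith
      positivity
    have h5 : 0 ≤ ((i : ℕ) : ℝ) * M' + (z + 1) * M' / 2 := by positivity
    have h6 := Nat.floor_le h5
    have h7 := Nat.lt_floor_add_one (((i : ℕ) : ℝ) * M' + (z + 1) * M' / 2)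
    have h8 : (i : ℕ) * M' ≤ ⌊((i : ℕ) : ℝ) * M' + (z + 1) * M' / 2⌋₊ := by
      apply Nat.le_floor
      push_cast
      linarith
    generalize ⌊((i : ℕ) : ℝ) * M' + (z + 1) * M' / 2⌋₊ = F at h2 h6 h7 h8
    obtain ⟨h2a, h2b⟩ := h2
    have h9 : (F : ℝ) ≤ (tOf p i : ℝ) := by exact_mod_cast h2a
    have h10 : (tOf p i : ℝ) ≤ F + 1 := by exact_mod_cast h2b
    refine ⟨?_, le_trans h8 h2a, ?_⟩
    · rw [abs_le]
      constructor <;> linarith
    · have h11 : (tOf p i : ℝ) < ((i : ℕ) + 1) * M' := by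
        nlinarith
      exact_mod_cast h11
  have hT : TOf p i = tOf p i := by
    apply le_antisymm _ (tOf_le_TOf p i)
    unfold TOf
    apply Finset.sup_le
    intro j hj
    rw [Finset.mem_filter] at hj
    rcases hj.2.lt_or_eq with h2 | h2
    · have h3 := (ht j).2.2
      have h4 := (ht i).2.1
      have h5 : ((j : ℕ) + 1) * M' ≤ i * M' := Nat.mul_le_mul_right _ h2
      omega
    · rw [h2]
  have hlt : tOf p i < m * M' := by
    have h3 := (ht i).2.2
    have h4 : ((i : ℕ) + 1) * M' ≤ m * M' := Nat.mul_le_mul_right _ i.2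
    omega
  have hdiv : tOf p i / M' = i :=
    Nat.div_eq_of_lt_le (ht i).2.1 (ht i).2.2
  have hv : val M' ku (fam S m M') p i = S.Θ (Fin.snoc (α := fun _ => ℝ) (uOf ku p i)
      (2 * ((tOf p i % M' : ℕ) : ℝ) / M' - 1)) := by
    unfold val
    have h2 : min (TOf p i) (m * M') = tOf p i := by rw [hT, min_eq_left hlt.le]
    rw [fam_val S m M' (uOf ku p) i _ (by simp only [h2]; exact hdiv)]
    simp only [h2]
  rw [hv]
  apply hC.c5
  intro c
  rcases Fin.eq_castSucc_or_eq_last c with ⟨e', rfl⟩ | rfl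
  · rw [Fin.snoc_castSucc]
    have h2 := hp (finProdFinEquiv (i, e'.castSucc))
    unfold thOf at h2
    simp only [Equiv.symm_apply_apply] at h2
    rw [if_neg (Fin.castSucc_lt_last e').ne] at h2
    have h3 := hz i e'.castSucc
    rw [abs_lt] at h3
    unfold uOf
    generalize S.g (alt q0 q1 (i : ℕ)) e'.castSucc = z at h2 h3 ⊢
    have h5 : 0 ≤ (z + 1) * ku / 2 := by
      have h5 : 0 ≤ z + 1 := by linarith
      positivity
    have h6 := Nat.floor_le h5
    have h7 := Nat.lt_floor_add_one ((z + 1) * ku / 2)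
    generalize ⌊(z + 1) * (ku : ℝ) / 2⌋₊ = F at h2 h6 h7
    obtain ⟨h2a, h2b⟩ := h2
    have h9 : (F : ℝ) ≤ (p (finProdFinEquiv (i, e'.castSucc)) : ℝ) := by exact_mod_cast h2a
    have h10 : (p (finProdFinEquiv (i, e'.castSucc)) : ℝ) ≤ F + 1 := by exact_mod_cast h2b
    generalize (p (finProdFinEquiv (i, e'.castSucc)) : ℝ) = P at h9 h10 ⊢
    have e1 : 2 * P / ku - 1 - z = 2 / ku * (P - (z + 1) * ku / 2) := by
      field_simp
      ring
    rw [e1, abs_mul, abs_of_pos (by positivity)]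
    have h11 : |P - (z + 1) * ku / 2| ≤ 1 := by
      rw [abs_le]
      constructor <;> linarith
    calc 2 / (ku : ℝ) * |P - (z + 1) * ku / 2| ≤ 2 / ku * 1 :=
          mul_le_mul_of_nonneg_left h11 (by positivity)
      _ ≤ η := by
          rw [mul_one, div_le_iff₀ hkuR]
          exact hku
  · rw [Fin.snoc_last]
    have h2 := (ht i).1
    have h4 : (tOf p i : ℝ) = (i : ℕ) * M' + ((tOf p i % M' : ℕ) : ℝ) := by
      have h5 := Nat.div_add_mod (tOf p i) M'
      rw [hdiv] at h5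
      have h6 : (tOf p i : ℝ) = M' * (i : ℕ) + ((tOf p i % M' : ℕ) : ℝ) := by exact_mod_cast h5.symm
      rw [mul_comm ((i : ℕ) : ℝ)]
      exact h6
    rw [h4] at h2
    generalize S.g (alt q0 q1 (i : ℕ)) (Fin.last n) = z at h2 ⊢
    generalize ((tOf p i % M' : ℕ) : ℝ) = r at h2 ⊢
    have e1 : 2 * r / M' - 1 - z = 2 / M' * ((((i : ℕ) : ℝ) * M' + r) -
        (((i : ℕ) : ℝ) * M' + (z + 1) * M' / 2)) := by
      field_simp
      ring
    rw [e1, abs_mul, abs_of_pos (by positivity)]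
    calc 2 / (M' : ℝ) * |(((i : ℕ) : ℝ) * M' + r) - (((i : ℕ) : ℝ) * M' + (z + 1) * M' / 2)|
        ≤ 2 / M' * 1 := mul_le_mul_of_nonneg_left h2 (by positivity)
      _ ≤ η := by
          rw [mul_one, div_le_iff₀ hMR]
          exact hM

theorem thOf_lt {S : Sweep n a} {ρ ε ω η : ℝ} (hC : Cst S q0 q1 ρ ε ω η) (h0 : ‖q0‖ = 1)
    (h1 : ‖q1‖ = 1) {ku M' : ℕ} (hku : 1 ≤ ku) (hM : 1 ≤ M') (c : Fin (m * (n + 1))) :
    thOf S q0 q1 m ku M' c < kOf n m ku M' c := by
  obtain ⟨⟨i, e⟩, rfl⟩ := finProdFinEquiv.surjective c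
  have hkuR : (0 : ℝ) < ku := by exact_mod_cast hku
  have hMR : (0 : ℝ) < M' := by exact_mod_cast hM
  have hz := S.abs_g_lt (InitAux.alt_unit h0 h1 i) (InitAux.alt_ne hC h0 h1 i) e
  rw [abs_lt] at hz
  rcases Fin.eq_castSucc_or_eq_last e with ⟨e', rfl⟩ | rfl
  · rw [kOf_castSucc]
    unfold thOf
    simp only [Equiv.symm_apply_apply]
    rw [if_neg (Fin.castSucc_lt_last e').ne]
    generalize S.g (alt q0 q1 (i : ℕ)) e'.castSucc = z at hz ⊢
    have h2 : 0 ≤ (z + 1) * ku / 2 := by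
      have h3 : 0 ≤ z + 1 := by linarith
      positivity
    rw [Nat.floor_lt h2]
    nlinarith
  · rw [kOf_last]
    unfold thOf
    simp only [Equiv.symm_apply_apply, if_true]
    generalize S.g (alt q0 q1 (i : ℕ)) (Fin.last n) = z at hz ⊢
    have h2 : 0 ≤ ((i : ℕ) : ℝ) * M' + (z + 1) * M' / 2 := by
      have h3 : 0 ≤ z + 1 := by linarith
      positivity
    rw [Nat.floor_lt h2]
    have h3 : ((i : ℕ) : ℝ) + 1 ≤ m := by exact_mod_cast i.2
    push_cast
    nlinarith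

end NDG
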