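import Mathlib

/-! MP_0eef51: Kuhn triangulation of a box, full facets. -/

namespace NDG

/-- vertex `j` of the Kuhn simplex with corner `v` and order `π`: `v + e_(π 0) + ... + e_(π (j-1))` -/
def vtx {d : ℕ} (v : Fin d → ℕ) (π : Equiv.Perm (Fin d)) (j : Fin (d + 1)) : Fin d → ℕ :=
  fun c => v c + if (π.symm c : ℕ) < (j : ℕ) then 1 else 0

/-- the facet opposite to the vertex `j` carries all labels and all its vertices satisfy `W` -/
def Full {d : ℕ} (lab : (Fin d → ℕ) → Fin d) (W : (Fin d → ℕ) → Prop) (v : Fin d → ℕ)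
    (π : Equiv.Perm (Fin d)) (j : Fin (d + 1)) : Prop :=
  (∀ i, i ≠ j → W (vtx v π i)) ∧ ∀ l : Fin d, ∃ i, i ≠ j ∧ lab (vtx v π i) = l

/-- the corners of the cells of the box with side lengths `k` -/
def box {d : ℕ} (k : Fin d → ℕ) : Finset (Fin d → ℕ) := Fintype.piFinset fun c => Finset.range (k c)

theorem mem_box {d : ℕ} {k v : Fin d → ℕ} : v ∈ box k ↔ ∀ c, v c < k c := by
  simp [box]

/-- the cyclic shift of an order: the last coordinate becomes the first one -/
def shift {d : ℕ} (π : Equiv.Perm (Fin (d + 1))) : Equiv.Perm (Fin (d + 1)) :=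
  (finRotate (d + 1)).symm.trans π

open Classical in
/-- the full facets on the upper side of the box -/
noncomputable def topF {d : ℕ} (k : Fin (d + 1) → ℕ) (lab : (Fin (d + 1) → ℕ) → Fin (d + 1))
    (W : (Fin (d + 1) → ℕ) → Prop) : Finset ((Fin (d + 1) → ℕ) × Equiv.Perm (Fin (d + 1))) :=
  (box k ×ˢ Finset.univ).filter (fun s => s.1 (s.2 0) + 1 = k (s.2 0) ∧ Full lab W s.1 s.2 0)

open Classical in
/-- the full facets on the lower side of the box -/
noncomputable def botF {d : ℕ} (k : Fin (d + 1) → ℕ) (lab : (Fin (d + 1) → ℕ) → Fin (d + 1))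
    (W : (Fin (d + 1) → ℕ) → Prop) : Finset ((Fin (d + 1) → ℕ) × Equiv.Perm (Fin (d + 1))) :=
  (box k ×ˢ Finset.univ).filter
    (fun s => s.1 (s.2 (Fin.last d)) = 0 ∧ Full lab W s.1 s.2 (Fin.last (d + 1)))

end NDG
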