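import Pool.Agent.Lib.NDG.KLab

/-!
Module KLoc. On the lower side in the direction of the homotopy parameter there is exactly one full facet.
PROOF. Let (v, π) be in the set: π (last n) = last n (the homotopy coordinate), v (last n) = 0, and the facet without the last vertex is full.
The labels 0 and c.succ give v c = θ c for all c : Fin n. Then the label of the vertex i is c.succ iff π.symm c < i and i ≤ π.symm e for e < c, so
π.symm is strictly decreasing on the position coordinates, hence it is the reversal. Conversely this pair is in the set.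
-/

namespace NDG

private def rr (n : ℕ) : Fin (n + 1) → Fin (n + 1) :=
  fun i => Fin.lastCases (motive := fun _ => Fin (n + 1)) (Fin.last n)
    (fun i => (Fin.rev i).castSucc) i

private theorem rr_last (n : ℕ) : rr n (Fin.last n) = Fin.last n := by simp [rr]

private theorem rr_cast {n : ℕ} (c : Fin n) : rr n c.castSucc = (Fin.rev c).castSucc := by
  simp [rr]

private theorem rr_inv (n : ℕ) : Function.Involutive (rr n) := by
  intro i
  refine Fin.lastCases ?_ (fun c => ?_) i
  · simp [rr_last]
  · simp [rr_cast]

private def pstar (n : ℕ) : Equiv.Perm (Fin (n + 1)) := (rr_inv n).toPerm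

private theorem pstar_last (n : ℕ) : pstar n (Fin.last n) = Fin.last n := rr_last n

private theorem pstar_symm (n : ℕ) (c : Fin (n + 1)) : (pstar n).symm c = rr n c := by
  rw [pstar, Function.Involutive.toPerm_symm]; rfl

/-- a strictly decreasing self map of `Fin n` is the reversal -/
private theorem anti_rev {n : ℕ} (f : Fin n → Fin n) (hf : StrictAnti f) (c : Fin n) :
    f c = Fin.rev c := by
  have h1 : StrictMono (fun c => f (Fin.rev c)) := fun a b hab => hf (Fin.rev_lt_rev.mpr hab)
  have h2 : StrictMono (fun c : Fin n => c) := fun a b hab => hab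
  have h3 : Set.range (fun c => f (Fin.rev c)) = Set.range (fun c : Fin n => c) := by
    rw [Set.range_eq_univ.mpr (Finite.surjective_of_injective h1.injective),
      Set.range_eq_univ.mpr (fun x => ⟨x, rfl⟩)]
  have h4 := (StrictMono.range_inj h1 h2).mp h3
  have h5 := congrFun h4 (Fin.rev c)
  simpa using h5

/-- the position of a vertex of the lower facet -/
private theorem vtx_pos {n : ℕ} (v : Fin (n + 1) → ℕ) (π : Equiv.Perm (Fin (n + 1)))
    (i : Fin (n + 2)) (hπ : π (Fin.last n) = Fin.last n) (hv : v (Fin.last n) = 0)
    (hi : i ≠ Fin.last (n + 1)) : vtx v π i (Fin.last n) = 0 := by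
  have h1 : π.symm (Fin.last n) = Fin.last n := by
    rw [Equiv.symm_apply_eq, hπ]
  have h2 : ¬ ((π.symm (Fin.last n) : ℕ) < (i : ℕ)) := by
    rw [h1]
    have := Fin.val_lt_last hi
    simp only [Fin.val_last] at *
    omega
  simp [vtx, hv, h2]

open Classical in
theorem bot_one {n K : ℕ} (hK : 0 < K) (k : Fin n → ℕ) (W : ℕ → (Fin n → ℕ) → Prop)
    (h : ℕ → (Fin n → ℕ) → Fin n → ℝ) (θ : Fin n → ℕ) (hθk : ∀ c, θ c < k c)
    (hθ : ∀ p, (∀ c, p c ≤ k c) → W 0 p → ∀ c, (0 < h 0 p c ↔ θ c < p c))
    (hθW : ∀ p, (∀ c, θ c ≤ p c ∧ p c ≤ θ c + 1) → W 0 p) :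
    ((botF (Fin.snoc (α := fun _ => ℕ) k K : Fin (n + 1) → ℕ) (labOf h) (WOf W)).filter
      (fun s => s.2 (Fin.last n) = Fin.last n)).card = 1 := by
  rw [Finset.card_eq_one]
  refine ⟨(Fin.snoc (α := fun _ => ℕ) θ 0, pstar n), ?_⟩
  ext ⟨v, π⟩
  simp only [Finset.mem_filter, botF, Finset.mem_product, Finset.mem_univ, and_true,
    Finset.mem_singleton, mem_box, Prod.mk.injEq]
  constructor
  · rintro ⟨⟨hb, hv0, hW, hl⟩, hπ⟩
    rw [hπ] at hv0
    have hπs : π.symm (Fin.last n) = Fin.last n := by rw [Equiv.symm_apply_eq, hπ]
    have hbk : ∀ c : Fin n, v c.castSucc < k c := by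
      intro c; have := hb c.castSucc; simpa using this
    -- the characterisation of positivity at the vertices of the facet
    have key : ∀ i : Fin (n + 2), i ≠ Fin.last (n + 1) → ∀ c : Fin n,
        (0 < h (vtx v π i (Fin.last n)) (fun e => vtx v π i e.castSucc) c ↔
          θ c < v c.castSucc + if (π.symm c.castSucc : ℕ) < (i : ℕ) then 1 else 0) := by
      intro i hi c
      have h0 := vtx_pos v π i hπ hv0 hi
      have hw := hW i hi
      rw [WOf, h0] at hw
      rw [h0]
      refine hθ _ (fun e => ?_) hw c
      have := hbk e
      simp only [vtx]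
      split_ifs <;> omega
    have hvθ : ∀ c : Fin n, v c.castSucc = θ c := by
      intro c
      apply le_antisymm
      · obtain ⟨i, hi, hl0⟩ := hl 0
        rw [labOf_zero] at hl0
        have h1 := hl0 c
        have h2 := (key i hi c).not.mp (not_lt.mpr h1)
        split_ifs at h2 <;> omega
      · obtain ⟨i, hi, hl0⟩ := hl c.succ
        rw [labOf_succ] at hl0
        have h2 := (key i hi c).mp hl0.1
        split_ifs at h2 <;> omega
    have key2 : ∀ i : Fin (n + 2), i ≠ Fin.last (n + 1) → ∀ c : Fin n,
        (0 < h (vtx v π i (Fin.last n)) (fun e => vtx v π i e.castSucc) c ↔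
          (π.symm c.castSucc : ℕ) < (i : ℕ)) := by
      intro i hi c
      rw [key i hi c, hvθ c]
      split_ifs with h1
      · simp [h1]
      · simp [h1]
    have hdec : ∀ e c : Fin n, e < c → (π.symm c.castSucc : ℕ) < (π.symm e.castSucc : ℕ) := by
      intro e c hec
      obtain ⟨i, hi, hl0⟩ := hl c.succ
      rw [labOf_succ] at hl0
      have h1 := (key2 i hi c).mp hl0.1
      have h2 := (key2 i hi e).not.mp (not_lt.mpr (hl0.2 e hec))
      omega
    have hlt : ∀ c : Fin n, (π.symm c.castSucc : ℕ) < n := by
      intro c
      have h1 : π.symm c.castSucc ≠ Fin.last n := by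
        intro h1
        rw [← hπs] at h1
        exact (Fin.castSucc_lt_last c).ne (π.symm.injective h1)
      exact Fin.val_lt_last h1
    have hrev : ∀ c : Fin n, π.symm c.castSucc = (Fin.rev c).castSucc := by
      intro c
      have h1 := anti_rev (fun c => (⟨(π.symm c.castSucc : ℕ), hlt c⟩ : Fin n))
        (fun a b hab => Fin.lt_def.mpr (hdec a b hab)) c
      apply Fin.ext
      rw [← h1]
      rfl
    constructor
    · funext c
      refine Fin.lastCases ?_ (fun c => ?_) c
      · simp [hv0]
      · simp [hvθ c]
    · have : π.symm = (pstar n).symm := by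
        ext c
        rw [pstar_symm]
        refine Fin.lastCases ?_ (fun c => ?_) c
        · rw [hπs, rr_last]
        · rw [hrev c, rr_cast]
      have h2 := congrArg Equiv.symm this
      simpa using h2
  · rintro ⟨rfl, rfl⟩
    have key : ∀ (i : Fin (n + 2)) (c : Fin n),
        vtx (Fin.snoc (α := fun _ => ℕ) θ 0) (pstar n) i c.castSucc =
          θ c + if ((Fin.rev c : Fin n) : ℕ) < (i : ℕ) then 1 else 0 := by
      intro i c
      simp [vtx, pstar_symm, rr_cast]
    have hWi : ∀ i : Fin (n + 2), W 0 (fun e =>
        vtx (Fin.snoc (α := fun _ => ℕ) θ 0) (pstar n) i e.castSucc) := by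
      intro i
      apply hθW
      intro c
      rw [key i c]
      split_ifs <;> omega
    have h0 : ∀ i : Fin (n + 2), i ≠ Fin.last (n + 1) →
        vtx (Fin.snoc (α := fun _ => ℕ) θ 0) (pstar n) i (Fin.last n) = 0 := by
      intro i hi
      exact vtx_pos _ _ i (pstar_last n) (by simp) hi
    have key2 : ∀ (i : Fin (n + 2)), i ≠ Fin.last (n + 1) → ∀ (c : Fin n),
        (0 < h (vtx (Fin.snoc (α := fun _ => ℕ) θ 0) (pstar n) i (Fin.last n)) (fun e =>
          vtx (Fin.snoc (α := fun _ => ℕ) θ 0) (pstar n) i e.castSucc) c ↔
          ((Fin.rev c : Fin n) : ℕ) < (i : ℕ)) := by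
      intro i hi c
      rw [h0 i hi, hθ _ _ (hWi i) c, key i c]
      · split_ifs with h1
        · exact iff_of_true (by omega) h1
        · exact iff_of_false (by omega) h1
      · intro c
        rw [key i c]
        have := hθk c
        split_ifs <;> omega
    refine ⟨⟨?_, ?_, ?_, ?_⟩, pstar_last n⟩
    · intro c
      refine Fin.lastCases ?_ (fun c => ?_) c
      · simpa using hK
      · simpa using hθk c
    · rw [pstar_last]; simp
    · intro i hi
      rw [WOf, h0 i hi]
      exact hWi i
    · intro l
      refine Fin.cases ?_ (fun c => ?_) l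
      · refine ⟨0, ?_, ?_⟩
        · intro h1
          have := congrArg Fin.val h1
          simp at this
        · rw [labOf_zero]
          intro c
          rw [← not_lt]
          intro h1
          have h2 := (key2 0 (by
            intro h1
            have := congrArg Fin.val h1
            simp at this) c).mp h1
          simp at h2
      · have hc := c.isLt
        refine ⟨⟨n - (c : ℕ), by omega⟩, ?_, ?_⟩
        · intro h1
          have := congrArg Fin.val h1
          simp at this
          omega
        · have hne : (⟨n - (c : ℕ), by omega⟩ : Fin (n + 2)) ≠ Fin.last (n + 1) := by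
            intro h1
            have := congrArg Fin.val h1
            simp at this
            omega
          rw [labOf_succ]
          constructor
          · rw [key2 _ hne c]
            simp only [Fin.val_rev]
            omega
          · intro e he
            rw [← not_lt]
            intro h1
            have h2 := (key2 _ hne e).mp h1
            simp only [Fin.val_rev] at h2
            have : (e : ℕ) < c := he
            omega

end NDG
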