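import Pool.Agent.Lib.NDG.KRot

/-!
Module KPer. Faces in a periodic direction cancel, faces without W have no full facets.
* `per_card`: bijection from the lower to the upper facets in the direction c: (v, π), π last = c, v c = 0, goes to (v with the coordinate c replaced by k c - 1, shift π).
* `face_empty`: in a facet of topF with π 0 = c, v c + 1 = k c every vertex i ≠ 0 has the coordinate c equal to k c; it satisfies W, contradiction. Same for botF.
-/

namespace NDG

private theorem shift_zero {d : ℕ} (π : Equiv.Perm (Fin (d + 1))) :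
    shift π 0 = π (Fin.last d) := by
  have h : (finRotate (d + 1)).symm 0 = Fin.last d := by
    rw [Equiv.symm_apply_eq, finRotate_last]
  simp [shift, h]

private theorem shift_unshift {d : ℕ} (σ : Equiv.Perm (Fin (d + 1))) :
    shift ((finRotate (d + 1)).trans σ) = σ := by
  ext x; simp [shift]

private theorem unshift_shift {d : ℕ} (π : Equiv.Perm (Fin (d + 1))) :
    (finRotate (d + 1)).trans (shift π) = π := by
  ext x; simp [shift]

private theorem unshift_last {d : ℕ} (σ : Equiv.Perm (Fin (d + 1))) :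
    ((finRotate (d + 1)).trans σ) (Fin.last d) = σ 0 := by
  simp

/-- the coordinate `π last` of the vertices of the lower facet -/
private theorem vtx_last {d : ℕ} (v : Fin (d + 1) → ℕ) (π : Equiv.Perm (Fin (d + 1)))
    (i : Fin (d + 2)) (hi : i ≠ Fin.last (d + 1)) :
    vtx v π i (π (Fin.last d)) = v (π (Fin.last d)) := by
  have h2 : ¬ ((π.symm (π (Fin.last d)) : ℕ) < (i : ℕ)) := by
    rw [Equiv.symm_apply_apply]
    have := Fin.val_lt_last hi
    simp only [Fin.val_last] at *
    omega
  simp only [vtx, if_neg h2, add_zero]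

private theorem vtx_first {d : ℕ} (v : Fin (d + 1) → ℕ) (π : Equiv.Perm (Fin (d + 1)))
    (i : Fin (d + 2)) (hi : i ≠ 0) :
    vtx v π i (π 0) = v (π 0) + 1 := by
  have h2 : ((π.symm (π 0) : ℕ) < (i : ℕ)) := by
    rw [Equiv.symm_apply_apply]
    have : (i : ℕ) ≠ 0 := fun h => hi (Fin.ext h)
    simp only [Fin.val_zero]
    omega
  simp only [vtx, if_pos h2]

private theorem vtx_le {d : ℕ} (k v : Fin (d + 1) → ℕ) (π : Equiv.Perm (Fin (d + 1)))
    (i : Fin (d + 2)) (e : Fin (d + 1)) (hv : v e < k e) : vtx v π i e ≤ k e := by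
  simp only [vtx]; split_ifs <;> omega

private theorem full_per {d : ℕ} (k : Fin (d + 1) → ℕ) (lab : (Fin (d + 1) → ℕ) → Fin (d + 1))
    (W : (Fin (d + 1) → ℕ) → Prop) (c : Fin (d + 1))
    (hper : ∀ p p' : Fin (d + 1) → ℕ, (∀ e, p e ≤ k e) → (∀ e, p' e ≤ k e) → p c = 0 → p' c = k c →
      (∀ e, e ≠ c → p e = p' e) → (W p ↔ W p') ∧ lab p = lab p')
    (v v' : Fin (d + 1) → ℕ) (π : Equiv.Perm (Fin (d + 1))) (hπ : π (Fin.last d) = c)
    (hv : ∀ e, e ≠ c → v e < k e) (hv0 : v c = 0) (hv' : ∀ e, e ≠ c → v' e = v e)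
    (hvc : v' c = k c) :
    Full lab W v π (Fin.last (d + 1)) ↔ Full lab W v' π (Fin.last (d + 1)) := by
  have key : ∀ i : Fin (d + 2), i ≠ Fin.last (d + 1) →
      (W (vtx v π i) ↔ W (vtx v' π i)) ∧ lab (vtx v π i) = lab (vtx v' π i) := by
    intro i hi
    have h1 : vtx v π i c = 0 := by
      have := vtx_last v π i hi
      rw [hπ] at this
      rw [this, hv0]
    have h2 : vtx v' π i c = k c := by
      have := vtx_last v' π i hi
      rw [hπ] at this
      rw [this, hvc]
    have h3 : ∀ e, e ≠ c → vtx v π i e = vtx v' π i e := by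
      intro e he
      simp only [vtx, hv' e he]
    refine hper _ _ ?_ ?_ h1 h2 h3
    · intro e
      by_cases he : e = c
      · rw [he, h1]; exact Nat.zero_le _
      · exact vtx_le k v π i e (hv e he)
    · intro e
      by_cases he : e = c
      · rw [he, h2]
      · rw [← h3 e he]; exact vtx_le k v π i e (hv e he)
  unfold Full
  refine and_congr ?_ ?_
  · refine forall_congr' fun i => forall_congr' fun hi => (key i hi).1
  · refine forall_congr' fun l => exists_congr fun i => and_congr_right fun hi => ?_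
    rw [(key i hi).2]

open Classical in
theorem per_card {d : ℕ} (k : Fin (d + 1) → ℕ) (lab : (Fin (d + 1) → ℕ) → Fin (d + 1))
    (W : (Fin (d + 1) → ℕ) → Prop) (c : Fin (d + 1))
    (hper : ∀ p p' : Fin (d + 1) → ℕ, (∀ e, p e ≤ k e) → (∀ e, p' e ≤ k e) → p c = 0 → p' c = k c →
      (∀ e, e ≠ c → p e = p' e) → (W p ↔ W p') ∧ lab p = lab p') :
    ((topF k lab W).filter (fun s => s.2 0 = c)).card =
      ((botF k lab W).filter (fun s => s.2 (Fin.last d) = c)).card := by
  refine Finset.card_nbij' (fun s => (Function.update s.1 c 0, (finRotate (d + 1)).trans s.2))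
    (fun s => (Function.update s.1 c (k c - 1), shift s.2)) ?_ ?_ ?_ ?_
  · rintro ⟨w, σ⟩ hs
    simp only [topF, botF, Finset.coe_filter, Finset.mem_filter, Finset.mem_product,
      Finset.mem_univ, and_true, mem_box, Set.mem_ofPred_eq] at hs ⊢
    obtain ⟨⟨hb, h1, hF⟩, hσ⟩ := hs
    rw [hσ] at h1
    rw [unshift_last, hσ]
    refine ⟨⟨?_, ?_, ?_⟩, rfl⟩
    · intro e
      by_cases he : e = c
      · rw [he, Function.update_self]; have := hb c; omega
      · rw [Function.update_of_ne he]; exact hb e
    · rw [Function.update_self]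
    · have h2 : Full lab W w (shift ((finRotate (d + 1)).trans σ)) 0 := by
        rw [shift_unshift]; exact hF
      rw [← full_shift] at h2
      refine (full_per k lab W c hper _ _ _ (by rw [unshift_last, hσ]) ?_ ?_ ?_ ?_).mpr h2
      · intro e he
        rw [Function.update_of_ne he]; exact hb e
      · rw [Function.update_self]
      · intro e he
        rw [Function.update_of_ne he, unshift_last, hσ, if_neg he, add_zero]
      · rw [unshift_last, hσ, if_pos rfl, h1]
  · rintro ⟨v, π⟩ hs
    simp only [topF, botF, Finset.coe_filter, Finset.mem_filter, Finset.mem_product,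
      Finset.mem_univ, and_true, mem_box, Set.mem_ofPred_eq] at hs ⊢
    obtain ⟨⟨hb, h1, hF⟩, hπ⟩ := hs
    rw [hπ] at h1
    rw [shift_zero, hπ]
    have hk : 0 < k c := by have := hb c; omega
    refine ⟨⟨?_, ?_, ?_⟩, rfl⟩
    · intro e
      by_cases he : e = c
      · rw [he, Function.update_self]; omega
      · rw [Function.update_of_ne he]; exact hb e
    · rw [Function.update_self]; omega
    · rw [← full_shift]
      refine (full_per k lab W c hper v _ _ hπ ?_ h1 ?_ ?_).mp hF
      · intro e _; exact hb e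
      · intro e he
        rw [Function.update_of_ne he, hπ, if_neg he, add_zero]
      · rw [Function.update_self, hπ, if_pos rfl]; omega
  · rintro ⟨w, σ⟩ hs
    simp only [topF, Finset.coe_filter, Finset.mem_filter, Finset.mem_product,
      Finset.mem_univ, and_true, mem_box, Set.mem_ofPred_eq] at hs
    obtain ⟨⟨hb, h1, hF⟩, hσ⟩ := hs
    rw [hσ] at h1
    simp only [Prod.mk.injEq]
    refine ⟨?_, shift_unshift σ⟩
    rw [Function.update_idem]
    have : k c - 1 = w c := by omega
    rw [this, Function.update_eq_self]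
  · rintro ⟨v, π⟩ hs
    simp only [botF, Finset.coe_filter, Finset.mem_filter, Finset.mem_product,
      Finset.mem_univ, and_true, mem_box, Set.mem_ofPred_eq] at hs
    obtain ⟨⟨hb, h1, hF⟩, hπ⟩ := hs
    rw [hπ] at h1
    simp only [Prod.mk.injEq]
    refine ⟨?_, unshift_shift π⟩
    rw [Function.update_idem, ← h1, Function.update_eq_self]

open Classical in
theorem face_empty {d : ℕ} (k : Fin (d + 1) → ℕ) (lab : (Fin (d + 1) → ℕ) → Fin (d + 1))
    (W : (Fin (d + 1) → ℕ) → Prop) (c : Fin (d + 1))
    (hface : ∀ p : Fin (d + 1) → ℕ, (∀ e, p e ≤ k e) → (p c = 0 ∨ p c = k c) → ¬ W p) :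
    (topF k lab W).filter (fun s => s.2 0 = c) = ∅ ∧
      (botF k lab W).filter (fun s => s.2 (Fin.last d) = c) = ∅ := by
  constructor
  · rw [Finset.filter_eq_empty_iff]
    rintro ⟨v, π⟩ hs hc
    simp only [topF, Finset.mem_filter, Finset.mem_product,
      Finset.mem_univ, and_true, mem_box] at hs hc
    obtain ⟨hb, h1, hF⟩ := hs
    have hne : Fin.last (d + 1) ≠ (0 : Fin (d + 2)) := by
      intro h
      have := congrArg Fin.val h
      simp at this
    refine hface _ (fun e => vtx_le k v π (Fin.last (d + 1)) e (hb e)) (Or.inr ?_)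
      (hF.1 (Fin.last (d + 1)) hne)
    have h2 := vtx_first v π (Fin.last (d + 1)) hne
    rw [hc] at h2 h1
    rw [h2, h1]
  · rw [Finset.filter_eq_empty_iff]
    rintro ⟨v, π⟩ hs hc
    simp only [botF, Finset.mem_filter, Finset.mem_product,
      Finset.mem_univ, and_true, mem_box] at hs hc
    obtain ⟨hb, h1, hF⟩ := hs
    have hne : (0 : Fin (d + 2)) ≠ Fin.last (d + 1) := by
      intro h
      have := congrArg Fin.val h
      simp at this
    refine hface _ (fun e => vtx_le k v π 0 e (hb e)) (Or.inl ?_) (hF.1 0 hne)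
    have h2 := vtx_last v π 0 hne
    rw [hc] at h2 h1
    rw [h2, h1]

end NDG
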