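import Pool.Agent.Lib.NDG.KDefs

/-!
Module KRot. The facets opposite to the first and to the last vertex.
* `vtx_shift`: the vertex i of (v + e_(π last), π) is the vertex i + 1 of (v, shift π).
* `full_shift`: the facet without the last vertex of the simplex (v + e_(π last), π) is the facet without the first vertex of (v, shift π).
* `rot_card`: bijection of the two sets: (w, π) with w (π last) ≠ 0 goes to (w - e_(π last), shift π); inverse (v, σ) ↦ (v + e_(σ 0), shift⁻¹ σ).
-/

namespace NDG

private theorem shift_symm {d : ℕ} (π : Equiv.Perm (Fin (d + 1))) (c : Fin (d + 1)) :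
    (shift π).symm c = finRotate (d + 1) (π.symm c) := by
  simp [shift]

theorem vtx_shift {d : ℕ} (v : Fin (d + 1) → ℕ) (π : Equiv.Perm (Fin (d + 1))) (i : Fin (d + 1)) :
    vtx (fun c => v c + if c = π (Fin.last d) then 1 else 0) π i.castSucc =
      vtx v (shift π) i.succ := by
  funext c
  simp only [vtx, shift_symm, Fin.val_castSucc, Fin.val_succ]
  by_cases hc : c = π (Fin.last d)
  · have h1 : π.symm c = Fin.last d := by rw [Equiv.symm_apply_eq, hc]
    have hi := i.isLt
    rw [h1, finRotate_last, if_pos hc, Fin.val_last, if_neg (by omega), Fin.val_zero,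
      if_pos (by omega)]
  · have h1 : π.symm c ≠ Fin.last d := by
      intro h
      rw [Equiv.symm_apply_eq] at h
      exact hc h
    rw [coe_finRotate_of_ne_last h1, if_neg hc, add_zero]
    simp only [Nat.add_lt_add_iff_right]

theorem full_shift {d : ℕ} (lab : (Fin (d + 1) → ℕ) → Fin (d + 1))
    (W : (Fin (d + 1) → ℕ) → Prop) (v : Fin (d + 1) → ℕ) (π : Equiv.Perm (Fin (d + 1))) :
    Full lab W (fun c => v c + if c = π (Fin.last d) then 1 else 0) π (Fin.last (d + 1)) ↔
      Full lab W v (shift π) 0 := by
  unfold Full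
  refine and_congr ?_ ?_
  · constructor
    · intro h i hi
      obtain ⟨j, rfl⟩ := Fin.exists_succ_eq.mpr hi
      rw [← vtx_shift]
      exact h _ (Fin.castSucc_lt_last j).ne
    · intro h i hi
      obtain ⟨j, rfl⟩ := Fin.exists_castSucc_eq.mpr hi
      rw [vtx_shift]
      exact h _ (Fin.succ_ne_zero j)
  · refine forall_congr' fun l => ?_
    constructor
    · rintro ⟨i, hi, h⟩
      obtain ⟨j, rfl⟩ := Fin.exists_castSucc_eq.mpr hi
      rw [vtx_shift] at h
      exact ⟨_, Fin.succ_ne_zero j, h⟩
    · rintro ⟨i, hi, h⟩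
      obtain ⟨j, rfl⟩ := Fin.exists_succ_eq.mpr hi
      rw [← vtx_shift] at h
      exact ⟨_, (Fin.castSucc_lt_last j).ne, h⟩

private theorem shift_zero {d : ℕ} (π : Equiv.Perm (Fin (d + 1))) :
    shift π 0 = π (Fin.last d) := by
  have h : (finRotate (d + 1)).symm 0 = Fin.last d := by
    rw [Equiv.symm_apply_eq, finRotate_last]
  simp [shift, h]

private theorem shift_unshift {d : ℕ} (σ : Equiv.Perm (Fin (d + 1))) :
    shift ((finRotate (d + 1)).trans σ) = σ := by
  ext x; simp [shift]

private theorem unshift_shift {d : ℕ} (π : Equiv.Perm (Fin (d + 1))) :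
    (finRotate (d + 1)).trans (shift π) = π := by
  ext x; simp [shift]

private theorem unshift_last {d : ℕ} (σ : Equiv.Perm (Fin (d + 1))) :
    ((finRotate (d + 1)).trans σ) (Fin.last d) = σ 0 := by
  simp

open Classical in
theorem rot_card {d : ℕ} (k : Fin (d + 1) → ℕ) (lab : (Fin (d + 1) → ℕ) → Fin (d + 1))
    (W : (Fin (d + 1) → ℕ) → Prop) :
    ((box k ×ˢ (Finset.univ : Finset (Equiv.Perm (Fin (d + 1))))).filter
      (fun s => s.1 (s.2 (Fin.last d)) ≠ 0 ∧ Full lab W s.1 s.2 (Fin.last (d + 1)))).card =
    ((box k ×ˢ (Finset.univ : Finset (Equiv.Perm (Fin (d + 1))))).filter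
      (fun s => s.1 (s.2 0) + 1 ≠ k (s.2 0) ∧ Full lab W s.1 s.2 0)).card := by
  refine Finset.card_nbij'
    (fun s => (Function.update s.1 (s.2 (Fin.last d)) (s.1 (s.2 (Fin.last d)) - 1), shift s.2))
    (fun s => (Function.update s.1 (s.2 0) (s.1 (s.2 0) + 1), (finRotate (d + 1)).trans s.2))
    ?_ ?_ ?_ ?_
  · rintro ⟨w, π⟩ hs
    simp only [Finset.coe_filter, Finset.mem_product,
      Finset.mem_univ, and_true, mem_box, Set.mem_ofPred_eq] at hs ⊢
    obtain ⟨hb, h1, hF⟩ := hs
    rw [shift_zero, Function.update_self]
    refine ⟨?_, ?_, ?_⟩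
    · intro e
      by_cases he : e = π (Fin.last d)
      · rw [he, Function.update_self]; have := hb (π (Fin.last d)); omega
      · rw [Function.update_of_ne he]; exact hb e
    · have := hb (π (Fin.last d)); omega
    · rw [← full_shift]
      have h2 : (fun c => Function.update w (π (Fin.last d)) (w (π (Fin.last d)) - 1) c +
          if c = π (Fin.last d) then 1 else 0) = w := by
        funext e
        by_cases he : e = π (Fin.last d)
        · rw [he, Function.update_self, if_pos rfl]; omega
        · rw [Function.update_of_ne he, if_neg he, add_zero]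
      rw [h2]; exact hF
  · rintro ⟨v, σ⟩ hs
    simp only [Finset.coe_filter, Finset.mem_product,
      Finset.mem_univ, and_true, mem_box, Set.mem_ofPred_eq] at hs ⊢
    obtain ⟨hb, h1, hF⟩ := hs
    rw [unshift_last, Function.update_self]
    refine ⟨?_, by omega, ?_⟩
    · intro e
      by_cases he : e = σ 0
      · rw [he, Function.update_self]; have := hb (σ 0); omega
      · rw [Function.update_of_ne he]; exact hb e
    · have h2 : Full lab W v (shift ((finRotate (d + 1)).trans σ)) 0 := by
        rw [shift_unshift]; exact hF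
      rw [← full_shift] at h2
      have h3 : (fun c => v c + if c = ((finRotate (d + 1)).trans σ) (Fin.last d) then 1 else 0) =
          Function.update v (σ 0) (v (σ 0) + 1) := by
        funext e
        rw [unshift_last]
        by_cases he : e = σ 0
        · rw [he, Function.update_self, if_pos rfl]
        · rw [Function.update_of_ne he, if_neg he, add_zero]
      rw [← h3]; exact h2
  · rintro ⟨w, π⟩ hs
    simp only [Finset.coe_filter, Finset.mem_product,
      Finset.mem_univ, and_true, mem_box, Set.mem_ofPred_eq] at hs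
    obtain ⟨hb, h1, hF⟩ := hs
    simp only [Prod.mk.injEq]
    refine ⟨?_, unshift_shift π⟩
    rw [shift_zero, Function.update_self, Function.update_idem]
    have : w (π (Fin.last d)) - 1 + 1 = w (π (Fin.last d)) := by omega
    rw [this, Function.update_eq_self]
  · rintro ⟨v, σ⟩ hs
    simp only [Prod.mk.injEq]
    refine ⟨?_, shift_unshift σ⟩
    rw [unshift_last, Function.update_self, Function.update_idem, Nat.add_sub_cancel,
      Function.update_eq_self]

end NDG
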