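import Pool.Agent.Lib.NDG.KDefs

/-!
Module KSimp (1.2h). A Kuhn simplex has 0 or 2 full facets.
PROOF. If no facet is full the number is 0. Let the facet j0 be full; by `hP` all vertices of the simplex satisfy W. Let
g i = lab (vtx v π i), i in Fin (d + 2), with values in Fin (d + 1). g restricted to {i | i ≠ j0} (d + 1 elements) is onto
Fin (d + 1), hence bijective; so there is exactly one j1 ≠ j0 with g j1 = g j0. Facet j is full iff g restricted to {i | i ≠ j} is onto, iff
j = j0 or j = j1: for j = j1 exchange the roles of j0 and j1; for other j the value g j is attained only at j.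
So the number is 2.
-/

namespace NDG

open Classical in
theorem full_even {d : ℕ} (lab : (Fin (d + 1) → ℕ) → Fin (d + 1)) (W : (Fin (d + 1) → ℕ) → Prop)
    (v : Fin (d + 1) → ℕ) (π : Equiv.Perm (Fin (d + 1)))
    (hP : ∀ j, Full lab W v π j → W (vtx v π j)) :
    Even ((Finset.univ : Finset (Fin (d + 2))).filter (fun j => Full lab W v π j)).card := by
  by_cases hex : ∃ j0, Full lab W v π j0
  · obtain ⟨j0, hj0⟩ := hex
    have hW : ∀ i, W (vtx v π i) := by
      intro i
      by_cases hi : i = j0
      · subst hi; exact hP _ hj0
      · exact hj0.1 i hi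
    have hsur : Function.Surjective (fun a : Fin (d + 1) => lab (vtx v π (j0.succAbove a))) := by
      intro l
      obtain ⟨i, hi, hil⟩ := hj0.2 l
      obtain ⟨a, ha⟩ := Fin.exists_succAbove_eq hi
      exact ⟨a, by simp only [ha]; exact hil⟩
    have hinj := Finite.injective_iff_surjective.mpr hsur
    have hinj' : ∀ i i' : Fin (d + 2), i ≠ j0 → i' ≠ j0 →
        lab (vtx v π i) = lab (vtx v π i') → i = i' := by
      intro i i' hi hi' h
      obtain ⟨a, rfl⟩ := Fin.exists_succAbove_eq hi
      obtain ⟨a', rfl⟩ := Fin.exists_succAbove_eq hi'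
      exact congrArg _ (hinj h)
    obtain ⟨j1, hj1, hj1l⟩ := hj0.2 (lab (vtx v π j0))
    have hset : ((Finset.univ : Finset (Fin (d + 2))).filter (fun j => Full lab W v π j))
        = {j0, j1} := by
      ext j
      simp only [Finset.mem_filter, Finset.mem_univ, true_and, Finset.mem_insert,
        Finset.mem_singleton]
      constructor
      · intro hj
        by_cases h0 : j = j0
        · exact Or.inl h0
        · right
          obtain ⟨i, hi, hil⟩ := hj.2 (lab (vtx v π j))
          by_cases hi0 : i = j0
          · subst hi0
            exact hinj' _ _ h0 hj1 (by rw [hj1l, hil])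
          · exact absurd (hinj' _ _ hi0 h0 hil) hi
      · rintro (rfl | rfl)
        · exact hj0
        · refine ⟨fun i _ => hW i, fun l => ?_⟩
          obtain ⟨i, hi, hil⟩ := hj0.2 l
          by_cases h1 : i = j
          · subst h1
            exact ⟨j0, Ne.symm hj1, by rw [← hj1l, hil]⟩
          · exact ⟨i, h1, hil⟩
    rw [hset, Finset.card_pair (Ne.symm hj1)]
    exact even_two
  · have hset : ((Finset.univ : Finset (Fin (d + 2))).filter (fun j => Full lab W v π j))
        = ∅ := by
      ext j
      simp only [Finset.mem_filter, Finset.mem_univ, true_and, Finset.notMem_empty, iff_false]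
      exact fun h => hex ⟨j, h⟩
    rw [hset]
    simp

end NDG
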