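import Pool.Agent.Lib.NDG.KDefs

/-!
Module KSwap (1.3h). For 0 < j < d + 1 (an inner vertex) the facet opposite to the vertex j is shared by two simplices with the same corner.
PROOF. Let p, q be the elements j - 1 and j of Fin (d + 1) and π' = (Equiv.swap p q).trans π, i.e. π' i = π (swap p q i). Then vtx v π' i = vtx v π i for i ≠ j:
π'.symm c = swap p q (π.symm c), and swap p q t < i iff t < i unless i = j (if t is p or q, i.e. t = j-1 or j, both conditions say i > j
resp. i > j - 1 ...; for i ≤ j - 1 both are false, for i ≥ j + 1 both are true). So Full for π iff Full for π'. The map π ↦ π' is an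
involution without fixed points of the set, so the number is even (`Finset.card_involution`-type lemma: `Finset.even_card_of_involution`? or
`Finset.sum_involution` in ZMod 2, or `Function.Involutive.card_fixedPoints`...).
-/

namespace NDG

open Classical in
theorem swap_even {d : ℕ} (lab : (Fin (d + 1) → ℕ) → Fin (d + 1)) (W : (Fin (d + 1) → ℕ) → Prop)
    (v : Fin (d + 1) → ℕ) (j : Fin (d + 2)) (h0 : j ≠ 0) (h1 : j ≠ Fin.last (d + 1)) :
    Even ((Finset.univ : Finset (Equiv.Perm (Fin (d + 1)))).filter
      (fun π => Full lab W v π j)).card := by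
  have hj0 : 0 < (j : ℕ) := Nat.pos_of_ne_zero (fun h => h0 (Fin.ext h))
  have hj1 : (j : ℕ) < d + 1 := by
    have h2 : (j : ℕ) < d + 2 := j.isLt
    have h3 : (j : ℕ) ≠ d + 1 := fun h => h1 (Fin.ext h)
    omega
  let p : Fin (d + 1) := ⟨(j : ℕ) - 1, by omega⟩
  let q : Fin (d + 1) := ⟨(j : ℕ), hj1⟩
  have hpq : p ≠ q := by
    intro h
    have := congrArg Fin.val h
    simp only [p, q] at this
    omega
  have hv : ∀ (π : Equiv.Perm (Fin (d + 1))) (i : Fin (d + 2)), i ≠ j →
      vtx v ((Equiv.swap p q).trans π) i = vtx v π i := by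
    intro π i hi
    have hi' : (i : ℕ) ≠ j := fun h => hi (Fin.ext h)
    funext c
    unfold vtx
    have hs : ((Equiv.swap p q).trans π).symm c = Equiv.swap p q (π.symm c) := by
      simp [Equiv.symm_trans_apply]
    rw [hs]
    congr 1
    have hiff : ((Equiv.swap p q (π.symm c) : Fin (d + 1)) : ℕ) < (i : ℕ) ↔
        ((π.symm c : Fin (d + 1)) : ℕ) < (i : ℕ) := by
      generalize π.symm c = t
      by_cases hp : t = p
      · rw [hp, Equiv.swap_apply_left]
        simp only [p, q]
        omega
      · by_cases hq : t = q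
        · rw [hq, Equiv.swap_apply_right]
          simp only [p, q]
          omega
        · rw [Equiv.swap_apply_of_ne_of_ne hp hq]
    simp only [hiff]
  have hF : ∀ π : Equiv.Perm (Fin (d + 1)), Full lab W v π j →
      Full lab W v ((Equiv.swap p q).trans π) j := by
    intro π hπ
    refine ⟨fun i hi => ?_, fun l => ?_⟩
    · rw [hv π i hi]; exact hπ.1 i hi
    · obtain ⟨i, hi, hil⟩ := hπ.2 l
      exact ⟨i, hi, by rw [hv π i hi]; exact hil⟩
  have hsum : ∑ _π ∈ (Finset.univ : Finset (Equiv.Perm (Fin (d + 1)))).filter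
      (fun π => Full lab W v π j), (1 : ZMod 2) = 0 := by
    refine Finset.sum_involution (fun π _ => (Equiv.swap p q).trans π) ?_ ?_ ?_ ?_
    · intro a _
      decide
    · intro a _ _ h
      have h2 : ((Equiv.swap p q).trans a) p = a p := by rw [h]
      rw [Equiv.trans_apply, Equiv.swap_apply_left] at h2
      exact hpq (a.injective h2).symm
    · intro a ha
      rw [Finset.mem_filter] at ha ⊢
      exact ⟨Finset.mem_univ _, hF a ha.2⟩
    · intro a _
      ext x
      simp
  rw [Finset.sum_const, nsmul_eq_mul, mul_one] at hsum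
  exact (ZMod.natCast_eq_zero_iff_even).mp hsum

end NDG
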