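import Pool.Agent.Lib.NDG.KSimp
import Pool.Agent.Lib.NDG.KSwap
import Pool.Agent.Lib.NDG.KRot

/-!
Module KSum (1.5h). The number of full facets on the boundary of the box is even.
PROOF. Count in ZMod 2 the triples (v, π, j), v in the box, with Full lab W v π j. Summing over j first gives 0 (`full_even`, hypothesis hP). Summing over
π first, the terms with j ≠ 0, last vanish (`swap_even`). So #(j = 0) + #(j = last) = 0 in ZMod 2. Split j = 0 by `s.1 (s.2 0) + 1 = k (s.2 0)` or not, and
j = last by `s.1 (s.2 last) = 0` or not; the two `not` parts are equal by `rot_card`, so they cancel; what remains is the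
card of topF plus the card of botF.
(Write cards as sums of indicator functions over box k ×ˢ univ ×ˢ univ, `Finset.sum_comm`, `Finset.card_filter`; Even n iff (n : ZMod 2) = 0: `ZMod.natCast_eq_zero_iff_even`.)
-/

namespace NDG

private theorem ksum_card {d : ℕ} (k : Fin (d + 1) → ℕ)
    (P : (Fin (d + 1) → ℕ) × Equiv.Perm (Fin (d + 1)) → Prop) [DecidablePred P] :
    (((box k ×ˢ (Finset.univ : Finset (Equiv.Perm (Fin (d + 1))))).filter P).card :
      ZMod 2) = ∑ v ∈ box k, ∑ π : Equiv.Perm (Fin (d + 1)), if P (v, π) then 1 else 0 := by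
  rw [Finset.card_filter, Finset.sum_product]
  push_cast
  rfl

private theorem ksum_split {α : Type*} (s : Finset α) (P Q : α → Prop) [DecidablePred Q]
    [DecidablePred (fun s => P s ∧ Q s)] [DecidablePred (fun s => ¬ P s ∧ Q s)] :
    (s.filter Q).card = (s.filter (fun s => P s ∧ Q s)).card +
      (s.filter (fun s => ¬ P s ∧ Q s)).card := by
  classical
  rw [← Finset.card_filter_add_card_filter_not (s := s.filter Q) P,
    Finset.filter_filter, Finset.filter_filter]
  congr 2
  · ext s
    simp only [Finset.mem_filter]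
    tauto
  · ext s
    simp only [Finset.mem_filter]
    tauto

theorem top_add_bot_even {d : ℕ} (k : Fin (d + 1) → ℕ) (lab : (Fin (d + 1) → ℕ) → Fin (d + 1))
    (W : (Fin (d + 1) → ℕ) → Prop)
    (hP : ∀ v ∈ box k, ∀ π j, Full lab W v π j → W (vtx v π j)) :
    Even ((topF k lab W).card + (botF k lab W).card) := by
  classical
  have h1 : ∑ v ∈ box k, ∑ π : Equiv.Perm (Fin (d + 1)), ∑ j : Fin (d + 2),
      (if Full lab W v π j then (1 : ZMod 2) else 0) = 0 := by
    apply Finset.sum_eq_zero
    intro v hv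
    apply Finset.sum_eq_zero
    intro π _
    have h2 := full_even lab W v π (fun j hj => hP v hv π j hj)
    rw [← ZMod.natCast_eq_zero_iff_even, Finset.card_filter] at h2
    push_cast at h2
    convert h2
  have h3 : ∑ v ∈ box k, ∑ π : Equiv.Perm (Fin (d + 1)), ∑ j : Fin (d + 2),
      (if Full lab W v π j then (1 : ZMod 2) else 0) =
      (∑ v ∈ box k, ∑ π : Equiv.Perm (Fin (d + 1)),
        (if Full lab W v π 0 then (1 : ZMod 2) else 0)) +
      (∑ v ∈ box k, ∑ π : Equiv.Perm (Fin (d + 1)),
        (if Full lab W v π (Fin.last (d + 1)) then (1 : ZMod 2) else 0)) := by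
    rw [← Finset.sum_add_distrib]
    apply Finset.sum_congr rfl
    intro v _
    rw [Finset.sum_comm, Fin.sum_univ_succ, Fin.sum_univ_castSucc, Fin.succ_last]
    congr 1
    rw [add_eq_right]
    apply Finset.sum_eq_zero
    intro j _
    have h4 := swap_even lab W v j.castSucc.succ (Fin.succ_ne_zero _) (by
      intro h
      have := congrArg Fin.val h
      rw [Fin.val_succ, Fin.val_castSucc, Fin.val_last] at this
      omega)
    rw [← ZMod.natCast_eq_zero_iff_even, Finset.card_filter] at h4
    push_cast at h4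
    convert h4
  have h5 := ksum_card k (fun s => Full lab W s.1 s.2 0)
  have h6 := ksum_card k (fun s => Full lab W s.1 s.2 (Fin.last (d + 1)))
  have h9 := rot_card k lab W
  have h7 : ((box k ×ˢ (Finset.univ : Finset (Equiv.Perm (Fin (d + 1))))).filter
      (fun s => Full lab W s.1 s.2 0)).card = (topF k lab W).card + _ :=
    @ksum_split ((Fin (d + 1) → ℕ) × Equiv.Perm (Fin (d + 1))) _
      (fun s => s.1 (s.2 0) + 1 = k (s.2 0)) (fun s => Full lab W s.1 s.2 0) _ _ _
  have h8 : ((box k ×ˢ (Finset.univ : Finset (Equiv.Perm (Fin (d + 1))))).filter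
      (fun s => Full lab W s.1 s.2 (Fin.last (d + 1)))).card = (botF k lab W).card + _ :=
    @ksum_split ((Fin (d + 1) → ℕ) × Equiv.Perm (Fin (d + 1))) _
      (fun s => s.1 (s.2 (Fin.last d)) = 0)
      (fun s => Full lab W s.1 s.2 (Fin.last (d + 1))) _ _ _
  have h10 : ((((box k ×ˢ (Finset.univ : Finset (Equiv.Perm (Fin (d + 1))))).filter
      (fun s => Full lab W s.1 s.2 0)).card : ℕ) : ZMod 2) +
      ((((box k ×ˢ (Finset.univ : Finset (Equiv.Perm (Fin (d + 1))))).filter
      (fun s => Full lab W s.1 s.2 (Fin.last (d + 1)))).card : ℕ) : ZMod 2) = 0 := by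
    rw [h5, h6]
    exact h3.symm.trans h1
  have h11 : ∀ a b c : ZMod 2, (a + c) + (b + c) = 0 → a + b = 0 := by decide
  rw [← ZMod.natCast_eq_zero_iff_even]
  rw [h7, h8, ← h9] at h10
  push_cast at h10 ⊢
  exact h11 _ _ _ h10

end NDG
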