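import Pool.Agent.Lib.NDG.KSum
import Pool.Agent.Lib.NDG.KPer
import Pool.Agent.Lib.NDG.KLoc

/-!
Module Kuhn (1.5h). The mod 2 degree lemma in combinatorial form.
PROOF. If K = 0 take p = θ (`hθW`, θ c < k c). Let K ≥ 1, k' = snoc k K, lab = labOf h, V = WOf W. By `top_add_bot_even` (with `full_all`) the number
|topF| + |botF| is even. Split topF by the value s.2 0 = c and botF by the value s.2 last = c, c : Fin (n+1) (`Finset.card_eq_sum_card_fiberwise`, `Fin.sum_univ_castSucc`). For c = e.castSucc
with per e the two parts have the same card (`per_card`; the hypothesis about lab: lab P is determined by h (P last) (P ∘ castSucc)); for c = e.castSucc with not per e both are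
empty (`face_empty`). So the parts for c = last have even total; the lower one has card 1 (`bot_one`), so the upper one is nonempty: (v, π) with π 0 = last n,
v (last n) + 1 = K, Full .. 0. Its vertex 1 (≠ 0) satisfies V, its last coordinate is v (last n) + 1 = K; it is in the closed box. This gives p.
-/

namespace NDG

theorem kuhn {n K : ℕ} (k : Fin n → ℕ) (per : Fin n → Prop) (W : ℕ → (Fin n → ℕ) → Prop)
    (h : ℕ → (Fin n → ℕ) → Fin n → ℝ) (ε : ℝ)
    (hV : ∀ s s' p p', s ≤ K → s' ≤ K → (∀ c, p c ≤ k c) → (∀ c, p' c ≤ k c) → near s s' →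
      (∀ c, near (p c) (p' c)) → W s p → W s' p' → ∀ c, |h s p c - h s' p' c| ≤ ε)
    (hU : ∀ s s' p p', s ≤ K → s' ≤ K → (∀ c, p c ≤ k c) → (∀ c, p' c ≤ k c) → near s s' →
      (∀ c, near (p c) (p' c)) → W s p → (∀ c, |h s p c| ≤ ε) → W s' p')
    (hper : ∀ s p p' c, s ≤ K → (∀ e, p e ≤ k e) → (∀ e, p' e ≤ k e) → per c → p c = 0 →
      p' c = k c → (∀ e, e ≠ c → p e = p' e) → (W s p ↔ W s p') ∧ h s p = h s p')
    (hface : ∀ s p c, s ≤ K → (∀ e, p e ≤ k e) → ¬ per c → (p c = 0 ∨ p c = k c) → ¬ W s p)
    (θ : Fin n → ℕ) (hθk : ∀ c, θ c < k c)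
    (hθ : ∀ p, (∀ c, p c ≤ k c) → W 0 p → ∀ c, (0 < h 0 p c ↔ θ c < p c))
    (hθW : ∀ p, (∀ c, θ c ≤ p c ∧ p c ≤ θ c + 1) → W 0 p) :
    ∃ p : Fin n → ℕ, (∀ c, p c ≤ k c) ∧ W K p := by
  classical
  rcases Nat.eq_zero_or_pos K with hK | hK
  · subst hK
    exact ⟨θ, fun c => (hθk c).le, hθW θ fun c => ⟨le_rfl, Nat.le_succ _⟩⟩
  -- split by the direction of the facet
  have hev := top_add_bot_even (Fin.snoc (α := fun _ => ℕ) k K : Fin (n + 1) → ℕ) (labOf h) (WOf W)
    (full_all k W h ε hV hU)
  have htop := Finset.card_eq_sum_card_fiberwise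
    (f := fun s : (Fin (n + 1) → ℕ) × Equiv.Perm (Fin (n + 1)) => s.2 0)
    (s := topF (Fin.snoc (α := fun _ => ℕ) k K : Fin (n + 1) → ℕ) (labOf h) (WOf W))
    (t := Finset.univ) (fun _ _ => Finset.mem_univ _)
  have hbot := Finset.card_eq_sum_card_fiberwise
    (f := fun s : (Fin (n + 1) → ℕ) × Equiv.Perm (Fin (n + 1)) => s.2 (Fin.last n))
    (s := botF (Fin.snoc (α := fun _ => ℕ) k K : Fin (n + 1) → ℕ) (labOf h) (WOf W))
    (t := Finset.univ) (fun _ _ => Finset.mem_univ _)
  rw [Fin.sum_univ_castSucc] at htop hbot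
  have hone := bot_one hK k W h θ hθk hθ hθW
  have hpair : ∀ c : Fin n, Even
      (((topF (Fin.snoc (α := fun _ => ℕ) k K : Fin (n + 1) → ℕ) (labOf h) (WOf W)).filter
        (fun s => s.2 0 = c.castSucc)).card +
      ((botF (Fin.snoc (α := fun _ => ℕ) k K : Fin (n + 1) → ℕ) (labOf h) (WOf W)).filter
        (fun s => s.2 (Fin.last n) = c.castSucc)).card) := by
    intro c
    by_cases hc : per c
    · have h1 := per_card (Fin.snoc (α := fun _ => ℕ) k K : Fin (n + 1) → ℕ) (labOf h) (WOf W)
        c.castSucc (by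
          intro P P' hP hP' h0 hk' he
          have hl : P (Fin.last n) = P' (Fin.last n) := he _ (Fin.castSucc_lt_last c).ne'
          have hs : P (Fin.last n) ≤ K := by simpa using hP (Fin.last n)
          have h2 := hper (P (Fin.last n)) (fun e => P e.castSucc) (fun e => P' e.castSucc) c hs
            (fun e => by simpa using hP e.castSucc) (fun e => by simpa using hP' e.castSucc) hc h0
            (by simpa using hk')
            (fun e hec => he _ (fun h3 => hec (Fin.castSucc_injective n h3)))
          refine ⟨?_, ?_⟩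
          · show W (P (Fin.last n)) _ ↔ W (P' (Fin.last n)) _
            rw [← hl]
            exact h2.1
          · have h4 : h (P (Fin.last n)) (fun e => P e.castSucc) =
                h (P' (Fin.last n)) (fun e => P' e.castSucc) := by
              rw [← hl]
              exact h2.2
            unfold labOf
            simp only [h4])
      rw [h1]
      exact ⟨_, rfl⟩
    · have h1 := face_empty (Fin.snoc (α := fun _ => ℕ) k K : Fin (n + 1) → ℕ) (labOf h) (WOf W)
        c.castSucc (by
          intro P hP h0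
          refine hface (P (Fin.last n)) (fun e => P e.castSucc) c (by simpa using hP (Fin.last n))
            (fun e => by simpa using hP e.castSucc) hc ?_
          rcases h0 with h0 | h0
          · exact Or.inl h0
          · right
            simpa using h0)
      rw [h1.1, h1.2]
      simp
  have hsum : Even ((∑ c : Fin n,
      ((topF (Fin.snoc (α := fun _ => ℕ) k K : Fin (n + 1) → ℕ) (labOf h) (WOf W)).filter
        (fun s => s.2 0 = c.castSucc)).card) + ∑ c : Fin n,
      ((botF (Fin.snoc (α := fun _ => ℕ) k K : Fin (n + 1) → ℕ) (labOf h) (WOf W)).filter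
        (fun s => s.2 (Fin.last n) = c.castSucc)).card) := by
    rw [← Finset.sum_add_distrib]
    exact Finset.even_sum _ fun c _ => hpair c
  have hne : ((topF (Fin.snoc (α := fun _ => ℕ) k K : Fin (n + 1) → ℕ) (labOf h) (WOf W)).filter
      (fun s => s.2 0 = Fin.last n)).Nonempty := by
    rw [← Finset.card_pos]
    by_contra h0
    have h1 : ((topF (Fin.snoc (α := fun _ => ℕ) k K : Fin (n + 1) → ℕ) (labOf h) (WOf W)).filter
      (fun s => s.2 0 = Fin.last n)).card = 0 := by omega
    rw [htop, hbot] at hev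
    rw [Nat.even_iff] at hev hsum
    have hone' : ((botF (Fin.snoc (α := fun _ => ℕ) k K : Fin (n + 1) → ℕ) (labOf h) (WOf W)).filter
      (fun s => s.2 (Fin.last n) = Fin.last n)).card = 1 := hone
    omega
  obtain ⟨⟨v, π⟩, hvπ⟩ := hne
  rw [Finset.mem_filter] at hvπ
  obtain ⟨hvt, hπ⟩ := hvπ
  simp only [topF, Finset.mem_filter, Finset.mem_product, Finset.mem_univ, and_true] at hvt
  obtain ⟨hb, hv, hW, -⟩ := hvt
  simp only at hπ
  rw [hπ] at hv
  rw [mem_box] at hb
  have hv' : v (Fin.last n) + 1 = K := by simpa using hv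
  have hW1 := hW 1 (by
    intro h1
    have := congrArg Fin.val h1
    simp at this)
  have hlast : vtx v π 1 (Fin.last n) = K := by
    have h1 : π.symm (Fin.last n) = 0 := by rw [Equiv.symm_apply_eq, hπ]
    simp only [vtx, h1]
    simpa using hv'
  refine ⟨fun e => vtx v π 1 e.castSucc, ?_, ?_⟩
  · intro c
    have h1 := hb c.castSucc
    have h2 : v c.castSucc < k c := by simpa using h1
    simp only [vtx]
    split_ifs <;> omega
  · have h1 : W (vtx v π 1 (Fin.last n)) (fun e => vtx v π 1 e.castSucc) := hW1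
    rwa [hlast] at h1

end NDG
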