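import Pool.Agent.Lib.NDG.Exist
import Pool.Agent.Lib.NDG.BrC

/-! MP_0eef51: the main theorem. -/

open scoped ContDiff RealInnerProductSpace
open Set

namespace NDG

theorem main (n : ℕ) (hn : 1 ≤ n) (f : EuclideanSpace ℝ (Fin (n + 2)) → ℝ)
    (hf : Hypersurface n f) : ¬ Displaceable n (GaussImage n f) := by
  rintro ⟨H, φ, hφ, hd⟩
  obtain ⟨C, hC⟩ := exists_bd hφ.smooth
  obtain ⟨a0, ha0, hfa⟩ := hf.nonempty
  have hreg : ∀ x : E (n + 2), ‖x‖ = 1 → f x = 0 → wedge x (gradient f x) ≠ 0 := fun x hx hfx =>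
    wedge_grad_ne hx (hf.regular x hx hfx)
  have hf1 : ContDiff ℝ 1 f := hf.smooth.of_le (by exact_mod_cast le_top)
  obtain ⟨x, y, hx, hy, hfx, hfy, hq⟩ := limit hC (cont_fderiv_G hφ.smooth) hf1 hreg
    (fun R hR => exists_chain hn hC hf1 hreg ha0 hfa R hR)
  have hPx : gpt x (nu f x) ∈ Quadric n :=
    gpt_mem hx (norm_nu (hf.regular x hx hfx)) (orth_nu f hx)
  have hPy : gpt y (nu f y) ∈ Quadric n :=
    gpt_mem hy (norm_nu (hf.regular y hy hfy)) (orth_nu f hy)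
  have h1 : (1 : ℝ) ∈ Icc (0 : ℝ) 1 := ⟨zero_le_one, le_rfl⟩
  have hfin := hq (fun s => mv (φ s (gpt x (nu f x)))) (fun t ht => ode hφ hPx ht)
    (fun t ht => norm_mv (hφ.mem t ht _ hPx))
    (by
      change mv (φ 0 (gpt x (nu f x))) = nw f x
      rw [hφ.zero _ hPx, mv_gpt, wedge_nu hx (hf.regular x hx hfx)]
      rfl)
  apply hd _ ⟨x, hx, hfx, rfl⟩
  refine ⟨y, hy, hfy, ?_⟩
  have h2 : mv (φ 1 (gpt x (nu f x))) = mv (gpt y (nu f y)) := by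
    rw [mv_gpt, wedge_nu hy (hf.regular y hy hfy)]
    exact hfin
  rw [← pm_mv (hφ.mem 1 h1 _ hPx), h2, pm_mv hPy]

end NDG
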