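import Mathlib

/-! MP_0eef51: Hamiltonian isotopies of the complex hyperquadric, Gauss images, displaceability. -/

open scoped ContDiff RealInnerProductSpace
open Set

namespace NDG

/-- complex matrices with n + 2 rows and columns -/
abbrev Mat (n : ℕ) : Type := Fin (n + 2) → Fin (n + 2) → ℂ

/-- The hyperquadric `z_0^2 + ... + z_(n+1)^2 = 0` of `CP^(n+1)`: a point is the orthogonal projection `P` of `ℂ^(n+2)` onto the
complex line spanned by `z` (`P` Hermitian, `P^2 = P`, trace one); `z · z = 0` means `P P^T = 0`. -/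
def Quadric (n : ℕ) : Set (Mat n) :=
  {P | (∀ i j, P j i = star (P i j)) ∧ (∀ i j, ∑ k, P i k * P k j = P i j) ∧ ∑ i, P i i = 1 ∧
    ∀ i j, ∑ k, P i k * P j k = 0}

/-- The tangent space of the hyperquadric at `P`: the linearised equations. -/
def Tan {n : ℕ} (P : Mat n) : Set (Mat n) :=
  {Y | (∀ i j, Y j i = star (Y i j)) ∧ (∀ i j, ∑ k, (Y i k * P k j + P i k * Y k j) = Y i j) ∧
    ∀ i j, ∑ k, (Y i k * P j k + P i k * Y j k) = 0}

/-- The Fubini-Study symplectic form `2 Im tr (P Y Z)` on tangent vectors `Y`, `Z` at `P`. -/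
noncomputable def fs {n : ℕ} (P Y Z : Mat n) : ℝ := 2 * (∑ i, ∑ j, ∑ k, P i j * Y j k * Z k i).im

/-- `φ t`, `0 ≤ t ≤ 1`, is the Hamiltonian isotopy of the hyperquadric generated by the restrictions of the functions `H t`:
`φ 0` is the identity, and at each time the velocity `Y` at `φ t P` satisfies `fs (Y, Z) = d(H t)(Z)` for all tangent vectors `Z`. -/
structure HamIsotopy (n : ℕ) (H : ℝ → Mat n → ℝ) (φ : ℝ → Mat n → Mat n) : Prop where
  smooth : ContDiff ℝ ∞ (fun p : ℝ × Mat n => H p.1 p.2)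
  zero : ∀ P ∈ Quadric n, φ 0 P = P
  mem : ∀ t ∈ Icc (0 : ℝ) 1, ∀ P ∈ Quadric n, φ t P ∈ Quadric n
  flow : ∀ t ∈ Icc (0 : ℝ) 1, ∀ P ∈ Quadric n, ∃ Y : Mat n,
    HasDerivWithinAt (fun s => φ s P) Y (Icc 0 1) t ∧
      ∀ Z ∈ Tan (φ t P), fs (φ t P) Y Z = fderiv ℝ (H t) (φ t P) Z

/-- The tangential part of the gradient of `f` at the point `x` of the unit sphere. -/
noncomputable def tgrad {n : ℕ} (f : EuclideanSpace ℝ (Fin (n + 2)) → ℝ)
    (x : EuclideanSpace ℝ (Fin (n + 2))) : EuclideanSpace ℝ (Fin (n + 2)) :=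
  gradient f x - ⟪gradient f x, x⟫ • x

/-- The unit normal of the hypersurface `f = 0` of the sphere, in the direction of increasing `f`. -/
noncomputable def nu {n : ℕ} (f : EuclideanSpace ℝ (Fin (n + 2)) → ℝ)
    (x : EuclideanSpace ℝ (Fin (n + 2))) : EuclideanSpace ℝ (Fin (n + 2)) :=
  ‖tgrad f x‖⁻¹ • tgrad f x

/-- `N = {x | ‖x‖ = 1, f x = 0}` is a nonempty smooth hypersurface of the unit sphere `S^(n+1)`. -/
structure Hypersurface (n : ℕ) (f : EuclideanSpace ℝ (Fin (n + 2)) → ℝ) : Prop where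
  smooth : ContDiff ℝ ∞ f
  regular : ∀ x, ‖x‖ = 1 → f x = 0 → tgrad f x ≠ 0
  nonempty : ∃ x, ‖x‖ = 1 ∧ f x = 0

/-- The point `[x + i v]` of the hyperquadric, for orthonormal `x`, `v`: the projection onto the line spanned by `z = x + i v`,
`|z|^2 = 2`. -/
noncomputable def gpt {n : ℕ} (x v : EuclideanSpace ℝ (Fin (n + 2))) : Mat n :=
  fun i j => ((x i : ℂ) + Complex.I * (v i : ℂ)) * star ((x j : ℂ) + Complex.I * (v j : ℂ)) / 2

/-- The Gauss image of the hypersurface `f = 0`: the set of all `[x + i ν(x)]`. -/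
noncomputable def GaussImage (n : ℕ) (f : EuclideanSpace ℝ (Fin (n + 2)) → ℝ) : Set (Mat n) :=
  {P | ∃ x, ‖x‖ = 1 ∧ f x = 0 ∧ P = gpt x (nu f x)}

/-- A subset `L` of the hyperquadric is displaceable: some Hamiltonian diffeomorphism moves it off itself. -/
def Displaceable (n : ℕ) (L : Set (Mat n)) : Prop :=
  ∃ H φ, HamIsotopy n H φ ∧ ∀ P ∈ L, φ 1 P ∉ L

end NDG
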