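import Pool.Agent.Lib.NDG.Theta

/-!
Module Sweep (2h). The family of loops at `a` sweeping out the sphere, in coordinates: z = (u, t), u = the first n coordinates, t = the last one.
PROOF. Put b = -a, p_i = ch b q_i (vectors orthogonal to b), p_0 ≠ p_1 by `th_ch`. The space of vectors orthogonal to b and to p_0 - p_1 has dimension at least n + 2 - 2 = n ≥ 1, so there is
a unit vector e' orthogonal to b and to p_0 - p_1. Extend (e', b) to an orthonormal basis of E (n + 2) (`Orthonormal.exists_orthonormalBasis_extension_of_card_eq`, or choose an orthonormal basis of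
the orthogonal complement of span {e', b}, of dimension n); this gives orthonormal e_0, ..., e_(n-1), e_n = e', all orthogonal to b. Define
W z = sum z_c e_c, Θ z = th b (W z), g y = (c ↦ (ch b y, e_c)), C = 100 (n + 1).
* unit: `norm_th`; bd: ||W z||^2 = sum z_c^2 >= 1, `th_out`, -b = a; lip: ||W z - W z'|| <= sum |z_c - z'_c| <= (n+1) ||z - z'||;
* left: Θ z ≠ a = -b, so ||W z|| < 1 (`th_out`) and ch b (Θ z) = W z, coordinates z_c; right: ch b y is orthogonal to b (`inner_ch`), so it is W (g y); `th_ch`;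
* cont: `continuousOn_ch`.
* the last claim: p_0 - p_1 ≠ 0 is orthogonal to b and to e_n = e', so some coordinate c < n of it is nonzero.
-/

open scoped RealInnerProductSpace

namespace NDG

/-- a degree one map of the cube onto the sphere collapsing the boundary to `a` -/
structure Sweep (n : ℕ) (a : E (n + 2)) where
  Θ : (Fin (n + 1) → ℝ) → E (n + 2)
  g : E (n + 2) → Fin (n + 1) → ℝ
  C : ℝ
  C_pos : 0 < C
  unit : ∀ z, ‖Θ z‖ = 1
  bd : ∀ z, (∃ c, 1 ≤ |z c|) → Θ z = a
  lip : ∀ z z', ‖Θ z - Θ z'‖ ≤ C * ‖z - z'‖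
  left : ∀ z, Θ z ≠ a → g (Θ z) = z
  right : ∀ y, ‖y‖ = 1 → y ≠ a → Θ (g y) = y
  cont : ContinuousOn g {y | ‖y‖ = 1 ∧ y ≠ a}

namespace SweepAux

theorem exists_unit {n : ℕ} (hn : 1 ≤ n) (b d : E (n + 2)) :
    ∃ e : E (n + 2), ‖e‖ = 1 ∧ ⟪e, b⟫ = 0 ∧ ⟪e, d⟫ = 0 := by
  set K : Submodule ℝ (E (n + 2)) := Submodule.span ℝ (Set.range ![b, d]) with hK
  have h1 : Module.finrank ℝ K ≤ 2 := by
    have := finrank_range_le_card (R := ℝ) ![b, d]
    rw [Fintype.card_fin] at this
    exact this
  have h2 := Submodule.finrank_add_finrank_orthogonal K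
  have h3 : Module.finrank ℝ (E (n + 2)) = n + 2 := by simp
  have h4 : Kᗮ ≠ ⊥ := by
    intro h
    rw [h, finrank_bot, h3] at h2
    omega
  obtain ⟨v, hv, hv0⟩ := Submodule.exists_mem_ne_zero_of_ne_bot h4
  rw [Submodule.mem_orthogonal] at hv
  have hvb : ⟪v, b⟫ = 0 := by
    rw [real_inner_comm]
    exact hv b (Submodule.subset_span ⟨0, rfl⟩)
  have hvd : ⟪v, d⟫ = 0 := by
    rw [real_inner_comm]
    exact hv d (Submodule.subset_span ⟨1, rfl⟩)
  refine ⟨‖v‖⁻¹ • v, ?_, ?_, ?_⟩
  · rw [norm_smul, norm_inv, norm_norm, inv_mul_cancel₀ (norm_ne_zero_iff.2 hv0)]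
  · rw [real_inner_smul_left, hvb, mul_zero]
  · rw [real_inner_smul_left, hvd, mul_zero]

theorem exists_fam {n : ℕ} {b e' : E (n + 2)} (hb : ‖b‖ = 1) (he : ‖e'‖ = 1)
    (heb : ⟪e', b⟫ = 0) :
    ∃ e : Fin (n + 1) → E (n + 2), Orthonormal ℝ e ∧ e (Fin.last n) = e' ∧
      (∀ c, ⟪e c, b⟫ = 0) ∧ ∀ w : E (n + 2), ⟪w, b⟫ = 0 → ∑ c, ⟪e c, w⟫ • e c = w := by
  classical
  set v : Option (Fin (n + 1)) → E (n + 2) := fun o => o.elim b (fun _ => e') with hv
  have hcard : Module.finrank ℝ (E (n + 2)) = Fintype.card (Option (Fin (n + 1))) := by simp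
  have hon : Orthonormal ℝ (({none, some (Fin.last n)} : Set (Option (Fin (n + 1)))).domRestrict v) := by
    constructor
    · rintro ⟨i, hi⟩
      rcases hi with hi | hi
      · subst hi
        exact hb
      · rw [Set.mem_singleton_iff] at hi
        subst hi
        exact he
    · rintro ⟨i, hi⟩ ⟨j, hj⟩ hij
      rcases hi with hi | hi <;> rcases hj with hj | hj
      · exact absurd (Subtype.ext (hi.trans hj.symm)) hij
      · rw [Set.mem_singleton_iff] at hj
        subst hi
        subst hj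
        change ⟪b, e'⟫ = 0
        rw [real_inner_comm]
        exact heb
      · rw [Set.mem_singleton_iff] at hi
        subst hi
        subst hj
        exact heb
      · rw [Set.mem_singleton_iff] at hi hj
        exact absurd (Subtype.ext (hi.trans hj.symm)) hij
  obtain ⟨B, hB⟩ := hon.exists_orthonormalBasis_extension_of_card_eq hcard
  have hB0 : B none = b := hB none (by simp)
  have hB1 : B (some (Fin.last n)) = e' := hB (some (Fin.last n)) (by simp)
  refine ⟨fun c => B (some c), B.orthonormal.comp _ (Option.some_injective _), hB1, ?_, ?_⟩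
  · intro c
    have h : ⟪B (some c), B none⟫ = 0 := B.orthonormal.2 (i := some c) (j := none) (by simp)
    rw [hB0] at h
    exact h
  · intro w hw
    have h := B.sum_repr' w
    rw [Fintype.sum_option, hB0, real_inner_comm, hw, zero_smul, zero_add] at h
    exact h

end SweepAux

open SweepAux

theorem exists_sweep {n : ℕ} (hn : 1 ≤ n) {a q0 q1 : E (n + 2)} (ha : ‖a‖ = 1) (h0 : ‖q0‖ = 1)
    (h1 : ‖q1‖ = 1) (ha0 : q0 ≠ a) (ha1 : q1 ≠ a) (h01 : q0 ≠ q1) :
    ∃ S : Sweep n a, ∃ c : Fin n, S.g q0 c.castSucc ≠ S.g q1 c.castSucc := by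
  set b : E (n + 2) := -a with hbdef
  have hb : ‖b‖ = 1 := by rw [hbdef, norm_neg, ha]
  have hab : a = -b := by rw [hbdef, neg_neg]
  set p0 := ch b q0 with hp0
  set p1 := ch b q1 with hp1
  have hq0 : th b p0 = q0 := th_ch hb h0 (by rw [← hab]; exact ha0)
  have hq1 : th b p1 = q1 := th_ch hb h1 (by rw [← hab]; exact ha1)
  have hp : p0 ≠ p1 := by
    intro h
    rw [h, hq1] at hq0
    exact h01 hq0.symm
  obtain ⟨e', he', heb, hed⟩ := exists_unit hn b (p0 - p1)
  obtain ⟨e, hon, hlast, horth, hsum⟩ := exists_fam hb he' heb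
  set W : (Fin (n + 1) → ℝ) → E (n + 2) := fun z => ∑ c, z c • e c with hW
  have hWb : ∀ z, ⟪W z, b⟫ = 0 := by
    intro z
    rw [hW]
    simp only
    rw [sum_inner]
    refine Finset.sum_eq_zero fun c _ => ?_
    rw [real_inner_smul_left, horth, mul_zero]
  have hWc : ∀ z c, ⟪e c, W z⟫ = z c := fun z c => hon.inner_right_fintype z c
  have hWn : ∀ z c, |z c| ≤ ‖W z‖ := by
    intro z c
    rw [← hWc z c]
    have := abs_real_inner_le_norm (e c) (W z)
    rwa [hon.1 c, one_mul] at this
  have hWl : ∀ z z', ‖W z - W z'‖ ≤ (n + 1) * ‖z - z'‖ := by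
    intro z z'
    have h : W z - W z' = ∑ c, (z c - z' c) • e c := by
      rw [hW]
      simp only
      rw [← Finset.sum_sub_distrib]
      refine Finset.sum_congr rfl fun c _ => ?_
      rw [sub_smul]
    rw [h]
    refine (norm_sum_le _ _).trans ?_
    have h2 : ∀ c ∈ (Finset.univ : Finset (Fin (n + 1))), ‖(z c - z' c) • e c‖ ≤ ‖z - z'‖ := by
      intro c _
      rw [norm_smul, hon.1 c, mul_one]
      exact norm_le_pi_norm (z - z') c
    refine (Finset.sum_le_card_nsmul _ _ _ h2).trans ?_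
    rw [Finset.card_univ, Fintype.card_fin, nsmul_eq_mul]
    push_cast
    exact le_rfl
  refine ⟨{ Θ := fun z => th b (W z)
            g := fun y c => ⟪e c, ch b y⟫
            C := 100 * (n + 1)
            C_pos := by positivity
            unit := fun z => norm_th hb (hWb z)
            bd := ?_
            lip := ?_
            left := ?_
            right := ?_
            cont := ?_ }, ?_⟩
  · rintro z ⟨c, hc⟩
    rw [hab]
    exact th_out (hc.trans (hWn z c))
  · intro z z'
    refine (th_lip hb (hWb z) (hWb z')).trans ?_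
    have := hWl z z'
    linarith
  · intro z hz
    have h2 : ‖W z‖ < 1 := by
      by_contra hcon
      exact hz (by rw [hab]; exact th_out (not_lt.1 hcon))
    funext c
    change ⟪e c, ch b (th b (W z))⟫ = z c
    rw [ch_th hb (hWb z) h2, hWc]
  · intro y hy hya
    change th b (W (fun c => ⟪e c, ch b y⟫)) = y
    have h2 : W (fun c => ⟪e c, ch b y⟫) = ch b y := hsum _ (inner_ch hb)
    rw [h2]
    exact th_ch hb hy (by rw [← hab]; exact hya)
  · rw [continuousOn_pi]
    intro c
    have h2 := continuousOn_ch hb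
    rw [← hab] at h2
    exact continuousOn_const.inner h2
  · have hd : p0 - p1 ≠ 0 := sub_ne_zero.2 hp
    have hdb : ⟪p0 - p1, b⟫ = 0 := by
      rw [inner_sub_left, hp0, hp1, inner_ch hb, inner_ch hb, sub_zero]
    have hds := hsum (p0 - p1) hdb
    have hex : ∃ c, ⟪e c, p0 - p1⟫ ≠ 0 := by
      by_contra hcon
      push Not at hcon
      apply hd
      rw [← hds]
      refine Finset.sum_eq_zero fun c _ => ?_
      rw [hcon c, zero_smul]
    obtain ⟨c, hc⟩ := hex
    have hcl : c ≠ Fin.last n := by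
      intro h
      rw [h, hlast] at hc
      exact hc hed
    refine ⟨c.castPred hcl, ?_⟩
    change ⟪e (Fin.castSucc (c.castPred hcl)), p0⟫ ≠ ⟪e (Fin.castSucc (c.castPred hcl)), p1⟫
    rw [Fin.castSucc_castPred]
    intro h
    apply hc
    rw [inner_sub_right, h, sub_self]

/-- points different from `a` have coordinates in the open cube -/
theorem Sweep.abs_g_lt {n : ℕ} {a : E (n + 2)} (S : Sweep n a) {y : E (n + 2)} (hy : ‖y‖ = 1)
    (hne : y ≠ a) (c : Fin (n + 1)) : |S.g y c| < 1 := by
  by_contra h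
  exact hne (by rw [← S.right y hy hne]; exact S.bd _ ⟨c, not_lt.1 h⟩)

end NDG
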