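import Pool.Agent.Lib.NDG.Defs

/-!
Module Theta (2.3h). A degree one map from the unit ball of the hyperplane orthogonal to the unit vector b onto the sphere, collapsing the boundary to -b, with an
explicit inverse. Let δ = max 0 (1 - ||w||^2), r = ||w||, D = δ^2 + r^2.
* D >= 3/4: for r <= 1 it is 1 - r^2 + r^4 = (r^2 - 1/2)^2 + 3/4; for r >= 1 it is r^2.
* `norm_th`: (δ^2 - r^2)^2 + 4 δ^2 r^2 = (δ^2 + r^2)^2 and w is orthogonal to b, ||b|| = 1.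
* `th_out`: δ = 0, so th = - b.
* `th_lip`: for r, r' <= 1 (the closed unit ball): |δ - δ'| = |r^2 - r'^2| <= 2 ||w - w'||, all quantities are at most 1 (so the numerators are Lipschitz: δ^2: 4, r^2: 2, δ w: 1 + 2 ...),
  D >= 3/4 and |D - D'| <= 6 ||w - w'||; a crude constant is 100. If both are outside the ball both values are - b. If ||w|| < 1 <= ||w'|| take the point w'' of
  norm 1 on the segment [w, w'] (continuity, or w'' = a convex combination): th w'' = -b = th w' and ||w - w''|| <= ||w - w'||.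
* `ch_th`: for r < 1: 1 + (th, b) = 2 δ^2 / D, th - (th, b) b = (2 δ / D) w, so w' := (y - (y,b) b)/(1 + (y,b)) = w/δ; 1 + 4 ||w'||^2 = ((1 + r^2)/(1 - r^2))^2,
  1 + sqrt(..) = 2/(1 - r^2) = 2/δ, so ch = (2/(2/δ)) w/δ = w.
* `th_ch`: y unit, y ≠ -b, so (y,b) > -1. Put w' as above, s = ||w'||, T = sqrt(1 + 4 s^2), w = ch b y = (2/(1+T)) w'. Then r = 2 s/(1+T),
  1 - r^2 = ((1+T)^2 - 4 s^2)/(1+T)^2 = (2 + 2T)/(1+T)^2 = 2/(1+T) > 0, so δ = 2/(1+T), w = δ w', and th b w = (1 + s^2)⁻¹ ((1 - s^2) b + 2 w') = y because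
  s^2 = (1 - (y,b)^2)/(1 + (y,b))^2 = (1 - (y,b))/(1 + (y,b)).
-/

open scoped RealInnerProductSpace

namespace NDG

variable {N : ℕ}

/-- the collapsing map -/
noncomputable def th (b w : E N) : E N :=
  ((max 0 (1 - ‖w‖ ^ 2)) ^ 2 + ‖w‖ ^ 2)⁻¹ •
    (((max 0 (1 - ‖w‖ ^ 2)) ^ 2 - ‖w‖ ^ 2) • b + (2 * max 0 (1 - ‖w‖ ^ 2)) • w)

/-- stereographic coordinate -/
noncomputable def st (b y : E N) : E N := (1 + ⟪y, b⟫)⁻¹ • (y - ⟪y, b⟫ • b)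

/-- the inverse chart -/
noncomputable def ch (b y : E N) : E N := (2 / (1 + Real.sqrt (1 + 4 * ‖st b y‖ ^ 2))) • st b y

namespace ThetaAux

theorem nsq {b w : E N} (hb : ‖b‖ = 1) (hw : ⟪w, b⟫ = 0) (p q : ℝ) :
    ‖p • b + q • w‖ ^ 2 = p ^ 2 + q ^ 2 * ‖w‖ ^ 2 := by
  have h : ⟪b, w⟫ = 0 := by rw [real_inner_comm]; exact hw
  rw [norm_add_sq_real, real_inner_smul_left, real_inner_smul_right, h, norm_smul, norm_smul, hb]
  rw [mul_pow, mul_pow, Real.norm_eq_abs, Real.norm_eq_abs, sq_abs, sq_abs]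
  ring

theorem inn {b w : E N} (hb : ‖b‖ = 1) (hw : ⟪w, b⟫ = 0) (p q : ℝ) :
    ⟪p • b + q • w, b⟫ = p := by
  rw [inner_add_left, real_inner_smul_left, real_inner_smul_left, hw, real_inner_self_eq_norm_sq,
    hb]
  ring

theorem D_ge (w : E N) : 3 / 4 ≤ (max 0 (1 - ‖w‖ ^ 2)) ^ 2 + ‖w‖ ^ 2 := by
  rcases le_total 0 (1 - ‖w‖ ^ 2) with h | h
  · rw [max_eq_right h]
    nlinarith [sq_nonneg (‖w‖ ^ 2 - 1 / 2)]
  · rw [max_eq_left h]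
    nlinarith

theorem D_pos (w : E N) : 0 < (max 0 (1 - ‖w‖ ^ 2)) ^ 2 + ‖w‖ ^ 2 := by
  have := D_ge w
  linarith

/-- the norm of the numerator -/
theorem num_norm {b w : E N} (hb : ‖b‖ = 1) (hw : ⟪w, b⟫ = 0) :
    ‖((max 0 (1 - ‖w‖ ^ 2)) ^ 2 - ‖w‖ ^ 2) • b + (2 * max 0 (1 - ‖w‖ ^ 2)) • w‖ =
      (max 0 (1 - ‖w‖ ^ 2)) ^ 2 + ‖w‖ ^ 2 := by
  have h := nsq hb hw ((max 0 (1 - ‖w‖ ^ 2)) ^ 2 - ‖w‖ ^ 2) (2 * max 0 (1 - ‖w‖ ^ 2))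
  have hD := D_pos w
  have h2 : (0 : ℝ) ≤ ‖((max 0 (1 - ‖w‖ ^ 2)) ^ 2 - ‖w‖ ^ 2) • b +
    (2 * max 0 (1 - ‖w‖ ^ 2)) • w‖ := norm_nonneg _
  rw [← abs_of_nonneg h2, ← abs_of_pos hD]
  refine (sq_eq_sq_iff_abs_eq_abs _ _).1 ?_
  rw [h]
  ring

theorem inner_th {b w : E N} (hb : ‖b‖ = 1) (hw : ⟪w, b⟫ = 0) :
    ⟪th b w, b⟫ = ((max 0 (1 - ‖w‖ ^ 2)) ^ 2 + ‖w‖ ^ 2)⁻¹ *
      ((max 0 (1 - ‖w‖ ^ 2)) ^ 2 - ‖w‖ ^ 2) := by
  unfold th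
  rw [real_inner_smul_left, inn hb hw]

theorem sub_inv_smul {u v : E N} {D D' : ℝ} (hD : 0 < D) (hD' : 0 < D') :
    D⁻¹ • u - D'⁻¹ • v = D⁻¹ • (u - v) + ((D' - D) / (D * D')) • v := by
  have h : (D' - D) / (D * D') = D⁻¹ - D'⁻¹ := by
    field_simp
  rw [h, smul_sub, sub_smul]
  abel

/-- Lipschitz in the ball -/
theorem lip_in {b w w' : E N} (hb : ‖b‖ = 1) (hw : ⟪w, b⟫ = 0) (hw' : ⟪w', b⟫ = 0)
    (h1 : ‖w‖ ≤ 1) (h2 : ‖w'‖ ≤ 1) : ‖th b w - th b w'‖ ≤ 100 * ‖w - w'‖ := by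
  have hD := D_ge w
  have hD' := D_ge w'
  have hDp := D_pos w
  have hDp' := D_pos w'
  have hn' := num_norm hb hw'
  have hr : |‖w‖ - ‖w'‖| ≤ ‖w - w'‖ := abs_norm_sub_norm_le w w'
  have e0 : max 0 (1 - ‖w‖ ^ 2) = 1 - ‖w‖ ^ 2 := max_eq_right (by nlinarith [norm_nonneg w])
  have e0' : max 0 (1 - ‖w'‖ ^ 2) = 1 - ‖w'‖ ^ 2 := max_eq_right (by nlinarith [norm_nonneg w'])
  unfold th
  rw [sub_inv_smul hDp hDp']
  refine (norm_add_le _ _).trans ?_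
  rw [norm_smul, norm_smul]
  rw [e0] at hD hDp
  rw [e0'] at hD' hDp' hn'
  rw [e0, e0', hn']
  set h := ‖w - w'‖ with hh
  set r := ‖w‖ with hrdef
  set r' := ‖w'‖ with hrdef'
  have hr0 : 0 ≤ r := norm_nonneg _
  have hr0' : 0 ≤ r' := norm_nonneg _
  have hh0 : 0 ≤ h := norm_nonneg _
  have hsq : |r ^ 2 - r' ^ 2| ≤ 2 * h := by
    have : r ^ 2 - r' ^ 2 = (r - r') * (r + r') := by ring
    rw [this, abs_mul, abs_of_nonneg (by linarith : 0 ≤ r + r')]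
    calc |r - r'| * (r + r') ≤ h * 2 :=
          mul_le_mul hr (by linarith) (by linarith) hh0
      _ = 2 * h := by ring
  have hd1 : 0 ≤ 1 - r ^ 2 := by nlinarith
  have hd1' : 0 ≤ 1 - r' ^ 2 := by nlinarith
  have hdd : |(1 - r ^ 2) - (1 - r' ^ 2)| ≤ 2 * h := by
    have : (1 - r ^ 2) - (1 - r' ^ 2) = -(r ^ 2 - r' ^ 2) := by ring
    rw [this, abs_neg]
    exact hsq
  have hd2 : |(1 - r ^ 2) ^ 2 - (1 - r' ^ 2) ^ 2| ≤ 4 * h := by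
    have : (1 - r ^ 2) ^ 2 - (1 - r' ^ 2) ^ 2 =
      ((1 - r ^ 2) - (1 - r' ^ 2)) * ((1 - r ^ 2) + (1 - r' ^ 2)) := by ring
    rw [this, abs_mul, abs_of_nonneg (by linarith : 0 ≤ (1 - r ^ 2) + (1 - r' ^ 2))]
    calc |(1 - r ^ 2) - (1 - r' ^ 2)| * ((1 - r ^ 2) + (1 - r' ^ 2)) ≤ (2 * h) * 2 :=
          mul_le_mul hdd (by nlinarith [sq_nonneg r, sq_nonneg r']) (by linarith) (by linarith)
      _ = 4 * h := by ring
  have hDD : |((1 - r' ^ 2) ^ 2 + r' ^ 2) - ((1 - r ^ 2) ^ 2 + r ^ 2)| ≤ 6 * h := by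
    rw [abs_le] at hd2 hsq ⊢
    constructor <;> linarith [hd2.1, hd2.2, hsq.1, hsq.2]
  have hcoef : |((1 - r ^ 2) ^ 2 - r ^ 2) - ((1 - r' ^ 2) ^ 2 - r' ^ 2)| ≤ 6 * h := by
    rw [abs_le] at hd2 hsq ⊢
    constructor <;> linarith [hd2.1, hd2.2, hsq.1, hsq.2]
  have hN : ‖(((1 - r ^ 2) ^ 2 - r ^ 2) • b + (2 * (1 - r ^ 2)) • w) -
      (((1 - r' ^ 2) ^ 2 - r' ^ 2) • b + (2 * (1 - r' ^ 2)) • w')‖ ≤ 12 * h := by
    have e : (((1 - r ^ 2) ^ 2 - r ^ 2) • b + (2 * (1 - r ^ 2)) • w) -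
      (((1 - r' ^ 2) ^ 2 - r' ^ 2) • b + (2 * (1 - r' ^ 2)) • w') =
      (((1 - r ^ 2) ^ 2 - r ^ 2) - ((1 - r' ^ 2) ^ 2 - r' ^ 2)) • b +
      ((2 * (1 - r ^ 2)) • (w - w') + (2 * ((1 - r ^ 2) - (1 - r' ^ 2))) • w') := by
      module
    rw [e]
    refine (norm_add_le _ _).trans ?_
    have k1 : ‖(((1 - r ^ 2) ^ 2 - r ^ 2) - ((1 - r' ^ 2) ^ 2 - r' ^ 2)) • b‖ ≤ 6 * h := by
      rw [norm_smul, hb, mul_one, Real.norm_eq_abs]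
      exact hcoef
    have k2 : ‖(2 * (1 - r ^ 2)) • (w - w')‖ ≤ 2 * h := by
      rw [norm_smul, Real.norm_eq_abs, abs_of_nonneg (by linarith), ← hh]
      nlinarith [sq_nonneg r]
    have k3 : ‖(2 * ((1 - r ^ 2) - (1 - r' ^ 2))) • w'‖ ≤ 4 * h := by
      rw [norm_smul, Real.norm_eq_abs, abs_mul, abs_two, ← hrdef']
      have := mul_le_mul hdd h2 hr0' (by linarith : 0 ≤ 2 * h)
      nlinarith
    have k4 := norm_add_le ((2 * (1 - r ^ 2)) • (w - w')) ((2 * ((1 - r ^ 2) - (1 - r' ^ 2))) • w')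
    linarith
  set D := (1 - r ^ 2) ^ 2 + r ^ 2 with hDdef
  set D' := (1 - r' ^ 2) ^ 2 + r' ^ 2 with hDdef'
  have hinv : D⁻¹ ≤ 4 / 3 := by
    rw [inv_le_comm₀ hDp (by norm_num)]
    linarith
  have hinv0 : 0 < D⁻¹ := inv_pos.2 hDp
  have t1 : ‖D⁻¹‖ * ‖(((1 - r ^ 2) ^ 2 - r ^ 2) • b + (2 * (1 - r ^ 2)) • w) -
      (((1 - r' ^ 2) ^ 2 - r' ^ 2) • b + (2 * (1 - r' ^ 2)) • w')‖ ≤ 4 / 3 * (12 * h) := by
    rw [Real.norm_eq_abs, abs_of_pos hinv0]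
    exact mul_le_mul hinv hN (norm_nonneg _) (by norm_num)
  have t2 : ‖(D' - D) / (D * D')‖ * D' ≤ 4 / 3 * (6 * h) := by
    have e : ‖(D' - D) / (D * D')‖ * D' = D⁻¹ * |D' - D| := by
      rw [norm_div, Real.norm_eq_abs, Real.norm_eq_abs, abs_of_pos (mul_pos hDp hDp')]
      field_simp
    rw [e]
    exact mul_le_mul hinv hDD (abs_nonneg _) (by norm_num)
  linarith

theorem proj_le {w w' : E N} (h1 : ‖w‖ ≤ 1) (h2 : 1 ≤ ‖w'‖) :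
    ‖w - ‖w'‖⁻¹ • w'‖ ≤ ‖w - w'‖ := by
  have hp : 0 < ‖w'‖ := by linarith
  have hn : ‖‖w'‖⁻¹ • w'‖ = 1 := by
    rw [norm_smul, norm_inv, norm_norm, inv_mul_cancel₀ hp.ne']
  set u := ‖w'‖⁻¹ • w' with hu
  have hw' : w' = ‖w'‖ • u := by
    rw [hu, smul_smul, mul_inv_cancel₀ hp.ne', one_smul]
  have hin : ⟪w, u⟫ ≤ 1 := by
    have := real_inner_le_norm w u
    rw [hn, mul_one] at this
    linarith
  have e1 : ‖w - u‖ ^ 2 = ‖w‖ ^ 2 - 2 * ⟪w, u⟫ + 1 := by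
    rw [norm_sub_sq_real, hn]
    ring
  have e2 : ‖w - w'‖ ^ 2 = ‖w‖ ^ 2 - 2 * (‖w'‖ * ⟪w, u⟫) + ‖w'‖ ^ 2 := by
    rw [norm_sub_sq_real]
    congr 3
    conv_lhs => rw [hw']
    rw [real_inner_smul_right]
  refine le_of_sq_le_sq ?_ (norm_nonneg _)
  rw [e1, e2]
  nlinarith [mul_nonneg (sub_nonneg.2 h2) (sub_nonneg.2 hin), sq_nonneg (‖w'‖ - 1)]

theorem T_facts (s : ℝ) : 1 ≤ Real.sqrt (1 + 4 * s ^ 2) ∧
    Real.sqrt (1 + 4 * s ^ 2) ^ 2 = 1 + 4 * s ^ 2 := by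
  constructor
  · rw [Real.one_le_sqrt]
    nlinarith [sq_nonneg s]
  · exact Real.sq_sqrt (by positivity)

theorem c_pos {b y : E N} (hb : ‖b‖ = 1) (hy : ‖y‖ = 1) (hne : y ≠ -b) : 0 < 1 + ⟪y, b⟫ := by
  have h : ‖y + b‖ ^ 2 = 2 * (1 + ⟪y, b⟫) := by
    rw [norm_add_sq_real, hb, hy]
    ring
  have h2 : 0 < ‖y + b‖ ^ 2 := by
    have : y + b ≠ 0 := fun h0 => hne (eq_neg_of_add_eq_zero_left h0)
    have := norm_pos_iff.2 this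
    positivity
  linarith

end ThetaAux

open ThetaAux

theorem norm_th {b w : E N} (hb : ‖b‖ = 1) (hw : ⟪w, b⟫ = 0) : ‖th b w‖ = 1 := by
  unfold th
  rw [norm_smul, num_norm hb hw, norm_inv, Real.norm_eq_abs, abs_of_pos (D_pos w),
    inv_mul_cancel₀ (D_pos w).ne']

theorem th_out {b w : E N} (hw : 1 ≤ ‖w‖) : th b w = -b := by
  have h : max 0 (1 - ‖w‖ ^ 2) = 0 := max_eq_left (by nlinarith)
  have h2 : ‖w‖ ^ 2 ≠ 0 := by nlinarith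
  unfold th
  rw [h]
  rw [mul_zero, zero_smul, add_zero, smul_smul]
  have e : ((0 : ℝ) ^ 2 + ‖w‖ ^ 2)⁻¹ * (0 ^ 2 - ‖w‖ ^ 2) = -1 := by
    field_simp
    ring
  rw [e, neg_one_smul]

theorem th_ne {b w : E N} (hb : ‖b‖ = 1) (hw : ⟪w, b⟫ = 0) (h1 : ‖w‖ < 1) : th b w ≠ -b := by
  intro he
  have h := inner_th hb hw
  rw [he, inner_neg_left, real_inner_self_eq_norm_sq, hb] at h
  have hD := D_pos w
  have hd : 0 < max 0 (1 - ‖w‖ ^ 2) := lt_max_of_lt_right (by nlinarith [norm_nonneg w])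
  have h3 : -((max 0 (1 - ‖w‖ ^ 2)) ^ 2 + ‖w‖ ^ 2) = (max 0 (1 - ‖w‖ ^ 2)) ^ 2 - ‖w‖ ^ 2 := by
    have h4 := congrArg (fun x => ((max 0 (1 - ‖w‖ ^ 2)) ^ 2 + ‖w‖ ^ 2) * x) h
    rw [← mul_assoc, mul_inv_cancel₀ hD.ne'] at h4
    linarith
  nlinarith

theorem th_lip {b w w' : E N} (hb : ‖b‖ = 1) (hw : ⟪w, b⟫ = 0) (hw' : ⟪w', b⟫ = 0) :
    ‖th b w - th b w'‖ ≤ 100 * ‖w - w'‖ := by
  have key : ∀ w w' : E N, ⟪w, b⟫ = 0 → ⟪w', b⟫ = 0 → ‖w‖ ≤ 1 → 1 ≤ ‖w'‖ →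
      ‖th b w - th b w'‖ ≤ 100 * ‖w - w'‖ := by
    intro w w' hw hw' h1 h2
    have hp : 0 < ‖w'‖ := by linarith
    have hn : ‖‖w'‖⁻¹ • w'‖ = 1 := by
      rw [norm_smul, norm_inv, norm_norm, inv_mul_cancel₀ hp.ne']
    have hi : ⟪‖w'‖⁻¹ • w', b⟫ = 0 := by
      rw [real_inner_smul_left, hw', mul_zero]
    have e : th b w' = th b (‖w'‖⁻¹ • w') := by
      rw [th_out h2, th_out hn.ge]
    rw [e]
    have h3 := lip_in hb hw hi h1 hn.le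
    have h4 := proj_le h1 h2
    linarith
  rcases le_total ‖w‖ 1 with h1 | h1 <;> rcases le_total ‖w'‖ 1 with h2 | h2
  · exact lip_in hb hw hw' h1 h2
  · exact key w w' hw hw' h1 h2
  · have := key w' w hw' hw h2 h1
    rw [norm_sub_rev, norm_sub_rev w w']
    exact this
  · rw [th_out h1, th_out h2, sub_self, norm_zero]
    positivity

theorem ch_th {b w : E N} (hb : ‖b‖ = 1) (hw : ⟪w, b⟫ = 0) (h1 : ‖w‖ < 1) :
    ch b (th b w) = w := by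
  have hr0 := norm_nonneg w
  have hd : 0 < 1 - ‖w‖ ^ 2 := by nlinarith
  have hm : max 0 (1 - ‖w‖ ^ 2) = 1 - ‖w‖ ^ 2 := max_eq_right hd.le
  have hD := D_pos w
  have hc := inner_th hb hw
  rw [hm] at hD hc
  have hst : st b (th b w) = (1 - ‖w‖ ^ 2)⁻¹ • w := by
    unfold st
    rw [hc]
    unfold th
    rw [hm]
    set d := 1 - ‖w‖ ^ 2 with hddef
    set D := d ^ 2 + ‖w‖ ^ 2 with hDdef
    have e1 : 1 + D⁻¹ * (d ^ 2 - ‖w‖ ^ 2) = 2 * d ^ 2 / D := by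
      field_simp
      rw [hDdef]
      ring
    rw [e1, smul_add, smul_smul, smul_smul, add_sub_cancel_left, smul_smul]
    congr 1
    field_simp
  unfold ch
  rw [hst]
  have hT : Real.sqrt (1 + 4 * ‖(1 - ‖w‖ ^ 2)⁻¹ • w‖ ^ 2) = (1 + ‖w‖ ^ 2) / (1 - ‖w‖ ^ 2) := by
    rw [norm_smul, norm_inv, Real.norm_eq_abs, abs_of_pos hd]
    have : 1 + 4 * ((1 - ‖w‖ ^ 2)⁻¹ * ‖w‖) ^ 2 = ((1 + ‖w‖ ^ 2) / (1 - ‖w‖ ^ 2)) ^ 2 := by
      field_simp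
      ring
    rw [this, Real.sqrt_sq (by positivity)]
  rw [hT, smul_smul]
  have e2 : 2 / (1 + (1 + ‖w‖ ^ 2) / (1 - ‖w‖ ^ 2)) * (1 - ‖w‖ ^ 2)⁻¹ = 1 := by
    have h3 : 1 + (1 + ‖w‖ ^ 2) / (1 - ‖w‖ ^ 2) = 2 / (1 - ‖w‖ ^ 2) := by
      field_simp
      ring
    rw [h3]
    field_simp
  rw [e2, one_smul]

theorem inner_ch {b y : E N} (hb : ‖b‖ = 1) : ⟪ch b y, b⟫ = 0 := by
  unfold ch st
  rw [real_inner_smul_left, real_inner_smul_left, inner_sub_left, real_inner_smul_left,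
    real_inner_self_eq_norm_sq, hb]
  ring

theorem norm_ch_lt {b y : E N} (hb : ‖b‖ = 1) (hy : ‖y‖ = 1) (hne : y ≠ -b) : ‖ch b y‖ < 1 := by
  unfold ch
  obtain ⟨h1, h2⟩ := T_facts ‖st b y‖
  set T := Real.sqrt (1 + 4 * ‖st b y‖ ^ 2)
  rw [norm_smul, Real.norm_eq_abs, abs_of_pos (by positivity), div_mul_eq_mul_div,
    div_lt_one (by linarith)]
  nlinarith [norm_nonneg (st b y), sq_nonneg (T - 2 * ‖st b y‖)]

theorem th_ch {b y : E N} (hb : ‖b‖ = 1) (hy : ‖y‖ = 1) (hne : y ≠ -b) : th b (ch b y) = y := by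
  have hc := c_pos hb hy hne
  set c := ⟪y, b⟫ with hcdef
  have hin : ⟪st b y, b⟫ = 0 := by
    unfold st
    rw [real_inner_smul_left, inner_sub_left, real_inner_smul_left, real_inner_self_eq_norm_sq,
      hb]
    ring
  have hs : ‖st b y‖ ^ 2 = (1 - c) / (1 + c) := by
    unfold st
    rw [← hcdef, norm_smul, mul_pow, norm_sub_sq_real, real_inner_smul_right, norm_smul, hb, hy,
      ← hcdef, Real.norm_eq_abs, Real.norm_eq_abs, sq_abs, mul_one, sq_abs]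
    field_simp
    ring
  obtain ⟨h1, h2⟩ := T_facts ‖st b y‖
  have hy' : y = c • b + (1 + c) • st b y := by
    unfold st
    rw [← hcdef, smul_smul, mul_inv_cancel₀ hc.ne', one_smul]
    abel
  unfold ch
  set T := Real.sqrt (1 + 4 * ‖st b y‖ ^ 2) with hT
  set v := st b y with hv
  set d := 2 / (1 + T) with hd
  have hd0 : 0 < d := by rw [hd]; positivity
  have hdT : d * (1 + T) = 2 := by rw [hd]; field_simp
  have hn : ‖d • v‖ ^ 2 = d ^ 2 * ‖v‖ ^ 2 := by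
    rw [norm_smul, mul_pow, Real.norm_eq_abs, sq_abs]
  have hdel : 1 - ‖d • v‖ ^ 2 = d := by
    rw [hn]
    have h3 : ‖v‖ ^ 2 = (T ^ 2 - 1) / 4 := by linarith
    rw [h3, hd]
    field_simp
    ring
  unfold th
  rw [hdel, max_eq_right hd0.le, hn, hs, smul_smul]
  have e1 : d ^ 2 + d ^ 2 * ((1 - c) / (1 + c)) = 2 * d ^ 2 / (1 + c) := by
    field_simp
    ring
  have e2 : d ^ 2 - d ^ 2 * ((1 - c) / (1 + c)) = 2 * c * d ^ 2 / (1 + c) := by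
    field_simp
    ring
  rw [e1, e2, smul_add, smul_smul, smul_smul]
  have e3 : (2 * d ^ 2 / (1 + c))⁻¹ * (2 * c * d ^ 2 / (1 + c)) = c := by
    field_simp
  have e4 : (2 * d ^ 2 / (1 + c))⁻¹ * (2 * d * d) = 1 + c := by
    field_simp
  rw [e3, e4]
  exact hy'.symm

theorem continuousOn_ch {b : E N} (hb : ‖b‖ = 1) :
    ContinuousOn (ch b) {y | ‖y‖ = 1 ∧ y ≠ -b} := by
  have hst : ContinuousOn (st b) {y | ‖y‖ = 1 ∧ y ≠ -b} := by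
    have c1 : Continuous (fun y : E N => 1 + ⟪y, b⟫) := by fun_prop
    have c2 : Continuous (fun y : E N => y - ⟪y, b⟫ • b) := by fun_prop
    have c3 : ContinuousOn (fun y : E N => (1 + ⟪y, b⟫)⁻¹) {y | ‖y‖ = 1 ∧ y ≠ -b} :=
      c1.continuousOn.inv₀ (fun y hy => (c_pos hb hy.1 hy.2).ne')
    exact c3.smul c2.continuousOn
  have c4 : ContinuousOn (fun y : E N => 1 + 4 * ‖st b y‖ ^ 2) {y | ‖y‖ = 1 ∧ y ≠ -b} :=
    continuousOn_const.add (continuousOn_const.mul (hst.norm.pow 2))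
  have c5 : ContinuousOn (fun y : E N => 1 + Real.sqrt (1 + 4 * ‖st b y‖ ^ 2))
      {y | ‖y‖ = 1 ∧ y ≠ -b} :=
    continuousOn_const.add (Real.continuous_sqrt.comp_continuousOn c4)
  have c6 : ContinuousOn (fun y : E N => 2 / (1 + Real.sqrt (1 + 4 * ‖st b y‖ ^ 2)))
      {y | ‖y‖ = 1 ∧ y ≠ -b} := by
    refine ContinuousOn.div (continuousOn_const) c5 ?_
    intro y _
    have := (T_facts ‖st b y‖).1
    linarith
  exact c6.smul hst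

end NDG
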