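import Pool.Agent.Lib.NDG.Init
import Pool.Agent.Lib.NDG.Kuhn

/-!
Module Top (2.8h). The degree argument. Assembly of `exists_sweep`, `exists_cst`, `init_*` and `kuhn`.
PROOF. S, c from `exists_sweep`; ρ ε ω η from `exists_cst`. C := 2 S.C. M₀ := any natural number ≥ 1 with 2 ≤ η M₀ and 2 < (1 - g q_i (last)) M₀ for both i (`Sweep.abs_g_lt`).
Given m ≥ 1, M' ≥ M₀ put F = fam S m M'. Given K, D: the maps Φ_l u = D l (F u), l ≤ K, are continuous, hence uniformly continuous on the compact cube |u i e| ≤ 1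
(sup norm on chains), so there is ku ≥ 1 with 2 ≤ η ku and ||Φ_l u i - Φ_l u' i|| ≤ ω for all l ≤ K and u, u' in the cube with |u - u'| ≤ 2/ku.
Apply `kuhn` with the dimension m (n+1), k = kOf, per c := (finProdFinEquiv.symm c).2 ≠ last, W l p := ∀ i, ||val M' ku Φ_l p i - alt q0 q1 i|| < ρ,
h l p c := g (val Φ_l p (c.1)) (c.2) - g (alt q0 q1 c.1) (c.2), ε, θ = thOf:
- points p of the closed box: uOf p in the cube, TOf p i ≤ m M'.
- for near (s,p), (s',p'): ||val Φ_s p i - val Φ_s' p' i|| ≤ 3 ω: change the index TOf p i to TOf p' i (they differ by at most 1, `near_TOf`; step bound ω at the parameter s, uOf p), then the parameter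
  s to s' (ω), then uOf p to uOf p' (`near_uOf`, ω). hV is c3, hU is c4.
- hper: uOf p and uOf p' differ only at the coordinate (i, e) where they are -1 and 1; `fam_per`: F agrees, so Φ_l agrees, the times agree.
- hface: c = (i, last). If tOf p i = 0 and i ≥ 1 then TOf p i = TOf p (i-1) (`TOf_succ`), so val_i = val_(i-1) is within ρ of both q0 and q1: contradiction to c6. If i = 0: TOf = 0,
  ||Φ_l u 0 - q0|| < ρ contradicts the hypothesis. If tOf p i = m M': TOf p j = m M' for j ≥ i; if i + 1 < m the same contradiction for i, i+1; if i = m - 1 the hypothesis at the last point.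
- hθk: `thOf_lt`; hθ: `init_iff`; hθW: `init_cell` (Φ_0 = F).
The result: p in the closed box with W K p; u := uOf p, t i := TOf p i: monotone, and strictly since TOf p i = TOf p j with j = i+1 is impossible as before.
-/

namespace NDG

namespace TopAux

variable {n m : ℕ}

/-- Two consecutive running maxima are different. -/
theorem adj {N : ℕ} {q0 q1 : E N} {ρ : ℝ} (hρ : 0 < ρ) (h6 : 4 * ρ ≤ ‖q0 - q1‖) {M' ku : ℕ}
    {Φ : (Fin m → Fin n → ℝ) → Fin (m * M' + 1) → E N} {p : Fin (m * (n + 1)) → ℕ}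
    (hW : ∀ i : Fin m, ‖val M' ku Φ p i - alt q0 q1 i‖ < ρ) {i j : Fin m}
    (hij : (j : ℕ) = i + 1) (hT : TOf p i = TOf p j) : False := by
  have h1 : val M' ku Φ p i = val M' ku Φ p j := by
    unfold val
    congr 2
    rw [hT]
  have h2 := hW i
  have h3 := hW j
  rw [h1] at h2
  have h4 : ‖alt q0 q1 i - alt q0 q1 j‖ < 2 * ρ := by
    have h5 : alt q0 q1 i - alt q0 q1 j =
        (val M' ku Φ p j - alt q0 q1 j) - (val M' ku Φ p j - alt q0 q1 i) := by abel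
    rw [h5]
    have := norm_sub_le (val M' ku Φ p j - alt q0 q1 j) (val M' ku Φ p j - alt q0 q1 i)
    linarith
  have h5 : ‖alt q0 q1 i - alt q0 q1 j‖ = ‖q0 - q1‖ := by
    rw [hij]
    unfold alt
    by_cases he : Even (i : ℕ)
    · rw [if_pos he, if_neg (by simpa [Nat.even_add_one] using he)]
    · rw [if_neg he, if_pos (by simpa [Nat.even_add_one] using he), norm_sub_rev]
  linarith

/-- One step in the chain direction. -/
theorem step_chain {N L : ℕ} {z : Fin (L + 1) → E N} {ω : ℝ} (hω : 0 ≤ ω)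
    (h : ∀ i : Fin L, ‖z i.succ - z i.castSucc‖ ≤ ω) {x y : ℕ} (hx : x < L + 1) (hy : y < L + 1)
    (hxy : near x y) : ‖z ⟨x, hx⟩ - z ⟨y, hy⟩‖ ≤ ω := by
  rcases Nat.lt_trichotomy x y with h1 | h1 | h1
  · have h2 : y = x + 1 := by
      have := hxy.2
      omega
    subst h2
    have h3 := h ⟨x, by omega⟩
    rw [norm_sub_rev] at h3
    exact h3
  · subst h1
    simpa using hω
  · have h2 : x = y + 1 := by
      have := hxy.1
      omega
    subst h2
    exact h ⟨y, by omega⟩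

/-- One step in the direction of the deformation. -/
theorem step_def {X : Type*} {N K : ℕ} {Ψ : ℕ → X → E N} {ω : ℝ} (hω : 0 ≤ ω)
    (h : ∀ l < K, ∀ u, ‖Ψ (l + 1) u - Ψ l u‖ ≤ ω) {s s' : ℕ} (hs : s ≤ K) (hs' : s' ≤ K)
    (hn : near s s') (u : X) : ‖Ψ s u - Ψ s' u‖ ≤ ω := by
  rcases Nat.lt_trichotomy s s' with h1 | h1 | h1
  · have h2 : s' = s + 1 := by
      have := hn.2
      omega
    subst h2
    rw [norm_sub_rev]
    exact h s (by omega) u
  · subst h1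
    simpa using hω
  · have h2 : s = s' + 1 := by
      have := hn.1
      omega
    subst h2
    exact h s' (by omega) u

/-- The positions of the grid are in the unit cube. -/
theorem uOf_mem {M' ku : ℕ} (hku : 1 ≤ ku) {p : Fin (m * (n + 1)) → ℕ}
    (hp : ∀ c, p c ≤ kOf n m ku M' c) : uOf ku p ∈ Metric.closedBall (0 : Fin m → Fin n → ℝ) 1 := by
  have hk : (0 : ℝ) < ku := by exact_mod_cast hku
  rw [mem_closedBall_zero_iff, pi_norm_le_iff_of_nonneg zero_le_one]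
  intro i
  rw [pi_norm_le_iff_of_nonneg zero_le_one]
  intro e
  have h1 := hp (finProdFinEquiv (i, e.castSucc))
  rw [kOf_castSucc] at h1
  have h2 : ((p (finProdFinEquiv (i, e.castSucc)) : ℕ) : ℝ) ≤ ku := by exact_mod_cast h1
  have h3 : ((p (finProdFinEquiv (i, e.castSucc)) : ℕ) : ℝ) / ku ≤ 1 := (div_le_one hk).2 h2
  have h4 : 0 ≤ ((p (finProdFinEquiv (i, e.castSucc)) : ℕ) : ℝ) / ku := by positivity
  unfold uOf
  rw [Real.norm_eq_abs, abs_le, mul_div_assoc]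
  constructor <;> linarith

theorem TOf_le' {M' ku : ℕ} {p : Fin (m * (n + 1)) → ℕ}
    (hp : ∀ c, p c ≤ kOf n m ku M' c) (i : Fin m) : TOf p i ≤ m * M' := by
  refine TOf_le (fun j => ?_) i
  have h1 := hp (finProdFinEquiv (j, Fin.last n))
  rw [kOf_last] at h1
  exact h1

/-- The values at neighbouring positions. -/
theorem val_near {N : ℕ} {M' ku K : ℕ} (hku : 1 ≤ ku)
    {Ψ : ℕ → (Fin m → Fin n → ℝ) → Fin (m * M' + 1) → E N} {ω : ℝ} (hω : 0 ≤ ω)
    (h1 : ∀ l < K, ∀ u, ∀ j, ‖Ψ (l + 1) u j - Ψ l u j‖ ≤ ω)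
    (h2 : ∀ l ≤ K, ∀ u (i : Fin (m * M')), ‖Ψ l u i.succ - Ψ l u i.castSucc‖ ≤ ω)
    (h3 : ∀ l ≤ K, ∀ u ∈ Metric.closedBall (0 : Fin m → Fin n → ℝ) 1,
      ∀ u' ∈ Metric.closedBall (0 : Fin m → Fin n → ℝ) 1,
      dist u u' ≤ 2 / ku → ∀ j, ‖Ψ l u j - Ψ l u' j‖ ≤ ω)
    {s s' : ℕ} {p p' : Fin (m * (n + 1)) → ℕ} (hs : s ≤ K) (hs' : s' ≤ K)
    (hp : ∀ c, p c ≤ kOf n m ku M' c) (hp' : ∀ c, p' c ≤ kOf n m ku M' c) (hn : near s s')
    (hnp : ∀ c, near (p c) (p' c)) (i : Fin m) :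
    ‖val M' ku (Ψ s) p i - val M' ku (Ψ s') p' i‖ ≤ 3 * ω := by
  have hT := TOf_le' hp i
  have hT' := TOf_le' hp' i
  have hk : (0 : ℝ) < ku := by exact_mod_cast hku
  have e1 : val M' ku (Ψ s) p i = Ψ s (uOf ku p) ⟨TOf p i, by omega⟩ := by
    unfold val
    congr 2
    exact min_eq_left hT
  have e2 : val M' ku (Ψ s') p' i = Ψ s' (uOf ku p') ⟨TOf p' i, by omega⟩ := by
    unfold val
    congr 2
    exact min_eq_left hT'
  have a1 : ‖Ψ s (uOf ku p) ⟨TOf p i, by omega⟩ - Ψ s (uOf ku p) ⟨TOf p' i, by omega⟩‖ ≤ ω :=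
    step_chain hω (h2 s hs (uOf ku p)) _ _ (near_TOf hnp i)
  have a2 : ‖Ψ s (uOf ku p) ⟨TOf p' i, by omega⟩ - Ψ s' (uOf ku p) ⟨TOf p' i, by omega⟩‖ ≤ ω :=
    step_def (Ψ := fun l (u : Fin m → Fin n → ℝ) => Ψ l u ⟨TOf p' i, by omega⟩) hω
      (fun l hl u => h1 l hl u _) hs hs' hn (uOf ku p)
  have hd : dist (uOf ku p) (uOf ku p') ≤ 2 / ku := by
    have h0 : (0 : ℝ) ≤ 2 / ku := by positivity
    rw [dist_pi_le_iff h0]
    intro j
    rw [dist_pi_le_iff h0]
    intro e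
    rw [Real.dist_eq]
    exact near_uOf hku hnp j e
  have a3 : ‖Ψ s' (uOf ku p) ⟨TOf p' i, by omega⟩ - Ψ s' (uOf ku p') ⟨TOf p' i, by omega⟩‖ ≤ ω :=
    h3 s' hs' _ (uOf_mem hku hp) _ (uOf_mem hku hp') hd _
  rw [e1, e2]
  have e3 : Ψ s (uOf ku p) ⟨TOf p i, by omega⟩ - Ψ s' (uOf ku p') ⟨TOf p' i, by omega⟩ =
      (Ψ s (uOf ku p) ⟨TOf p i, by omega⟩ - Ψ s (uOf ku p) ⟨TOf p' i, by omega⟩) +
      (Ψ s (uOf ku p) ⟨TOf p' i, by omega⟩ - Ψ s' (uOf ku p) ⟨TOf p' i, by omega⟩) +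
      (Ψ s' (uOf ku p) ⟨TOf p' i, by omega⟩ - Ψ s' (uOf ku p') ⟨TOf p' i, by omega⟩) := by abel
  rw [e3]
  have := norm_add₃_le (a := Ψ s (uOf ku p) ⟨TOf p i, by omega⟩ -
      Ψ s (uOf ku p) ⟨TOf p' i, by omega⟩) (b := Ψ s (uOf ku p) ⟨TOf p' i, by omega⟩ -
      Ψ s' (uOf ku p) ⟨TOf p' i, by omega⟩) (c := Ψ s' (uOf ku p) ⟨TOf p' i, by omega⟩ -
      Ψ s' (uOf ku p') ⟨TOf p' i, by omega⟩)
  linarith

/-- Periodicity in the loop parameters. -/
theorem val_per {a : E (n + 2)} (S : Sweep n a) {M' ku : ℕ} (hku : 1 ≤ ku)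
    (D : (Fin (m * M' + 1) → E (n + 2)) → Fin (m * M' + 1) → E (n + 2))
    {p p' : Fin (m * (n + 1)) → ℕ} {c : Fin (m * (n + 1))}
    (hc : (finProdFinEquiv.symm c).2 ≠ Fin.last n) (h0 : p c = 0) (h1 : p' c = kOf n m ku M' c)
    (he : ∀ e, e ≠ c → p e = p' e) (i : Fin m) :
    val M' ku (fun u => D (fam S m M' u)) p i = val M' ku (fun u => D (fam S m M' u)) p' i := by
  have hk : (0 : ℝ) < ku := by exact_mod_cast hku
  obtain ⟨e1, he1⟩ := Fin.exists_castSucc_eq.2 hc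
  set i0 := (finProdFinEquiv.symm c).1 with hi0
  have hcc : c = finProdFinEquiv (i0, e1.castSucc) := by
    rw [he1, hi0]
    exact (Equiv.apply_symm_apply finProdFinEquiv c).symm
  have hne : ∀ x : Fin m × Fin (n + 1), x ≠ (i0, e1.castSucc) → finProdFinEquiv x ≠ c := by
    intro x hx h
    rw [hcc] at h
    exact hx (finProdFinEquiv.injective h)
  have hu : fam S m M' (uOf ku p) = fam S m M' (uOf ku p') := by
    refine fam_per S m M' _ _ i0 e1 ?_ ?_ ?_
    · unfold uOf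
      rw [← hcc, h0]
      simp
    · unfold uOf
      rw [← hcc, h1, hcc, kOf_castSucc, mul_div_assoc, div_self hk.ne']
      norm_num
    · intro j e hje
      unfold uOf
      rw [he _ (hne (j, e.castSucc) ?_)]
      intro h
      rw [Prod.mk.injEq] at h
      exact hje (Prod.ext h.1 (Fin.castSucc_injective n h.2))
  have ht : tOf p = tOf p' := by
    funext j
    unfold tOf
    refine he _ (hne (j, Fin.last n) ?_)
    intro h
    rw [Prod.mk.injEq] at h
    exact (Fin.castSucc_lt_last e1).ne h.2.symm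
  have hT : TOf p i = TOf p' i := by
    unfold TOf
    rw [ht]
  unfold val
  simp only [hu, hT]

/-- No admissible position on the lower and upper faces of the time coordinates. -/
theorem face {N : ℕ} {q0 q1 : E N} {ρ : ℝ} (hρ : 0 < ρ) (h6 : 4 * ρ ≤ ‖q0 - q1‖) {M' ku : ℕ}
    {Φ : (Fin m → Fin n → ℝ) → Fin (m * M' + 1) → E N} {p : Fin (m * (n + 1)) → ℕ}
    (hp : ∀ c, p c ≤ kOf n m ku M' c) (hb0 : ∀ u, ρ ≤ ‖Φ u 0 - q0‖)
    (hb1 : ∀ u, ρ ≤ ‖Φ u (Fin.last (m * M')) - alt q0 q1 ((m - 1 : ℕ))‖)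
    {c : Fin (m * (n + 1))} (hc : (finProdFinEquiv.symm c).2 = Fin.last n)
    (h : p c = 0 ∨ p c = kOf n m ku M' c)
    (hW : ∀ i : Fin m, ‖val M' ku Φ p i - alt q0 q1 i‖ < ρ) : False := by
  set i := (finProdFinEquiv.symm c).1 with hi
  have hcc : c = finProdFinEquiv (i, Fin.last n) := by
    rw [← hc, hi]
    exact (Equiv.apply_symm_apply finProdFinEquiv c).symm
  have ht : tOf p i = p c := by
    unfold tOf
    rw [← hcc]
  have hval : ∀ (x : ℕ) (hx : x < m * M' + 1), TOf p i = x →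
      val M' ku Φ p i = Φ (uOf ku p) ⟨x, hx⟩ := by
    intro x hx hT
    unfold val
    congr 2
    rw [hT]
    exact min_eq_left (by omega)
  rcases h with h | h
  · rcases Nat.eq_zero_or_pos (i : ℕ) with h0 | h0
    · have hT : TOf p i = 0 := by rw [TOf_zero p i h0, ht, h]
      have h1 := hW i
      rw [hval 0 (by omega) hT, h0] at h1
      have h2 := hb0 (uOf ku p)
      unfold alt at h1
      rw [if_pos (by simp)] at h1
      exact absurd h1 (not_lt.2 h2)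
    · have hi1 : (i : ℕ) - 1 < m := by omega
      refine adj hρ h6 hW (i := ⟨(i : ℕ) - 1, hi1⟩) (j := i) (by simp; omega) ?_
      rw [TOf_succ p ⟨(i : ℕ) - 1, hi1⟩ i (by simp; omega), ht, h]
      simp
  · have hT : TOf p i = m * M' := by
      refine le_antisymm (TOf_le' hp i) ?_
      have h1 := tOf_le_TOf p i
      rw [ht, h, hcc, kOf_last] at h1
      exact h1
    by_cases h0 : (i : ℕ) + 1 < m
    · refine adj hρ h6 hW (i := i) (j := ⟨(i : ℕ) + 1, h0⟩) rfl ?_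
      refine le_antisymm (TOf_mono p (by rw [Fin.le_def]; simp)) ?_
      rw [hT]
      exact TOf_le' hp _
    · have h1 := hW i
      have h2 : (i : ℕ) = m - 1 := by omega
      rw [hval (m * M') (by omega) hT, h2] at h1
      exact absurd h1 (not_lt.2 (hb1 (uOf ku p)))

end TopAux

open TopAux in
theorem top {n : ℕ} (hn : 1 ≤ n) {a q0 q1 : E (n + 2)} (ha : ‖a‖ = 1) (h0 : ‖q0‖ = 1)
    (h1 : ‖q1‖ = 1) (ha0 : q0 ≠ a) (ha1 : q1 ≠ a) (h01 : q0 ≠ q1) {ρ₀ : ℝ} (hρ₀ : 0 < ρ₀) :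
    ∃ ρ C ω : ℝ, 0 < ρ ∧ 0 < C ∧ 0 < ω ∧ ρ ≤ ρ₀ ∧ 4 * ρ ≤ ‖q0 - q1‖ ∧
      ∃ M₀ : ℕ, 1 ≤ M₀ ∧ ∀ m M' : ℕ, 1 ≤ m → M₀ ≤ M' →
        ∃ F : (Fin m → Fin n → ℝ) → Fin (m * M' + 1) → E (n + 2),
          Continuous F ∧ (∀ u i, ‖F u i‖ = 1) ∧ (∀ u, F u 0 = a) ∧
          (∀ u, F u (Fin.last (m * M')) = a) ∧
          (∀ u (i : Fin (m * M')), ‖F u i.succ - F u i.castSucc‖ ≤ C / M') ∧
          ∀ (K : ℕ) (D : ℕ → (Fin (m * M' + 1) → E (n + 2)) → Fin (m * M' + 1) → E (n + 2)),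
            (∀ u, D 0 (F u) = F u) → (∀ l ≤ K, Continuous fun u => D l (F u)) →
            (∀ l ≤ K, ∀ u i, ‖D l (F u) i‖ = 1) →
            (∀ l < K, ∀ u i, ‖D (l + 1) (F u) i - D l (F u) i‖ ≤ ω) →
            (∀ l ≤ K, ∀ u (i : Fin (m * M')), ‖D l (F u) i.succ - D l (F u) i.castSucc‖ ≤ ω) →
            (∀ l ≤ K, ∀ u, ρ ≤ ‖D l (F u) 0 - q0‖) →
            (∀ l ≤ K, ∀ u, ρ ≤ ‖D l (F u) (Fin.last (m * M')) - alt q0 q1 (m - 1)‖) →
            ∃ (u : Fin m → Fin n → ℝ) (t : Fin m → Fin (m * M' + 1)), StrictMono t ∧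
              ∀ i : Fin m, ‖D K (F u) (t i) - alt q0 q1 i‖ < ρ := by
  classical
  obtain ⟨S, c₀, hc₀⟩ := exists_sweep hn ha h0 h1 ha0 ha1 h01
  obtain ⟨ρ, ε, ω, η, hρ, hC⟩ := exists_cst S h0 h1 ha0 ha1 ⟨c₀, hc₀⟩ hρ₀
  have hd0 : 0 < 1 - S.g q0 (Fin.last n) := by
    have := (abs_lt.1 (S.abs_g_lt h0 ha0 (Fin.last n))).2
    linarith
  have hd1 : 0 < 1 - S.g q1 (Fin.last n) := by
    have := (abs_lt.1 (S.abs_g_lt h1 ha1 (Fin.last n))).2
    linarith
  have hη := hC.η_pos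
  have hω := hC.ω_pos
  refine ⟨ρ, 2 * S.C, ω, hC.ρ_pos, by linarith [S.C_pos], hω, hρ, hC.c6, ?_⟩
  obtain ⟨M₀, hM₀⟩ := exists_nat_ge (1 + 2 / η + 2 / (1 - S.g q0 (Fin.last n)) +
    2 / (1 - S.g q1 (Fin.last n)))
  have p1 : 0 < 2 / η := by positivity
  have p2 : 0 < 2 / (1 - S.g q0 (Fin.last n)) := by positivity
  have p3 : 0 < 2 / (1 - S.g q1 (Fin.last n)) := by positivity
  refine ⟨M₀, ?_, fun m M' hm hM' => ?_⟩
  · have : (1 : ℝ) ≤ M₀ := by linarith
    exact_mod_cast this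
  have hMM : (M₀ : ℝ) ≤ M' := by exact_mod_cast hM'
  have hM1 : 1 ≤ M' := by
    have : (1 : ℝ) ≤ M' := by linarith
    exact_mod_cast this
  have hMη : 2 ≤ η * M' := by
    have : 2 / η ≤ M' := by linarith
    rw [div_le_iff₀ hη] at this
    linarith
  have hz0 : 2 < (1 - S.g q0 (Fin.last n)) * M' := by
    have : 2 / (1 - S.g q0 (Fin.last n)) < M' := by linarith
    rw [div_lt_iff₀ hd0] at this
    linarith
  have hz1 : 2 < (1 - S.g q1 (Fin.last n)) * M' := by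
    have : 2 / (1 - S.g q1 (Fin.last n)) < M' := by linarith
    rw [div_lt_iff₀ hd1] at this
    linarith
  refine ⟨fun u => fam S m M' u, fam_cont S m M', fam_unit S m M', fam_zero S m M',
    fam_last S m M' hM1, fam_step S m M' hM1, ?_⟩
  intro K D hD0 hDc hDu hDs hDt hb0 hb1
  -- the mesh of the loop parameters
  have hΨ : Continuous (fun (u : Fin m → Fin n → ℝ) (l : Fin (K + 1)) => D l (fam S m M' u)) :=
    continuous_pi fun l => hDc l (by omega)
  have huc := (isCompact_closedBall (0 : Fin m → Fin n → ℝ) 1).uniformContinuousOn_of_continuous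
    hΨ.continuousOn
  obtain ⟨δ, hδ, hδ'⟩ := Metric.uniformContinuousOn_iff.1 huc ω hω
  obtain ⟨ku, hku⟩ := exists_nat_ge (1 + 2 / η + 2 / δ)
  have p4 : 0 < 2 / δ := by positivity
  have hk1 : 1 ≤ ku := by
    have : (1 : ℝ) ≤ ku := by linarith
    exact_mod_cast this
  have hk0 : (0 : ℝ) < ku := by exact_mod_cast hk1
  have hkη : 2 ≤ η * ku := by
    have : 2 / η ≤ ku := by linarith
    rw [div_le_iff₀ hη] at this
    linarith
  have hkδ : 2 / (ku : ℝ) < δ := by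
    have : 2 / δ < ku := by linarith
    rw [div_lt_iff₀ hδ] at this
    rw [div_lt_iff₀ hk0]
    linarith
  have h3 : ∀ l ≤ K, ∀ u ∈ Metric.closedBall (0 : Fin m → Fin n → ℝ) 1,
      ∀ u' ∈ Metric.closedBall (0 : Fin m → Fin n → ℝ) 1,
      dist u u' ≤ 2 / ku → ∀ j, ‖D l (fam S m M' u) j - D l (fam S m M' u') j‖ ≤ ω := by
    intro l hl u hu u' hu' hd j
    have e1 := hδ' u hu u' hu' (hd.trans_lt hkδ)
    have e2 := dist_le_pi_dist (fun l : Fin (K + 1) => D l (fam S m M' u))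
      (fun l : Fin (K + 1) => D l (fam S m M' u')) ⟨l, by omega⟩
    have e3 := dist_le_pi_dist (D l (fam S m M' u)) (D l (fam S m M' u')) j
    rw [dist_eq_norm] at e3
    exact e3.trans (e2.trans e1.le)
  have hnear : ∀ s s' (p p' : Fin (m * (n + 1)) → ℕ), s ≤ K → s' ≤ K →
      (∀ c, p c ≤ kOf n m ku M' c) → (∀ c, p' c ≤ kOf n m ku M' c) → near s s' →
      (∀ c, near (p c) (p' c)) → ∀ i : Fin m,
      ‖val M' ku (fun u => D s (fam S m M' u)) p i -
        val M' ku (fun u => D s' (fam S m M' u)) p' i‖ ≤ 3 * ω := by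
    intro s s' p p' hs hs' hp hp' hn' hnp i
    exact val_near (Ψ := fun l u => D l (fam S m M' u)) hk1 hω.le
      (fun l hl u j => hDs l hl u j) (fun l hl u i => hDt l hl u i) h3 hs hs' hp hp' hn' hnp i
  have hunit : ∀ s ≤ K, ∀ (p : Fin (m * (n + 1)) → ℕ) (i : Fin m),
      ‖val M' ku (fun u => D s (fam S m M' u)) p i‖ = 1 := fun s hs p i => hDu s hs _ _
  have hΨ0 : (fun u => D 0 (fam S m M' u)) = fam S m M' := funext hD0
  obtain ⟨p, hp, hW⟩ := kuhn (n := m * (n + 1)) (K := K) (kOf n m ku M')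
    (fun c => (finProdFinEquiv.symm c).2 ≠ Fin.last n)
    (fun s p => ∀ i : Fin m,
      ‖val M' ku (fun u => D s (fam S m M' u)) p i - alt q0 q1 i‖ < ρ)
    (fun s p c => S.g (val M' ku (fun u => D s (fam S m M' u)) p (finProdFinEquiv.symm c).1)
        (finProdFinEquiv.symm c).2 -
      S.g (alt q0 q1 ((finProdFinEquiv.symm c).1 : ℕ)) (finProdFinEquiv.symm c).2) ε
    (fun s s' p p' hs hs' hp hp' hn' hnp hW hW' c => by
      have e1 := hC.c3 _ _ _ (hunit s hs p (finProdFinEquiv.symm c).1)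
        (hunit s' hs' p' (finProdFinEquiv.symm c).1) (hW _) (hW' _)
        (hnear s s' p p' hs hs' hp hp' hn' hnp _) (finProdFinEquiv.symm c).2
      rw [sub_sub_sub_cancel_right]
      exact e1)
    (fun s s' p p' hs hs' hp hp' hn' hnp hW hh i => by
      refine hC.c4 _ _ _ (hunit s hs p i) (hunit s' hs' p' i) (hW i) (fun e => ?_)
        (hnear s s' p p' hs hs' hp hp' hn' hnp i)
      have e1 := hh (finProdFinEquiv (i, e))
      rw [Equiv.symm_apply_apply] at e1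
      exact e1)
    (fun s p p' c hs hp hp' hc e0 e1 he => by
      have e2 : ∀ i, val M' ku (fun u => D s (fam S m M' u)) p i =
          val M' ku (fun u => D s (fam S m M' u)) p' i := val_per S hk1 (D s) hc e0 e1 he
      refine ⟨?_, ?_⟩
      · exact forall_congr' fun i => by rw [e2 i]
      · funext c'
        rw [e2])
    (fun s p c hs hp hc e0 hW => by
      refine face hC.ρ_pos hC.c6 (Φ := fun u => D s (fam S m M' u)) hp (fun u => hb0 s hs u)
        (fun u => hb1 s hs u) (not_not.1 hc) e0 hW)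
    (thOf S q0 q1 m ku M') (fun c => thOf_lt hC h0 h1 hk1 hM1 c)
    (fun p hp hW c => by
      rw [hΨ0] at hW ⊢
      exact init_iff hC h0 h1 hk1 hM1 p hp hW c)
    (fun p hp i => by
      rw [hΨ0]
      exact init_cell hC h0 h1 hkη hMη hz0 hz1 p hp i)
  have hTle := TOf_le' (M' := M') hp
  refine ⟨uOf ku p, fun i => ⟨TOf p i, by have := hTle i; omega⟩, ?_, ?_⟩
  · intro i j hij
    rw [Fin.lt_def]
    change TOf p i < TOf p j
    refine lt_of_le_of_ne (TOf_mono p hij.le) fun he => ?_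
    have hij' : (i : ℕ) < j := hij
    have hi1 : (i : ℕ) + 1 < m := by
      have := j.isLt
      omega
    refine adj hC.ρ_pos hC.c6 hW (i := i) (j := ⟨(i : ℕ) + 1, hi1⟩) rfl ?_
    refine le_antisymm (TOf_mono p (by rw [Fin.le_def]; simp)) ?_
    rw [he]
    exact TOf_mono p (by rw [Fin.le_def]; change (i : ℕ) + 1 ≤ j; omega)
  · intro i
    have e1 : val M' ku (fun u => D K (fam S m M' u)) p i =
        D K (fam S m M' (uOf ku p)) ⟨TOf p i, by have := hTle i; omega⟩ := by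
      unfold val
      congr 2
      exact min_eq_left (hTle i)
    rw [← e1]
    exact hW i

end NDG
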